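import Pool.Agent.Forc.Card

/-!
# Finite sets, infinite sets and the square of an infinite ordinal inside a model of ZFC
-/

universe u

set_option linter.unusedSectionVars false

namespace Pool.Agent.Forc

open Pool.Agent.SigB

variable {M : Type u} [Membership M M] [IsZFC M]

/-- The pigeonhole principle. -/
theorem not_le_fin {n : M} (hn : n ∈ (om : M)) : ¬ Le (sc n) n := by
  refine om_ind (P := fun n => ¬ Le (sc n) n) (by simp (maxDischargeDepth := 50)) ?_ ?_ n hn
  · rintro ⟨f, hf, -⟩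
    exact not_mem_em _ ((mem_fs.1 hf).2 em (mem_sc_self em))
  · rintro n - ih ⟨f, hf, hi⟩
    refine ih ?_
    classical
    have hv := (mem_fs.1 hf).2
    refine Le.mk (F := fun x => if ap f x = n then ap f (sc n) else ap f x) ?_ ?_ ?_
    · refine DT.ite (P := fun w : Fin 1 → M => ap f (w 0) = n) ?_ ?_ ?_ <;>
        simp (maxDischargeDepth := 50)
    · intro x hx
      have h1 := hv x (mem_sc.2 (Or.inl hx))
      have h2 := hv (sc n) (mem_sc_self _)
      by_cases h : ap f x = n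
      · simp only [if_pos h]
        rcases mem_sc.1 h2 with h3 | h3
        · exact h3
        · have := hi x (sc n) (mem_sc.2 (Or.inl hx)) (mem_sc_self _) (h.trans h3.symm)
          rw [this] at hx
          exact absurd hx (not_mem_self _)
      · simp only [if_neg h]
        exact (mem_sc.1 h1).resolve_right h
    · intro x y hx hy he
      have hx' : x ∈ sc (sc n) := mem_sc.2 (Or.inl hx)
      have hy' : y ∈ sc (sc n) := mem_sc.2 (Or.inl hy)
      by_cases h : ap f x = n <;> by_cases h' : ap f y = n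
      · exact hi x y hx' hy' (h.trans h'.symm)
      · simp only [if_pos h, if_neg h'] at he
        have := hi _ _ (mem_sc_self _) hy' he
        rw [← this] at hy
        exact absurd hy (not_mem_self _)
      · simp only [if_neg h, if_pos h'] at he
        have := hi _ _ hx' (mem_sc_self _) he
        rw [this] at hx
        exact absurd hx (not_mem_self _)
      · simp only [if_neg h, if_neg h'] at he
        exact hi x y hx' hy' he

theorem not_le_om {n : M} (hn : n ∈ (om : M)) : ¬ Le om n := fun h =>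
  not_le_fin hn (h.mono_left (om_ord.sb (sc_mem_om hn)))

/-- Adding one element. -/
theorem Le.insert {C j : M} (h : Le C j) (x : M) : Le (un C (pr x x)) (sc j) := by
  classical
  obtain ⟨g, hg, hi⟩ := h
  have hv := (mem_fs.1 hg).2
  refine Le.mk (F := fun z => if z ∈ C then ap g z else j) ?_ ?_ ?_
  · refine DT.ite (P := fun w : Fin 1 → M => w 0 ∈ C) ?_ ?_ ?_ <;>
      simp (maxDischargeDepth := 50)
  · intro z _
    by_cases h : z ∈ C
    · simp only [if_pos h]
      exact mem_sc.2 (Or.inl (hv z h))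
    · simp only [if_neg h]
      exact mem_sc_self _
  · intro z w hz hw he
    have hz' : z ∉ C → z = x := fun h => by
      rcases mem_un.1 hz with h' | h'
      · exact absurd h' h
      · simpa using h'
    have hw' : w ∉ C → w = x := fun h => by
      rcases mem_un.1 hw with h' | h'
      · exact absurd h' h
      · simpa using h'
    by_cases h : z ∈ C <;> by_cases h' : w ∈ C
    · simp only [if_pos h, if_pos h'] at he
      exact hi z w h h' he
    · simp only [if_pos h, if_neg h'] at he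
      exact absurd (he ▸ hv z h) (not_mem_self _)
    · simp only [if_neg h, if_pos h'] at he
      exact absurd (he ▸ hv w h') (not_mem_self _)
    · rw [hz' h, hw' h']

theorem le_of_empty {A B : M} (h : ∀ x, x ∉ A) : Le A B :=
  Le.of_sb fun x hx => absurd hx (h x)

/-- The union of two finite sets. -/
theorem fin_un {A B k l : M} (hk : k ∈ (om : M)) (hl : l ∈ (om : M)) (hA : Le A k) (hB : Le B l) :
    ∃ j, j ∈ (om : M) ∧ Le (un A B) j := by
  refine om_ind (P := fun l => ∀ B, Le B l → ∃ j, j ∈ (om : M) ∧ Le (un A B) j)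
    (by simp (maxDischargeDepth := 50)) ?_ ?_ l hl B hB
  · rintro B ⟨f, hf, -⟩
    refine ⟨k, hk, hA.mono_left fun x hx => ?_⟩
    rcases mem_un.1 hx with h | h
    · exact h
    · exact absurd ((mem_fs.1 hf).2 x h) (not_mem_em _)
  · rintro l hl ih B ⟨f, hf, hi⟩
    have hv := (mem_fs.1 hf).2
    by_cases h : ∃ b, b ∈ B ∧ ap f b = l
    · obtain ⟨b, hb, hbl⟩ := h
      obtain ⟨j, hj, hle⟩ := ih (df B (pr b b)) (Le.mk (F := fun x => ap f x)
        (by simp (maxDischargeDepth := 50)) (by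
          intro x hx
          obtain ⟨h1, h2⟩ := mem_df.1 hx
          rcases mem_sc.1 (hv x h1) with h3 | h3
          · exact h3
          · exact absurd (by simpa using hi x b h1 hb (h3.trans hbl.symm)) h2)
        (fun x y hx hy he => hi x y (mem_df.1 hx).1 (mem_df.1 hy).1 he))
      refine ⟨sc j, sc_mem_om hj, (hle.insert b).mono_left fun x hx => ?_⟩
      by_cases hxb : x = b
      · exact mem_un.2 (Or.inr (by simp [hxb]))
      · rcases mem_un.1 hx with h | h
        · exact mem_un.2 (Or.inl (mem_un.2 (Or.inl h)))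
        · exact mem_un.2 (Or.inl (mem_un.2 (Or.inr (mem_df.2 ⟨h, by simpa using hxb⟩))))
    · refine ih B ⟨f, mem_fs.2 ⟨(mem_fs.1 hf).1, fun x hx => ?_⟩, hi⟩
      rcases mem_sc.1 (hv x hx) with h3 | h3
      · exact h3
      · exact absurd ⟨x, hx, h3⟩ h

/-- The product of two finite sets. -/
theorem fin_pd {m n : M} (hm : m ∈ (om : M)) (hn : n ∈ (om : M)) :
    ∃ k, k ∈ (om : M) ∧ Le (pd m n) k := by
  refine om_ind (P := fun n => ∃ k, k ∈ (om : M) ∧ Le (pd m n) k)
    (by simp (maxDischargeDepth := 50)) ?_ ?_ n hn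
  · refine ⟨em, em_mem_om, le_of_empty fun z hz => ?_⟩
    obtain ⟨x, -, y, hy, -⟩ := mem_pd.1 hz
    exact not_mem_em _ hy
  · rintro n hn ⟨k, hk, hle⟩
    have h1 : Le (pd m (pr n n)) m := by
      refine Le.mk (F := fun z => fst z) (by simp) ?_ ?_
      · intro z hz
        obtain ⟨x, hx, y, hy, rfl⟩ := mem_pd.1 hz
        simpa using hx
      · intro z w hz hw he
        obtain ⟨x, hx, y, hy, rfl⟩ := mem_pd.1 hz
        obtain ⟨x', hx', y', hy', rfl⟩ := mem_pd.1 hw
        simp only [fst_op, mem_pr, or_self] at he hy hy'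
        rw [he, hy, hy']
    obtain ⟨j, hj, hj'⟩ := fin_un hk hm hle h1
    refine ⟨j, hj, hj'.mono_left fun z hz => ?_⟩
    obtain ⟨x, hx, y, hy, rfl⟩ := mem_pd.1 hz
    rcases mem_sc.1 hy with h | rfl
    · exact mem_un.2 (Or.inl (op_mem_pd.2 ⟨hx, h⟩))
    · exact mem_un.2 (Or.inr (op_mem_pd.2 ⟨hx, by simp⟩))

/-- An infinite ordinal and its successor. -/
theorem le_sc {m : M} (h : Sb om m) : Le (sc m) m := by
  classical
  have hmm : m ∉ (om : M) := fun h' => not_mem_self _ (h m h')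
  refine Le.mk (F := fun x => if x = m then em else if x ∈ (om : M) then sc x else x) ?_ ?_ ?_
  · refine DT.ite (P := fun w : Fin 1 → M => w 0 = m) (by simp) (by simp) ?_
    refine DT.ite (P := fun w : Fin 1 → M => w 0 ∈ (om : M)) ?_ ?_ ?_ <;>
      simp (maxDischargeDepth := 50)
  · intro x hx
    by_cases h1 : x = m
    · simp only [if_pos h1]
      exact h _ em_mem_om
    · by_cases h2 : x ∈ (om : M)
      · simp only [if_neg h1, if_pos h2]
        exact h _ (sc_mem_om h2)
      · simp only [if_neg h1, if_neg h2]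
        exact (mem_sc.1 hx).resolve_right h1
  · intro x y hx hy he
    by_cases h1 : x = m <;> by_cases h1' : y = m
    · rw [h1, h1']
    · by_cases h2' : y ∈ (om : M)
      · simp only [if_pos h1, if_neg h1', if_pos h2'] at he
        exact absurd he.symm (sc_ne_em _)
      · simp only [if_pos h1, if_neg h1', if_neg h2'] at he
        exact absurd (he ▸ em_mem_om) h2'
    · by_cases h2 : x ∈ (om : M)
      · simp only [if_neg h1, if_pos h2, if_pos h1'] at he
        exact absurd he (sc_ne_em _)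
      · simp only [if_neg h1, if_neg h2, if_pos h1'] at he
        exact absurd (he ▸ em_mem_om) h2
    · by_cases h2 : x ∈ (om : M) <;> by_cases h2' : y ∈ (om : M)
      · simp only [if_neg h1, if_neg h1', if_pos h2, if_pos h2'] at he
        exact sc_inj he
      · simp only [if_neg h1, if_neg h1', if_pos h2, if_neg h2'] at he
        exact absurd (he ▸ sc_mem_om h2) h2'
      · simp only [if_neg h1, if_neg h1', if_neg h2, if_pos h2'] at he
        exact absurd (he ▸ sc_mem_om h2') h2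
      · simpa only [if_neg h1, if_neg h1', if_neg h2, if_neg h2'] using he

/-- A well-ordered set compared with an ordinal: either it injects into the ordinal, or the ordinal
injects into a proper initial segment. -/
theorem wo_compare {X r a : M} (ha : Ord a) (hwf : Wf X r)
    (htr : ∀ x y z, x ∈ X → y ∈ X → z ∈ X → op x y ∈ r → op y z ∈ r → op x z ∈ r)
    (hlin : ∀ x y, x ∈ X → y ∈ X → x = y ∨ op x y ∈ r ∨ op y x ∈ r) :
    Le X a ∨ ∃ z, z ∈ X ∧ Le a (prd X r z) := by
  obtain ⟨c, hc, hcm⟩ := exists_collapse hwf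
  have hord : ∀ x, x ∈ X → Ord (ap c x) := by
    refine hwf.ind (P := fun x => Ord (ap c x)) (by simp (maxDischargeDepth := 50)) ?_
    intro x hx ih
    refine ord_mk (fun y hy z hz => ?_) fun y hy => ?_
    · obtain ⟨y', hy', hyx, rfl⟩ := (hcm x hx _).1 hy
      obtain ⟨z', hz', hzy, rfl⟩ := (hcm y' hy' _).1 hz
      exact (hcm x hx _).2 ⟨z', hz', htr _ _ _ hz' hy' hx hzy hyx, rfl⟩
    · obtain ⟨y', hy', hyx, rfl⟩ := (hcm x hx _).1 hy
      exact ih y' hy' hyx
  have hinj : ∀ x y, x ∈ X → y ∈ X → ap c x = ap c y → x = y := by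
    intro x y hx hy he
    rcases hlin x y hx hy with h | h | h
    · exact h
    · have := (hcm y hy (ap c x)).2 ⟨x, hx, h, rfl⟩
      rw [he] at this
      exact absurd this (not_mem_self _)
    · have := (hcm x hx (ap c y)).2 ⟨y, hy, h, rfl⟩
      rw [he] at this
      exact absurd this (not_mem_self _)
  by_cases h : ∀ x, x ∈ X → ap c x ∈ a
  · exact Or.inl (Le.mk (F := fun x => ap c x) (by simp (maxDischargeDepth := 50)) h hinj)
  · push Not at h
    obtain ⟨z, hz, hza⟩ := h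
    refine Or.inr ⟨z, hz, ?_⟩
    have hsub : Sb a (ap c z) := ((hord z hz).not_mem_iff ha).1 hza
    obtain ⟨f, hf, hf'⟩ := choice' (a := a) (b := prd X r z) (P := fun i y => ap c y = i)
      (by simp (maxDischargeDepth := 50)) (by
        intro i hi
        obtain ⟨y, hy, hyz, rfl⟩ := (hcm z hz i).1 (hsub i hi)
        exact ⟨y, mem_prd.2 ⟨hy, hyz⟩, rfl⟩)
    refine ⟨f, hf, fun i j hi hj he => ?_⟩
    rw [← hf' i hi, ← hf' j hj, he]

/-- The comparison of pairs of ordinals in the canonical ordering. -/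
def GLt (x y x' y' : M) : Prop :=
  un x y ∈ un x' y' ∨ (un x y = un x' y' ∧ (x ∈ x' ∨ (x = x' ∧ y ∈ y')))

theorem GLt.dfn : Dfn (fun w : Fin 4 → M => GLt (w 0) (w 1) (w 2) (w 3)) := by
  unfold GLt; simp (maxDischargeDepth := 50)

@[simp] theorem dfn_GLt {n : ℕ} {s t r q : (Fin n → M) → M} (hs : DT s) (ht : DT t) (hr : DT r)
    (hq : DT q) : Dfn (fun v => GLt (s v) (t v) (r v) (q v)) := dfn4 GLt.dfn hs ht hr hq

/-- The canonical ordering of the pairs of elements of `a`. -/
noncomputable def gr (a : M) : M := sp (pd (pd a a) (pd a a)) fun z =>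
  ∃ x y x' y', z = op (op x y) (op x' y') ∧ GLt x y x' y'

theorem mem_gr {a x y x' y' : M} : op (op x y) (op x' y') ∈ gr a ↔
    ((x ∈ a ∧ y ∈ a) ∧ x' ∈ a ∧ y' ∈ a) ∧ GLt x y x' y' := by
  unfold gr
  rw [mem_sp (by simp (maxDischargeDepth := 50)), op_mem_pd, op_mem_pd, op_mem_pd]
  refine and_congr_right fun _ => ?_
  constructor
  · rintro ⟨x1, y1, x2, y2, h, h'⟩
    obtain ⟨h1, h2⟩ := op_inj.1 h
    obtain ⟨rfl, rfl⟩ := op_inj.1 h1
    obtain ⟨rfl, rfl⟩ := op_inj.1 h2
    exact h'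
  · intro h
    exact ⟨x, y, x', y', rfl, h⟩

theorem wf_gr {a : M} (ha : Ord a) : Wf (pd a a) (gr a) := by
  rintro S hS ⟨s, hs⟩
  obtain ⟨x0, hx0, y0, hy0, rfl⟩ := mem_pd.1 (hS s hs)
  -- the least maximum
  obtain ⟨m, -, ⟨x1, y1, h1, rfl⟩, hm⟩ := Ord.exists_least
    (P := fun m => ∃ x y, op x y ∈ S ∧ m = un x y) (by simp (maxDischargeDepth := 50))
    (ord_un (ha.mem hx0) (ha.mem hy0)) ⟨x0, y0, hs, rfl⟩
  -- the least first coordinate
  obtain ⟨x, hx, ⟨y2, h2, h2'⟩, hxm⟩ := Ord.exists_least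
    (P := fun x => ∃ y, op x y ∈ S ∧ un x y = un x1 y1) (by simp (maxDischargeDepth := 50))
    (ha.mem (op_mem_pd.1 (hS _ h1)).1) ⟨y1, h1, rfl⟩
  -- the least second coordinate
  obtain ⟨y, hy, ⟨h3, h3'⟩, hym⟩ := Ord.exists_least
    (P := fun y => op x y ∈ S ∧ un x y = un x1 y1) (by simp (maxDischargeDepth := 50))
    (ha.mem (op_mem_pd.1 (hS _ h2)).2) ⟨h2, h2'⟩
  refine ⟨op x y, h3, fun z hz hzr => ?_⟩
  obtain ⟨x', hx', y', hy', rfl⟩ := mem_pd.1 (hS z hz)
  obtain ⟨-, h | ⟨he, h | ⟨rfl, h⟩⟩⟩ := mem_gr.1 hzr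
  · rw [h3'] at h
    exact hm _ h ⟨x', y', hz, rfl⟩
  · exact hxm _ h ⟨y', hz, he.trans h3'⟩
  · exact hym _ h ⟨hz, he.trans h3'⟩

theorem gr_trans {a : M} (ha : Ord a) : ∀ x y z, x ∈ pd a a → y ∈ pd a a → z ∈ pd a a →
    op x y ∈ gr a → op y z ∈ gr a → op x z ∈ gr a := by
  intro x y z hx hy hz h h'
  obtain ⟨x1, hx1, x2, hx2, rfl⟩ := mem_pd.1 hx
  obtain ⟨y1, hy1, y2, hy2, rfl⟩ := mem_pd.1 hy
  obtain ⟨z1, hz1, z2, hz2, rfl⟩ := mem_pd.1 hz
  obtain ⟨-, h1⟩ := mem_gr.1 h
  obtain ⟨-, h2⟩ := mem_gr.1 h'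
  clear h h'
  refine mem_gr.2 ⟨⟨⟨hx1, hx2⟩, hz1, hz2⟩, ?_⟩
  have hO : ∀ {u}, u ∈ a → Ord u := fun hu => ha.mem hu
  have hOz : Ord (un z1 z2) := ord_un (hO hz1) (hO hz2)
  rcases h1 with h | ⟨he, h⟩ <;> rcases h2 with h' | ⟨he', h'⟩
  · exact Or.inl (hOz.trans h h')
  · exact Or.inl (he' ▸ h)
  · exact Or.inl (he ▸ h')
  · refine Or.inr ⟨he.trans he', ?_⟩
    rcases h with h | ⟨h3, h⟩ <;> rcases h' with h' | ⟨h4, h'⟩
    · exact Or.inl ((hO hz1).trans h h')
    · exact Or.inl (h4 ▸ h)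
    · exact Or.inl (h3 ▸ h')
    · exact Or.inr ⟨h3.trans h4, (hO hz2).trans h h'⟩

theorem gr_lin {a : M} (ha : Ord a) : ∀ x y, x ∈ pd a a → y ∈ pd a a →
    x = y ∨ op x y ∈ gr a ∨ op y x ∈ gr a := by
  intro x y hx hy
  obtain ⟨x1, hx1, x2, hx2, rfl⟩ := mem_pd.1 hx
  obtain ⟨y1, hy1, y2, hy2, rfl⟩ := mem_pd.1 hy
  have hO : ∀ {u}, u ∈ a → Ord u := fun hu => ha.mem hu
  rw [mem_gr, mem_gr]
  rcases (ord_un (hO hx1) (hO hx2)).tri (ord_un (hO hy1) (hO hy2)) with h | h | h
  · exact Or.inr (Or.inl ⟨⟨⟨hx1, hx2⟩, hy1, hy2⟩, Or.inl h⟩)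
  · rcases (hO hx1).tri (hO hy1) with h1 | rfl | h1
    · exact Or.inr (Or.inl ⟨⟨⟨hx1, hx2⟩, hy1, hy2⟩, Or.inr ⟨h, Or.inl h1⟩⟩)
    · rcases (hO hx2).tri (hO hy2) with h2 | rfl | h2
      · exact Or.inr (Or.inl ⟨⟨⟨hx1, hx2⟩, hy1, hy2⟩, Or.inr ⟨h, Or.inr ⟨rfl, h2⟩⟩⟩)
      · exact Or.inl rfl
      · exact Or.inr (Or.inr ⟨⟨⟨hy1, hy2⟩, hx1, hx2⟩, Or.inr ⟨h.symm, Or.inr ⟨rfl, h2⟩⟩⟩)
    · exact Or.inr (Or.inr ⟨⟨⟨hy1, hy2⟩, hx1, hx2⟩, Or.inr ⟨h.symm, Or.inl h1⟩⟩)
  · exact Or.inr (Or.inr ⟨⟨⟨hy1, hy2⟩, hx1, hx2⟩, Or.inl h⟩)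

/-- The square of an infinite ordinal. -/
theorem hess {a : M} (ha : Ord a) (h : Sb om a) : Le (pd a a) a := by
  refine Ord.indAll (P := fun a => Sb om a → Le (pd a a) a) (by simp (maxDischargeDepth := 50))
    ?_ ha h
  clear ha h a
  intro a ha ih h
  by_cases hcard : ∃ b, b ∈ a ∧ Le a b
  · obtain ⟨b, hb, hle⟩ := hcard
    have hbo := ha.mem hb
    have hbinf : Sb om b := by
      by_contra hn
      rcases hbo.tri om_ord with h1 | h1 | h1
      · exact not_le_om h1 (hle.mono_left h)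
      · exact hn (h1 ▸ Sb.refl _)
      · exact hn (hbo.sb h1)
    exact ((hle.pd hle).trans (ih b hb hbinf)).mono_right (ha.sb hb)
  · push Not at hcard
    rcases wo_compare ha (wf_gr ha) (gr_trans ha) (gr_lin ha) with h1 | ⟨z, hz, h1⟩
    · exact h1
    · exfalso
      obtain ⟨x, hx, y, hy, rfl⟩ := mem_pd.1 hz
      have hxo := ha.mem hx
      have hyo := ha.mem hy
      have hmo : Ord (un x y) := ord_un hxo hyo
      have hma : un x y ∈ a := by
        rcases hxo.sb_total hyo with h2 | h2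
        · have : un x y = y := ext' fun w => by
            rw [mem_un]; exact ⟨fun h => h.elim (h2 w) id, Or.inr⟩
          rw [this]; exact hy
        · have : un x y = x := ext' fun w => by
            rw [mem_un]; exact ⟨fun h => h.elim id (h2 w), Or.inl⟩
          rw [this]; exact hx
      -- the predecessors are pairs below the successor of the maximum
      have hsub : Sb (prd (pd a a) (gr a) (op x y)) (pd (sc (un x y)) (sc (un x y))) := by
        intro w hw
        obtain ⟨hw1, hw2⟩ := mem_prd.1 hw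
        obtain ⟨x', hx', y', hy', rfl⟩ := mem_pd.1 hw1
        have hx'o := ha.mem hx'
        have hy'o := ha.mem hy'
        have hle : Sb (un x' y') (un x y) := by
          obtain ⟨-, h2 | ⟨h2, -⟩⟩ := mem_gr.1 hw2
          · exact hmo.sb h2
          · rw [h2]; exact Sb.refl _
        refine op_mem_pd.2 ⟨(hx'o.mem_sc_iff hmo).2 fun u hu => ?_,
          (hy'o.mem_sc_iff hmo).2 fun u hu => ?_⟩
        · exact hle u (mem_un.2 (Or.inl hu))
        · exact hle u (mem_un.2 (Or.inr hu))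
      have h2 := h1.mono_right hsub
      by_cases hfin : un x y ∈ (om : M)
      · obtain ⟨k, hk, hk'⟩ := fin_pd (sc_mem_om hfin) (sc_mem_om hfin)
        exact hcard k (h k hk) (h2.trans hk')
      · have hinf : Sb om (un x y) := (hmo.not_mem_iff om_ord).1 hfin
        exact hcard _ hma (h2.trans (((le_sc hinf).pd (le_sc hinf)).trans (ih _ hma hinf)))

end Pool.Agent.Forc
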