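import Pool.Agent.Forc.SC
import Pool.Agent.Forc.Hess
import Pool.Agent.Frc.Tools
import Pool.Agent.Frc.ColCard

/-!
# Cardinalities, unions and successor cardinals inside a model of ZFC
-/

universe u

set_option linter.unusedSectionVars false

namespace Pool.Agent.Forc

open Pool.Agent.SigB

variable {M : Type u} [Membership M M] [IsZFC M]

theorem Le.of_bij {f κ A : M} (h : Frc.Bij f κ A) : Le κ A ∧ Le A κ := by
  obtain ⟨h1, h2, h3⟩ := h
  refine ⟨⟨f, h1, fun x y hx hy he => h2 x hx y hy he⟩, ?_⟩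
  obtain ⟨g, hg, hg'⟩ := choice' (a := A) (b := κ) (P := fun z x => ap f x = z)
    (by simp (maxDischargeDepth := 50)) h3
  refine ⟨g, hg, fun x y hx hy he => ?_⟩
  rw [← hg' x hx, ← hg' y hy, he]

/-- Every set is equinumerous with an ordinal. -/
theorem exists_ord (A : M) : ∃ κ, Ord κ ∧ Le A κ ∧ Le κ A := by
  obtain ⟨κ, f, hκ, hf⟩ := Frc.exists_bij_ord A
  exact ⟨κ, hκ, (Le.of_bij hf).2, (Le.of_bij hf).1⟩

/-- Every set has a cardinality. -/
theorem exists_card (A : M) : ∃ μ, CardOf A μ := by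
  obtain ⟨κ, hκ, h1, h2⟩ := exists_ord A
  obtain ⟨μ, hμ, ⟨h3, h4⟩, hmin⟩ := Ord.exists_least (P := fun ν => Le A ν ∧ Le ν A)
    (by simp (maxDischargeDepth := 50)) hκ ⟨h1, h2⟩
  refine ⟨μ, hμ, h3, h4, fun ν hν h => hmin ν hν ⟨h3.trans h, ?_⟩⟩
  exact (Le.of_sb (hμ.sb hν)).trans h4

/-- Cantor's theorem. -/
theorem cantor (A : M) : ¬ Le (pw A) A := by
  rintro ⟨f, hf, hi⟩
  have hd : Dfn (fun w : Fin 1 → M => ∃ S, S ∈ pw A ∧ w 0 = ap f S ∧ w 0 ∉ S) := by
    simp (maxDischargeDepth := 50)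
  have hD : sp A (fun x => ∃ S, S ∈ pw A ∧ x = ap f S ∧ x ∉ S) ∈ pw A :=
    mem_pw.2 fun z hz => ((mem_sp hd).1 hz).1
  have hdA := (mem_fs.1 hf).2 _ hD
  by_cases h : ap f (sp A (fun x => ∃ S, S ∈ pw A ∧ x = ap f S ∧ x ∉ S)) ∈
      sp A (fun x => ∃ S, S ∈ pw A ∧ x = ap f S ∧ x ∉ S)
  · obtain ⟨-, S, hS, h1, h2⟩ := (mem_sp hd).1 h
    rw [← hi _ _ hD hS h1] at h2
    exact h2 h
  · exact h ((mem_sp hd).2 ⟨hdA, _, hD, rfl, h⟩)

/-- A union of at most `μ` sets of size at most `μ`. -/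
theorem Le.union {X μ : M} (hμ : Ord μ) (hom : Sb om μ) (hX : Le X μ)
    (h : ∀ x, x ∈ X → Le x μ) : Le (sU X) μ := by
  obtain ⟨i, hi, hii⟩ := hX
  obtain ⟨G, -, hG⟩ := choice' (a := X) (b := pw (SigB.pd (sU X) μ))
    (P := fun x g => g ∈ fs x μ ∧ Inj g x) (by simp (maxDischargeDepth := 50)) (by
      intro x hx
      obtain ⟨g, hg, hgi⟩ := h x hx
      refine ⟨g, mem_pw.2 fun z hz => ?_, hg, hgi⟩
      obtain ⟨y, hy, rfl⟩ := (mem_fs.1 hg).1.mem_iff.1 hz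
      exact op_mem_pd.2 ⟨mem_sU.2 ⟨x, hx, hy⟩, (mem_fs.1 hg).2 y hy⟩)
  obtain ⟨e, he, he'⟩ := choice' (a := sU X) (b := X) (P := fun z x => z ∈ x)
    (by simp (maxDischargeDepth := 50)) (fun z hz => mem_sU.1 hz)
  have hev := (mem_fs.1 he).2
  refine Le.trans ?_ (hess hμ hom)
  refine Le.mk (F := fun z => op (ap i (ap e z)) (ap (ap G (ap e z)) z))
    (by simp (maxDischargeDepth := 50)) ?_ ?_
  · intro z hz
    exact op_mem_pd.2 ⟨(mem_fs.1 hi).2 _ (hev z hz),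
      (mem_fs.1 (hG _ (hev z hz)).1).2 z (he' z hz)⟩
  · intro z w hz hw h1
    obtain ⟨h2, h3⟩ := op_inj.1 h1
    have h4 := hii _ _ (hev z hz) (hev w hw) h2
    rw [← h4] at h3
    refine (hG _ (hev z hz)).2 z w (he' z hz) ?_ h3
    rw [h4]
    exact he' w hw

/-- The set of finite sequences. -/
noncomputable def Seq (B : M) : M := Frc.colP B

theorem Seq.dt : DT (fun w : Fin 1 → M => Seq (w 0)) := by
  unfold Seq; simp (maxDischargeDepth := 50)

@[simp] theorem dt_Seq {n : ℕ} {s : (Fin n → M) → M} (hs : DT s) :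
    DT (fun v => Seq (s v)) := dt1 Seq.dt hs

theorem mem_Seq {B s : M} : s ∈ Seq B ↔ ∃ n, n ∈ (om : M) ∧ s ∈ fs n B := Frc.mem_colP

theorem Le.seq {B μ : M} (h : Le B μ) : Le (Seq B) (Seq μ) := by
  obtain ⟨g, hg, hi⟩ := h
  have hF : ∀ s : M, DT (fun w : Fin 1 → M => op (fst (w 0)) (ap g (snd (w 0)))) := by
    intro s; simp (maxDischargeDepth := 50)
  have key : ∀ n s : M, s ∈ fs n B →
      im s (fun z => op (fst z) (ap g (snd z))) = lam n (fun k => ap g (ap s k)) := by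
    intro n s hs
    have h1 := (mem_fs.1 hs).1
    have h2 : DT (fun w : Fin 1 → M => ap g (ap s (w 0))) := by simp (maxDischargeDepth := 50)
    have h3 : DT (fun w : Fin 1 → M => op (w 0) (ap g (ap s (w 0)))) := by
      simp (maxDischargeDepth := 50)
    refine ext' fun w => ?_
    unfold lam
    rw [mem_im (hF s), mem_im h3]
    constructor
    · rintro ⟨z, hz, rfl⟩
      obtain ⟨x, hx, rfl⟩ := h1.mem_iff.1 hz
      exact ⟨x, hx, by simp⟩
    · rintro ⟨x, hx, rfl⟩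
      exact ⟨op x (ap s x), h1.mem_iff.2 ⟨x, hx, rfl⟩, by simp⟩
  refine Le.mk (F := fun s => im s (fun z => op (fst z) (ap g (snd z))))
    (by simp (maxDischargeDepth := 50)) ?_ ?_
  · intro s hs
    obtain ⟨n, hn, hs'⟩ := mem_Seq.1 hs
    rw [key n s hs']
    refine mem_Seq.2 ⟨n, hn, lam_mem_fs (by simp (maxDischargeDepth := 50)) fun k hk => ?_⟩
    exact (mem_fs.1 hg).2 _ ((mem_fs.1 hs').2 k hk)
  · intro s t hs ht he
    obtain ⟨n, hn, hs'⟩ := mem_Seq.1 hs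
    obtain ⟨m, hm, ht'⟩ := mem_Seq.1 ht
    rw [key n s hs', key m t ht'] at he
    have h2 : ∀ s : M, DT (fun w : Fin 1 → M => ap g (ap s (w 0))) := fun s => by
      simp (maxDischargeDepth := 50)
    have hnm : n = m := by
      refine ext' fun k => ⟨fun hk => ?_, fun hk => ?_⟩
      · have := (op_mem_lam (F := fun k => ap g (ap s k)) (h2 s) (a := n)).2 ⟨hk, rfl⟩
        rw [he] at this
        exact ((op_mem_lam (F := fun k => ap g (ap t k)) (h2 t)).1 this).1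
      · have := (op_mem_lam (F := fun k => ap g (ap t k)) (h2 t) (a := m)).2 ⟨hk, rfl⟩
        rw [← he] at this
        exact ((op_mem_lam (F := fun k => ap g (ap s k)) (h2 s)).1 this).1
    subst hnm
    refine (mem_fs.1 hs').1.ext (mem_fs.1 ht').1 fun k hk => ?_
    refine hi _ _ ((mem_fs.1 hs').2 k hk) ((mem_fs.1 ht').2 k hk) ?_
    have h3 := ap_lam (F := fun k => ap g (ap s k)) (h2 s) hk
    rw [he, ap_lam (F := fun k => ap g (ap t k)) (h2 t) hk] at h3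
    exact h3.symm

/-- Finite sequences from a set of size at most `μ`. -/
theorem Le.seq_le {B μ : M} (hμ : Ord μ) (hom : Sb om μ) (h : Le B μ) : Le (Seq B) μ :=
  h.seq.trans (Frc.colP_le hom (hess hμ hom))

/-- For every infinite ordinal there is the next cardinal; it is regular. -/
theorem exists_succ {a : M} (ha : Ord a) (h : Sb om a) : ∃ th : M, Ord th ∧ a ∈ th ∧
    (∀ b : M, SigB.Ord b → (b ∈ th ↔ Le b a)) ∧ (∀ ν : M, ν ∈ th → ¬ Le th ν) ∧
    ∀ b f : M, b ∈ th → f ∈ fs b th → ∃ g, g ∈ th ∧ ∀ x, x ∈ b → ap f x ∈ g := by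
  obtain ⟨κ, hκ, h1, -⟩ := exists_ord (pw a)
  obtain ⟨th, hth, hn, hmin⟩ := Ord.exists_least (P := fun ν => ¬ Le ν a)
    (by simp (maxDischargeDepth := 50)) hκ fun h2 => cantor a (h1.trans h2)
  have hmem : ∀ b, SigB.Ord b → (b ∈ th ↔ Le b a) := by
    intro b hb
    refine ⟨fun h2 => not_not.1 (hmin b h2), fun h2 => ?_⟩
    rcases hb.tri hth with h3 | h3 | h3
    · exact h3
    · exact absurd (h3 ▸ h2) hn
    · exact absurd (h2.mono_left (hb.sb h3)) hn
  have hath : a ∈ th := (hmem a ha).2 (Le.refl a)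
  have hsc : ∀ b, b ∈ th → sc b ∈ th := by
    intro b hb
    have hbo := hth.mem hb
    refine (hmem _ (ord_sc hbo)).2 ?_
    by_cases h2 : b ∈ (om : M)
    · exact Le.of_sb (ha.sb (h _ (sc_mem_om h2)))
    · exact (le_sc ((hbo.not_mem_iff om_ord).1 h2)).trans ((hmem b hbo).1 hb)
  refine ⟨th, hth, hath, hmem, fun ν hν h2 => hn (h2.trans ((hmem ν (hth.mem hν)).1 hν)),
    fun b f hb hf => ?_⟩
  have hv := (mem_fs.1 hf).2
  have hd : DT (fun w : Fin 1 → M => ap f (w 0)) := by simp (maxDischargeDepth := 50)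
  have hbo := hth.mem hb
  have hX : Le (im b (fun x => ap f x)) a :=
    Le.image ha ((hmem b hbo).1 hb) hd fun y hy => (mem_im hd).1 hy
  have hXm : ∀ x, x ∈ im b (fun x => ap f x) → x ∈ th := by
    intro x hx
    obtain ⟨y, hy, rfl⟩ := (mem_im hd).1 hx
    exact hv y hy
  have hU : Le (sU (im b (fun x => ap f x))) a :=
    Le.union ha h hX fun x hx => (hmem x (hth.mem (hXm x hx))).1 (hXm x hx)
  have hUo : Ord (sU (im b (fun x => ap f x))) := ord_sU fun x hx => hth.mem (hXm x hx)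
  refine ⟨sc (sU (im b (fun x => ap f x))), hsc _ ((hmem _ hUo).2 hU), fun x hx => ?_⟩
  refine (Ord.mem_sc_iff (hth.mem (hv x hx)) hUo).2 fun z hz => ?_
  exact mem_sU.2 ⟨ap f x, (mem_im hd).2 ⟨x, hx, rfl⟩, hz⟩

end Pool.Agent.Forc
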