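import Pool.Agent.Forc.DFam

/-!
# A countable family of relations closed under first-order operations
-/

universe u

set_option linter.unusedSectionVars false

namespace Pool.Agent.Forc

open Pool.Agent.SigB

variable {M : Type u} [Membership M M] [IsZFC M]

theorem le_om_pr (A B : M) : Le (pr A B) (om : M) := by
  classical
  refine Le.image om_ord (Le.refl om) (F := fun n => if n = SigB.em then A else B) ?_ ?_
  · exact DT.ite (P := fun w : Fin 1 → M => w 0 = SigB.em) (by simp) (by simp) (by simp)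
  · intro y hy
    rcases mem_pr.1 hy with rfl | rfl
    · exact ⟨SigB.em, em_mem_om, by simp⟩
    · refine ⟨sc SigB.em, sc_mem_om em_mem_om, ?_⟩
      have hne : sc (SigB.em : M) ≠ SigB.em := by
        intro h
        have h1 : (SigB.em : M) ∈ sc SigB.em := mem_sc.2 (Or.inr rfl)
        rw [h] at h1
        exact not_mem_em _ h1
      rw [if_neg hne]

theorem le_om_un {A B : M} (hA : Le A om) (hB : Le B om) : Le (un A B) (om : M) := by
  refine Le.union om_ord (Sb.refl _) (le_om_pr A B) fun x hx => ?_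
  rcases mem_pr.1 hx with rfl | rfl
  · exact hA
  · exact hB

theorem le_om_im {A : M} (hA : Le A om) {F : M → M} (hF : DT (fun w : Fin 1 → M => F (w 0))) :
    Le (im A F) (om : M) :=
  Le.image om_ord hA hF fun _ hy => (mem_im hF).1 hy

theorem le_om_sp {A : M} (hA : Le A om) {P : M → Prop} (hP : Dfn (fun w : Fin 1 → M => P (w 0))) :
    Le (sp A P) (om : M) :=
  hA.mono_left fun _ hz => ((mem_sp hP).1 hz).1

theorem le_om_pd {A B : M} (hA : Le A om) (hB : Le B om) : Le (pd A B) (om : M) :=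
  (Le.pd hA hB).trans (hess om_ord (Sb.refl _))

/-- The atomic relations. -/
noncomputable def fam0 (h W : M) : M :=
  un (im (pd om (pd om om)) fun z => op (fst z)
    (sp (fs (fst z) h) fun s => ap s (fst (snd z)) ∈ ap s (snd (snd z))))
  (un (im (pd om (pd om om)) fun z => op (fst z)
    (sp (fs (fst z) h) fun s => ap s (fst (snd z)) = ap s (snd (snd z))))
  (im (pd om (pd om om)) fun z => op (fst z)
    (sp (fs (fst z) h) fun s => op (ap s (fst (snd z))) (ap s (snd (snd z))) ∈ W)))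

/-- One step of the construction. -/
noncomputable def famS (h D : M) : M :=
  un D (un (im D fun z => op (fst z) (df (fs (fst z) h) (snd z)))
    (un (im (pd D D) fun z => op (fst (fst z)) (it (snd (fst z)) (snd (snd z))))
      (im (pd om D) fun z => op (fst z) (prj (fst z) h (snd (snd z))))))

theorem famS.dt (h : M) : DT (fun w : Fin 1 → M => famS h (w 0)) := by
  unfold famS; simp (maxDischargeDepth := 50)

theorem le_fam0 (h W : M) : Le (fam0 h W) (om : M) := by
  have h0 : Le (pd (om : M) (pd om om)) om := le_om_pd (Le.refl _) (le_om_pd (Le.refl _) (Le.refl _))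
  unfold fam0
  refine le_om_un (le_om_im h0 (by simp (maxDischargeDepth := 50)))
    (le_om_un (le_om_im h0 (by simp (maxDischargeDepth := 50)))
      (le_om_im h0 (by simp (maxDischargeDepth := 50))))

theorem le_famS (h : M) {D : M} (hD : Le D (om : M)) : Le (famS h D) (om : M) := by
  unfold famS
  refine le_om_un hD (le_om_un (le_om_im hD (by simp (maxDischargeDepth := 50)))
    (le_om_un (le_om_im (le_om_pd hD hD) (by simp (maxDischargeDepth := 50)))
      (le_om_im (le_om_pd (Le.refl _) hD) (by simp (maxDischargeDepth := 50)))))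

/-- `z` is a pair `(n, X)` with `n ∈ ω` and `X` a set of `n`-tuples. -/
def Good (h z : M) : Prop := ∃ n, n ∈ (om : M) ∧ ∃ X, Sb X (fs n h) ∧ z = op n X

theorem good_fam0 {h W z : M} (hz : z ∈ fam0 h W) : Good h z := by
  unfold fam0 at hz
  rw [mem_un, mem_un] at hz
  rcases hz with hz | hz | hz
  · obtain ⟨w, hw, rfl⟩ := (mem_im (by simp (maxDischargeDepth := 50))).1 hz
    obtain ⟨n, hn, v, -, rfl⟩ := mem_pd.1 hw
    rw [fst_op, snd_op]
    exact ⟨n, hn, _, fun s hs => ((mem_sp (by simp (maxDischargeDepth := 50))).1 hs).1, rfl⟩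
  · obtain ⟨w, hw, rfl⟩ := (mem_im (by simp (maxDischargeDepth := 50))).1 hz
    obtain ⟨n, hn, v, -, rfl⟩ := mem_pd.1 hw
    rw [fst_op, snd_op]
    exact ⟨n, hn, _, fun s hs => ((mem_sp (by simp (maxDischargeDepth := 50))).1 hs).1, rfl⟩
  · obtain ⟨w, hw, rfl⟩ := (mem_im (by simp (maxDischargeDepth := 50))).1 hz
    obtain ⟨n, hn, v, -, rfl⟩ := mem_pd.1 hw
    rw [fst_op, snd_op]
    exact ⟨n, hn, _, fun s hs => ((mem_sp (by simp (maxDischargeDepth := 50))).1 hs).1, rfl⟩

theorem good_famS {h D : M} (hD : ∀ z, z ∈ D → Good h z) {z : M} (hz : z ∈ famS h D) :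
    Good h z := by
  unfold famS at hz
  rw [mem_un, mem_un, mem_un] at hz
  rcases hz with hz | hz | hz | hz
  · exact hD z hz
  · obtain ⟨w, hw, rfl⟩ := (mem_im (by simp (maxDischargeDepth := 50))).1 hz
    obtain ⟨n, hn, X, -, rfl⟩ := hD w hw
    rw [fst_op, snd_op]
    exact ⟨n, hn, _, fun s hs => (mem_df.1 hs).1, rfl⟩
  · obtain ⟨w, hw, rfl⟩ := (mem_im (by simp (maxDischargeDepth := 50))).1 hz
    obtain ⟨u, hu, v, hv, rfl⟩ := mem_pd.1 hw
    obtain ⟨n, hn, X, hX, rfl⟩ := hD u hu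
    rw [fst_op, fst_op, snd_op]
    exact ⟨n, hn, _, fun s hs => hX s (mem_it.1 hs).1, rfl⟩
  · obtain ⟨w, hw, rfl⟩ := (mem_im (by simp (maxDischargeDepth := 50))).1 hz
    obtain ⟨n, hn, v, hv, rfl⟩ := mem_pd.1 hw
    rw [fst_op, snd_op]
    refine ⟨n, hn, _, fun s hs => ?_, rfl⟩
    unfold prj at hs
    exact ((mem_sp (by simp (maxDischargeDepth := 50))).1 hs).1

theorem exists_dfam (h W : M) : ∃ D, Le D (om : M) ∧ DFam D h W := by
  obtain ⟨f, hf, hf0, hfs⟩ := om_recursion (fam0 h W) (G := famS h) (famS.dt h)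
  have hd : DT (fun w : Fin 1 → M => ap f (w 0)) := by simp (maxDischargeDepth := 50)
  have hG : ∀ {n : ℕ} {s t : (Fin n → M) → M}, DT s → DT t → Dfn fun v => Good (s v) (t v) := by
    intro n s t hs ht
    refine dfn2 ?_ hs ht
    unfold Good
    simp (maxDischargeDepth := 50)
  have hle : ∀ n, n ∈ (om : M) → Le (ap f n) om := by
    refine om_ind (P := fun n => Le (ap f n) om) (by simp (maxDischargeDepth := 50)) ?_ ?_
    · rw [hf0]; exact le_fam0 h W
    · intro n hn ih
      rw [hfs n hn]; exact le_famS h ih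
  have hgood : ∀ n, n ∈ (om : M) → ∀ z, z ∈ ap f n → Good h z := by
    refine om_ind (P := fun n => ∀ z, z ∈ ap f n → Good h z)
      (by simp (maxDischargeDepth := 50) [hG]) ?_ ?_
    · rw [hf0]; exact fun z hz => good_fam0 hz
    · intro n hn ih
      rw [hfs n hn]; exact fun z hz => good_famS ih hz
  have hstep : ∀ n, n ∈ (om : M) → Sb (ap f n) (ap f (sc n)) := by
    intro n hn z hz
    rw [hfs n hn]
    unfold famS
    rw [mem_un]
    exact Or.inl hz
  have hmono : ∀ m, m ∈ (om : M) → ∀ n, n ∈ sc m → Sb (ap f n) (ap f m) := by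
    refine om_ind (P := fun m => ∀ n, n ∈ sc m → Sb (ap f n) (ap f m))
      (by simp (maxDischargeDepth := 50)) ?_ ?_
    · intro n hn
      rcases mem_sc.1 hn with h1 | rfl
      · exact (not_mem_em _ h1).elim
      · exact Sb.refl _
    · intro m hm ih n hn
      rcases mem_sc.1 hn with h1 | rfl
      · exact (ih n h1).trans (hstep m hm)
      · exact Sb.refl _
  have hdir : ∀ m n, m ∈ (om : M) → n ∈ (om : M) → ∃ k, k ∈ (om : M) ∧
      Sb (ap f m) (ap f k) ∧ Sb (ap f n) (ap f k) := by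
    intro m n hm hn
    rcases (om_ord.mem hm).tri (om_ord.mem hn) with h1 | h1 | h1
    · exact ⟨n, hn, hmono n hn m (mem_sc.2 (Or.inl h1)), Sb.refl _⟩
    · exact ⟨n, hn, h1 ▸ Sb.refl _, Sb.refl _⟩
    · exact ⟨m, hm, Sb.refl _, hmono m hm n (mem_sc.2 (Or.inl h1))⟩
  have hmem : ∀ z, z ∈ sU (im (om : M) (ap f)) ↔ ∃ n, n ∈ (om : M) ∧ z ∈ ap f n := by
    intro z
    rw [mem_sU]
    constructor
    · rintro ⟨y, hy, hz⟩
      obtain ⟨n, hn, rfl⟩ := (mem_im hd).1 hy
      exact ⟨n, hn, hz⟩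
    · rintro ⟨n, hn, hz⟩
      exact ⟨ap f n, (mem_im hd).2 ⟨n, hn, rfl⟩, hz⟩
  have hin : ∀ n, n ∈ (om : M) → ∀ i, i ∈ n → i ∈ (om : M) := fun n hn i hi =>
    om_ord.trans hi hn
  refine ⟨sU (im (om : M) (ap f)), ?_, ?_⟩
  · refine Le.union om_ord (Sb.refl _) (le_om_im (Le.refl _) hd) fun x hx => ?_
    obtain ⟨n, hn, rfl⟩ := (mem_im hd).1 hx
    exact hle n hn
  · refine ⟨?_, ?_, ?_, ?_, ?_, ?_, ?_⟩
    · intro z hz
      obtain ⟨n, hn, hz⟩ := (hmem z).1 hz
      exact hgood n hn z hz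
    · intro n i j hn hi hj
      refine (hmem _).2 ⟨SigB.em, em_mem_om, ?_⟩
      rw [hf0]
      unfold fam0
      rw [mem_un]
      refine Or.inl ((mem_im (by simp (maxDischargeDepth := 50))).2 ⟨op n (op i j), ?_, ?_⟩)
      · exact op_mem_pd.2 ⟨hn, op_mem_pd.2 ⟨hin n hn i hi, hin n hn j hj⟩⟩
      · simp only [fst_op, snd_op]
    · intro n i j hn hi hj
      refine (hmem _).2 ⟨SigB.em, em_mem_om, ?_⟩
      rw [hf0]
      unfold fam0
      rw [mem_un, mem_un]
      refine Or.inr (Or.inl ((mem_im (by simp (maxDischargeDepth := 50))).2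
        ⟨op n (op i j), ?_, ?_⟩))
      · exact op_mem_pd.2 ⟨hn, op_mem_pd.2 ⟨hin n hn i hi, hin n hn j hj⟩⟩
      · simp only [fst_op, snd_op]
    · intro n i j hn hi hj
      refine (hmem _).2 ⟨SigB.em, em_mem_om, ?_⟩
      rw [hf0]
      unfold fam0
      rw [mem_un, mem_un]
      refine Or.inr (Or.inr ((mem_im (by simp (maxDischargeDepth := 50))).2
        ⟨op n (op i j), ?_, ?_⟩))
      · exact op_mem_pd.2 ⟨hn, op_mem_pd.2 ⟨hin n hn i hi, hin n hn j hj⟩⟩
      · simp only [fst_op, snd_op]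
    · intro n X hX
      obtain ⟨k, hk, hX⟩ := (hmem _).1 hX
      refine (hmem _).2 ⟨sc k, sc_mem_om hk, ?_⟩
      rw [hfs k hk]
      unfold famS
      rw [mem_un, mem_un]
      refine Or.inr (Or.inl ((mem_im (by simp (maxDischargeDepth := 50))).2 ⟨op n X, hX, ?_⟩))
      simp only [fst_op, snd_op]
    · intro n X Y hX hY
      obtain ⟨k, hk, hX⟩ := (hmem _).1 hX
      obtain ⟨l, hl, hY⟩ := (hmem _).1 hY
      obtain ⟨m, hm, h1, h2⟩ := hdir k l hk hl
      refine (hmem _).2 ⟨sc m, sc_mem_om hm, ?_⟩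
      rw [hfs m hm]
      unfold famS
      rw [mem_un, mem_un, mem_un]
      refine Or.inr (Or.inr (Or.inl ((mem_im (by simp (maxDischargeDepth := 50))).2
        ⟨op (op n X) (op n Y), op_mem_pd.2 ⟨h1 _ hX, h2 _ hY⟩, ?_⟩)))
      simp only [fst_op, snd_op]
    · intro n X hn hX
      obtain ⟨k, hk, hX⟩ := (hmem _).1 hX
      refine (hmem _).2 ⟨sc k, sc_mem_om hk, ?_⟩
      rw [hfs k hk]
      unfold famS
      rw [mem_un, mem_un, mem_un]
      refine Or.inr (Or.inr (Or.inr ((mem_im (by simp (maxDischargeDepth := 50))).2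
        ⟨op n (op (sc n) X), op_mem_pd.2 ⟨hn, hX⟩, ?_⟩)))
      simp only [fst_op, snd_op]

end Pool.Agent.Forc
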