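import Pool.Agent.Forc.Defs
import Pool.Agent.Frc.Truth

/-!
# Countable elementary substructures of models of ZFC
-/

universe u

set_option linter.unusedSectionVars false

namespace Pool.Agent.Forc

open Pool.Agent.SigB Pool.Agent.Frc

/-! ### There are only countably many formulas -/

/-- A code for a formula. -/
def encF {A : Type u} (c : A → ℕ) : ∀ {n : ℕ}, Fml A n → ℕ
  | _, .mem s t => Nat.pair 0 (Nat.pair (Sum.elim (fun i => 2 * i.val) (fun a => 2 * c a + 1) s)
      (Sum.elim (fun i => 2 * i.val) (fun a => 2 * c a + 1) t))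
  | _, .eq s t => Nat.pair 1 (Nat.pair (Sum.elim (fun i => 2 * i.val) (fun a => 2 * c a + 1) s)
      (Sum.elim (fun i => 2 * i.val) (fun a => 2 * c a + 1) t))
  | _, .neg φ => Nat.pair 2 (encF c φ)
  | _, .and φ ψ => Nat.pair 3 (Nat.pair (encF c φ) (encF c ψ))
  | _, .ex φ => Nat.pair 4 (encF c φ)

theorem enc_term_inj {A : Type u} {c : A → ℕ} (hc : Function.Injective c) {n : ℕ}
    {s t : Fin n ⊕ A}
    (h : Sum.elim (fun i : Fin n => 2 * i.val) (fun a => 2 * c a + 1) s =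
      Sum.elim (fun i : Fin n => 2 * i.val) (fun a => 2 * c a + 1) t) : s = t := by
  rcases s with i | a <;> rcases t with j | b <;> simp only [Sum.elim_inl, Sum.elim_inr] at h
  · exact congrArg _ (Fin.ext (by omega))
  · omega
  · omega
  · exact congrArg _ (hc (by omega))

theorem encF_inj {A : Type u} {c : A → ℕ} (hc : Function.Injective c) : ∀ {n : ℕ}
    (φ ψ : Fml A n), encF c φ = encF c ψ → φ = ψ := by
  intro n φ
  induction φ with
  | mem s t =>
    intro ψ h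
    cases ψ with
    | mem s' t' =>
      simp only [encF, Nat.pair_eq_pair] at h
      rw [enc_term_inj hc h.2.1, enc_term_inj hc h.2.2]
    | eq s' t' => simp [encF, Nat.pair_eq_pair] at h
    | neg φ => simp [encF, Nat.pair_eq_pair] at h
    | and φ ψ => simp [encF, Nat.pair_eq_pair] at h
    | ex φ => simp [encF, Nat.pair_eq_pair] at h
  | eq s t =>
    intro ψ h
    cases ψ with
    | mem s' t' => simp [encF, Nat.pair_eq_pair] at h
    | eq s' t' =>
      simp only [encF, Nat.pair_eq_pair] at h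
      rw [enc_term_inj hc h.2.1, enc_term_inj hc h.2.2]
    | neg φ => simp [encF, Nat.pair_eq_pair] at h
    | and φ ψ => simp [encF, Nat.pair_eq_pair] at h
    | ex φ => simp [encF, Nat.pair_eq_pair] at h
  | neg φ ih =>
    intro ψ h
    cases ψ with
    | mem s' t' => simp [encF, Nat.pair_eq_pair] at h
    | eq s' t' => simp [encF, Nat.pair_eq_pair] at h
    | neg φ' =>
      simp only [encF, Nat.pair_eq_pair] at h
      rw [ih _ h.2]
    | and φ ψ => simp [encF, Nat.pair_eq_pair] at h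
    | ex φ => simp [encF, Nat.pair_eq_pair] at h
  | and φ₁ φ₂ ih₁ ih₂ =>
    intro ψ h
    cases ψ with
    | mem s' t' => simp [encF, Nat.pair_eq_pair] at h
    | eq s' t' => simp [encF, Nat.pair_eq_pair] at h
    | neg φ' => simp [encF, Nat.pair_eq_pair] at h
    | and ψ₁ ψ₂ =>
      simp only [encF, Nat.pair_eq_pair] at h
      rw [ih₁ _ h.2.1, ih₂ _ h.2.2]
    | ex φ => simp [encF, Nat.pair_eq_pair] at h
  | ex φ ih =>
    intro ψ h
    cases ψ with
    | mem s' t' => simp [encF, Nat.pair_eq_pair] at h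
    | eq s' t' => simp [encF, Nat.pair_eq_pair] at h
    | neg φ' => simp [encF, Nat.pair_eq_pair] at h
    | and φ ψ => simp [encF, Nat.pair_eq_pair] at h
    | ex φ' =>
      simp only [encF, Nat.pair_eq_pair] at h
      rw [ih _ h.2]

instance countable_fml {A : Type u} [Countable A] (n : ℕ) : Countable (Fml A n) := by
  obtain ⟨c, hc⟩ := exists_injective_nat A
  exact (show Function.Injective (encF c : Fml A n → ℕ) from fun φ ψ h =>
    encF_inj hc φ ψ h).countable

theorem mapP_mapP {A B C : Type u} (f : A → B) (g : B → C) : ∀ {n : ℕ} (φ : Fml A n),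
    mapP g (mapP f φ) = mapP (fun a => g (f a)) φ
  | _, .mem s t => by
    simp only [mapP, Sum.map_map]
    rfl
  | _, .eq s t => by
    simp only [mapP, Sum.map_map]
    rfl
  | _, .neg φ => by simp only [mapP]; rw [mapP_mapP f g φ]
  | _, .and φ ψ => by simp only [mapP]; rw [mapP_mapP f g φ, mapP_mapP f g ψ]
  | _, .ex φ => by simp only [mapP]; rw [mapP_mapP f g φ]

/-! ### The elementary substructure -/

section

variable {M : Type u} [Membership M M]

/-- `S` is closed under witnesses for formulas with parameters in `S`. -/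
def Full (S : Set M) : Prop := ∀ (n : ℕ) (φ : Fml S (n + 1)) (v : Fin n → S),
  (∃ x, (mapP Subtype.val φ).Sat (Fin.cons x fun i => (v i : M))) →
    ∃ x, x ∈ S ∧ (mapP Subtype.val φ).Sat (Fin.cons x fun i => (v i : M))

theorem exists_stepL [Nonempty M] (S : Set M) (hS : S.Countable) : ∃ T : Set M, T.Countable ∧
    S ⊆ T ∧ ∀ (n : ℕ) (φ : Fml S (n + 1)) (v : Fin n → S),
      (∃ x, (mapP Subtype.val φ).Sat (Fin.cons x fun i => (v i : M))) →
        ∃ x, x ∈ T ∧ (mapP Subtype.val φ).Sat (Fin.cons x fun i => (v i : M)) := by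
  classical
  have : Countable S := hS.to_subtype
  let w : (Σ n : ℕ, Fml S (n + 1) × (Fin n → S)) → M := fun a =>
    if h : ∃ x, (mapP Subtype.val a.2.1).Sat (Fin.cons x fun i => (a.2.2 i : M)) then h.choose
    else Classical.arbitrary M
  refine ⟨S ∪ Set.range w, hS.union (Set.countable_range w), Set.subset_union_left,
    fun n φ v h => ⟨w ⟨n, φ, v⟩, Or.inr ⟨_, rfl⟩, ?_⟩⟩
  simp only [w, dif_pos h]
  exact h.choose_spec

theorem exists_chain_lift {S : ℕ → Set M} (hmono : ∀ k, S k ⊆ S (k + 1)) :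
    ∀ {n : ℕ} (φ : Fml (⋃ k, S k : Set M) n), ∃ k, ∀ j, k ≤ j → ∃ φ' : Fml (S j) n,
      mapP (fun a => (⟨a.1, Set.mem_iUnion.2 ⟨j, a.2⟩⟩ : (⋃ k, S k : Set M))) φ' = φ := by
  have hm : ∀ {k j : ℕ}, k ≤ j → S k ⊆ S j := by
    intro k j h
    induction h with
    | refl => exact subset_rfl
    | step _ ih => exact ih.trans (hmono _)
  have hterm : ∀ {n : ℕ} (s : Fin n ⊕ (⋃ k, S k : Set M)), ∃ k, ∀ j, k ≤ j →
      ∃ s' : Fin n ⊕ S j,
        Sum.map id (fun a => (⟨a.1, Set.mem_iUnion.2 ⟨j, a.2⟩⟩ : (⋃ k, S k : Set M))) s' = s := by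
    rintro n (i | ⟨a, ha⟩)
    · exact ⟨0, fun j _ => ⟨.inl i, rfl⟩⟩
    · obtain ⟨k, hk⟩ := Set.mem_iUnion.1 ha
      exact ⟨k, fun j hj => ⟨.inr ⟨a, hm hj hk⟩, rfl⟩⟩
  intro n φ
  induction φ with
  | mem s t =>
    obtain ⟨k₁, h₁⟩ := hterm s
    obtain ⟨k₂, h₂⟩ := hterm t
    refine ⟨max k₁ k₂, fun j hj => ?_⟩
    obtain ⟨s', hs⟩ := h₁ j (le_trans (le_max_left _ _) hj)
    obtain ⟨t', ht⟩ := h₂ j (le_trans (le_max_right _ _) hj)
    exact ⟨.mem s' t', by simp only [mapP, hs, ht]⟩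
  | eq s t =>
    obtain ⟨k₁, h₁⟩ := hterm s
    obtain ⟨k₂, h₂⟩ := hterm t
    refine ⟨max k₁ k₂, fun j hj => ?_⟩
    obtain ⟨s', hs⟩ := h₁ j (le_trans (le_max_left _ _) hj)
    obtain ⟨t', ht⟩ := h₂ j (le_trans (le_max_right _ _) hj)
    exact ⟨.eq s' t', by simp only [mapP, hs, ht]⟩
  | neg φ ih =>
    obtain ⟨k, h⟩ := ih
    refine ⟨k, fun j hj => ?_⟩
    obtain ⟨φ', hφ⟩ := h j hj
    exact ⟨.neg φ', by simp only [mapP, hφ]⟩
  | and φ ψ ih₁ ih₂ =>
    obtain ⟨k₁, h₁⟩ := ih₁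
    obtain ⟨k₂, h₂⟩ := ih₂
    refine ⟨max k₁ k₂, fun j hj => ?_⟩
    obtain ⟨s', hs⟩ := h₁ j (le_trans (le_max_left _ _) hj)
    obtain ⟨t', ht⟩ := h₂ j (le_trans (le_max_right _ _) hj)
    exact ⟨.and s' t', by simp only [mapP, hs, ht]⟩
  | ex φ ih =>
    obtain ⟨k, h⟩ := ih
    refine ⟨k, fun j hj => ?_⟩
    obtain ⟨φ', hφ⟩ := h j hj
    exact ⟨.ex φ', by simp only [mapP, hφ]⟩

/-- A countable set closed under witnesses. -/
theorem exists_full [Nonempty M] : ∃ S : Set M, S.Countable ∧ S.Nonempty ∧ Full S := by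
  classical
  let a₀ : M := Classical.arbitrary M
  let st : ℕ → {S : Set M // S.Countable} := fun k =>
    Nat.rec ⟨{a₀}, Set.countable_singleton a₀⟩
      (fun _ S => ⟨(exists_stepL S.1 S.2).choose, (exists_stepL S.1 S.2).choose_spec.1⟩) k
  have hst : ∀ k, st (k + 1) = ⟨(exists_stepL (st k).1 (st k).2).choose,
    (exists_stepL (st k).1 (st k).2).choose_spec.1⟩ := fun k => rfl
  have hmono : ∀ k, (st k).1 ⊆ (st (k + 1)).1 := by
    intro k
    rw [hst k]
    exact (exists_stepL (st k).1 (st k).2).choose_spec.2.1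
  have hm : ∀ {k j : ℕ}, k ≤ j → (st k).1 ⊆ (st j).1 := by
    intro k j h
    induction h with
    | refl => exact subset_rfl
    | step _ ih => exact ih.trans (hmono _)
  refine ⟨⋃ k, (st k).1, Set.countable_iUnion fun k => (st k).2,
    ⟨a₀, Set.mem_iUnion.2 ⟨0, rfl⟩⟩, fun n φ v h => ?_⟩
  obtain ⟨k₁, h₁⟩ := exists_chain_lift hmono φ
  have h₂ : ∃ k₂, ∀ i, (v i : M) ∈ (st k₂).1 := by
    have h3 : ∀ i, ∃ k, (v i : M) ∈ (st k).1 := fun i => Set.mem_iUnion.1 (v i).2
    choose g hg using h3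
    exact ⟨Finset.univ.sup g, fun i => hm (Finset.le_sup (Finset.mem_univ i)) (hg i)⟩
  obtain ⟨k₂, h₂⟩ := h₂
  obtain ⟨φ', hφ⟩ := h₁ (max k₁ k₂) (le_max_left _ _)
  let v' : Fin n → (st (max k₁ k₂)).1 := fun i => ⟨v i, hm (le_max_right _ _) (h₂ i)⟩
  have hφ2 : mapP Subtype.val φ = mapP (Subtype.val : (st (max k₁ k₂)).1 → M) φ' := by
    rw [← hφ, mapP_mapP]
  have h3 := (exists_stepL (st (max k₁ k₂)).1 (st (max k₁ k₂)).2).choose_spec.2.2 n φ' v' (by
    rw [← hφ2]; exact h)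
  obtain ⟨x, hx, hx'⟩ := h3
  refine ⟨x, Set.mem_iUnion.2 ⟨max k₁ k₂ + 1, ?_⟩, ?_⟩
  · rw [hst]; exact hx
  · rw [hφ2]; exact hx'

end

/-! ### Predicates given by the same formula in a structure and in a substructure -/

section

variable {M M₀ : Type u} [Membership M M] [Membership M₀ M₀] (j : M₀ → M)

/-- The predicates `P₀` on `M₀` and `P` on `M` are given by the same formula. -/
def PD {n : ℕ} (P₀ : (Fin n → M₀) → Prop) (P : (Fin n → M) → Prop) : Prop :=
  ∃ φ : Fml M₀ n, (∀ v, P₀ v ↔ φ.Sat v) ∧ ∀ v, P v ↔ (mapP j φ).Sat v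

variable {j} {n m : ℕ} {P₀ Q₀ : (Fin n → M₀) → Prop} {P Q : (Fin n → M) → Prop}

@[simp] theorem PD.mem (i k : Fin n) :
    PD j (fun v : Fin n → M₀ => v i ∈ v k) (fun v : Fin n → M => v i ∈ v k) :=
  ⟨.mem (.inl i) (.inl k), fun _ => Iff.rfl, fun _ => Iff.rfl⟩

@[simp] theorem PD.eq (i k : Fin n) :
    PD j (fun v : Fin n → M₀ => v i = v k) (fun v : Fin n → M => v i = v k) :=
  ⟨.eq (.inl i) (.inl k), fun _ => Iff.rfl, fun _ => Iff.rfl⟩

@[simp] theorem PD.not (h : PD j P₀ P) : PD j (fun v => ¬ P₀ v) (fun v => ¬ P v) := by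
  obtain ⟨φ, h1, h2⟩ := h
  exact ⟨.neg φ, fun v => not_congr (h1 v), fun v => not_congr (h2 v)⟩

@[simp] theorem PD.and (h : PD j P₀ P) (h' : PD j Q₀ Q) :
    PD j (fun v => P₀ v ∧ Q₀ v) (fun v => P v ∧ Q v) := by
  obtain ⟨φ, h1, h2⟩ := h
  obtain ⟨ψ, h3, h4⟩ := h'
  exact ⟨.and φ ψ, fun v => and_congr (h1 v) (h3 v), fun v => and_congr (h2 v) (h4 v)⟩

theorem PD.congr {P₀' : (Fin n → M₀) → Prop} {P' : (Fin n → M) → Prop} (h : PD j P₀ P)
    (h₀ : ∀ v, P₀ v ↔ P₀' v) (h₁ : ∀ v, P v ↔ P' v) : PD j P₀' P' := by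
  obtain ⟨φ, h1, h2⟩ := h
  exact ⟨φ, fun v => (h₀ v).symm.trans (h1 v), fun v => (h₁ v).symm.trans (h2 v)⟩

@[simp] theorem PD.or (h : PD j P₀ P) (h' : PD j Q₀ Q) :
    PD j (fun v => P₀ v ∨ Q₀ v) (fun v => P v ∨ Q v) :=
  ((h.not.and h'.not).not).congr (fun v => by tauto) fun v => by tauto

@[simp] theorem PD.imp (h : PD j P₀ P) (h' : PD j Q₀ Q) :
    PD j (fun v => P₀ v → Q₀ v) (fun v => P v → Q v) :=
  ((h.and h'.not).not).congr (fun v => by tauto) fun v => by tauto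

@[simp] theorem PD.iff (h : PD j P₀ P) (h' : PD j Q₀ Q) :
    PD j (fun v => P₀ v ↔ Q₀ v) (fun v => P v ↔ Q v) :=
  ((h.imp h').and (h'.imp h)).congr (fun v => by tauto) fun v => by tauto

@[simp] theorem PD.ex {P₀ : (Fin n → M₀) → M₀ → Prop} {P : (Fin n → M) → M → Prop}
    (h : PD j (fun w : Fin (n + 1) → M₀ => P₀ (fun i => w i.succ) (w 0))
      (fun w : Fin (n + 1) → M => P (fun i => w i.succ) (w 0))) :
    PD j (fun v => ∃ x, P₀ v x) (fun v => ∃ x, P v x) := by
  obtain ⟨φ, h1, h2⟩ := h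
  refine ⟨.ex φ, fun v => exists_congr fun x => ?_, fun v => exists_congr fun x => ?_⟩
  · have := h1 (Fin.cons x v)
    simpa using this
  · have := h2 (Fin.cons x v)
    simpa using this

@[simp] theorem PD.all {P₀ : (Fin n → M₀) → M₀ → Prop} {P : (Fin n → M) → M → Prop}
    (h : PD j (fun w : Fin (n + 1) → M₀ => P₀ (fun i => w i.succ) (w 0))
      (fun w : Fin (n + 1) → M => P (fun i => w i.succ) (w 0))) :
    PD j (fun v => ∀ x, P₀ v x) (fun v => ∀ x, P v x) :=
  (PD.ex (P₀ := fun v x => ¬ P₀ v x) (P := fun v x => ¬ P v x) h.not).not.congr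
    (fun v => by simp) (fun v => by simp)

theorem mapP_ren {A B : Type u} (f : A → B) : ∀ {n m : ℕ} (φ : Fml A n) (g : Fin n → Fin m),
    mapP f (φ.ren g) = (mapP f φ).ren g
  | _, _, .mem s t, g => by
    simp only [mapP, Fml.ren, Sum.map_map]
    rfl
  | _, _, .eq s t, g => by
    simp only [mapP, Fml.ren, Sum.map_map]
    rfl
  | _, _, .neg φ, g => by simp only [mapP, Fml.ren]; rw [mapP_ren f φ g]
  | _, _, .and φ ψ, g => by simp only [mapP, Fml.ren]; rw [mapP_ren f φ g, mapP_ren f ψ g]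
  | _, _, .ex φ, g => by simp only [mapP, Fml.ren]; rw [mapP_ren f φ]

theorem PD.sat (φ : Fml M₀ m) (g : Fin m → Fin n) :
    PD j (fun v : Fin n → M₀ => φ.Sat fun i => v (g i))
      (fun v : Fin n → M => (mapP j φ).Sat fun i => v (g i)) :=
  ⟨φ.ren g, fun v => (Fml.sat_ren φ g v).symm, fun v => by
    rw [mapP_ren]; exact (Fml.sat_ren (mapP j φ) g v).symm⟩

@[simp] theorem PD.sat1 (φ : Fml M₀ 1) (i : Fin n) :
    PD j (fun v : Fin n → M₀ => φ.Sat ![v i]) (fun v : Fin n → M => (mapP j φ).Sat ![v i]) :=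
  (PD.sat φ fun _ => i).congr
    (fun v => iff_of_eq (congrArg φ.Sat (by funext k; fin_cases k; rfl)))
    (fun v => iff_of_eq (congrArg (mapP j φ).Sat (by funext k; fin_cases k; rfl)))

@[simp] theorem PD.sat2 (φ : Fml M₀ 2) (i k : Fin n) :
    PD j (fun v : Fin n → M₀ => φ.Sat ![v i, v k])
      (fun v : Fin n → M => (mapP j φ).Sat ![v i, v k]) :=
  (PD.sat φ ![i, k]).congr
    (fun v => iff_of_eq (congrArg φ.Sat (by funext k; fin_cases k <;> rfl)))
    (fun v => iff_of_eq (congrArg (mapP j φ).Sat (by funext k; fin_cases k <;> rfl)))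

@[simp] theorem PD.exUnique {P₀ : (Fin n → M₀) → M₀ → Prop} {P : (Fin n → M) → M → Prop}
    (h : PD j (fun w : Fin (n + 1) → M₀ => P₀ (fun i => w i.succ) (w 0))
      (fun w : Fin (n + 1) → M => P (fun i => w i.succ) (w 0))) :
    PD j (fun v => ∃! x, P₀ v x) (fun v => ∃! x, P v x) := by
  have h2 : PD j (fun w : Fin (n + 1) → M₀ => ∀ y, P₀ (fun i => w i.succ) y → y = w 0)
      (fun w : Fin (n + 1) → M => ∀ y, P (fun i => w i.succ) y → y = w 0) := by
    refine PD.all (P₀ := fun (w : Fin (n + 1) → M₀) y => P₀ (fun i => w i.succ) y → y = w 0)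
      (P := fun (w : Fin (n + 1) → M) y => P (fun i => w i.succ) y → y = w 0) ?_
    refine PD.imp ?_ (PD.eq _ _)
    obtain ⟨φ, h1, h2⟩ := h
    have hg := PD.sat (M := M) (j := j) (n := n + 2) φ (Fin.cases 0 fun i => i.succ.succ)
    refine hg.congr (fun v => ?_) fun v => ?_
    · rw [← h1]; rfl
    · rw [← h2]; rfl
  exact PD.ex (P₀ := fun v x => P₀ v x ∧ ∀ y, P₀ v y → y = x)
    (P := fun v x => P v x ∧ ∀ y, P v y → y = x) (h.and h2)

end

/-! ### Elementary substructures -/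

section

variable {M : Type u} [Membership M M]

/-- The structure on a subset. -/
@[reducible] def subMem (S : Set M) : Membership S S := ⟨fun y x => (x : M) ∈ (y : M)⟩

/-- Formulas have the same truth value in a full subset. -/
theorem Full.elem {S : Set M} (hS : Full S) : ∀ {n : ℕ} (φ : Fml S n) (v : Fin n → S),
    (mapP Subtype.val φ).Sat (fun i => (v i : M)) ↔ @Fml.Sat S (subMem S) n φ v := by
  letI := subMem S
  intro n φ
  induction φ with
  | mem s t =>
    intro v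
    show Sum.elim (fun i => (v i : M)) id (Sum.map id Subtype.val s) ∈
      Sum.elim (fun i => (v i : M)) id (Sum.map id Subtype.val t) ↔
      Sum.elim v id s ∈ Sum.elim v id t
    rcases s with i | a <;> rcases t with k | b <;> exact Iff.rfl
  | eq s t =>
    intro v
    show Sum.elim (fun i => (v i : M)) id (Sum.map id Subtype.val s) =
      Sum.elim (fun i => (v i : M)) id (Sum.map id Subtype.val t) ↔
      Sum.elim v id s = Sum.elim v id t
    rcases s with i | a <;> rcases t with k | b <;> exact Subtype.coe_inj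
  | neg φ ih => exact fun v => not_congr (ih v)
  | and φ ψ ih₁ ih₂ => exact fun v => and_congr (ih₁ v) (ih₂ v)
  | @ex n φ ih =>
    intro v
    have hcons : ∀ y : S, (Fin.cons (y : M) fun i => (v i : M) : Fin (n + 1) → M) =
        fun i => ((Fin.cons y v : Fin (n + 1) → S) i : M) := by
      intro y
      funext i
      refine Fin.cases ?_ (fun i => ?_) i <;> simp
    constructor
    · intro h
      obtain ⟨x, hx, hx'⟩ := hS n φ v h
      refine ⟨⟨x, hx⟩, (ih _).1 ?_⟩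
      have := hcons ⟨x, hx⟩
      rw [← this]
      exact hx'
    · rintro ⟨x, hx⟩
      refine ⟨x, ?_⟩
      rw [hcons x]
      exact (ih _).2 hx

/-- Predicates given by the same formula agree on the elements of a full subset. -/
theorem Full.iff {S : Set M} (hS : Full S) {n : ℕ} {P₀ : (Fin n → S) → Prop}
    {P : (Fin n → M) → Prop} (h : @PD M S _ (subMem S) Subtype.val n P₀ P) (v : Fin n → S) :
    P₀ v ↔ P fun i => (v i : M) := by
  obtain ⟨φ, h1, h2⟩ := h
  rw [h1, h2, hS.elem]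

/-- Closed statements. -/
theorem Full.closed {S : Set M} (hS : Full S) {p₀ p : Prop}
    (h : @PD M S _ (subMem S) Subtype.val 0 (fun _ => p₀) (fun _ => p)) : p₀ ↔ p :=
  hS.iff h Fin.elim0

end

/-! ### The notions of the statement -/

section

variable {M M₀ : Type u} [Membership M M] [Membership M₀ M₀] {j : M₀ → M} {n : ℕ}

@[simp] theorem PD.isSub (a b : Fin n) : PD j (fun v : Fin n → M₀ => IsSub (v a) (v b))
    (fun v : Fin n → M => IsSub (v a) (v b)) := by
  unfold IsSub; simp (maxDischargeDepth := 50)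

@[simp] theorem PD.isPair (a b c : Fin n) : PD j (fun v : Fin n → M₀ => IsPair (v a) (v b) (v c))
    (fun v : Fin n → M => IsPair (v a) (v b) (v c)) := by
  unfold IsPair; simp (maxDischargeDepth := 50)

@[simp] theorem PD.isOrdPair (a b c : Fin n) :
    PD j (fun v : Fin n → M₀ => IsOrdPair (v a) (v b) (v c))
    (fun v : Fin n → M => IsOrdPair (v a) (v b) (v c)) := by
  unfold IsOrdPair; simp (maxDischargeDepth := 50)

@[simp] theorem PD.val (a b c : Fin n) : PD j (fun v : Fin n → M₀ => Val (v a) (v b) (v c))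
    (fun v : Fin n → M => Val (v a) (v b) (v c)) := by
  unfold Val; simp (maxDischargeDepth := 50)

@[simp] theorem PD.isMap (a b c : Fin n) : PD j (fun v : Fin n → M₀ => IsMap (v a) (v b) (v c))
    (fun v : Fin n → M => IsMap (v a) (v b) (v c)) := by
  unfold IsMap; simp (maxDischargeDepth := 50)

@[simp] theorem PD.isInjection (a b c : Fin n) :
    PD j (fun v : Fin n → M₀ => IsInjection (v a) (v b) (v c))
    (fun v : Fin n → M => IsInjection (v a) (v b) (v c)) := by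
  unfold IsInjection; simp (maxDischargeDepth := 50)

@[simp] theorem PD.isTransitive (a : Fin n) : PD j (fun v : Fin n → M₀ => IsTransitive (v a))
    (fun v : Fin n → M => IsTransitive (v a)) := by
  unfold IsTransitive; simp (maxDischargeDepth := 50)

@[simp] theorem PD.isOrdinal (a : Fin n) : PD j (fun v : Fin n → M₀ => IsOrdinal (v a))
    (fun v : Fin n → M => IsOrdinal (v a)) := by
  unfold IsOrdinal; simp (maxDischargeDepth := 50)

@[simp] theorem PD.isCardinal (a : Fin n) : PD j (fun v : Fin n → M₀ => IsCardinal (v a))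
    (fun v : Fin n → M => IsCardinal (v a)) := by
  unfold IsCardinal; simp (maxDischargeDepth := 50)

@[simp] theorem PD.isInductive (a : Fin n) : PD j (fun v : Fin n → M₀ => IsInductive (v a))
    (fun v : Fin n → M => IsInductive (v a)) := by
  unfold IsInductive; simp (maxDischargeDepth := 50)

@[simp] theorem PD.isOmega (a : Fin n) : PD j (fun v : Fin n → M₀ => IsOmega (v a))
    (fun v : Fin n → M => IsOmega (v a)) := by
  unfold IsOmega; simp (maxDischargeDepth := 50)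

@[simp] theorem PD.injects (a b : Fin n) : PD j (fun v : Fin n → M₀ => Injects (v a) (v b))
    (fun v : Fin n → M => Injects (v a) (v b)) := by
  unfold Injects; simp (maxDischargeDepth := 50)

@[simp] theorem PD.isInfCardinal (a : Fin n) : PD j (fun v : Fin n → M₀ => IsInfCardinal (v a))
    (fun v : Fin n → M => IsInfCardinal (v a)) := by
  unfold IsInfCardinal; simp (maxDischargeDepth := 50)

@[simp] theorem PD.isPower (a b : Fin n) : PD j (fun v : Fin n → M₀ => IsPower (v a) (v b))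
    (fun v : Fin n → M => IsPower (v a) (v b)) := by
  unfold IsPower; simp (maxDischargeDepth := 50)

@[simp] theorem PD.isSuccCardinal (a b : Fin n) :
    PD j (fun v : Fin n → M₀ => IsSuccCardinal (v a) (v b))
    (fun v : Fin n → M => IsSuccCardinal (v a) (v b)) := by
  unfold IsSuccCardinal; simp (maxDischargeDepth := 50)

@[simp] theorem PD.hasCofinalityOmega (a : Fin n) :
    PD j (fun v : Fin n → M₀ => HasCofinalityOmega (v a))
    (fun v : Fin n → M => HasCofinalityOmega (v a)) := by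
  unfold HasCofinalityOmega; simp (maxDischargeDepth := 50)

@[simp] theorem PD.isSmallSubsets (a b c : Fin n) :
    PD j (fun v : Fin n → M₀ => IsSmallSubsets (v a) (v b) (v c))
    (fun v : Fin n → M => IsSmallSubsets (v a) (v b) (v c)) := by
  unfold IsSmallSubsets; simp (maxDischargeDepth := 50)

theorem isNormalFine_iff' {N : Type u} [Membership N N] (u q l s : N) : IsNormalFine u q l s ↔
    (∀ X, X ∈ u → IsSub X q) ∧ q ∈ u ∧ (∀ X, (∀ z, z ∉ X) → X ∉ u) ∧
    (∀ X Y, X ∈ u → IsSub X Y → IsSub Y q → Y ∈ u) ∧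
    (∀ X Y Z, X ∈ u → Y ∈ u → (∀ z, z ∈ Z ↔ z ∈ X ∧ z ∈ Y) → Z ∈ u) ∧
    (∀ X Y, IsSub X q → (∀ z, z ∈ Y ↔ z ∈ q ∧ z ∉ X) → X ∈ u ∨ Y ∈ u) ∧
    (∀ α g Z, α ∈ l → IsMap g α u →
      (∀ z, z ∈ Z ↔ z ∈ q ∧ ∀ i X, Val g i X → z ∈ X) → Z ∈ u) ∧
    (∀ α Z, α ∈ s → (∀ x, x ∈ Z ↔ x ∈ q ∧ α ∈ x) → Z ∈ u) ∧
    (∀ f Z, IsMap f q s → Z ∈ u → (∀ x a, x ∈ Z → Val f x a → a ∈ x) →
      ∃ β Y, Y ∈ u ∧ ∀ x, x ∈ Y → Val f x β) :=
  ⟨fun h => ⟨h.sub, h.univ, h.empty, h.mono, h.inter, h.ultra, h.complete, h.fine, h.normal⟩,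
    fun ⟨h1, h2, h3, h4, h5, h6, h7, h8, h9⟩ => ⟨h1, h2, h3, h4, h5, h6, h7, h8, h9⟩⟩

@[simp] theorem PD.isNormalFine (a b c d : Fin n) :
    PD j (fun v : Fin n → M₀ => IsNormalFine (v a) (v b) (v c) (v d))
    (fun v : Fin n → M => IsNormalFine (v a) (v b) (v c) (v d)) := by
  simp only [isNormalFine_iff']
  simp (maxDischargeDepth := 50)

@[simp] theorem PD.isSupercompact (a b : Fin n) :
    PD j (fun v : Fin n → M₀ => IsSupercompact (v a) (v b))
    (fun v : Fin n → M => IsSupercompact (v a) (v b)) := by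
  unfold IsSupercompact; simp (maxDischargeDepth := 50)

end

/-! ### The theorem -/

theorem transferZ {M M₀ : Type u} [Membership M M] [Membership M₀ M₀] [IsZFC M] {j : M₀ → M}
    (h : ∀ {p₀ p : Prop}, PD j (fun _ : Fin 0 → M₀ => p₀) (fun _ : Fin 0 → M => p) → (p₀ ↔ p)) :
    IsZFC M₀ := by
  · constructor
    · exact (h (p := ∀ x y : M, (∀ z : M, z ∈ x ↔ z ∈ y) → x = y)
        (by simp (maxDischargeDepth := 50))).2 IsZFC.ext
    · exact (h (p := ∀ x : M, (∃ y : M, y ∈ x) → ∃ y : M, y ∈ x ∧ ∀ z : M, z ∈ y → z ∉ x)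
        (by simp (maxDischargeDepth := 50))).2 IsZFC.found
    · exact (h (p := ∀ x y : M, ∃ z : M, x ∈ z ∧ y ∈ z)
        (by simp (maxDischargeDepth := 50))).2 IsZFC.pairing
    · exact (h (p := ∀ x : M, ∃ u : M, ∀ y z : M, z ∈ y → y ∈ x → z ∈ u)
        (by simp (maxDischargeDepth := 50))).2 IsZFC.union
    · exact (h (p := ∀ x : M, ∃ p : M, ∀ y : M, (∀ z : M, z ∈ y → z ∈ x) → y ∈ p)
        (by simp (maxDischargeDepth := 50))).2 IsZFC.power
    · exact (h (p := ∃ x : M, (∃ e : M, e ∈ x ∧ ∀ z : M, z ∉ e) ∧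
        ∀ y : M, y ∈ x → ∃ s : M, s ∈ x ∧ ∀ z : M, z ∈ s ↔ z ∈ y ∨ z = y)
        (by simp (maxDischargeDepth := 50))).2 IsZFC.infinity
    · intro φ
      exact (h (p := ∀ a : M, ∃ b : M, ∀ x : M, x ∈ b ↔ x ∈ a ∧
        (mapP j φ).Sat ![x]) (by simp (maxDischargeDepth := 50))).2
        (IsZFC.separation _)
    · intro φ
      exact (h (p := ∀ a : M, (∀ x : M, x ∈ a → ∃! y : M,
        (mapP j φ).Sat ![x, y]) → ∃ b : M, ∀ x : M, x ∈ a → ∃ y : M, y ∈ b ∧
        (mapP j φ).Sat ![x, y]) (by simp (maxDischargeDepth := 50))).2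
        (IsZFC.replacement _)
    · exact (h (p := ∀ a : M, (∀ x : M, x ∈ a → ∃ y : M, y ∈ x) →
        (∀ x y : M, x ∈ a → y ∈ a → x ≠ y → ∀ z : M, z ∈ x → z ∉ y) →
        ∃ c : M, ∀ x : M, x ∈ a → ∃! y : M, y ∈ x ∧ y ∈ c)
        (by simp (maxDischargeDepth := 50))).2 IsZFC.choice

theorem transfer {M M₀ : Type u} [Membership M M] [Membership M₀ M₀] [IsZFC M] {j : M₀ → M}
    (h : ∀ {p₀ p : Prop}, PD j (fun _ : Fin 0 → M₀ => p₀) (fun _ : Fin 0 → M => p) → (p₀ ↔ p))
    (hG : GCH M) (hS : ∃ l κ s : M, IsCardinal κ ∧ HasCofinalityOmega κ ∧ l ∈ κ ∧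
      IsSuccCardinal s κ ∧ IsSupercompact l s) :
    IsZFC M₀ ∧ GCH M₀ ∧ ∃ l κ s : M₀, IsCardinal κ ∧ HasCofinalityOmega κ ∧ l ∈ κ ∧
      IsSuccCardinal s κ ∧ IsSupercompact l s := by
  refine ⟨transferZ h, ?_, ?_⟩
  · exact (h (p := GCH M) (by unfold GCH; simp (maxDischargeDepth := 50))).2 hG
  · exact (h (p := ∃ l κ s : M, IsCardinal κ ∧ HasCofinalityOmega κ ∧ l ∈ κ ∧
      IsSuccCardinal s κ ∧ IsSupercompact l s) (by simp (maxDischargeDepth := 50))).2 hS

/-- Countable models. -/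
theorem loew (M : Type u) [Membership M M] [IsZFC M] (hG : GCH M)
    (hS : ∃ l κ s : M, IsCardinal κ ∧ HasCofinalityOmega κ ∧ l ∈ κ ∧ IsSuccCardinal s κ ∧
      IsSupercompact l s) :
    ∃ (M₀ : Type u) (_ : Membership M₀ M₀) (_ : IsZFC M₀), Countable M₀ ∧ GCH M₀ ∧
      ∃ l κ s : M₀, IsCardinal κ ∧ HasCofinalityOmega κ ∧ l ∈ κ ∧ IsSuccCardinal s κ ∧
        IsSupercompact l s := by
  have hne : Nonempty M := ⟨(exists_em (M := M)).choose⟩
  obtain ⟨S, hc, -, hS'⟩ := exists_full (M := M)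
  let inst : Membership S S := subMem S
  obtain ⟨h1, h2, h3⟩ := transfer (M := M) (M₀ := S) (j := Subtype.val)
    (fun {p₀ p} h => hS'.closed h) hG hS
  exact ⟨S, subMem S, h1, hc.to_subtype, h2, h3⟩

/-- Countable models with a supercompact cardinal. -/
theorem loewSC (M : Type u) [Membership M M] [IsZFC M]
    (hS : ∃ l : M, ∀ s : M, IsOrdinal s → IsSupercompact l s) :
    ∃ (M₀ : Type u) (_ : Membership M₀ M₀) (_ : IsZFC M₀), Countable M₀ ∧
      ∃ l : M₀, ∀ s : M₀, IsOrdinal s → IsSupercompact l s := by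
  have hne : Nonempty M := ⟨(exists_em (M := M)).choose⟩
  obtain ⟨S, hc, -, hS'⟩ := exists_full (M := M)
  let inst : Membership S S := subMem S
  have h1 := transferZ (M := M) (M₀ := S) (j := Subtype.val) (fun {p₀ p} h => hS'.closed h)
  have key : ∀ {M₀ : Type u} [Membership M₀ M₀] {j : M₀ → M},
      (∀ {p₀ p : Prop}, PD j (fun _ : Fin 0 → M₀ => p₀) (fun _ : Fin 0 → M => p) →
        (p₀ ↔ p)) → ∃ l : M₀, ∀ s : M₀, IsOrdinal s → IsSupercompact l s := by
    intro M₀ _ j h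
    exact (h (p := ∃ l : M, ∀ s : M, IsOrdinal s → IsSupercompact l s)
      (by simp (maxDischargeDepth := 50))).2 hS
  exact ⟨S, subMem S, h1, hc.to_subtype,
    key (M₀ := S) (j := Subtype.val) (fun {p₀ p} h => hS'.closed h)⟩

end Pool.Agent.Forc
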