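import Pool.Agent.SigB.Rec

/-!
# Comparison of cardinalities inside a model of ZFC
-/

universe u

set_option linter.unusedSectionVars false

namespace Pool.Agent.Forc

open Pool.Agent.SigB

variable {M : Type u} [Membership M M] [IsZFC M]

/-- The function `f` is injective on `A`. -/
def Inj (f A : M) : Prop := ∀ x y, x ∈ A → y ∈ A → ap f x = ap f y → x = y

theorem Inj.dfn : Dfn (fun w : Fin 2 → M => Inj (w 0) (w 1)) := by
  unfold Inj; simp (maxDischargeDepth := 50)

@[simp] theorem dfn_Inj {n : ℕ} {s t : (Fin n → M) → M} (hs : DT s) (ht : DT t) :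
    Dfn (fun v => Inj (s v) (t v)) := dfn2 Inj.dfn hs ht

/-- `A` injects into `B`. -/
def Le (A B : M) : Prop := ∃ f, f ∈ fs A B ∧ Inj f A

theorem Le.dfn : Dfn (fun w : Fin 2 → M => Le (w 0) (w 1)) := by
  unfold Le; simp (maxDischargeDepth := 50)

@[simp] theorem dfn_Le {n : ℕ} {s t : (Fin n → M) → M} (hs : DT s) (ht : DT t) :
    Dfn (fun v => Le (s v) (t v)) := dfn2 Le.dfn hs ht

/-- An injection given by a definable class function. -/
theorem Le.mk {A B : M} {F : M → M} (hF : DT (fun w : Fin 1 → M => F (w 0)))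
    (h : ∀ x, x ∈ A → F x ∈ B) (hi : ∀ x y, x ∈ A → y ∈ A → F x = F y → x = y) : Le A B :=
  ⟨lam A F, lam_mem_fs hF h, fun x y hx hy he => by
    rw [ap_lam hF hx, ap_lam hF hy] at he
    exact hi x y hx hy he⟩

theorem Le.of_sb {A B : M} (h : Sb A B) : Le A B :=
  Le.mk (F := fun x => x) (by simp) h fun _ _ _ _ h => h

theorem Le.refl (A : M) : Le A A := Le.of_sb (Sb.refl A)

theorem Le.trans {A B C : M} (h : Le A B) (h' : Le B C) : Le A C := by
  obtain ⟨f, hf, hfi⟩ := h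
  obtain ⟨g, hg, hgi⟩ := h'
  refine Le.mk (F := fun x => ap g (ap f x)) (by simp (maxDischargeDepth := 50)) ?_ ?_
  · exact fun x hx => (mem_fs.1 hg).2 _ ((mem_fs.1 hf).2 x hx)
  · exact fun x y hx hy he => hfi x y hx hy
      (hgi _ _ ((mem_fs.1 hf).2 x hx) ((mem_fs.1 hf).2 y hy) he)

theorem Le.mono_left {A B C : M} (h : Le A B) (h' : Sb C A) : Le C B := (Le.of_sb h').trans h

theorem Le.mono_right {A B C : M} (h : Le A B) (h' : Sb B C) : Le A C := h.trans (Le.of_sb h')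

/-- The first coordinate of an ordered pair. -/
noncomputable def fst (z : M) : M := cp fun w => ∃ x, ∃ y, z = op x y ∧ w ∈ x

/-- The second coordinate of an ordered pair. -/
noncomputable def snd (z : M) : M := cp fun w => ∃ x, ∃ y, z = op x y ∧ w ∈ y

@[simp] theorem fst_op (x y : M) : fst (op x y) = x := by
  have h : ∀ w : M, (∃ x', ∃ y', op x y = op x' y' ∧ w ∈ x') ↔ w ∈ x := by
    intro w
    constructor
    · rintro ⟨x', y', h, hw⟩
      rw [(op_inj.1 h).1]; exact hw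
    · exact fun hw => ⟨x, y, rfl, hw⟩
  refine ext' fun w => ?_
  unfold fst
  rw [mem_cp ⟨x, fun w => (h w).symm⟩, h]

@[simp] theorem snd_op (x y : M) : snd (op x y) = y := by
  have h : ∀ w : M, (∃ x', ∃ y', op x y = op x' y' ∧ w ∈ y') ↔ w ∈ y := by
    intro w
    constructor
    · rintro ⟨x', y', h, hw⟩
      rw [(op_inj.1 h).2]; exact hw
    · exact fun hw => ⟨x, y, rfl, hw⟩
  refine ext' fun w => ?_
  unfold snd
  rw [mem_cp ⟨y, fun w => (h w).symm⟩, h]

theorem fst.dt : DT (fun w : Fin 1 → M => fst (w 0)) := by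
  unfold fst; simp (maxDischargeDepth := 50)

@[simp] theorem dt_fst {n : ℕ} {s : (Fin n → M) → M} (hs : DT s) :
    DT (fun v => fst (s v)) := dt1 fst.dt hs

theorem snd.dt : DT (fun w : Fin 1 → M => snd (w 0)) := by
  unfold snd; simp (maxDischargeDepth := 50)

@[simp] theorem dt_snd {n : ℕ} {s : (Fin n → M) → M} (hs : DT s) :
    DT (fun v => snd (s v)) := dt1 snd.dt hs

theorem Le.pd {A B C D : M} (h : Le A B) (h' : Le C D) : Le (pd A C) (pd B D) := by
  obtain ⟨f, hf, hfi⟩ := h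
  obtain ⟨g, hg, hgi⟩ := h'
  refine Le.mk (F := fun z => op (ap f (fst z)) (ap g (snd z)))
    (by simp (maxDischargeDepth := 50)) ?_ ?_
  · intro z hz
    obtain ⟨x, hx, y, hy, rfl⟩ := mem_pd.1 hz
    simp only [fst_op, snd_op]
    exact op_mem_pd.2 ⟨(mem_fs.1 hf).2 x hx, (mem_fs.1 hg).2 y hy⟩
  · intro z w hz hw he
    obtain ⟨x, hx, y, hy, rfl⟩ := mem_pd.1 hz
    obtain ⟨x', hx', y', hy', rfl⟩ := mem_pd.1 hw
    simp only [fst_op, snd_op] at he
    obtain ⟨h1, h2⟩ := op_inj.1 he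
    rw [hfi x x' hx hx' h1, hgi y y' hy hy' h2]

/-- The image of a set which injects into an ordinal. -/
theorem Le.image {A B α : M} (hα : Ord α) (h : Le A α) {F : M → M}
    (hF : DT (fun w : Fin 1 → M => F (w 0))) (hB : ∀ y, y ∈ B → ∃ x, x ∈ A ∧ y = F x) :
    Le B α := by
  obtain ⟨f, hf, hfi⟩ := h
  have hF' : ∀ {n : ℕ} {s : (Fin n → M) → M}, DT s → DT fun v => F (s v) := fun hs => dt1 hF hs
  -- for every `y` the least code of an `x` with `F x = y`
  obtain ⟨g, hg, hg'⟩ := choice' (a := B) (b := α)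
    (P := fun y i => ∃ x, x ∈ A ∧ y = F x ∧ i = ap f x)
    (by simp (maxDischargeDepth := 50) [hF']) (by
      intro y hy
      obtain ⟨x, hx, hxy⟩ := hB y hy
      exact ⟨ap f x, (mem_fs.1 hf).2 x hx, x, hx, hxy, rfl⟩)
  refine ⟨g, hg, fun y y' hy hy' he => ?_⟩
  obtain ⟨x, hx, h1, h2⟩ := hg' y hy
  obtain ⟨x', hx', h1', h2'⟩ := hg' y' hy'
  rw [he, h2'] at h2
  rw [h1, h1', hfi x' x hx' hx h2]

/-- The set of finite subsets. -/
noncomputable def Fs (A : M) : M := cp fun s => Sb s A ∧ Fi s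

theorem mem_Fs {A s : M} : s ∈ Fs A ↔ Sb s A ∧ Fi s := by
  unfold Fs
  refine mem_cp' (by simp (maxDischargeDepth := 50)) ⟨pw A, ?_⟩
  exact fun s hs => mem_pw.2 hs.1

theorem Fs.dt : DT (fun w : Fin 1 → M => Fs (w 0)) := by
  unfold Fs; simp (maxDischargeDepth := 50)

@[simp] theorem dt_Fs {n : ℕ} {s : (Fin n → M) → M} (hs : DT s) :
    DT (fun v => Fs (s v)) := dt1 Fs.dt hs

end Pool.Agent.Forc
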