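import Pool.Agent.SigB.Defs

/-!
The notions of set theory used in the statement, evaluated in a structure `(M, ∈)`. The file
`Pool.Agent.SigB.Defs` has: `IsZFC`, `IsSub`, `IsPair`, `IsOrdPair`, `Val`, `IsMap`,
`IsInjection`, `IsTransitive`, `IsOrdinal`, `IsCardinal`, `IsOmega`, `MemH`.
-/

universe u

namespace Pool.Agent.Forc

open Pool.Agent.SigB

variable {M : Type u} [Membership M M]

/-! ### Cardinals -/

/-- There is an injective function from `a` to `b`. -/
def Injects (a b : M) : Prop := ∃ f, IsInjection f a b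

/-- `a` is finite: it injects into a natural number. -/
def IsFinite (a : M) : Prop := ∃ o n : M, IsOmega o ∧ n ∈ o ∧ Injects a n

/-- `a` is countable: it injects into `ω`. -/
def IsCountable (a : M) : Prop := ∃ o, IsOmega o ∧ Injects a o

/-- `κ` is an infinite cardinal. -/
def IsInfCardinal (κ : M) : Prop := IsCardinal κ ∧ ∃ o, IsOmega o ∧ IsSub o κ

/-- `p` is the power set of `x`. -/
def IsPower (p x : M) : Prop := ∀ y, y ∈ p ↔ IsSub y x

/-- `t = s ∪ {s}`. -/
def IsSucc (t s : M) : Prop := ∀ z, z ∈ t ↔ z ∈ s ∨ z = s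

/-- `w = ω₁`: an uncountable ordinal all of whose elements are countable. -/
def IsOmegaOne (w : M) : Prop := IsOrdinal w ∧ ¬ IsCountable w ∧ ∀ x, x ∈ w → IsCountable x

/-- `s = κ⁺`: a cardinal greater than `κ` all of whose elements inject into `κ`. -/
def IsSuccCardinal (s κ : M) : Prop := IsCardinal s ∧ κ ∈ s ∧ ∀ x, x ∈ s → Injects x κ

/-- `κ` has cofinality `ω`: `κ` is the union of a sequence of elements of `κ` indexed by `ω`. -/
def HasCofinalityOmega (κ : M) : Prop :=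
  ∃ o c, IsOmega o ∧ IsMap c o κ ∧ ∀ x, x ∈ κ → ∃ n a, Val c n a ∧ x ∈ a

/-- `θ` is a regular cardinal: an infinite cardinal in which the values of a function from an
element of `θ` to `θ` are bounded. -/
def IsRegular (θ : M) : Prop :=
  IsInfCardinal θ ∧ ∀ α f, α ∈ θ → IsMap f α θ → ∃ β, β ∈ θ ∧ ∀ i a, Val f i a → a ∈ β

variable (M) in
/-- The generalized continuum hypothesis: the power set of an infinite cardinal `κ` injects into
every cardinal greater than `κ`. -/
def GCH : Prop := ∀ κ ν p : M, IsInfCardinal κ → IsCardinal ν → κ ∈ ν → IsPower p κ → Injects p ν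

variable (M) in
/-- The continuum hypothesis: the power set of `ω` injects into `ω₁`. -/
def CH : Prop := ∀ o w p : M, IsOmega o → IsOmegaOne w → IsPower p o → Injects p w

/-! ### Supercompactness -/

/-- `q = P_l(s)`: the elements of `q` are the subsets of `s` of size less than `l`. -/
def IsSmallSubsets (q l s : M) : Prop := ∀ x, x ∈ q ↔ IsSub x s ∧ ∃ α, α ∈ l ∧ Injects x α

/-- `u` is a normal fine `l`-complete ultrafilter on `q = P_l(s)`. -/
structure IsNormalFine (u q l s : M) : Prop where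
  sub : ∀ X, X ∈ u → IsSub X q
  univ : q ∈ u
  empty : ∀ X, (∀ z, z ∉ X) → X ∉ u
  mono : ∀ X Y, X ∈ u → IsSub X Y → IsSub Y q → Y ∈ u
  inter : ∀ X Y Z, X ∈ u → Y ∈ u → (∀ z, z ∈ Z ↔ z ∈ X ∧ z ∈ Y) → Z ∈ u
  ultra : ∀ X Y, IsSub X q → (∀ z, z ∈ Y ↔ z ∈ q ∧ z ∉ X) → X ∈ u ∨ Y ∈ u
  complete : ∀ α g Z, α ∈ l → IsMap g α u →
    (∀ z, z ∈ Z ↔ z ∈ q ∧ ∀ i X, Val g i X → z ∈ X) → Z ∈ u
  fine : ∀ α Z, α ∈ s → (∀ x, x ∈ Z ↔ x ∈ q ∧ α ∈ x) → Z ∈ u
  normal : ∀ f Z, IsMap f q s → Z ∈ u → (∀ x a, x ∈ Z → Val f x a → a ∈ x) →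
    ∃ β Y, Y ∈ u ∧ ∀ x, x ∈ Y → Val f x β

/-- The uncountable cardinal `l` is `s`-supercompact: there is a normal fine `l`-complete
ultrafilter on `P_l(s)`. -/
def IsSupercompact (l s : M) : Prop :=
  IsCardinal l ∧ (∃ o, IsOmega o ∧ o ∈ l) ∧ ∃ q u, IsSmallSubsets q l s ∧ IsNormalFine u q l s

/-! ### Cohen forcing `C(κ)` -/

/-- `t = 2 = {0, 1}`, where `0 = ∅` and `1 = {∅}`. -/
def IsTwo (t : M) : Prop :=
  ∃ z e : M, (∀ w, w ∉ z) ∧ (∀ w, w ∈ e ↔ w = z) ∧ IsPair t z e

/-- `c = 2^κ`: the set of functions from `κ` to `{0, 1}`. -/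
def IsCantor (c κ : M) : Prop := ∃ t, IsTwo t ∧ ∀ f, f ∈ c ↔ IsMap f κ t

/-- The functions `f` and `g` agree on `s`. -/
def Agree (f g s : M) : Prop := ∀ i v, i ∈ s → (Val f i v ↔ Val g i v)

/-- `U` is an open subset of `c = 2^κ` in the product topology. -/
def IsOpen (U c κ : M) : Prop :=
  IsSub U c ∧ ∀ f, f ∈ U → ∃ s, IsFinite s ∧ IsSub s κ ∧ ∀ g, g ∈ c → Agree f g s → g ∈ U

/-- `Y` is the complement of `X` in `c`. -/
def IsCompl (Y X c : M) : Prop := ∀ z, z ∈ Y ↔ z ∈ c ∧ z ∉ X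

/-- `U` is a clopen subset of `c = 2^κ`. -/
def IsClopen (U c κ : M) : Prop := IsOpen U c κ ∧ ∃ V, IsCompl V U c ∧ IsOpen V c κ

/-- `S` is a `σ`-algebra of subsets of `c`. -/
structure IsSigmaAlgebra (S c : M) : Prop where
  sub : ∀ X, X ∈ S → IsSub X c
  compl : ∀ X Y, X ∈ S → IsCompl Y X c → Y ∈ S
  union : ∀ o g Z, IsOmega o → IsMap g o S → (∀ z, z ∈ Z ↔ ∃ n X, Val g n X ∧ z ∈ X) → Z ∈ S

/-- `X` is a Baire subset of `c = 2^κ`: it belongs to the smallest `σ`-algebra containing the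
clopen sets. -/
def IsBaire (X c κ : M) : Prop :=
  ∀ S, IsSigmaAlgebra S c → (∀ U, IsClopen U c κ → U ∈ S) → X ∈ S

/-- `A` is nowhere dense in `c = 2^κ`: every nonempty open set includes a nonempty open set
disjoint from `A`. -/
def IsNowhereDense (A c κ : M) : Prop :=
  ∀ U, IsOpen U c κ → (∃ f, f ∈ U) →
    ∃ V, IsOpen V c κ ∧ (∃ f, f ∈ V) ∧ IsSub V U ∧ ∀ f, f ∈ V → f ∉ A

/-- `A` is meager in `c = 2^κ`: it is covered by a sequence of nowhere dense sets indexed by
`ω`. -/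
def IsMeager (A c κ : M) : Prop :=
  ∃ o g T, IsOmega o ∧ IsMap g o T ∧ (∀ n X, Val g n X → IsNowhereDense X c κ) ∧
    ∀ f, f ∈ A → ∃ n X, Val g n X ∧ f ∈ X

/-- The difference of `X` and `Y` is meager. -/
def LeMod (X Y c κ : M) : Prop := ∃ D, (∀ z, z ∈ D ↔ z ∈ X ∧ z ∉ Y) ∧ IsMeager D c κ

/-- `(P, R)` is Cohen forcing `C(κ)`: the elements of `P` are the classes modulo the meager ideal
of the Baire subsets of `2^κ` which are not meager, and `R` is the set of pairs `(p, q)` of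
elements of `P` such that `X` is almost included in `Y` for the elements `X` of `p` and `Y`
of `q`. -/
def IsCohen (P R κ : M) : Prop :=
  ∃ c : M, IsCantor c κ ∧
    (∀ p, p ∈ P ↔ ∃ X, IsBaire X c κ ∧ ¬ IsMeager X c κ ∧
      ∀ Y, Y ∈ p ↔ IsBaire Y c κ ∧ LeMod X Y c κ ∧ LeMod Y X c κ) ∧
    ∀ z, z ∈ R ↔ ∃ p q, p ∈ P ∧ q ∈ P ∧ IsOrdPair z p q ∧
      ∀ X Y, X ∈ p → Y ∈ q → LeMod X Y c κ

/-! ### Names -/

/-- `(P, R)` is a partial order: `R` is the set of pairs `(p, q)` of elements of `P` with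
`p ≤ q`. -/
structure IsPartialOrder (P R : M) : Prop where
  field : ∀ z, z ∈ R → ∃ p q, p ∈ P ∧ q ∈ P ∧ IsOrdPair z p q
  refl : ∀ p, p ∈ P → Val R p p
  antisymm : ∀ p q, Val R p q → Val R q p → p = q
  trans : ∀ p q r, Val R p q → Val R q r → Val R p r

/-- `e` is the largest element of the partial order `(P, R)`. -/
def IsTop (e P R : M) : Prop := e ∈ P ∧ ∀ p, p ∈ P → Val R p e

/-- `p` and `q` have no common lower bound in `(P, R)`. -/
def Incompatible (p q P R : M) : Prop := ∀ r, r ∈ P → ¬ (Val R r p ∧ Val R r q)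

/-- `y` is the canonical name of `x`, where `e` is the largest condition. The function `h` on the
transitive set `t` satisfies `h a = {(h b, e) : b ∈ a}`. -/
def IsCheck (y x e : M) : Prop :=
  ∃ t h T : M, IsTransitive t ∧ IsMap h t T ∧
    (∀ a a', Val h a a' → ∀ z, z ∈ a' ↔ ∃ b b', b ∈ a ∧ Val h b b' ∧ IsOrdPair z b' e) ∧
    Val h x y

/-- `a` is a nice name for a subset of `ω`: a union of sets `{n̂} × A n`, where `n̂` is the canonical
name of `n ∈ ω` and `A n` is an antichain of `(P, R)`. -/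
def IsNiceName (a P R : M) : Prop :=
  ∃ e o : M, IsTop e P R ∧ IsOmega o ∧
    (∀ z, z ∈ a → ∃ n c p, n ∈ o ∧ IsCheck c n e ∧ p ∈ P ∧ IsOrdPair z c p) ∧
    ∀ c p q, Val a c p → Val a c q → p ≠ q → Incompatible p q P R

/-- `H` is an automorphism of the partial order `(P, R)`. -/
def IsAut (H P R : M) : Prop :=
  IsInjection H P P ∧ (∀ q, q ∈ P → ∃ p, Val H p q) ∧
    ∀ p q p' q', Val H p p' → Val H q q' → (Val R p q ↔ Val R p' q')

/-- `a' = H(a)`, where the automorphism `H` acts recursively on names. The function `h` on the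
transitive set `t` satisfies `h b = {(h c, H p) : (c, p) ∈ b}`. -/
def IsAction (a' H a : M) : Prop :=
  ∃ t h T : M, IsTransitive t ∧ IsMap h t T ∧
    (∀ b b', Val h b b' → ∀ z, z ∈ b' ↔
      ∃ c p c' p', Val b c p ∧ Val h c c' ∧ Val H p p' ∧ IsOrdPair z c' p') ∧
    Val h a a'

/-! ### Elementary submodels of `(H(θ), ∈, W)` -/

/-- The triple `(n, X, Y)` belongs to `T`. -/
def Has (T n X Y : M) : Prop := ∃ p t : M, IsOrdPair p X Y ∧ IsOrdPair t n p ∧ t ∈ T

/-- `X` is the set of `n`-tuples of elements of `h` (functions from `n` to `h`) for which `Q`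
holds. -/
def IsRel (X n h : M) (Q : M → Prop) : Prop := ∀ s, s ∈ X ↔ IsMap s n h ∧ Q s

/-- `s'` is the tuple `s` of length `n` followed by `a`. -/
def IsAppend (s' s n a : M) : Prop := ∀ z, z ∈ s' ↔ z ∈ s ∨ IsOrdPair z n a

/-- `T` contains the triple `(n, X, Y)` for every formula `φ` in the variables `x 0, …, x (n - 1)`
of the language of `(h, ∈, W)`, where `X` and `Y` are the relations defined by `φ` in `(h, ∈, W)`
and in `(b, ∈, W)`: it contains the relations given by the atomic formulas and is closed under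
negation, conjunction and existential quantification. -/
structure IsSatFamily (T h b W : M) : Prop where
  mem : ∀ o n i j X Y : M, IsOmega o → n ∈ o → i ∈ n → j ∈ n →
    IsRel X n h (fun s => ∃ x y, Val s i x ∧ Val s j y ∧ x ∈ y) →
    IsRel Y n b (fun s => ∃ x y, Val s i x ∧ Val s j y ∧ x ∈ y) → Has T n X Y
  eq : ∀ o n i j X Y : M, IsOmega o → n ∈ o → i ∈ n → j ∈ n →
    IsRel X n h (fun s => ∃ x, Val s i x ∧ Val s j x) →
    IsRel Y n b (fun s => ∃ x, Val s i x ∧ Val s j x) → Has T n X Y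
  ord : ∀ o n i j X Y : M, IsOmega o → n ∈ o → i ∈ n → j ∈ n →
    IsRel X n h (fun s => ∃ x y, Val s i x ∧ Val s j y ∧ Val W x y) →
    IsRel Y n b (fun s => ∃ x y, Val s i x ∧ Val s j y ∧ Val W x y) → Has T n X Y
  neg : ∀ n X Y X' Y' : M, Has T n X Y → IsRel X' n h (fun s => s ∉ X) →
    IsRel Y' n b (fun s => s ∉ Y) → Has T n X' Y'
  and : ∀ n X Y X' Y' X'' Y'' : M, Has T n X Y → Has T n X' Y' →
    IsRel X'' n h (fun s => s ∈ X ∧ s ∈ X') → IsRel Y'' n b (fun s => s ∈ Y ∧ s ∈ Y') →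
    Has T n X'' Y''
  ex : ∀ m n X Y X' Y' : M, IsSucc m n → Has T m X Y →
    IsRel X' n h (fun s => ∃ a s', a ∈ h ∧ IsAppend s' s n a ∧ s' ∈ X) →
    IsRel Y' n b (fun s => ∃ a s', a ∈ b ∧ IsAppend s' s n a ∧ s' ∈ Y) → Has T n X' Y'

/-- `(b, ∈, W)` is an elementary submodel of `(h, ∈, W)`: `b` is a subset of `h`, and if `X` and `Y`
are defined by the same formula in `(h, ∈, W)` and in `(b, ∈, W)` then the tuples of elements of
`b` which belong to `Y` are those which belong to `X`. -/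
def IsElementary (b h W : M) : Prop :=
  IsSub b h ∧ ∀ n X Y : M, (∀ T, IsSatFamily T h b W → Has T n X Y) →
    ∀ s, IsMap s n b → (s ∈ Y ↔ s ∈ X)

/-- `h = H(θ)`. -/
def IsH (h θ : M) : Prop := ∀ x, x ∈ h ↔ MemH θ x

/-- `W` is a well-ordering of `h` (the set of pairs `(x, y)` with `x ≤ y`). -/
structure IsWellOrder (W h : M) : Prop where
  field : ∀ z, z ∈ W → ∃ x y : M, x ∈ h ∧ y ∈ h ∧ IsOrdPair z x y
  refl : ∀ x, x ∈ h → Val W x x
  antisymm : ∀ x y, Val W x y → Val W y x → x = y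
  trans : ∀ x y z, Val W x y → Val W y z → Val W x z
  least : ∀ S : M, IsSub S h → (∃ x, x ∈ S) → ∃ m, m ∈ S ∧ ∀ x, x ∈ S → Val W m x

/-! ### The transformation property -/

/-- `b` belongs to `Sub(θ)`, where `h = H(θ)`, and contains the partial order `(P, R)`. -/
def IsSubmodel (b P R h W : M) : Prop :=
  IsCountable b ∧ IsElementary b h W ∧ ∃ p : M, IsOrdPair p P R ∧ p ∈ b

/-- `δ_b ≤ δ_b'`, where `δ_b = b ∩ ω₁`. -/
def HeightLe (b b' : M) : Prop := ∀ w : M, IsOmegaOne w → ∀ x, x ∈ w → x ∈ b → x ∈ b'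

/-- The transformation property of the partial order `(P, R)` at `(h, W)`, where `h = H(θ)`, for
nice names: for every `n ∈ ω`, every `δ`-increasing sequence `B 0, …, B n` of countable
elementary submodels of `(h, ∈, W)` containing `(P, R)` and all nice names `A i ∈ B i` for subsets
of `ω` there is an automorphism `H` of `(P, R)` with `H(A i) ∈ B n` for all `i ≤ n` and
`H(A n) = A n`. -/
def TPAt (P R h W : M) : Prop :=
  ∀ o n m B A S T : M, IsOmega o → n ∈ o → IsSucc m n → IsMap B m S → IsMap A m T →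
    (∀ i b, Val B i b → IsSubmodel b P R h W) →
    (∀ i j b b', IsSucc j i → Val B i b → Val B j b' → HeightLe b b') →
    (∀ i b a, Val B i b → Val A i a → a ∈ b ∧ IsNiceName a P R) →
    ∃ H, IsAut H P R ∧ (∀ i a b, Val A i a → Val B n b → ∃ a', IsAction a' H a ∧ a' ∈ b) ∧
      ∀ a, Val A n a → IsAction a H a

/-- The transformation property of `(P, R)` fails at `(H(θ), W)` for all sufficiently large regular
`θ` and all well-orderings `W` of `H(θ)`. -/
def FailsTP (P R : M) : Prop :=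
  ∃ θ₀ : M, IsOrdinal θ₀ ∧
    ∀ θ h W, θ₀ ∈ θ → IsRegular θ → IsH h θ → IsWellOrder W h → ¬ TPAt P R h W

variable (M) in
/-- There are arbitrarily large regular cardinals `θ`, and `H(θ)` is a set which has a
well-ordering for them. -/
def ManyH : Prop :=
  ∀ α : M, IsOrdinal α → ∃ θ h W : M, α ∈ θ ∧ IsRegular θ ∧ IsH h θ ∧ IsWellOrder W h

end Pool.Agent.Forc
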