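import Pool.Agent.SigB.Bridge
import Pool.Agent.Forc.Card
import Pool.Agent.Forc.Defs

/-!
# Translation of the notions of the statement into the functions used in the proofs
-/

universe u

set_option linter.unusedSectionVars false

namespace Pool.Agent.Forc

open Pool.Agent.SigB

variable {M : Type u} [Membership M M] [IsZFC M]

theorem injects_iff {a b : M} : Injects a b ↔ Le a b := by
  unfold Injects Le
  refine exists_congr fun f => ?_
  rw [isInjection_iff]
  rfl

theorem isOrdinal_iff {x : M} : IsOrdinal x ↔ Pool.Agent.SigB.Ord x := Iff.rfl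

theorem isSub_iff {x y : M} : IsSub x y ↔ Sb x y := Iff.rfl

theorem isTransitive_iff {x : M} : IsTransitive x ↔ Tr x := Iff.rfl

theorem isCardinal_iff {x : M} : IsCardinal x ↔ Pool.Agent.SigB.Ord x ∧ ∀ y, y ∈ x → ¬ Le x y := by
  unfold IsCardinal
  rw [isOrdinal_iff]
  refine and_congr_right fun _ => ?_
  constructor
  · intro h y hy hle
    obtain ⟨f, hf⟩ := injects_iff.2 hle
    exact h y f hy hf
  · intro h y f hy hf
    exact h y hy (injects_iff.1 ⟨f, hf⟩)

theorem isInfCardinal_iff {κ : M} : IsInfCardinal κ ↔ IsCardinal κ ∧ Sb om κ := by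
  unfold IsInfCardinal
  refine and_congr_right fun _ => ?_
  constructor
  · rintro ⟨o, ho, h⟩
    rw [isOmega_iff.1 ho] at h
    exact h
  · intro h
    exact ⟨om, isOmega_iff.2 rfl, h⟩

theorem isCountable_iff {a : M} : IsCountable a ↔ Le a om := by
  unfold IsCountable
  constructor
  · rintro ⟨o, ho, h⟩
    rw [isOmega_iff.1 ho] at h
    exact injects_iff.1 h
  · intro h
    exact ⟨om, isOmega_iff.2 rfl, injects_iff.2 h⟩

theorem isFinite_iff {a : M} : IsFinite a ↔ ∃ n, n ∈ (om : M) ∧ Le a n := by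
  unfold IsFinite
  constructor
  · rintro ⟨o, n, ho, hn, h⟩
    rw [isOmega_iff.1 ho] at hn
    exact ⟨n, hn, injects_iff.1 h⟩
  · rintro ⟨n, hn, h⟩
    exact ⟨om, n, isOmega_iff.2 rfl, hn, injects_iff.2 h⟩

theorem isPower_iff {p x : M} : IsPower p x ↔ p = pw x := by
  constructor
  · intro h
    exact ext' fun y => by rw [h y, mem_pw]; rfl
  · rintro rfl y
    rw [mem_pw]; rfl

theorem isSucc_iff {t s : M} : IsSucc t s ↔ t = sc s := by
  constructor
  · intro h
    exact ext' fun y => by rw [h y, mem_sc]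
  · rintro rfl y
    exact mem_sc

theorem isOmegaOne_iff {w : M} :
    IsOmegaOne w ↔ Pool.Agent.SigB.Ord w ∧ ¬ Le w om ∧ ∀ x, x ∈ w → Le x om := by
  unfold IsOmegaOne
  rw [isOrdinal_iff, isCountable_iff]
  refine and_congr_right fun _ => and_congr_right fun _ => ?_
  exact forall_congr' fun x => imp_congr_right fun _ => isCountable_iff

theorem isSuccCardinal_iff {s κ : M} :
    IsSuccCardinal s κ ↔ IsCardinal s ∧ κ ∈ s ∧ ∀ x, x ∈ s → Le x κ := by
  unfold IsSuccCardinal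
  refine and_congr_right fun _ => and_congr_right fun _ => ?_
  exact forall_congr' fun x => imp_congr_right fun _ => injects_iff

theorem isSmallSubsets_iff {q l s : M} :
    IsSmallSubsets q l s ↔ ∀ x, x ∈ q ↔ Sb x s ∧ ∃ α, α ∈ l ∧ Le x α := by
  unfold IsSmallSubsets
  refine forall_congr' fun x => iff_congr Iff.rfl (and_congr Iff.rfl ?_)
  exact exists_congr fun α => and_congr_right fun _ => injects_iff

/-- Cofinality `ω` in terms of a sequence. -/
theorem hasCofinalityOmega_iff {κ : M} : HasCofinalityOmega κ ↔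
    ∃ c, c ∈ fs (om : M) κ ∧ ∀ x, x ∈ κ → ∃ n, n ∈ (om : M) ∧ x ∈ ap c n := by
  unfold HasCofinalityOmega
  constructor
  · rintro ⟨o, c, ho, hc, h⟩
    rw [isOmega_iff.1 ho] at hc
    refine ⟨c, isMap_iff.1 hc, fun x hx => ?_⟩
    obtain ⟨n, a, h1, h2⟩ := h x hx
    obtain ⟨h3, rfl⟩ := (val_map hc).1 h1
    exact ⟨n, h3, h2⟩
  · rintro ⟨c, hc, h⟩
    refine ⟨om, c, isOmega_iff.2 rfl, isMap_iff.2 hc, fun x hx => ?_⟩
    obtain ⟨n, hn, hxn⟩ := h x hx
    exact ⟨n, ap c n, (val_map (isMap_iff.2 hc)).2 ⟨hn, rfl⟩, hxn⟩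

theorem isRegular_iff {θ : M} : IsRegular θ ↔ IsInfCardinal θ ∧
    ∀ α f, α ∈ θ → f ∈ fs α θ → ∃ β, β ∈ θ ∧ ∀ i, i ∈ α → ap f i ∈ β := by
  unfold IsRegular
  refine and_congr_right fun _ => forall_congr' fun α => forall_congr' fun f =>
    imp_congr_right fun _ => ?_
  rw [isMap_iff]
  refine forall_congr' fun hf => exists_congr fun β => and_congr_right fun _ => ?_
  constructor
  · intro h i hi
    exact h i _ ((val_map (isMap_iff.2 hf)).2 ⟨hi, rfl⟩)
  · intro h i a hia
    obtain ⟨hi, rfl⟩ := (val_map (isMap_iff.2 hf)).1 hia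
    exact h i hi

theorem memH_iff {θ x : M} :
    MemH θ x ↔ ∃ t α, Tr t ∧ x ∈ t ∧ α ∈ θ ∧ Le t α := by
  unfold MemH
  constructor
  · rintro ⟨t, α, f, h1, h2, h3, h4⟩
    exact ⟨t, α, h1, h2, h3, injects_iff.1 ⟨f, h4⟩⟩
  · rintro ⟨t, α, h1, h2, h3, h4⟩
    obtain ⟨f, hf⟩ := injects_iff.2 h4
    exact ⟨t, α, f, h1, h2, h3, hf⟩

end Pool.Agent.Forc
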