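import Pool.Agent.Forc.Card

/-!
# Many functions from `ω` to a cardinal of cofinality `ω`
-/

universe u

set_option linter.unusedSectionVars false

namespace Pool.Agent.Forc

open Pool.Agent.SigB

variable {M : Type u} [Membership M M] [IsZFC M]

/-- If `κ` is a cardinal of cofinality `ω` then for every set of at most `κ` functions from `ω` to
`κ` there is a function which is not in the set. -/
theorem exists_new {κ c A : M} (hcard : ∀ ν, ν ∈ κ → ¬ Le κ ν)
    (hc : ∀ n, n ∈ (om : M) → ap c n ∈ κ)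
    (hsup : ∀ x, x ∈ κ → ∃ n, n ∈ (om : M) ∧ x ∈ ap c n) (hA : Le A κ) :
    ∃ f, f ∈ fs (om : M) κ ∧ f ∉ A := by
  obtain ⟨j, hj, hji⟩ := hA
  obtain ⟨f, hf, hf'⟩ := choice' (a := (om : M)) (b := κ)
    (P := fun n v => ∀ a, a ∈ A → ap j a ∈ ap c n → ap a n ≠ v)
    (by simp (maxDischargeDepth := 50)) (by
      intro n hn
      by_contra hcon
      push Not at hcon
      obtain ⟨g, hg, hg'⟩ := choice' (a := κ) (b := ap c n)
        (P := fun v i => ∃ a, a ∈ A ∧ ap j a = i ∧ ap a n = v)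
        (by simp (maxDischargeDepth := 50)) (by
          intro v hv
          obtain ⟨a, ha, h1, h2⟩ := hcon v hv
          exact ⟨ap j a, h1, a, ha, rfl, h2⟩)
      refine hcard _ (hc n hn) ⟨g, hg, fun v v' hv hv' he => ?_⟩
      obtain ⟨a, ha, h1, h2⟩ := hg' v hv
      obtain ⟨a', ha', h1', h2'⟩ := hg' v' hv'
      have h3 : a = a' := hji a a' ha ha' (by rw [h1, h1', he])
      rw [← h2, ← h2', h3])
  refine ⟨f, hf, fun hfA => ?_⟩
  obtain ⟨n, hn, h1⟩ := hsup _ ((mem_fs.1 hj).2 f hfA)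
  exact hf' n hn f hfA h1 rfl

/-- There are at least `κ⁺` functions from `ω` to a cardinal `κ` of cofinality `ω`. -/
theorem exists_eps {κ ι c : M} (hκ : Ord κ) (hcard : ∀ ν, ν ∈ κ → ¬ Le κ ν) (hne : em ∈ κ)
    (hc : ∀ n, n ∈ (om : M) → ap c n ∈ κ)
    (hsup : ∀ x, x ∈ κ → ∃ n, n ∈ (om : M) ∧ x ∈ ap c n)
    (hι : Ord ι) (hsucc : ∀ a, a ∈ ι → Le a κ) : Le ι (fs (om : M) κ) := by
  have hdef : lam (om : M) (fun _ => em) ∈ fs (om : M) κ :=
    lam_mem_fs (DT.const _) fun _ _ => hne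
  obtain ⟨N, hN, hN'⟩ := choice' (a := pw (fs (om : M) κ)) (b := fs (om : M) κ)
    (P := fun A f => Le A κ → f ∉ A) (by simp (maxDischargeDepth := 50)) (by
      intro A _
      by_cases h1 : Le A κ
      · obtain ⟨f, hf, hf'⟩ := exists_new hcard hc hsup h1
        exact ⟨f, hf, fun _ => hf'⟩
      · exact ⟨_, hdef, fun h2 => absurd h2 h1⟩)
  obtain ⟨F, hF, hFr⟩ := ord_recursion hι (G := fun x h => ap N (im x (ap h))) (by
    refine dt_ap (DT.const _) (dt_im (F := fun (w : Fin 2 → M) y => ap (w 1) y) (DT.var 0) ?_)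
    exact dt_ap (DT.var 2) (DT.var 0))
  have hd : DT (fun w : Fin 1 → M => ap F (w 0)) := by simp (maxDischargeDepth := 50)
  have hFr' : ∀ x, x ∈ ι → ap F x = ap N (im x (ap F)) := by
    intro x hx
    rw [hFr x hx]
    congr 1
    refine ext' fun z => ?_
    rw [mem_im (by simp (maxDischargeDepth := 50)), mem_im hd]
    refine exists_congr fun y => and_congr_right fun hy => ?_
    rw [ap_rs hF (hι.sb hx) hy]
  have hmem : ∀ x, x ∈ ι → ap F x ∈ fs (om : M) κ := by
    refine hι.ind (P := fun x => ap F x ∈ fs (om : M) κ) (by simp (maxDischargeDepth := 50)) ?_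
    intro x hx ih
    rw [hFr' x hx]
    refine (mem_fs.1 hN).2 _ (mem_pw.2 fun z hz => ?_)
    obtain ⟨y, hy, rfl⟩ := (mem_im hd).1 hz
    exact ih y hy
  have hnew : ∀ x y, x ∈ ι → y ∈ x → ap F x ≠ ap F y := by
    intro x y hx hy he
    have hpw : im x (ap F) ∈ pw (fs (om : M) κ) := by
      refine mem_pw.2 fun z hz => ?_
      obtain ⟨w, hw, rfl⟩ := (mem_im hd).1 hz
      exact hmem w (hι.trans hw hx)
    have hle : Le (im x (ap F)) κ :=
      Le.image hκ (hsucc x hx) hd fun z hz => (mem_im hd).1 hz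
    have h1 := hN' _ hpw hle
    rw [← hFr' x hx] at h1
    exact h1 ((mem_im hd).2 ⟨y, hy, he⟩)
  refine ⟨F, mem_fs.2 ⟨hF, hmem⟩, fun x y hx hy he => ?_⟩
  rcases (hι.mem hx).tri (hι.mem hy) with h | h | h
  · exact absurd he.symm (hnew y x hy h)
  · exact h
  · exact absurd he (hnew x y hx h)

end Pool.Agent.Forc
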