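import Pool.Agent.Forc.Card
import Pool.Agent.SigB.Small

/-!
# The combinatorial consequence of supercompactness

If there is a normal fine ultrafilter on the set of subsets of `ι` of size less than `l`, where
`ι` is larger than `κ` and `κ` is a strong limit of cofinality `ω`, then for some `μ ∈ l` every
function `e` from `ι × μ` to `κ` has a set `y` of size at most `μ` such that more than `μ`
elements `a` of `ι` have `e (a, k) ∈ y` for all `k ∈ μ`.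
-/

universe u

set_option linter.unusedSectionVars false

namespace Pool.Agent.Forc

open Pool.Agent.SigB

variable {M : Type u} [Membership M M] [IsZFC M]

/-- `U` is a normal fine `l`-complete ultrafilter on the set `Q` of subsets of `ι` of size less
than `l`. -/
structure SCU (U Q l ι : M) : Prop where
  uf : UF U Q
  mem : ∀ x, x ∈ Q ↔ Sb x ι ∧ ∃ α, α ∈ l ∧ Le x α
  complete : ∀ α g, α ∈ l → g ∈ fs α U → sp Q (fun x => ∀ i, i ∈ α → x ∈ ap g i) ∈ U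
  fine : ∀ α, α ∈ ι → Ae U Q fun x => α ∈ x
  normal : ∀ f, f ∈ fs Q ι → (Ae U Q fun x => ap f x ∈ x) →
    ∃ β, β ∈ ι ∧ Ae U Q fun x => ap f x = β

variable {U Q l ι κ : M}

theorem SCU.small (h : SCU U Q l ι) {α : M} (hα : α ∈ l) : Sm U Q α := by
  intro f hf
  rw [mem_fs] at hf
  by_contra hcon
  push Not at hcon
  have hd : DT (fun w : Fin 1 → M => sp Q fun t => ap f t ≠ w 0) := by
    simp (maxDischargeDepth := 50)
  have hd' : ∀ x, Dfn (fun w : Fin 1 → M => ap f (w 0) ≠ x) := fun x => by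
    simp (maxDischargeDepth := 50)
  have h1 : ∀ x, x ∈ α → sp Q (fun t => ap f t ≠ x) ∈ U := fun x hx =>
    (ae_sp h.uf (hd' x)).2 ((ae_not h.uf (P := fun t => ap f t = x) (by simp)).2 (hcon x hx))
  have h2 := h.complete α (lam α fun x => sp Q fun t => ap f t ≠ x) hα (lam_mem_fs hd h1)
  rw [ae_sp h.uf (by simp (maxDischargeDepth := 50))] at h2
  obtain ⟨t, ht, h3⟩ := h2.exists h.uf
  have h4 := h3 _ (hf.2 t ht)
  rw [ap_lam hd (hf.2 t ht), mem_sp (hd' _)] at h4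
  exact h4.2 rfl

/-- Normality for definable class functions. -/
theorem SCU.const (h : SCU U Q l ι) {F : M → M} (hF : DT (fun w : Fin 1 → M => F (w 0)))
    (hx : Ae U Q fun x => F x ∈ x) : ∃ β, β ∈ ι ∧ Ae U Q fun x => F x = β := by
  classical
  obtain ⟨x₀, hx₀, hFx₀⟩ := hx.exists h.uf
  have hi₀ : F x₀ ∈ ι := ((h.mem x₀).1 hx₀).1 _ hFx₀
  let F' : M → M := fun x => if F x ∈ ι then F x else F x₀
  have hF' : DT (fun w : Fin 1 → M => F' (w 0)) :=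
    DT.ite (P := fun w : Fin 1 → M => F (w 0) ∈ ι) (Dfn.mem hF (DT.const _)) hF (DT.const _)
  have hm : ∀ x, x ∈ Q → F' x ∈ ι := by
    intro x _
    by_cases hc : F x ∈ ι
    · simp only [F', if_pos hc]; exact hc
    · simp only [F', if_neg hc]; exact hi₀
  have hval : ∀ x, x ∈ Q → ap (lam Q F') x = F' x := fun x hx => ap_lam hF' hx
  obtain ⟨β, hβ, h1⟩ := h.normal (lam Q F') (lam_mem_fs hF' hm) (hx.mono fun x hxQ hxF => by
    rw [hval x hxQ]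
    have hc : F x ∈ ι := ((h.mem x).1 hxQ).1 _ hxF
    simp only [F', if_pos hc]; exact hxF)
  refine ⟨β, hβ, (hx.and h.uf h1).mono ?_⟩
  rintro x hxQ ⟨h2, h3⟩
  rw [hval x hxQ] at h3
  have hc : F x ∈ ι := ((h.mem x).1 hxQ).1 _ h2
  simpa only [F', if_pos hc] using h3

/-- Almost all `x` are closed under a given function. -/
theorem SCU.closed (h : SCU U Q l ι) {F : M → M} (hF : DT (fun w : Fin 1 → M => F (w 0)))
    (hι : ∀ a, a ∈ ι → F a ∈ ι) : Ae U Q fun x => ∀ a, a ∈ x → F a ∈ x := by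
  have hF' : ∀ {n : ℕ} {s : (Fin n → M) → M}, DT s → DT fun v => F (s v) := fun hs => dt1 hF hs
  by_contra hcon
  have h1 := (ae_not h.uf (P := fun x => ∀ a, a ∈ x → F a ∈ x)
    (by simp (maxDischargeDepth := 50) [hF'])).2 hcon
  obtain ⟨x₀, hx₀, h2⟩ := h1.exists h.uf
  push Not at h2
  obtain ⟨a₀, ha₀, -⟩ := h2
  have ha₀ι := ((h.mem x₀).1 hx₀).1 _ ha₀
  obtain ⟨f, hf, hf'⟩ := choice' (a := Q) (b := ι)
    (P := fun x a => (¬ ∀ a, a ∈ x → F a ∈ x) → a ∈ x ∧ F a ∉ x)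
    (by simp (maxDischargeDepth := 50) [hF']) (by
      intro x hx
      by_cases h3 : ∀ a, a ∈ x → F a ∈ x
      · exact ⟨a₀, ha₀ι, fun h4 => absurd h3 h4⟩
      · have h3' := h3
        push Not at h3'
        obtain ⟨a, ha, ha'⟩ := h3'
        exact ⟨a, ((h.mem x).1 hx).1 _ ha, fun _ => ⟨ha, ha'⟩⟩)
  obtain ⟨β, hβ, h3⟩ := h.normal f hf (h1.mono fun x hx h4 => (hf' x hx h4).1)
  obtain ⟨x, hx, ⟨h4, h5⟩, h6⟩ := ((h1.and h.uf h3).and h.uf (h.fine _ (hι β hβ))).exists h.uf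
  have h7 := (hf' x hx h4).2
  rw [h5] at h7
  exact h7 h6

/-- Almost no `x` injects into `x ∩ κ`. -/
theorem SCU.not_le (h : SCU U Q l ι) (hκ : ¬ Le ι κ) :
    Ae U Q fun x => ¬ Le x (it x κ) := by
  by_contra hcon
  have h1 : Ae U Q fun x => Le x (it x κ) := by
    by_contra h2
    exact hcon ((ae_not h.uf (P := fun x => Le x (it x κ)) (by simp (maxDischargeDepth := 50))).2 h2)
  -- choose the injections
  obtain ⟨H, hH, hH'⟩ := choice' (a := Q) (b := pw (pd ι ι))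
    (P := fun x f => Le x (it x κ) → f ∈ fs x (it x κ) ∧ Inj f x)
    (by simp (maxDischargeDepth := 50)) (by
      intro x hx
      by_cases h2 : Le x (it x κ)
      · obtain ⟨f, hf, hfi⟩ := h2
        refine ⟨f, mem_pw.2 fun z hz => ?_, fun _ => ⟨hf, hfi⟩⟩
        obtain ⟨hf1, hf2⟩ := mem_fs.1 hf
        obtain ⟨a, ha, rfl⟩ := hf1.mem_iff.1 hz
        have hxι := ((h.mem x).1 hx).1
        exact op_mem_pd.2 ⟨hxι _ ha, hxι _ (mem_it.1 (hf2 a ha)).1⟩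
      · exact ⟨em, mem_pw.2 fun z hz => absurd hz (not_mem_em z), fun h3 => absurd h3 h2⟩)
  have h2 : Ae U Q fun x => ap H x ∈ fs x (it x κ) ∧ Inj (ap H x) x :=
    h1.mono fun x hx h3 => hH' x hx h3
  have hval : ∀ a, a ∈ ι → Ae U Q fun x => a ∈ x ∧ ap (ap H x) a ∈ it x κ := by
    intro a ha
    refine (h2.and h.uf (h.fine a ha)).mono ?_
    rintro x hx ⟨⟨h3, -⟩, h4⟩
    exact ⟨h4, (mem_fs.1 h3).2 a h4⟩
  obtain ⟨k, hk, hk'⟩ := choice' (a := ι) (b := κ)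
    (P := fun a b => Ae U Q fun x => ap (ap H x) a = b)
    (by simp (maxDischargeDepth := 50)) (by
      intro a ha
      obtain ⟨β, hβ, h3⟩ := h.const (F := fun x => ap (ap H x) a)
        (by simp (maxDischargeDepth := 50)) ((hval a ha).mono fun x _ h4 => (mem_it.1 h4.2).1)
      obtain ⟨x, hx, h4, h5⟩ := ((hval a ha).and h.uf h3).exists h.uf
      rw [h5] at h4
      exact ⟨β, (mem_it.1 h4.2).2, h3⟩)
  refine hκ ⟨k, hk, fun a b ha hb hab => ?_⟩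
  obtain ⟨x, hx, ⟨⟨⟨h3, h4⟩, h5⟩, h6⟩, h7, h8⟩ :=
    ((((h2.and h.uf (h.fine a ha)).and h.uf (h.fine b hb)).and h.uf
      ((hk' a ha).and h.uf (hk' b hb)))).exists h.uf
  exact h4 a b h5 h6 (by rw [h7, h8, hab])

/-- The cardinality of a set. -/
def CardOf (A μ : M) : Prop := Ord μ ∧ Le A μ ∧ Le μ A ∧ ∀ ν, ν ∈ μ → ¬ Le μ ν

/-- The main consequence of supercompactness, for the cardinals `μ` with a definable property `Φ`
which the cardinality of `x ∩ κ` has for almost all `x`. -/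
theorem SCU.main' {c : M} (hU : SCU U Q l ι) {Φ : M → Prop}
    (hΦd : Dfn (fun w : Fin 1 → M => Φ (w 0)))
    (hΦ : Ae U Q fun x => ∀ μ, CardOf (it x κ) μ → Φ μ) (hcard : ∀ A : M, ∃ μ, CardOf A μ)
    (hess : ∀ a : M, Ord a → Sb om a → Le (pd a a) a)
    (hfin : ∀ n : M, n ∈ (om : M) → ¬ Le om n)
    (hl : Ord l) (hol : om ∈ l) (hκ : Ord κ) (hlκ : l ∈ κ) (hι : Ord ι) (hκι : κ ∈ ι)
    (hn : ¬ Le ι κ) (hc : ∀ n, n ∈ (om : M) → ap c n ∈ κ)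
    (hsup : ∀ x, x ∈ κ → ∃ n, n ∈ (om : M) ∧ x ∈ ap c n)
    (hsl : ∀ n, n ∈ (om : M) → Le (pw (pd (pd l l) (ap c n))) κ) :
    ∃ μ, μ ∈ l ∧ Sb om μ ∧ (∀ ν, ν ∈ μ → ¬ Le μ ν) ∧ Φ μ ∧ ∀ e, e ∈ fs (pd ι μ) κ →
      ∃ y, Sb y κ ∧ Le y μ ∧ ¬ Le (sp ι fun a => ∀ k, k ∈ μ → ap e (op a k) ∈ y) μ := by
  have hΦd' : ∀ {n : ℕ} {s : (Fin n → M) → M}, DT s → Dfn fun v => Φ (s v) :=
    fun hs => dfn1 hΦd hs
  by_contra hcon
  push Not at hcon
  have hoκ : (om : M) ∈ κ := hκ.trans hol hlκ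
  have homκ : Sb om κ := hκ.sb hoκ
  have hsb : Sb κ ι := hι.sb hκι
  -- the bad functions
  obtain ⟨B, -, hB⟩ := choice' (a := l) (b := pw (pd (pd ι l) κ))
    (P := fun μ e => Sb om μ → (∀ ν, ν ∈ μ → ¬ Le μ ν) → Φ μ → e ∈ fs (pd ι μ) κ ∧
      ∀ y, Sb y κ → Le y μ → Le (sp ι fun a => ∀ k, k ∈ μ → ap e (op a k) ∈ y) μ)
    (by simp (maxDischargeDepth := 50) [hΦd']) (by
      intro μ hμ
      by_cases h1 : Sb om μ ∧ (∀ ν, ν ∈ μ → ¬ Le μ ν) ∧ Φ μ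
      · obtain ⟨e, he, he'⟩ := hcon μ hμ h1.1 h1.2.1 h1.2.2
        refine ⟨e, mem_pw.2 fun z hz => ?_, fun _ _ _ => ⟨he, he'⟩⟩
        obtain ⟨hf1, hf2⟩ := mem_fs.1 he
        obtain ⟨p, hp, rfl⟩ := hf1.mem_iff.1 hz
        obtain ⟨a, ha, k, hk, rfl⟩ := mem_pd.1 hp
        exact op_mem_pd.2 ⟨op_mem_pd.2 ⟨ha, hl.trans hk hμ⟩, hf2 _ hp⟩
      · exact ⟨em, mem_pw.2 fun z hz => absurd hz (not_mem_em z), fun h2 h3 h4 =>
          absurd ⟨h2, h3, h4⟩ h1⟩)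
  -- the injections of the power sets into `κ`
  obtain ⟨C, -, hC⟩ := choice' (a := om) (b := pw (pd (pw (pd (pd l l) κ)) κ))
    (P := fun n f => f ∈ fs (pw (pd (pd l l) (ap c n))) κ ∧ Inj f (pw (pd (pd l l) (ap c n))))
    (by simp (maxDischargeDepth := 50)) (by
      intro n hn
      obtain ⟨f, hf, hfi⟩ := hsl n hn
      refine ⟨f, mem_pw.2 fun z hz => ?_, hf, hfi⟩
      obtain ⟨hf1, hf2⟩ := mem_fs.1 hf
      obtain ⟨s, hs, rfl⟩ := hf1.mem_iff.1 hz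
      refine op_mem_pd.2 ⟨mem_pw.2 fun z hz => ?_, hf2 _ hs⟩
      obtain ⟨p, hp, q, hq, rfl⟩ := mem_pd.1 (mem_pw.1 hs z hz)
      exact op_mem_pd.2 ⟨hp, hκ.trans hq (hc n hn)⟩)
  -- the pieces of the functions
  let g : M → M → M := fun a n => sp (pd (pd l l) (ap c n)) fun z =>
    ap (ap B (fst (fst z))) (op a (snd (fst z))) = snd z
  have hgd : ∀ {m : ℕ} {s t : (Fin m → M) → M}, DT s → DT t → DT fun v => g (s v) (t v) :=
    fun hs ht => dt2 (F := g) (by simp (maxDischargeDepth := 50) [g]) hs ht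
  have hg : ∀ a n μ k v, op (op μ k) v ∈ g a n ↔ (μ ∈ l ∧ k ∈ l) ∧ v ∈ ap c n ∧
      ap (ap B μ) (op a k) = v := by
    intro a n μ k v
    show op (op μ k) v ∈ sp _ _ ↔ _
    rw [mem_sp (by simp (maxDischargeDepth := 50))]
    simp only [fst_op, snd_op, op_mem_pd]
    tauto
  have hgpw : ∀ a n, g a n ∈ pw (pd (pd l l) (ap c n)) := fun a n =>
    mem_pw.2 fun z hz => ((mem_sp (by simp (maxDischargeDepth := 50))).1 hz).1
  -- almost all `x` are closed under the codes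
  have hcl : Ae U Q fun x => ∀ n, n ∈ (om : M) → ∀ a, a ∈ x → ap (ap C n) (g a n) ∈ x := by
    refine (hU.small hol).inter hU.uf
      (P := fun n x => ∀ a, a ∈ x → ap (ap C n) (g a n) ∈ x)
      (by simp (maxDischargeDepth := 50) [hgd]) fun n hn => ?_
    refine hU.closed (F := fun a => ap (ap C n) (g a n)) (by simp (maxDischargeDepth := 50) [hgd]) ?_
    intro a _
    exact hsb _ ((mem_fs.1 (hC n hn).1).2 _ (hgpw a n))
  have hω : Ae U Q fun x => ∀ n, n ∈ (om : M) → n ∈ x :=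
    (hU.small hol).inter hU.uf (P := fun n x => n ∈ x) (by simp) fun n hn =>
      hU.fine n (hsb _ (homκ _ hn))
  have hnle := hU.not_le hn
  obtain ⟨x, hx, ⟨⟨h1, h2⟩, h3⟩, hΦx⟩ :=
    (((hcl.and hU.uf hω).and hU.uf hnle).and hU.uf hΦ).exists hU.uf
  obtain ⟨hxι, α, hα, hxα⟩ := (hU.mem x).1 hx
  obtain ⟨μ, hμo, hμ1, hμ2, hμ3⟩ := hcard (it x κ)
  have hitx : Sb (it x κ) x := fun z hz => (mem_it.1 hz).1
  have hμα : Le μ α := hμ2.trans ((Le.of_sb hitx).trans hxα)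
  have hμl : μ ∈ l := by
    rcases (hl.mem hα).tri hμo with h4 | h4 | h4
    · exact absurd hμα (hμ3 α h4)
    · rw [← h4]; exact hα
    · exact hl.trans h4 hα
  have hωμ : Sb om μ := by
    rcases om_ord.tri hμo with h4 | h4 | h4
    · exact hμo.sb h4
    · rw [h4]; exact Sb.refl _
    · refine absurd ((Le.of_sb ?_).trans hμ1) (hfin μ h4)
      exact fun n hn => mem_it.2 ⟨h2 n hn, homκ _ hn⟩
  obtain ⟨he, hbad⟩ := hB μ hμl hωμ hμ3 (hΦx μ ⟨hμo, hμ1, hμ2, hμ3⟩)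
  have heκ : ∀ a k, a ∈ ι → k ∈ μ → ap (ap B μ) (op a k) ∈ κ := fun a k ha hk =>
    (mem_fs.1 he).2 _ (op_mem_pd.2 ⟨ha, hk⟩)
  have hyd : Dfn (fun w : Fin 1 → M => ∃ a, a ∈ x ∧ ∃ k, k ∈ μ ∧ w 0 = ap (ap B μ) (op a k)) := by
    simp (maxDischargeDepth := 50)
  let y : M := sp κ fun v => ∃ a, a ∈ x ∧ ∃ k, k ∈ μ ∧ v = ap (ap B μ) (op a k)
  have hy : ∀ v, v ∈ y ↔ v ∈ κ ∧ ∃ a, a ∈ x ∧ ∃ k, k ∈ μ ∧ v = ap (ap B μ) (op a k) :=
    fun v => mem_sp hyd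
  -- the size of `y`
  have hyμ : Le y (pd (it x κ) (pd om μ)) := by
    obtain ⟨T, hT, hT'⟩ := choice' (a := y) (b := pd (it x κ) (pd om μ))
      (P := fun v t => ∃ a, a ∈ x ∧ ∃ n, n ∈ (om : M) ∧ ∃ k, k ∈ μ ∧
        t = op (ap (ap C n) (g a n)) (op n k) ∧ v = ap (ap B μ) (op a k) ∧ v ∈ ap c n)
      (by simp (maxDischargeDepth := 50) [hgd]) (by
        intro v hv
        obtain ⟨hvκ, a, ha, k, hk, hv'⟩ := (hy v).1 hv
        obtain ⟨n, hn, hvn⟩ := hsup v hvκ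
        refine ⟨op (ap (ap C n) (g a n)) (op n k), ?_, a, ha, n, hn, k, hk, rfl, hv', hvn⟩
        refine op_mem_pd.2 ⟨mem_it.2 ⟨h1 n hn a ha, ?_⟩, op_mem_pd.2 ⟨hn, hk⟩⟩
        exact (mem_fs.1 (hC n hn).1).2 _ (hgpw a n))
    refine ⟨T, hT, fun v v' hv hv' he' => ?_⟩
    obtain ⟨a, ha, n, hn, k, hk, h4, h5, h6⟩ := hT' v hv
    obtain ⟨a', ha', n', hn', k', hk', h4', h5', h6'⟩ := hT' v' hv'
    rw [h4, h4'] at he'
    obtain ⟨h7, h8⟩ := op_inj.1 he'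
    obtain ⟨rfl, rfl⟩ := op_inj.1 h8
    have h9 := (hC n hn).2 _ _ (hgpw a n) (hgpw a' n) h7
    have hkl : k ∈ l := hl.trans hk hμl
    have h10 : op (op μ k) v ∈ g a n := (hg _ _ _ _ _).2 ⟨⟨hμl, hkl⟩, h6, h5.symm⟩
    rw [h9] at h10
    rw [h5', ((hg _ _ _ _ _).1 h10).2.2]
  have hμμ := hess μ hμo hωμ
  have hyμ' : Le y μ := by
    refine hyμ.trans ((Le.pd hμ1 ?_).trans hμμ)
    exact (Le.pd (Le.of_sb hωμ) (Le.refl μ)).trans hμμ
  have h4 := hbad y (fun v hv => ((hy v).1 hv).1) hyμ'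
  refine h3 (((Le.of_sb ?_).trans h4).trans hμ2)
  intro a ha
  refine (mem_sp (by simp (maxDischargeDepth := 50))).2 ⟨hxι _ ha, fun k hk => (hy _).2 ⟨?_, ?_⟩⟩
  · exact heκ a k (hxι _ ha) hk
  · exact ⟨a, ha, k, hk, rfl⟩

/-- The main consequence of supercompactness. -/
theorem SCU.main {c : M} (hU : SCU U Q l ι) (hcard : ∀ A : M, ∃ μ, CardOf A μ)
    (hess : ∀ a : M, Ord a → Sb om a → Le (pd a a) a)
    (hfin : ∀ n : M, n ∈ (om : M) → ¬ Le om n)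
    (hl : Ord l) (hol : om ∈ l) (hκ : Ord κ) (hlκ : l ∈ κ) (hι : Ord ι) (hκι : κ ∈ ι)
    (hn : ¬ Le ι κ) (hc : ∀ n, n ∈ (om : M) → ap c n ∈ κ)
    (hsup : ∀ x, x ∈ κ → ∃ n, n ∈ (om : M) ∧ x ∈ ap c n)
    (hsl : ∀ n, n ∈ (om : M) → Le (pw (pd (pd l l) (ap c n))) κ) :
    ∃ μ, μ ∈ l ∧ Sb om μ ∧ (∀ ν, ν ∈ μ → ¬ Le μ ν) ∧ ∀ e, e ∈ fs (pd ι μ) κ →
      ∃ y, Sb y κ ∧ Le y μ ∧ ¬ Le (sp ι fun a => ∀ k, k ∈ μ → ap e (op a k) ∈ y) μ := by
  obtain ⟨μ, h1, h2, h3, -, h4⟩ := hU.main' (Φ := fun _ => True) Dfn.true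
    (Ae.of_forall hU.uf fun _ _ _ _ => trivial) hcard hess hfin hl hol hκ hlκ hι hκι hn hc hsup hsl
  exact ⟨μ, h1, h2, h3, h4⟩

end Pool.Agent.Forc
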