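import Pool.Agent.Forc.Tr
import Pool.Agent.Forc.SC
import Pool.Agent.Forc.Eps
import Pool.Agent.Forc.CardB

/-!
# The hypotheses of the main theorem inside the ground model
-/

universe u

set_option linter.unusedSectionVars false

namespace Pool.Agent.Forc

open Pool.Agent.SigB

variable {M : Type u} [Membership M M] [IsZFC M]

theorem Le.pw {A B : M} (h : Le A B) : Le (pw A) (pw B) := by
  obtain ⟨f, hf, hfi⟩ := h
  have hd : DT (fun w : Fin 1 → M => ap f (w 0)) := by simp (maxDischargeDepth := 50)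
  refine Le.mk (F := fun s => im s (ap f)) ?_ ?_ ?_
  · refine dt_im (F := fun (_ : Fin 1 → M) x => ap f x) (DT.var 0) ?_
    exact dt_ap (DT.const _) (DT.var 0)
  · intro s hs
    refine mem_pw.2 fun z hz => ?_
    obtain ⟨x, hx, rfl⟩ := (mem_im hd).1 hz
    exact (mem_fs.1 hf).2 _ (mem_pw.1 hs x hx)
  · have key : ∀ s t, s ∈ SigB.pw A → t ∈ SigB.pw A → im s (ap f) = im t (ap f) → Sb s t := by
      intro s t hs ht he x hx
      have h1 : ap f x ∈ im s (ap f) := (mem_im hd).2 ⟨x, hx, rfl⟩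
      rw [he] at h1
      obtain ⟨y, hy, h2⟩ := (mem_im hd).1 h1
      rw [hfi x y (mem_pw.1 hs x hx) (mem_pw.1 ht y hy) h2]
      exact hy
    exact fun s t hs ht he => (key s t hs ht he).antisymm (key t s ht hs he.symm)

theorem CardOf.isCardinal {A μ : M} (h : CardOf A μ) : IsCardinal μ :=
  isCardinal_iff.2 ⟨h.1, h.2.2.2⟩

/-- Below a cardinal of cofinality `ω` there is no largest cardinal, and power sets are small
under the generalized continuum hypothesis. -/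
theorem strong_limit (hG : GCH M) {κ c a : M} (hκ : IsCardinal κ) (hoκ : om ∈ κ)
    (hc : c ∈ fs (om : M) κ) (hsup : ∀ x, x ∈ κ → ∃ n, n ∈ (om : M) ∧ x ∈ ap c n)
    (ha : a ∈ κ) (hoa : Sb om a) : ∃ b, b ∈ κ ∧ Le (pw a) b := by
  obtain ⟨hκo, hκc⟩ := isCardinal_iff.1 hκ
  have hao := hκo.mem ha
  obtain ⟨μ, hμ⟩ := exists_card a
  obtain ⟨hμo, h1, h2, h3⟩ := hμ
  have hoμ : Sb om μ := by
    refine (hμo.not_mem_iff om_ord).1 fun h4 => ?_
    exact not_le_om h4 ((Le.of_sb hoa).trans h1)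
  have hμκ : μ ∈ κ := by
    rcases hμo.tri hκo with h4 | h4 | h4
    · exact h4
    · exact absurd h2 (by rw [h4]; exact hκc a ha)
    · exact absurd (h2.mono_left (hμo.sb h4)) (hκc a ha)
  obtain ⟨θ, hθo, hμθ, hmem, hθc, hreg⟩ := exists_succ hμo hoμ
  have hθκ : θ ∈ κ := by
    rcases hθo.tri hκo with h4 | h4 | h4
    · exact h4
    · exfalso
      have hoθ : om ∈ θ := by rw [h4]; exact hoκ
      obtain ⟨g, hg, hg'⟩ := hreg om c hoθ (by rw [h4]; exact hc)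
      rw [h4] at hg
      obtain ⟨n, hn, h5⟩ := hsup g hg
      exact not_mem_mem h5 (hg' n hn)
    · exact absurd ((hmem κ hκo).1 h4) (hκc μ hμκ)
  refine ⟨θ, hθκ, h1.pw.trans ?_⟩
  exact injects_iff.1 (hG μ θ (pw μ) (isInfCardinal_iff.2 ⟨isCardinal_iff.2 ⟨hμo, h3⟩, hoμ⟩)
    (isCardinal_iff.2 ⟨hθo, hθc⟩) hμθ (isPower_iff.2 rfl))

/-- The translation of the notion of a normal fine ultrafilter. -/
theorem IsNormalFine.scu {u q l s : M} (hq : IsSmallSubsets q l s) (h : IsNormalFine u q l s) :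
    SCU u q l s := by
  have huf : UF u q := by
    refine ⟨h.sub, h.univ, h.empty em not_mem_em, h.mono, ?_, ?_⟩
    · intro X Y hX hY
      exact h.inter X Y (it X Y) hX hY fun z => mem_it
    · intro X hX
      exact h.ultra X (df q X) hX fun z => mem_df
  refine ⟨huf, isSmallSubsets_iff.1 hq, ?_, ?_, ?_⟩
  · intro α g hα hg
    have hg' := isMap_iff.2 hg
    refine h.complete α g _ hα hg' fun z => ?_
    rw [mem_sp (by simp (maxDischargeDepth := 50))]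
    refine and_congr_right fun _ => ?_
    constructor
    · intro h1 i X hX
      obtain ⟨hi, rfl⟩ := (val_map hg').1 hX
      exact h1 i hi
    · intro h1 i hi
      exact h1 i (ap g i) ((val_map hg').2 ⟨hi, rfl⟩)
  · intro α hα
    refine (ae_sp huf (P := fun x => α ∈ x) (by simp)).1 (h.fine α _ hα fun x => ?_)
    exact mem_sp (by simp)
  · intro f hf hx
    have hf' := isMap_iff.2 hf
    have hd : Dfn (fun w : Fin 1 → M => ap f (w 0) ∈ w 0) := by simp (maxDischargeDepth := 50)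
    obtain ⟨β, Y, hY, h1⟩ := h.normal f (sp q fun x => ap f x ∈ x) hf' ((ae_sp huf hd).2 hx) (by
      intro x a hxZ hxa
      obtain ⟨-, rfl⟩ := (val_map hf').1 hxa
      exact ((mem_sp hd).1 hxZ).2)
    have h2 : Ae u q fun x => ap f x = β := ⟨Y, hY, fun x hx _ => ((val_map hf').1 (h1 x hx)).2⟩
    obtain ⟨x, hxq, rfl⟩ := h2.exists huf
    exact ⟨_, (mem_fs.1 hf).2 x hxq, h2⟩

/-- What is used about the ground model. -/
theorem ground (hG : GCH M) {κ l s : M} (hκ : IsCardinal κ) (hcf : HasCofinalityOmega κ)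
    (hlκ : l ∈ κ) (hs : IsSuccCardinal s κ) (hl : IsSupercompact l s) :
    ∃ μ w : M, μ ∈ κ ∧ Pool.Agent.SigB.Ord μ ∧ Sb om μ ∧ (∀ e, e ∈ fs (pd s μ) κ →
      ∃ y, Sb y κ ∧ Le y μ ∧ ¬ Le (sp s fun a => ∀ k, k ∈ μ → ap e (op a k) ∈ y) μ) ∧
      Pool.Agent.SigB.Ord w ∧ μ ∈ w ∧ w ∈ κ ∧ (∀ b, b ∈ w → Le b μ) ∧ (∀ ν, ν ∈ w → ¬ Le w ν) ∧
      Le (pw μ) w ∧ Le s (fs (om : M) κ) := by
  obtain ⟨hκo, hκc⟩ := isCardinal_iff.1 hκ
  obtain ⟨hlc, ⟨o, ho, hol⟩, q, u, hq, hu⟩ := hl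
  rw [isOmega_iff.1 ho] at hol
  obtain ⟨hlo, -⟩ := isCardinal_iff.1 hlc
  obtain ⟨hsc, hκs, hsκ⟩ := isSuccCardinal_iff.1 hs
  obtain ⟨hso, hsc'⟩ := isCardinal_iff.1 hsc
  obtain ⟨c, hc, hsup⟩ := hasCofinalityOmega_iff.1 hcf
  have hoκ : (om : M) ∈ κ := hκo.trans hol hlκ
  have hc' : ∀ n, n ∈ (om : M) → ap c n ∈ κ := (mem_fs.1 hc).2
  have hU := IsNormalFine.scu hq hu
  obtain ⟨μ, hμl, hoμ, hμc, hS⟩ := hU.main exists_card (fun a ha h => hess ha h)
    (fun n hn => not_le_om hn) hlo hol hκo hlκ hso hκs (hsc' κ hκs) hc' hsup (by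
      intro n hn
      -- the larger of `l` and `c n`
      have hcn := hκo.mem (hc' n hn)
      obtain ⟨a, haκ, hla, hca⟩ : ∃ a, a ∈ κ ∧ Sb l a ∧ Sb (ap c n) a := by
        rcases hlo.sb_total hcn with h1 | h1
        · exact ⟨_, hc' n hn, h1, Sb.refl _⟩
        · exact ⟨l, hlκ, Sb.refl _, h1⟩
      have hao := hκo.mem haκ
      have hoa : Sb om a := (hlo.sb hol).trans hla
      have haa := hess hao hoa
      obtain ⟨b, hb, hab⟩ := strong_limit hG hκ hoκ hc hsup haκ hoa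
      refine (Le.pw ?_).trans (hab.trans (Le.of_sb (hκo.sb hb)))
      exact (Le.pd ((Le.pd (Le.of_sb hla) (Le.of_sb hla)).trans haa) (Le.of_sb hca)).trans haa)
  have hμκ : μ ∈ κ := hκo.trans hμl hlκ
  have hμo := hκo.mem hμκ
  obtain ⟨w, hwo, hμw, hmem, hwc, -⟩ := exists_succ hμo hoμ
  have hμI : IsInfCardinal μ := isInfCardinal_iff.2 ⟨isCardinal_iff.2 ⟨hμo, hμc⟩, hoμ⟩
  have hpw : Le (pw μ) w := injects_iff.1 (hG μ w (pw μ) hμI (isCardinal_iff.2 ⟨hwo, hwc⟩) hμw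
    (isPower_iff.2 rfl))
  have hwκ : w ∈ κ := by
    have hwl : Sb w l := by
      refine (hlo.not_mem_iff hwo).1 fun h1 => ?_
      exact (isCardinal_iff.1 hlc).2 μ hμl ((hmem l hlo).1 h1)
    exact Ord.mem_of_sb_of_mem hκo hwo hlo hwl hlκ
  refine ⟨μ, w, hμκ, hμo, hoμ, hS, hwo, hμw, hwκ, fun b hb => (hmem b (hwo.mem hb)).1 hb, hwc,
    hpw, ?_⟩
  exact exists_eps hκo hκc (hκo.em_mem (by rintro rfl; exact not_mem_em _ hoκ)) hc' hsup hso hsκ

end Pool.Agent.Forc
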