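import Pool.Agent.Forc.Card

/-!
# Cohen forcing inside a model of ZFC

`cub κ` is the space `2^κ` (the set of functions from the ordinal `κ` to `2`), with the product
topology; `Bai κ B`: `B` is in the smallest `σ`-algebra containing the clopen sets; `Mgr κ B`:
`B` is meager; `(cohD κ, cohR κ, cohO κ)` is the quotient of the Baire sets by the meager ideal
(the set of nonzero classes, the order, the largest element).
-/

universe u

set_option linter.unusedSectionVars false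

namespace Pool.Agent.Forc

open Pool.Agent.SigB

variable {M : Type u} [Membership M M] [IsZFC M]

/-- The number `1 = {∅}`. -/
noncomputable def one : M := sc SigB.em

/-- The number `2 = {0, 1}`. -/
noncomputable def two : M := sc one

/-- The space `2^κ`. -/
noncomputable def cub (κ : M) : M := fs κ two

theorem cub.dt : DT (fun w : Fin 1 → M => cub (w 0)) := by
  unfold cub; simp (maxDischargeDepth := 50)

@[simp] theorem dt_cub {n : ℕ} {s : (Fin n → M) → M} (hs : DT s) :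
    DT (fun v => cub (s v)) := dt1 cub.dt hs

/-- `U` is an open subset of `2^κ`: with every `f` it contains all `g` which agree with `f` on
some finite subset of `κ`. -/
def Opn (κ U : M) : Prop := Sb U (cub κ) ∧ ∀ f, f ∈ U → ∃ F, Sb F κ ∧ Fi F ∧
  ∀ g, g ∈ cub κ → (∀ x, x ∈ F → ap g x = ap f x) → g ∈ U

theorem Opn.dfn : Dfn (fun w : Fin 2 → M => Opn (w 0) (w 1)) := by
  unfold Opn; simp (maxDischargeDepth := 50)

@[simp] theorem dfn_Opn {n : ℕ} {s t : (Fin n → M) → M} (hs : DT s) (ht : DT t) :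
    Dfn (fun v => Opn (s v) (t v)) := dfn2 Opn.dfn hs ht

/-- `U` is a clopen subset of `2^κ`. -/
def Clo (κ U : M) : Prop := Opn κ U ∧ Opn κ (df (cub κ) U)

theorem Clo.dfn : Dfn (fun w : Fin 2 → M => Clo (w 0) (w 1)) := by
  unfold Clo; simp (maxDischargeDepth := 50)

@[simp] theorem dfn_Clo {n : ℕ} {s t : (Fin n → M) → M} (hs : DT s) (ht : DT t) :
    Dfn (fun v => Clo (s v) (t v)) := dfn2 Clo.dfn hs ht

/-- The union of a sequence `e` of sets. -/
noncomputable def cun (e : M) : M := cp fun f => ∃ n, n ∈ (om : M) ∧ f ∈ ap e n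

theorem mem_cun {e f : M} : f ∈ cun e ↔ ∃ n, n ∈ (om : M) ∧ f ∈ ap e n := by
  unfold cun
  refine mem_cp' (by simp (maxDischargeDepth := 50)) ⟨sU (im om (ap e)), ?_⟩
  rintro f ⟨n, hn, hf⟩
  exact mem_sU.2 ⟨ap e n, (mem_im (by simp (maxDischargeDepth := 50))).2 ⟨n, hn, rfl⟩, hf⟩

theorem cun.dt : DT (fun w : Fin 1 → M => cun (w 0)) := by
  unfold cun; simp (maxDischargeDepth := 50)

@[simp] theorem dt_cun {n : ℕ} {s : (Fin n → M) → M} (hs : DT s) :
    DT (fun v => cun (s v)) := dt1 cun.dt hs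

/-- `A` is a `σ`-algebra of subsets of `2^κ`. -/
def SigAlg (κ A : M) : Prop := (∀ B, B ∈ A → Sb B (cub κ)) ∧
  (∀ B, B ∈ A → df (cub κ) B ∈ A) ∧
  ∀ e, Fn e (om : M) → (∀ n, n ∈ (om : M) → ap e n ∈ A) → cun e ∈ A

theorem SigAlg.dfn : Dfn (fun w : Fin 2 → M => SigAlg (w 0) (w 1)) := by
  unfold SigAlg; simp (maxDischargeDepth := 50)

@[simp] theorem dfn_SigAlg {n : ℕ} {s t : (Fin n → M) → M} (hs : DT s) (ht : DT t) :
    Dfn (fun v => SigAlg (s v) (t v)) := dfn2 SigAlg.dfn hs ht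

/-- `B` is a Baire set: it lies in every `σ`-algebra of subsets of `2^κ` which contains the
clopen sets. -/
def Bai (κ B : M) : Prop := Sb B (cub κ) ∧
  ∀ A, SigAlg κ A → (∀ C, Clo κ C → C ∈ A) → B ∈ A

theorem Bai.dfn : Dfn (fun w : Fin 2 → M => Bai (w 0) (w 1)) := by
  unfold Bai; simp (maxDischargeDepth := 50)

@[simp] theorem dfn_Bai {n : ℕ} {s t : (Fin n → M) → M} (hs : DT s) (ht : DT t) :
    Dfn (fun v => Bai (s v) (t v)) := dfn2 Bai.dfn hs ht

/-- `C` is nowhere dense: every nonempty open set contains a nonempty open set disjoint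
from `C`. -/
def Nwd (κ C : M) : Prop := ∀ U, Opn κ U → (∃ f, f ∈ U) →
  ∃ V, Opn κ V ∧ (∃ f, f ∈ V) ∧ Sb V U ∧ ∀ f, f ∈ V → f ∉ C

theorem Nwd.dfn : Dfn (fun w : Fin 2 → M => Nwd (w 0) (w 1)) := by
  unfold Nwd; simp (maxDischargeDepth := 50)

@[simp] theorem dfn_Nwd {n : ℕ} {s t : (Fin n → M) → M} (hs : DT s) (ht : DT t) :
    Dfn (fun v => Nwd (s v) (t v)) := dfn2 Nwd.dfn hs ht

/-- `B` is meager: it is covered by a sequence of nowhere dense sets. -/
def Mgr (κ B : M) : Prop := ∃ e, Fn e (om : M) ∧ (∀ n, n ∈ (om : M) → Nwd κ (ap e n)) ∧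
  ∀ f, f ∈ B → ∃ n, n ∈ (om : M) ∧ f ∈ ap e n

theorem Mgr.dfn : Dfn (fun w : Fin 2 → M => Mgr (w 0) (w 1)) := by
  unfold Mgr; simp (maxDischargeDepth := 50)

@[simp] theorem dfn_Mgr {n : ℕ} {s t : (Fin n → M) → M} (hs : DT s) (ht : DT t) :
    Dfn (fun v => Mgr (s v) (t v)) := dfn2 Mgr.dfn hs ht

/-- The symmetric difference. -/
noncomputable def sd (B C : M) : M := un (df B C) (df C B)

theorem sd.dt : DT (fun w : Fin 2 → M => sd (w 0) (w 1)) := by
  unfold sd; simp (maxDischargeDepth := 50)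

@[simp] theorem dt_sd {n : ℕ} {s t : (Fin n → M) → M} (hs : DT s) (ht : DT t) :
    DT (fun v => sd (s v) (t v)) := dt2 sd.dt hs ht

/-- The class of the Baire set `B` modulo the meager ideal. -/
noncomputable def cls (κ B : M) : M := cp fun B' => Bai κ B' ∧ Mgr κ (sd B B')

theorem mem_cls {κ B B' : M} : B' ∈ cls κ B ↔ Bai κ B' ∧ Mgr κ (sd B B') := by
  unfold cls
  refine mem_cp' (by simp (maxDischargeDepth := 50)) ⟨pw (cub κ), ?_⟩
  rintro B' ⟨h, -⟩
  exact mem_pw.2 h.1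

theorem cls.dt : DT (fun w : Fin 2 → M => cls (w 0) (w 1)) := by
  unfold cls; simp (maxDischargeDepth := 50)

@[simp] theorem dt_cls {n : ℕ} {s t : (Fin n → M) → M} (hs : DT s) (ht : DT t) :
    DT (fun v => cls (s v) (t v)) := dt2 cls.dt hs ht

theorem cls_mem_pw {κ B : M} : cls κ B ∈ pw (pw (cub κ)) :=
  mem_pw.2 fun _ h => mem_pw.2 (mem_cls.1 h).1.1

/-- The conditions of Cohen forcing `C(κ)`: the nonzero classes of Baire sets. -/
noncomputable def cohD (κ : M) : M := cp fun z => ∃ B, Bai κ B ∧ ¬ Mgr κ B ∧ z = cls κ B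

theorem mem_cohD {κ z : M} : z ∈ cohD κ ↔ ∃ B, Bai κ B ∧ ¬ Mgr κ B ∧ z = cls κ B := by
  unfold cohD
  refine mem_cp' (by simp (maxDischargeDepth := 50)) ⟨pw (pw (cub κ)), ?_⟩
  rintro z ⟨B, -, -, rfl⟩
  exact cls_mem_pw

theorem cohD.dt : DT (fun w : Fin 1 → M => cohD (w 0)) := by
  unfold cohD; simp (maxDischargeDepth := 50)

@[simp] theorem dt_cohD {n : ℕ} {s : (Fin n → M) → M} (hs : DT s) :
    DT (fun v => cohD (s v)) := dt1 cohD.dt hs

/-- The order of Cohen forcing: `[B] ≤ [C]` if `B \ C` is meager. -/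
noncomputable def cohR (κ : M) : M := cp fun z => ∃ B, ∃ C, Bai κ B ∧ ¬ Mgr κ B ∧ Bai κ C ∧
  ¬ Mgr κ C ∧ Mgr κ (df B C) ∧ z = op (cls κ B) (cls κ C)

theorem mem_cohR {κ z : M} : z ∈ cohR κ ↔ ∃ B, ∃ C, Bai κ B ∧ ¬ Mgr κ B ∧ Bai κ C ∧
    ¬ Mgr κ C ∧ Mgr κ (df B C) ∧ z = op (cls κ B) (cls κ C) := by
  unfold cohR
  refine mem_cp' (by simp (maxDischargeDepth := 50)) ⟨pd (cohD κ) (cohD κ), ?_⟩
  rintro z ⟨B, C, hB, hB', hC, hC', -, rfl⟩
  exact op_mem_pd.2 ⟨mem_cohD.2 ⟨B, hB, hB', rfl⟩, mem_cohD.2 ⟨C, hC, hC', rfl⟩⟩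

theorem cohR.dt : DT (fun w : Fin 1 → M => cohR (w 0)) := by
  unfold cohR; simp (maxDischargeDepth := 50)

@[simp] theorem dt_cohR {n : ℕ} {s : (Fin n → M) → M} (hs : DT s) :
    DT (fun v => cohR (s v)) := dt1 cohR.dt hs

/-- The largest element of Cohen forcing. -/
noncomputable def cohO (κ : M) : M := cls κ (cub κ)

theorem cohO.dt : DT (fun w : Fin 1 → M => cohO (w 0)) := by
  unfold cohO; simp (maxDischargeDepth := 50)

@[simp] theorem dt_cohO {n : ℕ} {s : (Fin n → M) → M} (hs : DT s) :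
    DT (fun v => cohO (s v)) := dt1 cohO.dt hs

end Pool.Agent.Forc
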