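import Pool.Agent.SigB.Rec

/-!
# Forcing over a model of ZFC: the atomic forcing relations

`M` is an arbitrary (not necessarily well-founded) model of ZFC and `F` is a forcing notion which
belongs to `M`. Every element of `M` is regarded as a name; only its elements of the form
`op u r` with `r ∈ F.P` matter. Equality of names is forced by a condition if some bisimulation
in `M` contains the pair of names; no recursion is needed.
-/

universe u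

set_option linter.unusedSectionVars false

namespace Pool.Agent.Forc

open Pool.Agent.SigB

variable {M : Type u} [Membership M M] [IsZFC M]

/-- The triple `(x, y, z)`. -/
noncomputable def tr (x y z : M) : M := op x (op y z)

theorem tr_inj {x y z x' y' z' : M} : tr x y z = tr x' y' z' ↔ x = x' ∧ y = y' ∧ z = z' := by
  unfold tr
  rw [op_inj, op_inj]

@[simp] theorem dt_tr {n : ℕ} {s t r : (Fin n → M) → M} (hs : DT s) (ht : DT t) (hr : DT r) :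
    DT (fun v => tr (s v) (t v) (r v)) := dt_op hs (dt_op ht hr)

/-- A forcing notion: the set of conditions, the order (a set of pairs) and the largest
condition. -/
structure FN (M : Type u) where
  P : M
  le : M
  one : M

namespace FN

variable (F : FN M)

/-- `p ≤ q` -/
def L (p q : M) : Prop := op p q ∈ F.le

@[simp] theorem dfn_L {n : ℕ} {s t : (Fin n → M) → M} (hs : DT s) (ht : DT t) :
    Dfn (fun v => F.L (s v) (t v)) := by
  unfold L; exact Dfn.mem (dt_op hs ht) (DT.const _)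

/-- `F` is a preordered set with a largest element. -/
structure Ok : Prop where
  refl : ∀ p, p ∈ F.P → F.L p p
  trans : ∀ p q r, F.L p q → F.L q r → F.L p r
  left : ∀ p q, F.L p q → p ∈ F.P
  right : ∀ p q, F.L p q → q ∈ F.P
  one : F.one ∈ F.P
  top : ∀ p, p ∈ F.P → F.L p F.one

/-- One half of the condition on `(s, t, p)` for equality of names, with respect to `R`. -/
def Half (R s t p : M) : Prop :=
  ∀ u r, op u r ∈ s → ∀ q, F.L q p → F.L q r →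
    ∃ q', F.L q' q ∧ ∃ w r', op w r' ∈ t ∧ F.L q' r' ∧ tr u w q' ∈ R

/-- `R` is a bisimulation. -/
def Bis (R : M) : Prop :=
  ∀ s t p, tr s t p ∈ R → tr t s p ∈ R ∧ F.Half R s t p

theorem Bis.dfn : Dfn (fun w : Fin 1 → M => F.Bis (w 0)) := by
  unfold Bis Half; simp (maxDischargeDepth := 50)

@[simp] theorem dfn_Bis {n : ℕ} {s : (Fin n → M) → M} (hs : DT s) :
    Dfn (fun v => F.Bis (s v)) := dfn1 (Bis.dfn F) hs

/-- `p` forces `s = t`. -/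
def Eq (s t p : M) : Prop := ∃ R, F.Bis R ∧ tr s t p ∈ R

theorem Eq.dfn : Dfn (fun w : Fin 3 → M => F.Eq (w 0) (w 1) (w 2)) := by
  unfold Eq; simp (maxDischargeDepth := 50)

@[simp] theorem dfn_Eq {n : ℕ} {s t r : (Fin n → M) → M} (hs : DT s) (ht : DT t) (hr : DT r) :
    Dfn (fun v => F.Eq (s v) (t v) (r v)) := dfn3 (Eq.dfn F) hs ht hr

/-- The half of the recursion equation for `Eq`. -/
def HE (s t p : M) : Prop :=
  ∀ u r, op u r ∈ s → ∀ q, F.L q p → F.L q r →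
    ∃ q', F.L q' q ∧ ∃ w r', op w r' ∈ t ∧ F.L q' r' ∧ F.Eq u w q'

/-- `p` forces `s ∈ t`. -/
def Mem (s t p : M) : Prop :=
  ∀ q, F.L q p → ∃ q', F.L q' q ∧ ∃ w r', op w r' ∈ t ∧ F.L q' r' ∧ F.Eq s w q'

theorem Mem.dfn : Dfn (fun w : Fin 3 → M => F.Mem (w 0) (w 1) (w 2)) := by
  unfold Mem; simp (maxDischargeDepth := 50)

@[simp] theorem dfn_Mem {n : ℕ} {s t r : (Fin n → M) → M} (hs : DT s) (ht : DT t) (hr : DT r) :
    Dfn (fun v => F.Mem (s v) (t v) (r v)) := dfn3 (Mem.dfn F) hs ht hr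

variable {F}

/-- The first coordinate of an element of an element of a transitive set. -/
theorem fst_mem {T s u r : M} (hT : Tr T) (hs : s ∈ T) (h : op u r ∈ s) : u ∈ T := by
  have h1 : op u r ∈ T := hT s hs _ h
  have h2 : pr u u ∈ T := hT _ h1 _ (by unfold op; simp)
  exact hT _ h2 _ (by simp)

theorem Eq.symm {s t p : M} (h : F.Eq s t p) : F.Eq t s p := by
  obtain ⟨R, hR, h⟩ := h
  exact ⟨R, hR, (hR s t p h).1⟩

theorem Eq.half {s t p : M} (h : F.Eq s t p) : F.HE s t p := by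
  obtain ⟨R, hR, h⟩ := h
  intro u r hu q hq hqr
  obtain ⟨q', hq', w, r', hw, hr', hm⟩ := (hR s t p h).2 u r hu q hq hqr
  exact ⟨q', hq', w, r', hw, hr', R, hR, hm⟩

/-- The recursion equation. -/
theorem eq_of_half (hF : F.Ok) {s t p : M} (h : F.HE s t p) (h' : F.HE t s p) : F.Eq s t p := by
  obtain ⟨T, hT, hZ⟩ := exists_tr (pr s t)
  have hsT : s ∈ T := hT _ hZ _ (by simp)
  have htT : t ∈ T := hT _ hZ _ (by simp)
  let B : M := sp (pd T (pd T F.P)) fun z => ∃ u w q, z = tr u w q ∧ F.Eq u w q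
  have hB : ∀ u w q, tr u w q ∈ B ↔ (u ∈ T ∧ w ∈ T ∧ q ∈ F.P) ∧ F.Eq u w q := by
    intro u w q
    have h1 : tr u w q ∈ B ↔ tr u w q ∈ pd T (pd T F.P) ∧
        ∃ u' w' q', tr u w q = tr u' w' q' ∧ F.Eq u' w' q' :=
      mem_sp (by simp (maxDischargeDepth := 50))
    rw [h1]
    unfold tr
    rw [op_mem_pd, op_mem_pd]
    refine and_congr Iff.rfl ⟨?_, fun h => ⟨u, w, q, rfl, h⟩⟩
    rintro ⟨u', w', q', he, h⟩
    obtain ⟨rfl, h2⟩ := op_inj.1 he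
    obtain ⟨rfl, rfl⟩ := op_inj.1 h2
    exact h
  let R : M := un B (pr (tr s t p) (tr t s p))
  have hR : ∀ u w q, tr u w q ∈ R ↔ tr u w q ∈ B ∨ (u = s ∧ w = t ∧ q = p) ∨
      (u = t ∧ w = s ∧ q = p) := by
    intro u w q
    show tr u w q ∈ un B (pr (tr s t p) (tr t s p)) ↔ _
    rw [mem_un, mem_pr, tr_inj, tr_inj]
  have key : ∀ u w q, u ∈ T → w ∈ T → F.HE u w q → F.Half R u w q := by
    intro u w q hu hw hh x r hx q₁ hq₁ hr
    obtain ⟨q', hq', y, r', hy, hr', he⟩ := hh x r hx q₁ hq₁ hr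
    refine ⟨q', hq', y, r', hy, hr', (hR _ _ _).2 (Or.inl ((hB _ _ _).2 ⟨⟨?_, ?_, ?_⟩, he⟩))⟩
    · exact fst_mem hT hu hx
    · exact fst_mem hT hw hy
    · exact hF.left _ _ hq'
  refine ⟨R, ?_, (hR _ _ _).2 (Or.inr (Or.inl ⟨rfl, rfl, rfl⟩))⟩
  intro u w q hm
  rcases (hR _ _ _).1 hm with h1 | ⟨rfl, rfl, rfl⟩ | ⟨rfl, rfl, rfl⟩
  · obtain ⟨⟨hu, hw, hq⟩, he⟩ := (hB _ _ _).1 h1
    exact ⟨(hR _ _ _).2 (Or.inl ((hB _ _ _).2 ⟨⟨hw, hu, hq⟩, he.symm⟩)), key u w q hu hw he.half⟩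
  · exact ⟨(hR _ _ _).2 (Or.inr (Or.inr ⟨rfl, rfl, rfl⟩)), key _ _ _ hsT htT h⟩
  · exact ⟨(hR _ _ _).2 (Or.inr (Or.inl ⟨rfl, rfl, rfl⟩)), key _ _ _ htT hsT h'⟩

theorem eq_iff (hF : F.Ok) {s t p : M} : F.Eq s t p ↔ F.HE s t p ∧ F.HE t s p :=
  ⟨fun h => ⟨h.half, h.symm.half⟩, fun h => eq_of_half hF h.1 h.2⟩

theorem HE.mono (hF : F.Ok) {s t p q : M} (h : F.HE s t p) (hq : F.L q p) : F.HE s t q :=
  fun u r hu q₁ hq₁ hr => h u r hu q₁ (hF.trans _ _ _ hq₁ hq) hr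

theorem Eq.mono (hF : F.Ok) {s t p q : M} (h : F.Eq s t p) (hq : F.L q p) : F.Eq s t q :=
  eq_of_half hF (h.half.mono hF hq) (h.symm.half.mono hF hq)

theorem eq_refl (hF : F.Ok) (s p : M) : F.Eq s s p := by
  obtain ⟨T, hT, hs⟩ := exists_tr s
  let B : M := sp (pd T (pd T F.P)) fun z => ∃ u q, z = tr u u q
  have hB : ∀ u w q, tr u w q ∈ B ↔ (u ∈ T ∧ w ∈ T ∧ q ∈ F.P) ∧ u = w := by
    intro u w q
    have h1 : tr u w q ∈ B ↔ tr u w q ∈ pd T (pd T F.P) ∧ ∃ u' q', tr u w q = tr u' u' q' :=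
      mem_sp (by simp (maxDischargeDepth := 50))
    rw [h1]
    unfold tr
    rw [op_mem_pd, op_mem_pd]
    refine and_congr Iff.rfl ⟨?_, ?_⟩
    · rintro ⟨u', q', he⟩
      obtain ⟨rfl, h2⟩ := op_inj.1 he
      exact (op_inj.1 h2).1.symm
    · rintro rfl
      exact ⟨u, q, rfl⟩
  have hBis : F.Bis B := by
    intro u w q hm
    obtain ⟨⟨hu, hw, hq⟩, rfl⟩ := (hB _ _ _).1 hm
    refine ⟨hm, fun x r hx q₁ hq₁ hr => ?_⟩
    have hq₁' := hF.left _ _ hq₁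
    exact ⟨q₁, hF.refl _ hq₁', x, r, hx, hr, (hB _ _ _).2
      ⟨⟨fst_mem hT hu hx, fst_mem hT hu hx, hq₁'⟩, rfl⟩⟩
  have key : F.HE s s p := by
    intro u r hu q hq hr
    have hq' := hF.left _ _ hq
    exact ⟨q, hF.refl _ hq', u, r, hu, hr, B, hBis, (hB _ _ _).2
      ⟨⟨fst_mem hT hs hu, fst_mem hT hs hu, hq'⟩, rfl⟩⟩
  exact eq_of_half hF key key

/-- Equality which is forced densely is forced. -/
theorem eq_of_dense (hF : F.Ok) {s t p : M} (h : ∀ q, F.L q p → ∃ q', F.L q' q ∧ F.Eq s t q') :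
    F.Eq s t p := by
  have key : ∀ {s t : M}, (∀ q, F.L q p → ∃ q', F.L q' q ∧ F.Eq s t q') → F.HE s t p := by
    intro s t h u r hu q hq hr
    obtain ⟨q', hq', he⟩ := h q hq
    have hq'' := hF.left _ _ hq'
    obtain ⟨q₂, hq₂, w, r', hw, hr', he'⟩ := he.half u r hu q' (hF.refl _ hq'')
      (hF.trans _ _ _ hq' hr)
    exact ⟨q₂, hF.trans _ _ _ hq₂ hq', w, r', hw, hr', he'⟩
  exact eq_of_half hF (key h) (key fun q hq => (h q hq).imp fun q' h' => ⟨h'.1, h'.2.symm⟩)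

theorem Eq.trans (hF : F.Ok) {s t r p : M} (h : F.Eq s t p) (h' : F.Eq t r p) : F.Eq s r p := by
  obtain ⟨T, hT, hZ⟩ := exists_tr (pr s (pr t r))
  have hsT : s ∈ T := hT _ hZ _ (by simp)
  have htr : pr t r ∈ T := hT _ hZ _ (by simp)
  have htT : t ∈ T := hT _ htr _ (by simp)
  have hrT : r ∈ T := hT _ htr _ (by simp)
  let B : M := sp (pd T (pd T F.P)) fun z =>
    ∃ u w q x, z = tr u w q ∧ x ∈ T ∧ F.Eq u x q ∧ F.Eq x w q
  have hB : ∀ u w q, tr u w q ∈ B ↔ (u ∈ T ∧ w ∈ T ∧ q ∈ F.P) ∧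
      ∃ x, x ∈ T ∧ F.Eq u x q ∧ F.Eq x w q := by
    intro u w q
    have h1 : tr u w q ∈ B ↔ tr u w q ∈ pd T (pd T F.P) ∧
        ∃ u' w' q' x, tr u w q = tr u' w' q' ∧ x ∈ T ∧ F.Eq u' x q' ∧ F.Eq x w' q' :=
      mem_sp (by simp (maxDischargeDepth := 50))
    rw [h1]
    unfold tr
    rw [op_mem_pd, op_mem_pd]
    refine and_congr Iff.rfl ⟨?_, fun ⟨x, h⟩ => ⟨u, w, q, x, rfl, h⟩⟩
    rintro ⟨u', w', q', x, he, h⟩
    obtain ⟨rfl, h2⟩ := op_inj.1 he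
    obtain ⟨rfl, rfl⟩ := op_inj.1 h2
    exact ⟨x, h⟩
  have step : ∀ u w q x, u ∈ T → w ∈ T → x ∈ T → F.Eq u x q → F.Eq x w q →
      ∀ y r₁, op y r₁ ∈ u → ∀ q₁, F.L q₁ q → F.L q₁ r₁ →
      ∃ q', F.L q' q₁ ∧ ∃ z r', op z r' ∈ w ∧ F.L q' r' ∧ tr y z q' ∈ B := by
    intro u w q x hu hw hx h1 h2 y r₁ hy q₁ hq₁ hr₁
    obtain ⟨q₂, hq₂, y', r₂, hy', hr₂, he⟩ := h1.half y r₁ hy q₁ hq₁ hr₁
    obtain ⟨q₃, hq₃, z, r₃, hz, hr₃, he'⟩ := h2.half y' r₂ hy' q₂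
      (hF.trans _ _ _ hq₂ hq₁) hr₂
    exact ⟨q₃, hF.trans _ _ _ hq₃ hq₂, z, r₃, hz, hr₃, (hB _ _ _).2
      ⟨⟨fst_mem hT hu hy, fst_mem hT hw hz, hF.left _ _ hq₃⟩, y', fst_mem hT hx hy',
        he.mono hF hq₃, he'⟩⟩
  have hBis : F.Bis B := by
    intro u w q hm
    obtain ⟨⟨hu, hw, hq⟩, x, hx, h1, h2⟩ := (hB _ _ _).1 hm
    refine ⟨(hB _ _ _).2 ⟨⟨hw, hu, hq⟩, x, hx, h2.symm, h1.symm⟩, ?_⟩
    exact step u w q x hu hw hx h1 h2
  refine eq_of_half hF ?_ ?_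
  · intro y r₁ hy q₁ hq₁ hr₁
    obtain ⟨q', hq', z, r', hz, hr', hm⟩ := step s r p t hsT hrT htT h h' y r₁ hy q₁ hq₁ hr₁
    exact ⟨q', hq', z, r', hz, hr', B, hBis, hm⟩
  · intro y r₁ hy q₁ hq₁ hr₁
    obtain ⟨q', hq', z, r', hz, hr', hm⟩ := step r s p t hrT hsT htT h'.symm h.symm y r₁ hy q₁
      hq₁ hr₁
    exact ⟨q', hq', z, r', hz, hr', B, hBis, hm⟩

/-! ### Membership -/

theorem Mem.mono (hF : F.Ok) {s t p q : M} (h : F.Mem s t p) (hq : F.L q p) : F.Mem s t q :=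
  fun q₁ hq₁ => h q₁ (hF.trans _ _ _ hq₁ hq)

theorem mem_of_dense (hF : F.Ok) {s t p : M} (h : ∀ q, F.L q p → ∃ q', F.L q' q ∧ F.Mem s t q') :
    F.Mem s t p := by
  intro q hq
  obtain ⟨q', hq', hm⟩ := h q hq
  obtain ⟨q₂, hq₂, h2⟩ := hm q' (hF.refl _ (hF.left _ _ hq'))
  exact ⟨q₂, hF.trans _ _ _ hq₂ hq', h2⟩

theorem mem_of_op (hF : F.Ok) {u r t p : M} (h : op u r ∈ t) (hp : F.L p r) : F.Mem u t p :=
  fun q hq => ⟨q, hF.refl _ (hF.left _ _ hq), u, r, h, hF.trans _ _ _ hq hp, eq_refl hF _ _⟩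

theorem Mem.congr_left (hF : F.Ok) {s s' t p : M} (h : F.Mem s t p) (he : F.Eq s s' p) :
    F.Mem s' t p := by
  intro q hq
  obtain ⟨q', hq', w, r', hw, hr', h1⟩ := h q hq
  exact ⟨q', hq', w, r', hw, hr',
    ((he.mono hF (hF.trans _ _ _ hq' hq)).symm).trans hF h1⟩

theorem Mem.congr_right (hF : F.Ok) {s t t' p : M} (h : F.Mem s t p) (he : F.Eq t t' p) :
    F.Mem s t' p := by
  intro q hq
  obtain ⟨q', hq', w, r', hw, hr', h1⟩ := h q hq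
  obtain ⟨q₂, hq₂, w₂, r₂, hw₂, hr₂, h2⟩ := he.half w r' hw q' (hF.trans _ _ _ hq' hq) hr'
  exact ⟨q₂, hF.trans _ _ _ hq₂ hq', w₂, r₂, hw₂, hr₂, (h1.mono hF hq₂).trans hF h2⟩

/-- Extensionality. -/
theorem eq_ext (hF : F.Ok) {s t p : M} (h : ∀ u q, F.L q p → (F.Mem u s q ↔ F.Mem u t q)) :
    F.Eq s t p := by
  have key : ∀ {s t : M}, (∀ u q, F.L q p → F.Mem u s q → F.Mem u t q) → F.HE s t p := by
    intro s t h u r hu q hq hr
    have h1 := h u q hq (mem_of_op hF hu hr)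
    exact h1 q (hF.refl _ (hF.left _ _ hq))
  exact eq_of_half hF (key fun u q hq => (h u q hq).1) (key fun u q hq => (h u q hq).2)

end FN

end Pool.Agent.Forc
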