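import Pool.Agent.Forc.CohenDef

/-!
# The Baire category theorem for `2^κ` inside a model of ZFC
-/

universe u

set_option linter.unusedSectionVars false

namespace Pool.Agent.Forc

open Pool.Agent.SigB

variable {M : Type u} [Membership M M] [IsZFC M]

theorem one_ne_em : (one : M) ≠ SigB.em := sc_ne_em _

theorem em_mem_two : (SigB.em : M) ∈ (two : M) := mem_sc.2 (Or.inl (mem_sc_self _))

theorem one_mem_two : (one : M) ∈ (two : M) := mem_sc_self _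

theorem mem_two {x : M} : x ∈ (two : M) ↔ x = SigB.em ∨ x = one := by
  unfold two one
  rw [mem_sc, mem_sc]
  constructor
  · rintro ((h | h) | h)
    · exact absurd h (not_mem_em x)
    · exact Or.inl h
    · exact Or.inr h
  · rintro (h | h)
    · exact Or.inl (Or.inr h)
    · exact Or.inr h

/-- The basic open set of all `g` which agree with `f` on `F`. -/
noncomputable def cyl (κ F f : M) : M := sp (cub κ) fun g => ∀ x, x ∈ F → ap g x = ap f x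

@[simp] theorem mem_cyl {κ F f g : M} :
    g ∈ cyl κ F f ↔ g ∈ cub κ ∧ ∀ x, x ∈ F → ap g x = ap f x := by
  unfold cyl
  exact mem_sp (by simp (maxDischargeDepth := 50))

theorem cyl.dt : DT (fun w : Fin 3 → M => cyl (w 0) (w 1) (w 2)) := by
  unfold cyl; simp (maxDischargeDepth := 50)

@[simp] theorem dt_cyl {n : ℕ} {s t r : (Fin n → M) → M} (hs : DT s) (ht : DT t) (hr : DT r) :
    DT (fun v => cyl (s v) (t v) (r v)) := dt3 cyl.dt hs ht hr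

theorem opn_cyl {κ F f : M} (hF : Sb F κ) (hfi : Fi F) : Opn κ (cyl κ F f) := by
  refine ⟨fun g hg => (mem_cyl.1 hg).1, fun g hg => ⟨F, hF, hfi, fun k hk h => ?_⟩⟩
  rw [mem_cyl] at hg ⊢
  exact ⟨hk, fun x hx => by rw [h x hx, hg.2 x hx]⟩

theorem opn_cub {κ : M} : Opn κ (cub κ) :=
  ⟨Sb.refl _, fun _ _ => ⟨SigB.em, fun x hx => absurd hx (not_mem_em x), fi_em,
    fun _ hg _ => hg⟩⟩

theorem opn_em {κ : M} : Opn κ (SigB.em : M) :=
  ⟨fun x hx => absurd hx (not_mem_em x), fun f hf => absurd hf (not_mem_em f)⟩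

theorem opn_it {κ U V : M} (hκ : Ord κ) (hU : Opn κ U) (hV : Opn κ V) : Opn κ (it U V) := by
  refine ⟨fun f hf => hU.1 f (mem_it.1 hf).1, fun f hf => ?_⟩
  rw [mem_it] at hf
  obtain ⟨F, hF, hF', hF2⟩ := hU.2 f hf.1
  obtain ⟨G, hG, hG', hG2⟩ := hV.2 f hf.2
  refine ⟨un F G, fun x hx => (mem_un.1 hx).elim (hF x) (hG x), fi_un hκ hF hG hF' hG',
    fun g hg h => mem_it.2 ⟨hF2 g hg fun x hx => h x (mem_un.2 (Or.inl hx)),
      hG2 g hg fun x hx => h x (mem_un.2 (Or.inr hx))⟩⟩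

/-- The zero function. -/
theorem exists_cub (κ : M) : ∃ f, f ∈ cub κ :=
  ⟨lam κ fun _ => SigB.em, lam_mem_fs (by simp (maxDischargeDepth := 50)) fun _ _ => em_mem_two⟩

/-- The relation of the construction in the Baire category theorem. -/
def Stp (κ e z z' : M) : Prop := ∃ n, ∃ F, ∃ f, ∃ F', ∃ f', z = op n (op F f) ∧
  z' = op (sc n) (op F' f') ∧ Sb F F' ∧ (∀ x, x ∈ F → ap f' x = ap f x) ∧
  ∀ g, g ∈ cub κ → (∀ x, x ∈ F' → ap g x = ap f' x) → g ∉ ap e n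

theorem Stp.dfn : Dfn (fun w : Fin 4 → M => Stp (w 0) (w 1) (w 2) (w 3)) := by
  unfold Stp; simp (maxDischargeDepth := 50)

@[simp] theorem dfn_Stp {n : ℕ} {s t r q : (Fin n → M) → M} (hs : DT s) (ht : DT t) (hr : DT r)
    (hq : DT q) : Dfn (fun v => Stp (s v) (t v) (r v) (q v)) := dfn4 Stp.dfn hs ht hr hq

theorem exists_step {κ e : M} (hκ : Ord κ) (hN : ∀ n, n ∈ (om : M) → Nwd κ (ap e n)) {z : M}
    (hz : z ∈ pd (om : M) (pd (Fs κ) (cub κ))) :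
    ∃ z', z' ∈ pd (om : M) (pd (Fs κ) (cub κ)) ∧ Stp κ e z z' := by
  obtain ⟨n, hn, y, hy, rfl⟩ := mem_pd.1 hz
  obtain ⟨F, hF, f, hf, rfl⟩ := mem_pd.1 hy
  rw [mem_Fs] at hF
  obtain ⟨V, hV, ⟨f', hf'⟩, hVU, hVe⟩ := hN n hn _ (opn_cyl (f := f) hF.1 hF.2)
    ⟨f, mem_cyl.2 ⟨hf, fun _ _ => rfl⟩⟩
  obtain ⟨F₁, h1, h2, h3⟩ := hV.2 f' hf'
  have h4 := mem_cyl.1 (hVU f' hf')
  refine ⟨op (sc n) (op (un F F₁) f'), ?_, n, F, f, un F F₁, f', rfl, rfl,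
    fun x hx => mem_un.2 (Or.inl hx), h4.2, fun g hg h => ?_⟩
  · refine op_mem_pd.2 ⟨sc_mem_om hn, op_mem_pd.2 ⟨mem_Fs.2 ⟨?_, fi_un hκ hF.1 h1 hF.2 h2⟩,
      h4.1⟩⟩
    exact fun x hx => (mem_un.1 hx).elim (hF.1 x) (h1 x)
  · exact hVe g (h3 g hg fun x hx => h x (mem_un.2 (Or.inr hx)))

/-- The Baire category theorem. -/
theorem baire {κ e U : M} (hκ : Ord κ) (hN : ∀ n, n ∈ (om : M) → Nwd κ (ap e n))
    (hU : Opn κ U) (hne : ∃ f, f ∈ U) : ∃ g, g ∈ U ∧ ∀ n, n ∈ (om : M) → g ∉ ap e n := by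
  classical
  obtain ⟨f₀, hf₀⟩ := hne
  obtain ⟨F₀, hF₀, hF₀', hF₀2⟩ := hU.2 f₀ hf₀
  obtain ⟨c, hc, hc'⟩ := choice' (a := pd (om : M) (pd (Fs κ) (cub κ)))
    (b := pd (om : M) (pd (Fs κ) (cub κ))) (P := fun z z' => Stp κ e z z')
    (by simp (maxDischargeDepth := 50)) fun z hz => exists_step hκ hN hz
  obtain ⟨h, -, h0, h1⟩ := om_recursion (op SigB.em (op F₀ f₀) : M) (G := ap c)
    (by simp (maxDischargeDepth := 50))
  -- the states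
  have hst : ∀ n, n ∈ (om : M) → ap h n ∈ pd (om : M) (pd (Fs κ) (cub κ)) ∧
      fst (ap h n) = n := by
    refine om_ind (P := fun n => ap h n ∈ pd (om : M) (pd (Fs κ) (cub κ)) ∧ fst (ap h n) = n)
      (by simp (maxDischargeDepth := 50)) ?_ ?_
    · rw [h0]
      exact ⟨op_mem_pd.2 ⟨em_mem_om, op_mem_pd.2 ⟨mem_Fs.2 ⟨hF₀, hF₀'⟩, hU.1 f₀ hf₀⟩⟩,
        fst_op _ _⟩
    · rintro n hn ⟨h2, h3⟩
      rw [h1 n hn]
      refine ⟨(mem_fs.1 hc).2 _ h2, ?_⟩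
      obtain ⟨m, F, f, F', f', h4, h5, -⟩ := hc' _ h2
      rw [h5, fst_op]
      rw [h4, fst_op] at h3
      rw [h3]
  obtain ⟨Fs', hFs'⟩ : ∃ G : M → M, G = fun n => fst (snd (ap h n)) := ⟨_, rfl⟩
  obtain ⟨fs', hfs'⟩ : ∃ G : M → M, G = fun n => snd (snd (ap h n)) := ⟨_, rfl⟩
  have hFd : DT (fun w : Fin 1 → M => Fs' (w 0)) := by
    subst hFs'; simp (maxDischargeDepth := 50)
  have hfd : DT (fun w : Fin 1 → M => fs' (w 0)) := by
    subst hfs'; simp (maxDischargeDepth := 50)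
  have hFd' : ∀ {n : ℕ} {s : (Fin n → M) → M}, DT s → DT (fun v => Fs' (s v)) :=
    fun hs => dt1 hFd hs
  have hfd' : ∀ {n : ℕ} {s : (Fin n → M) → M}, DT s → DT (fun v => fs' (s v)) :=
    fun hs => dt1 hfd hs
  have hF : ∀ n, n ∈ (om : M) → Sb (Fs' n) κ ∧ fs' n ∈ cub κ := by
    intro n hn
    obtain ⟨h2, h3⟩ := hst n hn
    obtain ⟨m, hm, y, hy, h4⟩ := mem_pd.1 h2
    obtain ⟨F, hF, f, hf, h5⟩ := mem_pd.1 hy
    rw [hFs', hfs']
    simp only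
    rw [h4, snd_op, h5, fst_op, snd_op]
    exact ⟨(mem_Fs.1 hF).1, hf⟩
  have hstep : ∀ n, n ∈ (om : M) → Sb (Fs' n) (Fs' (sc n)) ∧
      (∀ x, x ∈ Fs' n → ap (fs' (sc n)) x = ap (fs' n) x) ∧
      ∀ g, g ∈ cub κ → (∀ x, x ∈ Fs' (sc n) → ap g x = ap (fs' (sc n)) x) → g ∉ ap e n := by
    intro n hn
    obtain ⟨h2, h3⟩ := hst n hn
    obtain ⟨m, F, f, F', f', h4, h5, h6, h7, h8⟩ := hc' _ h2
    rw [h4, fst_op] at h3
    subst h3
    rw [hFs', hfs']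
    simp only
    rw [h1 m hn, h4]
    rw [h4] at h5
    rw [h5]
    simp only [snd_op, fst_op]
    exact ⟨h6, h7, h8⟩
  have hmono : ∀ n, n ∈ (om : M) → ∀ m, m ∈ (om : M) → (m ∈ n ∨ m = n) →
      Sb (Fs' m) (Fs' n) ∧ ∀ x, x ∈ Fs' m → ap (fs' n) x = ap (fs' m) x := by
    refine om_ind (P := fun n => ∀ m, m ∈ (om : M) → (m ∈ n ∨ m = n) →
      Sb (Fs' m) (Fs' n) ∧ ∀ x, x ∈ Fs' m → ap (fs' n) x = ap (fs' m) x)
      (by simp (maxDischargeDepth := 50) [hFd', hfd']) ?_ ?_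
    · rintro m - (h2 | h2)
      · exact absurd h2 (not_mem_em m)
      · subst h2
        exact ⟨Sb.refl _, fun _ _ => rfl⟩
    · rintro n hn ih m hm (h2 | h2)
      · rw [mem_sc] at h2
        obtain ⟨h3, h4⟩ := ih m hm h2
        obtain ⟨h5, h6, -⟩ := hstep n hn
        exact ⟨h3.trans h5, fun x hx => by rw [h6 x (h3 x hx), h4 x hx]⟩
      · subst h2
        exact ⟨Sb.refl _, fun _ _ => rfl⟩
  have hagree : ∀ n, n ∈ (om : M) → ∀ m, m ∈ (om : M) → ∀ x, x ∈ Fs' n → x ∈ Fs' m →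
      ap (fs' n) x = ap (fs' m) x := by
    intro n hn m hm x hxn hxm
    rcases (ord_of_mem_om hn).tri (ord_of_mem_om hm) with h2 | h2 | h2
    · exact ((hmono m hm n hn (Or.inl h2)).2 x hxn).symm
    · rw [h2]
    · exact (hmono n hn m hm (Or.inl h2)).2 x hxm
  -- the limit
  obtain ⟨g, hg⟩ : ∃ g : M, g = lam κ fun x =>
      if ∃ n, n ∈ (om : M) ∧ x ∈ Fs' n ∧ ap (fs' n) x = one then one else SigB.em := ⟨_, rfl⟩
  have hgd : DT (fun w : Fin 1 → M =>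
      if ∃ n, n ∈ (om : M) ∧ w 0 ∈ Fs' n ∧ ap (fs' n) (w 0) = one then one else SigB.em) := by
    refine DT.ite (P := fun w : Fin 1 → M => ∃ n, n ∈ (om : M) ∧ w 0 ∈ Fs' n ∧
      ap (fs' n) (w 0) = one) ?_ (by simp) (by simp)
    simp (maxDischargeDepth := 50) [hFd', hfd']
  have hgc : g ∈ cub κ := by
    rw [hg]
    refine lam_mem_fs hgd fun x _ => ?_
    split_ifs
    · exact one_mem_two
    · exact em_mem_two
  have hgn : ∀ n, n ∈ (om : M) → ∀ x, x ∈ Fs' n → ap g x = ap (fs' n) x := by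
    intro n hn x hx
    rw [hg, ap_lam hgd ((hF n hn).1 x hx)]
    split_ifs with h2
    · obtain ⟨m, hm, hxm, h3⟩ := h2
      rw [hagree n hn m hm x hx hxm, h3]
    · have h3 : ap (fs' n) x ∈ (two : M) := (mem_fs.1 (hF n hn).2).2 x ((hF n hn).1 x hx)
      rcases mem_two.1 h3 with h4 | h4
      · exact h4.symm
      · exact absurd ⟨n, hn, hx, h4⟩ h2
  refine ⟨g, hF₀2 g hgc fun x hx => ?_, fun n hn => ?_⟩
  · have e1 : Fs' SigB.em = F₀ := by rw [hFs']; simp only [h0, snd_op, fst_op]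
    have e2 : fs' SigB.em = f₀ := by rw [hfs']; simp only [h0, snd_op]
    rw [hgn SigB.em em_mem_om x (by rw [e1]; exact hx), e2]
  · exact (hstep n hn).2.2 g hgc (hgn (sc n) (sc_mem_om hn))

/-! ### The meager ideal -/

theorem nwd_mono {κ C D : M} (h : Sb C D) (hD : Nwd κ D) : Nwd κ C := fun U hU hne => by
  obtain ⟨V, h1, h2, h3, h4⟩ := hD U hU hne
  exact ⟨V, h1, h2, h3, fun f hf hfC => h4 f hf (h f hfC)⟩

theorem nwd_em (κ : M) : Nwd κ (SigB.em : M) := fun U hU hne =>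
  ⟨U, hU, hne, Sb.refl _, fun f _ => not_mem_em f⟩

theorem nwd_un {κ C D : M} (hC : Nwd κ C) (hD : Nwd κ D) : Nwd κ (un C D) := fun U hU hne => by
  obtain ⟨V, h1, h2, h3, h4⟩ := hC U hU hne
  obtain ⟨V', h1', h2', h3', h4'⟩ := hD V h1 h2
  refine ⟨V', h1', h2', h3'.trans h3, fun f hf hfC => ?_⟩
  rcases mem_un.1 hfC with h5 | h5
  · exact h4 f (h3' f hf) h5
  · exact h4' f hf h5

theorem mgr_mono {κ B C : M} (h : Sb B C) (hC : Mgr κ C) : Mgr κ B := by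
  obtain ⟨e, h1, h2, h3⟩ := hC
  exact ⟨e, h1, h2, fun f hf => h3 f (h f hf)⟩

theorem mgr_em (κ : M) : Mgr κ (SigB.em : M) := by
  refine ⟨lam om fun _ => SigB.em, fn_lam (by simp), fun n hn => ?_,
    fun f hf => absurd hf (not_mem_em f)⟩
  rw [ap_lam (by simp) hn]
  exact nwd_em κ

theorem mgr_un {κ B C : M} (hB : Mgr κ B) (hC : Mgr κ C) : Mgr κ (un B C) := by
  obtain ⟨e, h1, h2, h3⟩ := hB
  obtain ⟨d, h1', h2', h3'⟩ := hC
  have hd : DT (fun w : Fin 1 → M => un (ap e (w 0)) (ap d (w 0))) := by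
    simp (maxDischargeDepth := 50)
  refine ⟨lam om fun n => un (ap e n) (ap d n), fn_lam hd, fun n hn => ?_, fun f hf => ?_⟩
  · rw [ap_lam hd hn]
    exact nwd_un (h2 n hn) (h2' n hn)
  · rcases mem_un.1 hf with h | h
    · obtain ⟨n, hn, h4⟩ := h3 f h
      exact ⟨n, hn, by rw [ap_lam hd hn]; exact mem_un.2 (Or.inl h4)⟩
    · obtain ⟨n, hn, h4⟩ := h3' f h
      exact ⟨n, hn, by rw [ap_lam hd hn]; exact mem_un.2 (Or.inr h4)⟩

theorem not_mgr {κ U B : M} (hκ : Ord κ) (hU : Opn κ U) (hne : ∃ f, f ∈ U) (hUB : Sb U B) :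
    ¬ Mgr κ B := by
  rintro ⟨e, -, h2, h3⟩
  obtain ⟨g, hg, hg'⟩ := baire hκ h2 hU hne
  obtain ⟨n, hn, h4⟩ := h3 g (hUB g hg)
  exact hg' n hn h4

/-! ### Baire sets -/

theorem bai_clo {κ C : M} (h : Clo κ C) : Bai κ C := ⟨h.1.1, fun _ _ h' => h' C h⟩

theorem df_self (x : M) : df x x = SigB.em :=
  ext' fun z => by simp

theorem clo_cub (κ : M) : Clo κ (cub κ) := ⟨opn_cub, by rw [df_self]; exact opn_em⟩

theorem bai_cub (κ : M) : Bai κ (cub κ) := bai_clo (clo_cub κ)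

@[simp] theorem mem_sd {x y z : M} : z ∈ sd x y ↔ (z ∈ x ∧ z ∉ y) ∨ (z ∈ y ∧ z ∉ x) := by
  unfold sd; simp

theorem sd_comm (x y : M) : sd x y = sd y x := ext' fun z => by simp [or_comm]

theorem self_mem_cls {κ B : M} (hB : Bai κ B) : B ∈ cls κ B := by
  refine mem_cls.2 ⟨hB, mgr_mono (C := SigB.em) (fun z hz => ?_) (mgr_em κ)⟩
  simp at hz

theorem mgr_sd_trans {κ B C D : M} (h : Mgr κ (sd B C)) (h' : Mgr κ (sd C D)) :
    Mgr κ (sd B D) := by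
  refine mgr_mono (fun z hz => ?_) (mgr_un h h')
  rw [mem_un, mem_sd, mem_sd]
  rw [mem_sd] at hz
  tauto

theorem mgr_sd_symm {κ B C : M} (h : Mgr κ (sd B C)) : Mgr κ (sd C B) := by
  rwa [sd_comm]

theorem cls_eq_iff {κ B C : M} (hC : Bai κ C) :
    cls κ B = cls κ C ↔ Mgr κ (sd B C) := by
  constructor
  · intro h
    have h1 := self_mem_cls hC
    rw [← h] at h1
    exact (mem_cls.1 h1).2
  · intro h
    refine ext' fun D => ?_
    rw [mem_cls, mem_cls]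
    refine and_congr_right fun _ => ?_
    exact ⟨fun h1 => mgr_sd_trans (mgr_sd_symm h) h1, fun h1 => mgr_sd_trans h h1⟩

theorem op_mem_cohR {κ B C : M} (hB : Bai κ B) (hB' : ¬ Mgr κ B) (hC : Bai κ C)
    (hC' : ¬ Mgr κ C) : op (cls κ B) (cls κ C) ∈ cohR κ ↔ Mgr κ (df B C) := by
  rw [mem_cohR]
  constructor
  · rintro ⟨B₁, C₁, h1, h2, h3, h4, h5, h6⟩
    obtain ⟨h7, h8⟩ := op_inj.1 h6
    rw [cls_eq_iff h1] at h7
    rw [cls_eq_iff h3] at h8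
    refine mgr_mono (fun z hz => ?_) (mgr_un h7 (mgr_un h5 h8))
    rw [mem_un, mem_un, mem_sd, mem_sd, mem_df]
    rw [mem_df] at hz
    tauto
  · intro h
    exact ⟨B, C, hB, hB', hC, hC', h, rfl⟩

theorem cohR_sub {κ x y : M} (h : op x y ∈ cohR κ) : x ∈ cohD κ ∧ y ∈ cohD κ := by
  obtain ⟨B, C, h1, h2, h3, h4, -, h6⟩ := mem_cohR.1 h
  obtain ⟨rfl, rfl⟩ := op_inj.1 h6
  exact ⟨mem_cohD.2 ⟨B, h1, h2, rfl⟩, mem_cohD.2 ⟨C, h3, h4, rfl⟩⟩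

theorem cohR_rel {κ z : M} (h : z ∈ cohR κ) : ∃ x, x ∈ cohD κ ∧ ∃ y, y ∈ cohD κ ∧ z = op x y := by
  obtain ⟨B, C, h1, h2, h3, h4, -, h6⟩ := mem_cohR.1 h
  exact ⟨_, mem_cohD.2 ⟨B, h1, h2, rfl⟩, _, mem_cohD.2 ⟨C, h3, h4, rfl⟩, h6⟩

theorem cohR_refl {κ x : M} (h : x ∈ cohD κ) : op x x ∈ cohR κ := by
  obtain ⟨B, h1, h2, rfl⟩ := mem_cohD.1 h
  rw [op_mem_cohR h1 h2 h1 h2, df_self]
  exact mgr_em κ

theorem cohR_antisymm {κ x y : M} (h : op x y ∈ cohR κ) (h' : op y x ∈ cohR κ) : x = y := by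
  obtain ⟨hx, hy⟩ := cohR_sub h
  obtain ⟨B, h1, h2, rfl⟩ := mem_cohD.1 hx
  obtain ⟨C, h3, h4, rfl⟩ := mem_cohD.1 hy
  rw [op_mem_cohR h1 h2 h3 h4] at h
  rw [op_mem_cohR h3 h4 h1 h2] at h'
  rw [cls_eq_iff h3]
  exact mgr_un h h'

theorem cohR_trans {κ x y z : M} (h : op x y ∈ cohR κ) (h' : op y z ∈ cohR κ) :
    op x z ∈ cohR κ := by
  obtain ⟨hx, hy⟩ := cohR_sub h
  obtain ⟨-, hz⟩ := cohR_sub h'
  obtain ⟨B, h1, h2, rfl⟩ := mem_cohD.1 hx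
  obtain ⟨C, h3, h4, rfl⟩ := mem_cohD.1 hy
  obtain ⟨D, h5, h6, rfl⟩ := mem_cohD.1 hz
  rw [op_mem_cohR h1 h2 h3 h4] at h
  rw [op_mem_cohR h3 h4 h5 h6] at h'
  rw [op_mem_cohR h1 h2 h5 h6]
  refine mgr_mono (fun w hw => ?_) (mgr_un h h')
  rw [mem_un, mem_df, mem_df]
  rw [mem_df] at hw
  tauto

theorem cohO_mem {κ : M} (hκ : Ord κ) : cohO κ ∈ cohD κ :=
  mem_cohD.2 ⟨cub κ, bai_cub κ, not_mgr hκ opn_cub (exists_cub κ) (Sb.refl _), rfl⟩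

theorem le_cohO {κ x : M} (hκ : Ord κ) (h : x ∈ cohD κ) : op x (cohO κ) ∈ cohR κ := by
  obtain ⟨B, h1, h2, rfl⟩ := mem_cohD.1 h
  unfold cohO
  rw [op_mem_cohR h1 h2 (bai_cub κ) (not_mgr hκ opn_cub (exists_cub κ) (Sb.refl _))]
  refine mgr_mono (C := SigB.em) (fun z hz => ?_) (mgr_em κ)
  rw [mem_df] at hz
  exact absurd (h1.1 z hz.1) hz.2

/-! ### The conditions `b_ξ` -/

/-- The clopen set of all `f` with `f(ξ) = 1`. -/
noncomputable def hf (κ ξ : M) : M := sp (cub κ) fun f => ap f ξ = one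

@[simp] theorem mem_hf {κ ξ f : M} : f ∈ hf κ ξ ↔ f ∈ cub κ ∧ ap f ξ = one := by
  unfold hf
  exact mem_sp (by simp (maxDischargeDepth := 50))

theorem hf.dt : DT (fun w : Fin 2 → M => hf (w 0) (w 1)) := by
  unfold hf; simp (maxDischargeDepth := 50)

@[simp] theorem dt_hf {n : ℕ} {s t : (Fin n → M) → M} (hs : DT s) (ht : DT t) :
    DT (fun v => hf (s v) (t v)) := dt2 hf.dt hs ht

theorem clo_hf {κ ξ : M} (hξ : ξ ∈ κ) : Clo κ (hf κ ξ) := by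
  have hs : Sb (pr ξ ξ) κ := fun x hx => by
    have : x = ξ := by simpa using hx
    rw [this]; exact hξ
  refine ⟨⟨fun f hf => (mem_hf.1 hf).1, fun f hf => ⟨pr ξ ξ, hs, fi_single ξ, fun g hg h => ?_⟩⟩,
    ⟨fun f hf => (mem_df.1 hf).1, fun f hf => ⟨pr ξ ξ, hs, fi_single ξ, fun g hg h => ?_⟩⟩⟩
  · rw [mem_hf] at hf ⊢
    exact ⟨hg, by rw [h ξ (by simp), hf.2]⟩
  · rw [mem_df, mem_hf] at hf ⊢
    refine ⟨hg, fun h' => hf.2 ⟨hf.1, ?_⟩⟩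
    rw [← h ξ (by simp), h'.2]

/-- The condition `b_ξ`: the class of the clopen set of all `f` with `f(ξ) = 1`. -/
noncomputable def bx (κ ξ : M) : M := cls κ (hf κ ξ)

theorem bx.dt : DT (fun w : Fin 2 → M => bx (w 0) (w 1)) := by
  unfold bx; simp (maxDischargeDepth := 50)

@[simp] theorem dt_bx {n : ℕ} {s t : (Fin n → M) → M} (hs : DT s) (ht : DT t) :
    DT (fun v => bx (s v) (t v)) := dt2 bx.dt hs ht

theorem bx_mem {κ ξ : M} (hκ : Ord κ) (hξ : ξ ∈ κ) : bx κ ξ ∈ cohD κ := by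
  refine mem_cohD.2 ⟨hf κ ξ, bai_clo (clo_hf hξ), ?_, rfl⟩
  refine not_mgr hκ (clo_hf hξ).1 ⟨lam κ fun _ => one, ?_⟩ (Sb.refl _)
  rw [mem_hf, ap_lam (by simp) hξ]
  exact ⟨lam_mem_fs (by simp) fun _ _ => one_mem_two, rfl⟩

theorem bx_inj {κ ξ η : M} (hκ : Ord κ) (hξ : ξ ∈ κ) (hη : η ∈ κ) (h : bx κ ξ = bx κ η) :
    ξ = η := by
  classical
  by_contra hne
  unfold bx at h
  rw [cls_eq_iff (bai_clo (clo_hf hη))] at h
  refine not_mgr hκ (opn_it hκ (clo_hf hξ).1 (clo_hf hη).2) ?_ (B := sd (hf κ ξ) (hf κ η))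
    (fun f hf => ?_) h
  · have hd : DT (fun w : Fin 1 → M => if w 0 = ξ then one else SigB.em) :=
      DT.ite (P := fun w : Fin 1 → M => w 0 = ξ) (by simp) (by simp) (by simp)
    have hg : lam κ (fun x => if x = ξ then one else SigB.em) ∈ cub κ := by
      refine lam_mem_fs hd fun x _ => ?_
      split_ifs
      · exact one_mem_two
      · exact em_mem_two
    refine ⟨_, mem_it.2 ⟨mem_hf.2 ⟨hg, ?_⟩, mem_df.2 ⟨hg, fun h' => ?_⟩⟩⟩
    · rw [ap_lam hd hξ, if_pos rfl]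
    · have := (mem_hf.1 h').2
      rw [ap_lam hd hη, if_neg (fun h2 => hne h2.symm)] at this
      exact one_ne_em this.symm
  · rw [mem_it, mem_df] at hf
    exact mem_sd.2 (Or.inl ⟨hf.1, hf.2.2⟩)

end Pool.Agent.Forc
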