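import Pool.Agent.Forc.Tr
import Pool.Agent.Forc.Cohen

/-!
# Cohen forcing in the sense of the statement exists and has the conditions `b_ξ`
-/

universe u

set_option linter.unusedSectionVars false

namespace Pool.Agent.Forc

open Pool.Agent.SigB

variable {M : Type u} [Membership M M] [IsZFC M]

theorem fi_of_le {K : M} (hK : Ord K) : ∀ n, n ∈ (om : M) → ∀ s, Sb s K → Le s n → Fi s := by
  refine om_ind (P := fun n => ∀ s, Sb s K → Le s n → Fi s) (by simp (maxDischargeDepth := 50))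
    ?_ ?_
  · rintro s - ⟨f, hf, -⟩
    refine fi_em.mono fun x hx => ?_
    exact absurd ((mem_fs.1 hf).2 x hx) (not_mem_em _)
  · rintro n hn ih s hs ⟨f, hf, hfi⟩
    rw [mem_fs] at hf
    by_cases h : ∃ x, x ∈ s ∧ ap f x = n
    · obtain ⟨x₀, hx₀, h1⟩ := h
      have h2 : Fi (df s (pr x₀ x₀)) := by
        refine ih _ (fun z hz => hs z (mem_df.1 hz).1) ?_
        refine Le.mk (F := ap f) (by simp (maxDischargeDepth := 50)) (fun x hx => ?_)
          fun x y hx hy h3 => hfi x y (mem_df.1 hx).1 (mem_df.1 hy).1 h3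
        rw [mem_df, mem_pr] at hx
        rcases mem_sc.1 (hf.2 x hx.1) with h4 | h4
        · exact h4
        · exact absurd (Or.inl (hfi x x₀ hx.1 hx₀ (h4.trans h1.symm))) hx.2
      refine (fi_un hK (s := df s (pr x₀ x₀)) (t := pr x₀ x₀) (fun z hz => hs z (mem_df.1 hz).1)
        (fun z hz => ?_) h2 (fi_single x₀)).mono fun z hz => ?_
      · have : z = x₀ := by simpa using hz
        rw [this]; exact hs x₀ hx₀
      · rw [mem_un, mem_df]
        by_cases h5 : z ∈ pr x₀ x₀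
        · exact Or.inr h5
        · exact Or.inl ⟨hz, h5⟩
    · refine ih s hs ⟨f, mem_fs.2 ⟨hf.1, fun x hx => ?_⟩, hfi⟩
      rcases mem_sc.1 (hf.2 x hx) with h4 | h4
      · exact h4
      · exact absurd ⟨x, hx, h4⟩ h

theorem le_of_fi {K : M} (hK : Ord K) : ∀ s, Sb s K → Fi s → ∃ n, n ∈ (om : M) ∧ Le s n := by
  classical
  refine Fi.ind hK (P := fun s => ∃ n, n ∈ (om : M) ∧ Le s n)
    (by simp (maxDischargeDepth := 50)) ⟨SigB.em, em_mem_om, Le.refl _⟩ ?_
  rintro i s hi hs - ⟨n, hn, f, hf, hfi⟩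
  rw [mem_fs] at hf
  have his : i ∉ s := fun h => not_mem_self i (hs i h)
  have hd : DT (fun w : Fin 1 → M => if w 0 = i then n else ap f (w 0)) :=
    DT.ite (P := fun w : Fin 1 → M => w 0 = i) (by simp) (by simp)
      (by simp (maxDischargeDepth := 50))
  refine ⟨sc n, sc_mem_om hn, Le.mk (F := fun x => if x = i then n else ap f x) hd
    (fun x hx => ?_) fun x y hx hy h => ?_⟩
  all_goals beta_reduce at *
  · split_ifs with h1
    · exact mem_sc_self n
    · rw [mem_un, mem_pr] at hx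
      exact mem_sc.2 (Or.inl (hf.2 x (by tauto)))
  · rw [mem_un, mem_pr] at hx hy
    split_ifs at h with h1 h2 h2
    · rw [h1, h2]
    · exfalso
      have h3 := hf.2 y (by tauto)
      rw [← h] at h3
      exact not_mem_self n h3
    · exfalso
      have h3 := hf.2 x (by tauto)
      rw [h] at h3
      exact not_mem_self n h3
    · exact hfi x y (by tauto) (by tauto) h

theorem isFinite_iff_fi {K s : M} (hK : Ord K) (hs : Sb s K) : IsFinite s ↔ Fi s := by
  rw [isFinite_iff]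
  exact ⟨fun ⟨n, hn, h⟩ => fi_of_le hK n hn s hs h, le_of_fi hK s hs⟩

theorem isTwo_two : IsTwo (two : M) := by
  refine ⟨SigB.em, one, not_mem_em, fun w => ?_, fun w => mem_two⟩
  unfold one
  rw [mem_sc]
  exact ⟨fun h => h.elim (fun h => absurd h (not_mem_em w)) id, Or.inr⟩

theorem isCantor_cub (κ : M) : IsCantor (cub κ) κ :=
  ⟨two, isTwo_two, fun _ => by unfold cub; rw [isMap_iff]⟩

theorem agree_iff {κ f g s : M} (hf : f ∈ cub κ) (hg : g ∈ cub κ) (hs : Sb s κ) :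
    Agree f g s ↔ ∀ x, x ∈ s → ap g x = ap f x := by
  have hf' : IsMap f κ two := isMap_iff.2 hf
  have hg' : IsMap g κ two := isMap_iff.2 hg
  constructor
  · intro h x hx
    have h1 := (h x (ap f x) hx).1 ((val_map hf').2 ⟨hs x hx, rfl⟩)
    exact ((val_map hg').1 h1).2
  · intro h x v hx
    rw [val_map hf', val_map hg', h x hx]

variable {κ : M}

theorem isOpen_iff (hκ : Ord κ) {U : M} : IsOpen U (cub κ) κ ↔ Opn κ U := by
  unfold IsOpen Opn
  refine and_congr_right fun hU => forall_congr' fun f => imp_congr_right fun hf => ?_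
  refine exists_congr fun s => ?_
  constructor
  · rintro ⟨h1, h2, h3⟩
    exact ⟨h2, (isFinite_iff_fi hκ h2).1 h1, fun g hg h => h3 g hg ((agree_iff (hU f hf) hg h2).2 h)⟩
  · rintro ⟨h1, h2, h3⟩
    exact ⟨(isFinite_iff_fi hκ h1).2 h2, h1, fun g hg h => h3 g hg ((agree_iff (hU f hf) hg h1).1 h)⟩

theorem isCompl_iff {X Y c : M} : IsCompl Y X c ↔ Y = df c X := by
  constructor
  · intro h
    exact ext' fun z => by rw [h z, mem_df]
  · rintro rfl z
    exact mem_df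

theorem isClopen_iff (hκ : Ord κ) {U : M} : IsClopen U (cub κ) κ ↔ Clo κ U := by
  unfold IsClopen Clo
  rw [isOpen_iff hκ]
  refine and_congr_right fun _ => ?_
  constructor
  · rintro ⟨V, h1, h2⟩
    rw [isCompl_iff] at h1
    subst h1
    exact (isOpen_iff hκ).1 h2
  · intro h
    exact ⟨_, isCompl_iff.2 rfl, (isOpen_iff hκ).2 h⟩

theorem isSigmaAlgebra_iff {S : M} : IsSigmaAlgebra S (cub κ) ↔ SigAlg κ S := by
  constructor
  · rintro ⟨h1, h2, h3⟩
    refine ⟨h1, fun B hB => h2 B _ hB (isCompl_iff.2 rfl), fun e he he' => ?_⟩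
    have hm : IsMap e om S := isMap_iff.2 (mem_fs.2 ⟨he, he'⟩)
    refine h3 om e _ (isOmega_iff.2 rfl) hm fun z => ?_
    rw [mem_cun]
    constructor
    · rintro ⟨n, hn, hz⟩
      exact ⟨n, ap e n, (val_map hm).2 ⟨hn, rfl⟩, hz⟩
    · rintro ⟨n, X, h4, h5⟩
      obtain ⟨h6, rfl⟩ := (val_map hm).1 h4
      exact ⟨n, h6, h5⟩
  · rintro ⟨h1, h2, h3⟩
    refine ⟨h1, fun X Y hX hY => ?_, fun o g Z ho hg hZ => ?_⟩
    · rw [isCompl_iff.1 hY]
      exact h2 X hX
    · rw [isOmega_iff.1 ho] at hg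
      have hg' := mem_fs.1 (isMap_iff.1 hg)
      have : Z = cun g := by
        refine ext' fun z => ?_
        rw [hZ z, mem_cun]
        constructor
        · rintro ⟨n, X, h4, h5⟩
          obtain ⟨h6, rfl⟩ := (val_map hg).1 h4
          exact ⟨n, h6, h5⟩
        · rintro ⟨n, hn, hz⟩
          exact ⟨n, ap g n, (val_map hg).2 ⟨hn, rfl⟩, hz⟩
      rw [this]
      exact h3 g hg'.1 hg'.2

theorem sigAlg_pw : SigAlg κ (pw (cub κ)) := by
  refine ⟨fun B hB => mem_pw.1 hB, fun B _ => mem_pw.2 fun z hz => (mem_df.1 hz).1,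
    fun e _ he' => mem_pw.2 fun z hz => ?_⟩
  obtain ⟨n, hn, h⟩ := mem_cun.1 hz
  exact mem_pw.1 (he' n hn) z h

theorem isBaire_iff (hκ : Ord κ) {X : M} : IsBaire X (cub κ) κ ↔ Bai κ X := by
  unfold IsBaire Bai
  constructor
  · intro h
    refine ⟨mem_pw.1 (h _ (isSigmaAlgebra_iff.2 sigAlg_pw) fun U hU => mem_pw.2 ?_),
      fun A hA hC => h A (isSigmaAlgebra_iff.2 hA) fun U hU => hC U ((isClopen_iff hκ).1 hU)⟩
    exact ((isClopen_iff hκ).1 hU).1.1
  · rintro ⟨-, h⟩ S hS hU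
    exact h S (isSigmaAlgebra_iff.1 hS) fun C hC => hU C ((isClopen_iff hκ).2 hC)

theorem isNowhereDense_iff (hκ : Ord κ) {A : M} : IsNowhereDense A (cub κ) κ ↔ Nwd κ A := by
  unfold IsNowhereDense Nwd
  simp only [isOpen_iff hκ]
  rfl

theorem isMeager_iff (hκ : Ord κ) {A : M} : IsMeager A (cub κ) κ ↔ Mgr κ A := by
  constructor
  · rintro ⟨o, g, T, ho, hg, h1, h2⟩
    rw [isOmega_iff.1 ho] at hg
    refine ⟨g, (mem_fs.1 (isMap_iff.1 hg)).1, fun n hn =>
      (isNowhereDense_iff hκ).1 (h1 n _ ((val_map hg).2 ⟨hn, rfl⟩)), fun f hf => ?_⟩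
    obtain ⟨n, X, h3, h4⟩ := h2 f hf
    obtain ⟨h5, rfl⟩ := (val_map hg).1 h3
    exact ⟨n, h5, h4⟩
  · rintro ⟨e, h1, h2, h3⟩
    have hm : IsMap e om (im om (ap e)) := isMap_iff.2 (mem_fs.2 ⟨h1, fun n hn =>
      (mem_im (by simp (maxDischargeDepth := 50))).2 ⟨n, hn, rfl⟩⟩)
    refine ⟨om, e, im om (ap e), isOmega_iff.2 rfl, hm, fun n X hX => ?_, fun f hf => ?_⟩
    · obtain ⟨h5, rfl⟩ := (val_map hm).1 hX
      exact (isNowhereDense_iff hκ).2 (h2 n h5)
    · obtain ⟨n, hn, h4⟩ := h3 f hf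
      exact ⟨n, ap e n, (val_map hm).2 ⟨hn, rfl⟩, h4⟩

theorem leMod_iff (hκ : Ord κ) {X Y : M} : LeMod X Y (cub κ) κ ↔ Mgr κ (df X Y) := by
  unfold LeMod
  constructor
  · rintro ⟨D, h1, h2⟩
    have : D = df X Y := ext' fun z => by rw [h1 z, mem_df]
    rw [← this]
    exact (isMeager_iff hκ).1 h2
  · intro h
    exact ⟨_, fun z => mem_df, (isMeager_iff hκ).2 h⟩

theorem mgr_sd_iff {X Y : M} : Mgr κ (sd X Y) ↔ Mgr κ (df X Y) ∧ Mgr κ (df Y X) := by
  constructor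
  · intro h
    refine ⟨mgr_mono (fun z hz => ?_) h, mgr_mono (fun z hz => ?_) h⟩
    · rw [mem_sd]; exact Or.inl (mem_df.1 hz)
    · rw [mem_sd]; exact Or.inr (mem_df.1 hz)
  · rintro ⟨h1, h2⟩
    exact mgr_un h1 h2

theorem isCohen_coh (hκ : Ord κ) : IsCohen (cohD κ) (cohR κ) κ := by
  refine ⟨cub κ, isCantor_cub κ, fun p => ?_, fun z => ?_⟩
  · rw [mem_cohD]
    refine exists_congr fun X => ?_
    rw [isBaire_iff hκ, isMeager_iff hκ]
    refine and_congr_right fun _ => and_congr_right fun _ => ?_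
    constructor
    · rintro rfl Y
      rw [mem_cls, isBaire_iff hκ, leMod_iff hκ, leMod_iff hκ, mgr_sd_iff]
    · intro h
      refine ext' fun Y => ?_
      rw [h Y, mem_cls, isBaire_iff hκ, leMod_iff hκ, leMod_iff hκ, mgr_sd_iff]
  · constructor
    · intro hz
      obtain ⟨B, C, h1, h2, h3, h4, h5, rfl⟩ := mem_cohR.1 hz
      refine ⟨_, _, mem_cohD.2 ⟨B, h1, h2, rfl⟩, mem_cohD.2 ⟨C, h3, h4, rfl⟩,
        isOrdPair_iff.2 rfl, fun X Y hX hY => ?_⟩
      rw [mem_cls] at hX hY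
      rw [leMod_iff hκ]
      refine mgr_mono (fun w hw => ?_) (mgr_un hX.2 (mgr_un h5 hY.2))
      rw [mem_un, mem_un, mem_sd, mem_sd, mem_df]
      rw [mem_df] at hw
      tauto
    · rintro ⟨p, q, hp, hq, h1, h2⟩
      rw [isOrdPair_iff] at h1
      subst h1
      obtain ⟨B, h3, h4, rfl⟩ := mem_cohD.1 hp
      obtain ⟨C, h5, h6, rfl⟩ := mem_cohD.1 hq
      rw [op_mem_cohR h3 h4 h5 h6, ← leMod_iff hκ]
      exact h2 B C (self_mem_cls h3) (self_mem_cls h5)

theorem isTop_coh (hκ : Ord κ) : IsTop (cohO κ) (cohD κ) (cohR κ) :=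
  ⟨cohO_mem hκ, fun _ hp => val_iff.2 (le_cohO hκ hp)⟩

theorem exists_cohen {k : M} (hk : Ord k) (_hinf : Sb om k) : ∃ P R b e : M, IsCohen P R k ∧
    b ∈ fs k P ∧ Inj b k ∧ IsTop e P R ∧ (∀ p q, op p q ∈ R → op q p ∈ R → p = q) ∧
    ∀ p, p ∈ P → op p p ∈ R := by
  have hd : DT (fun w : Fin 1 → M => bx k (w 0)) := by simp (maxDischargeDepth := 50)
  refine ⟨cohD k, cohR k, lam k (bx k), cohO k, isCohen_coh hk,
    lam_mem_fs hd fun x hx => bx_mem hk hx, fun x y hx hy h => ?_, isTop_coh hk,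
    fun p q h h' => cohR_antisymm h h', fun p hp => cohR_refl hp⟩
  rw [ap_lam hd hx, ap_lam hd hy] at h
  exact bx_inj hk hx hy h

end Pool.Agent.Forc
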