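import Pool.Agent.SigB.Rec

/-!
# Induction on membership, the cumulative hierarchy and collection in a model of ZFC
-/

universe u

set_option linter.unusedSectionVars false

namespace Pool.Agent.Forc

open Pool.Agent.SigB

variable {M : Type u} [Membership M M] [IsZFC M]

/-- Induction on membership inside a transitive set. -/
theorem tr_ind {T : M} (hT : Tr T) {P : M → Prop} (hP : Dfn (fun w : Fin 1 → M => P (w 0)))
    (h : ∀ t, t ∈ T → (∀ u, u ∈ t → P u) → P t) : ∀ t, t ∈ T → P t := by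
  intro t ht
  by_contra hn
  obtain ⟨x, hx, hPx, hmin⟩ := found' (a := T) (P := fun x => ¬ P x) hP.not ⟨t, ht, hn⟩
  exact hPx (h x hx fun u hu => not_not.1 (hmin u hu (hT x hx u hu)))

/-- Induction on membership. -/
theorem mem_ind {P : M → Prop} (hP : Dfn (fun w : Fin 1 → M => P (w 0)))
    (h : ∀ t, (∀ u, u ∈ t → P u) → P t) (t : M) : P t := by
  obtain ⟨T, hT, ht⟩ := exists_tr t
  exact tr_ind hT hP (fun t _ => h t) t ht

/-- The least ordinal with a property. -/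
noncomputable def lst (Q : M → Prop) : M :=
  cp fun z => ∃ α, Ord α ∧ Q α ∧ (∀ β, β ∈ α → ¬ Q β) ∧ z ∈ α

theorem lst_spec {Q : M → Prop} (hQ : Dfn (fun w : Fin 1 → M => Q (w 0))) {α : M}
    (hα : Ord α) (h : Q α) : Ord (lst Q) ∧ Q (lst Q) ∧ ∀ β, β ∈ lst Q → ¬ Q β := by
  obtain ⟨γ, hγ, hQγ, hmin⟩ := Ord.exists_least hQ hα h
  have h1 : lst Q = γ := by
    refine ext' fun z => ?_
    unfold lst
    rw [mem_cp ⟨γ, fun z => ⟨fun hz => ⟨γ, hγ, hQγ, hmin, hz⟩, ?_⟩⟩]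
    · constructor
      · rintro ⟨δ, hδ, hQδ, hmin', hz⟩
        rcases hγ.tri hδ with h2 | h2 | h2
        · exact absurd hQγ (hmin' _ h2)
        · rwa [h2]
        · exact absurd hQδ (hmin _ h2)
      · exact fun hz => ⟨γ, hγ, hQγ, hmin, hz⟩
    · rintro ⟨δ, hδ, hQδ, hmin', hz⟩
      rcases hγ.tri hδ with h2 | h2 | h2
      · exact absurd hQγ (hmin' _ h2)
      · rwa [h2]
      · exact absurd hQδ (hmin _ h2)
  rw [h1]
  exact ⟨hγ, hQγ, hmin⟩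

theorem dt_lst {n : ℕ} {Q : (Fin n → M) → M → Prop}
    (h : Dfn (fun w : Fin (n + 1) → M => Q (fun i => w i.succ) (w 0))) :
    DT (fun v => lst (Q v)) := by
  unfold lst
  refine dt_cp (P := fun v z => ∃ α, Ord α ∧ Q v α ∧ (∀ β, β ∈ α → ¬ Q v β) ∧ z ∈ α) ?_
  refine Dfn.ex (P := fun (w : Fin (n + 1) → M) α => Ord α ∧ Q (fun i => w i.succ) α ∧
    (∀ β, β ∈ α → ¬ Q (fun i => w i.succ) β) ∧ w 0 ∈ α) ?_
  refine Dfn.and (dfn_Ord (DT.var 0)) (Dfn.and ?_ (Dfn.and ?_ (Dfn.mem (DT.var _) (DT.var _))))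
  · exact h.ren (m := n + 2) (Fin.cases 0 fun i => i.succ.succ)
  · refine Dfn.all (P := fun (w : Fin (n + 2) → M) β => β ∈ w 0 →
      ¬ Q (fun i => w i.succ.succ) β) (Dfn.imp (Dfn.mem (DT.var _) (DT.var _)) (Dfn.not ?_))
    exact h.ren (m := n + 3) (Fin.cases 0 fun i => i.succ.succ.succ)

/-- Levels of the cumulative hierarchy. -/
def IsLev (f α : M) : Prop :=
  Fn f (sc α) ∧ ∀ x, x ∈ sc α → ∀ z, z ∈ ap f x ↔ ∃ y, y ∈ x ∧ Sb z (ap f y)

theorem IsLev.dfn : Dfn (fun w : Fin 2 → M => IsLev (w 0) (w 1)) := by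
  unfold IsLev; simp (maxDischargeDepth := 50)

@[simp] theorem dfn_IsLev {n : ℕ} {s t : (Fin n → M) → M} (hs : DT s) (ht : DT t) :
    Dfn (fun v => IsLev (s v) (t v)) := dfn2 IsLev.dfn hs ht

theorem exists_lev {α : M} (hα : Ord α) : ∃ f, IsLev f α := by
  obtain ⟨f, hf, hr⟩ := ord_recursion (ord_sc hα)
    (G := fun x h => sU (im x fun y => pw (ap h y))) (by
      refine dt_sU (dt_im (F := fun (w : Fin 2 → M) y => pw (ap (w 1) y)) (DT.var 0) ?_)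
      exact dt_pw (dt_ap (DT.var _) (DT.var 0)))
  refine ⟨f, hf, fun x hx z => ?_⟩
  have hsub : Sb x (sc α) := (ord_sc hα).1 x hx
  rw [hr x hx, mem_sU]
  have hd : DT (fun w : Fin 1 → M => pw (ap (rs f x) (w 0))) := by
    simp (maxDischargeDepth := 50)
  constructor
  · rintro ⟨y, hy, hz⟩
    obtain ⟨b, hb, rfl⟩ := (mem_im hd).1 hy
    rw [mem_pw, ap_rs hf hsub hb] at hz
    exact ⟨b, hb, hz⟩
  · rintro ⟨b, hb, hz⟩
    exact ⟨_, (mem_im hd).2 ⟨b, hb, rfl⟩, mem_pw.2 (by rwa [ap_rs hf hsub hb])⟩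

theorem IsLev.agree {f g α β : M} (hα : Ord α) (hβ : Ord β) (hf : IsLev f α) (hg : IsLev g β) :
    ∀ x, x ∈ sc α → x ∈ sc β → ap f x = ap g x := by
  intro x hx hx'
  have hox : Ord x := (ord_sc hα).mem hx
  refine Ord.indAll (P := fun x => x ∈ sc α → x ∈ sc β → ap f x = ap g x)
    (by simp (maxDischargeDepth := 50)) ?_ hox hx hx'
  intro x _ ih hxa hxb
  refine ext' fun z => ?_
  rw [hf.2 x hxa, hg.2 x hxb]
  refine exists_congr fun y => and_congr_right fun hy => ?_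
  rw [ih y hy ((ord_sc hα).1 x hxa y hy) ((ord_sc hβ).1 x hxb y hy)]

/-- The level `V_α`. -/
noncomputable def VV (α : M) : M := cp fun z => ∃ f, IsLev f α ∧ z ∈ ap f α

theorem VV.dt : DT (fun w : Fin 1 → M => VV (w 0)) := by
  unfold VV; simp (maxDischargeDepth := 50)

@[simp] theorem dt_VV {n : ℕ} {s : (Fin n → M) → M} (hs : DT s) : DT (fun v => VV (s v)) :=
  dt1 VV.dt hs

theorem VV_eq {f α : M} (hα : Ord α) (hf : IsLev f α) : VV α = ap f α := by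
  refine ext' fun z => ?_
  have h1 : ∀ z, z ∈ ap f α ↔ ∃ g, IsLev g α ∧ z ∈ ap g α := by
    intro z
    constructor
    · exact fun hz => ⟨f, hf, hz⟩
    · rintro ⟨g, hg, hz⟩
      rwa [hf.agree hα hα hg α (mem_sc_self α) (mem_sc_self α)]
  unfold VV
  rw [mem_cp ⟨ap f α, h1⟩, ← h1]

theorem mem_VV {α z : M} (hα : Ord α) : z ∈ VV α ↔ ∃ β, β ∈ α ∧ Sb z (VV β) := by
  obtain ⟨f, hf⟩ := exists_lev hα
  rw [VV_eq hα hf, hf.2 α (mem_sc_self α)]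
  refine exists_congr fun β => and_congr_right fun hβ => ?_
  have hoβ := hα.mem hβ
  obtain ⟨g, hg⟩ := exists_lev hoβ
  rw [VV_eq hoβ hg, hg.agree hoβ hα hf β (mem_sc_self β) (mem_sc.2 (Or.inl hβ))]

theorem VV_mono {α β : M} (hβ : Ord β) (hα : Ord α) (h : Sb α β) : Sb (VV α) (VV β) := by
  intro z hz
  obtain ⟨γ, hγ, hz⟩ := (mem_VV hα).1 hz
  exact (mem_VV hβ).2 ⟨γ, h γ hγ, hz⟩

theorem exists_mem_VV (z : M) : ∃ α : M, Ord α ∧ z ∈ VV α := by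
  refine mem_ind (P := fun z => ∃ α : M, Ord α ∧ z ∈ VV α) (by simp (maxDischargeDepth := 50)) ?_ z
  intro t ih
  let R : M → M := fun y => lst fun α => y ∈ VV α
  have hQ : ∀ y : M, Dfn (fun w : Fin 1 → M => y ∈ VV (w 0)) := fun y =>
    Dfn.mem (DT.const y) (dt_VV (DT.var 0))
  have hR : DT (fun w : Fin 1 → M => R (w 0)) :=
    dt_lst (Q := fun (v : Fin 1 → M) α => v 0 ∈ VV α) (Dfn.mem (DT.var _) (dt_VV (DT.var 0)))
  have hRo : ∀ y, y ∈ t → Ord (R y) ∧ y ∈ VV (R y) := by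
    intro y hy
    obtain ⟨α, hα, h⟩ := ih y hy
    have h3 := lst_spec (Q := fun α => y ∈ VV α) (hQ y) hα h
    exact ⟨h3.1, h3.2.1⟩
  let β : M := sU (im t R)
  have hβ : Ord β := ord_sU fun y hy => by
    obtain ⟨x, hx, rfl⟩ := (mem_im hR).1 hy
    exact (hRo x hx).1
  refine ⟨sc β, ord_sc hβ, (mem_VV (ord_sc hβ)).2 ⟨β, mem_sc_self β, fun y hy => ?_⟩⟩
  refine VV_mono hβ (hRo y hy).1 ?_ y (hRo y hy).2
  intro z hz
  exact mem_sU.2 ⟨R y, (mem_im hR).2 ⟨y, hy, rfl⟩, hz⟩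

/-- **Collection.** -/
theorem collection {P : M → M → Prop} (hP : Dfn (fun w : Fin 2 → M => P (w 0) (w 1))) (a : M) :
    ∃ b : M, ∀ x, x ∈ a → (∃ y, P x y) → ∃ y, y ∈ b ∧ P x y := by
  have hP' : ∀ {n : ℕ} {s t : (Fin n → M) → M}, DT s → DT t → Dfn fun v => P (s v) (t v) :=
    fun hs ht => dfn2 hP hs ht
  let R : M → M := fun x => lst fun α => ∃ y, y ∈ VV α ∧ P x y
  have hQ : ∀ x : M, Dfn (fun w : Fin 1 → M => ∃ y, y ∈ VV (w 0) ∧ P x y) := fun x => by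
    simp (maxDischargeDepth := 50) [hP']
  have hR : DT (fun w : Fin 1 → M => R (w 0)) :=
    dt_lst (Q := fun (v : Fin 1 → M) α => ∃ y, y ∈ VV α ∧ P (v 0) y)
      (by simp (maxDischargeDepth := 50) [hP'])
  let a' : M := sp a fun x => ∃ y, P x y
  have ha' : ∀ x, x ∈ a' ↔ x ∈ a ∧ ∃ y, P x y := fun x =>
    mem_sp (by simp (maxDischargeDepth := 50) [hP'])
  have hRo : ∀ x, x ∈ a' → Ord (R x) ∧ ∃ y, y ∈ VV (R x) ∧ P x y := by
    intro x hx
    obtain ⟨-, y, hy⟩ := (ha' x).1 hx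
    obtain ⟨α, hα, h⟩ := exists_mem_VV y
    have h3 := lst_spec (Q := fun α => ∃ y, y ∈ VV α ∧ P x y) (hQ x) hα ⟨y, h, hy⟩
    exact ⟨h3.1, h3.2.1⟩
  let β : M := sU (im a' R)
  have hβ : Ord β := ord_sU fun y hy => by
    obtain ⟨x, hx, rfl⟩ := (mem_im hR).1 hy
    exact (hRo x hx).1
  refine ⟨VV β, fun x hx hex => ?_⟩
  have hxa := (ha' x).2 ⟨hx, hex⟩
  obtain ⟨h1, y, hy, hPy⟩ := hRo x hxa
  refine ⟨y, VV_mono hβ h1 ?_ y hy, hPy⟩
  intro z hz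
  exact mem_sU.2 ⟨R x, (mem_im hR).2 ⟨x, hxa, rfl⟩, hz⟩

end Pool.Agent.Forc
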