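import Pool.Agent.Forc.Tr
import Pool.Agent.Forc.CardB

/-!
# Families of relations closed under first-order operations
-/

universe u

set_option linter.unusedSectionVars false

namespace Pool.Agent.Forc

open Pool.Agent.SigB

variable {M : Type u} [Membership M M] [IsZFC M]

/-- The tuple `s` of length `n` followed by `a`. -/
noncomputable def apd (s n a : M) : M := un s (pr (op n a) (op n a))

theorem apd.dt : DT (fun w : Fin 3 → M => apd (w 0) (w 1) (w 2)) := by
  unfold apd; simp (maxDischargeDepth := 50)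

@[simp] theorem dt_apd {n : ℕ} {s t r : (Fin n → M) → M} (hs : DT s) (ht : DT t) (hr : DT r) :
    DT (fun v => apd (s v) (t v) (r v)) := dt3 apd.dt hs ht hr

/-- The projection of the relation `X` of arity `n + 1`. -/
noncomputable def prj (n h X : M) : M := sp (fs n h) fun s => ∃ a, a ∈ h ∧ apd s n a ∈ X

theorem prj.dt : DT (fun w : Fin 3 → M => prj (w 0) (w 1) (w 2)) := by
  unfold prj; simp (maxDischargeDepth := 50)

@[simp] theorem dt_prj {n : ℕ} {s t r : (Fin n → M) → M} (hs : DT s) (ht : DT t) (hr : DT r) :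
    DT (fun v => prj (s v) (t v) (r v)) := dt3 prj.dt hs ht hr

/-- `D` is a set of pairs `(n, X)` where `X` is a set of `n`-tuples of elements of `h`, and it is
closed under the first-order operations. -/
structure DFam (D h W : M) : Prop where
  sub : ∀ z, z ∈ D → ∃ n, n ∈ (om : M) ∧ ∃ X, Sb X (fs n h) ∧ z = op n X
  mem : ∀ n i j, n ∈ (om : M) → i ∈ n → j ∈ n → op n (sp (fs n h) fun s => ap s i ∈ ap s j) ∈ D
  eq : ∀ n i j, n ∈ (om : M) → i ∈ n → j ∈ n → op n (sp (fs n h) fun s => ap s i = ap s j) ∈ D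
  ord : ∀ n i j, n ∈ (om : M) → i ∈ n → j ∈ n →
    op n (sp (fs n h) fun s => op (ap s i) (ap s j) ∈ W) ∈ D
  neg : ∀ n X, op n X ∈ D → op n (df (fs n h) X) ∈ D
  and : ∀ n X Y, op n X ∈ D → op n Y ∈ D → op n (it X Y) ∈ D
  ex : ∀ n X, n ∈ (om : M) → op (sc n) X ∈ D → op n (prj n h X) ∈ D

/-- The condition of Tarski and Vaught. -/
def TV (D h b : M) : Prop :=
  ∀ n X s, n ∈ (om : M) → op (sc n) X ∈ D → s ∈ fs n b → (∃ a, a ∈ h ∧ apd s n a ∈ X) →
    ∃ a, a ∈ b ∧ apd s n a ∈ X

end Pool.Agent.Forc
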