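import Pool.Agent.Forc.Tr

/-!
# Being an elementary submodel is definable
-/

universe u

set_option linter.unusedSectionVars false

namespace Pool.Agent.Forc

open Pool.Agent.SigB

variable {M : Type u} [Membership M M] [IsZFC M]

theorem has_iff {T n X Y : M} : Has T n X Y ↔ op n (op X Y) ∈ T := by
  unfold Has
  constructor
  · rintro ⟨p, t, h1, h2, h3⟩
    rw [isOrdPair_iff] at h1 h2
    rwa [← h1, ← h2]
  · intro h
    exact ⟨op X Y, op n (op X Y), isOrdPair_iff.2 rfl, isOrdPair_iff.2 rfl, h⟩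

@[simp] theorem dfn_Has {n : ℕ} {a b c d : (Fin n → M) → M} (ha : DT a) (hb : DT b) (hc : DT c)
    (hd : DT d) : Dfn (fun v => Has (a v) (b v) (c v) (d v)) := by
  simp only [has_iff]
  simp (maxDischargeDepth := 50) [ha, hb, hc, hd]

/-- Definable relations. -/
theorem dfn_IsRel {n : ℕ} {X m h : (Fin n → M) → M} {Q : (Fin n → M) → M → Prop} (hX : DT X)
    (hm : DT m) (hh : DT h) (hQ : Dfn (fun w : Fin (n + 1) → M => Q (fun i => w i.succ) (w 0))) :
    Dfn (fun v => IsRel (X v) (m v) (h v) (Q v)) := by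
  unfold IsRel
  simp only [isMap_iff]
  refine Dfn.all (P := fun (v : Fin n → M) s => s ∈ X v ↔ s ∈ fs (m v) (h v) ∧ Q v s) ?_
  refine Dfn.iff ?_ (Dfn.and ?_ hQ)
  · exact Dfn.mem (DT.var 0) (hX.ren Fin.succ)
  · exact Dfn.mem (DT.var 0) (dt_fs (hm.ren Fin.succ) (hh.ren Fin.succ))

/-- The six clauses. -/
def CA (E : M → M → M → M → M → Prop) (T h b W : M) : Prop :=
  ∀ o n i j X Y : M, IsOmega o → n ∈ o → i ∈ n → j ∈ n →
    IsRel X n h (fun s => E s i j W W) → IsRel Y n b (fun s => E s i j W W) → Has T n X Y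

theorem CA.dfn {E : M → M → M → M → M → Prop}
    (hE : Dfn (fun w : Fin 5 → M => E (w 0) (w 1) (w 2) (w 3) (w 4))) :
    Dfn (fun w : Fin 4 → M => CA E (w 0) (w 1) (w 2) (w 3)) := by
  have hE' : ∀ {n : ℕ} {a b c d e : (Fin n → M) → M}, DT a → DT b → DT c → DT d → DT e →
      Dfn fun v => E (a v) (b v) (c v) (d v) (e v) := fun ha hb hc hd he => dfn5 hE ha hb hc hd he
  unfold CA
  simp only [isOmega_iff]
  refine Dfn.all (P := fun (w : Fin 4 → M) o => ∀ n i j X Y : M, o = om → n ∈ o → i ∈ n → j ∈ n →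
    IsRel X n (w 1) (fun s => E s i j (w 3) (w 3)) →
    IsRel Y n (w 2) (fun s => E s i j (w 3) (w 3)) → Has (w 0) n X Y) ?_
  refine Dfn.all (P := fun (w : Fin 5 → M) n => ∀ i j X Y : M, w 0 = om → n ∈ w 0 → i ∈ n → j ∈ n →
    IsRel X n (w 2) (fun s => E s i j (w 4) (w 4)) →
    IsRel Y n (w 3) (fun s => E s i j (w 4) (w 4)) → Has (w 1) n X Y) ?_
  refine Dfn.all (P := fun (w : Fin 6 → M) i => ∀ j X Y : M, w 1 = om → w 0 ∈ w 1 → i ∈ w 0 →
    j ∈ w 0 → IsRel X (w 0) (w 3) (fun s => E s i j (w 5) (w 5)) →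
    IsRel Y (w 0) (w 4) (fun s => E s i j (w 5) (w 5)) → Has (w 2) (w 0) X Y) ?_
  refine Dfn.all (P := fun (w : Fin 7 → M) j => ∀ X Y : M, w 2 = om → w 1 ∈ w 2 → w 0 ∈ w 1 →
    j ∈ w 1 → IsRel X (w 1) (w 4) (fun s => E s (w 0) j (w 6) (w 6)) →
    IsRel Y (w 1) (w 5) (fun s => E s (w 0) j (w 6) (w 6)) → Has (w 3) (w 1) X Y) ?_
  refine Dfn.all (P := fun (w : Fin 8 → M) X => ∀ Y : M, w 3 = om → w 2 ∈ w 3 → w 1 ∈ w 2 →
    w 0 ∈ w 2 → IsRel X (w 2) (w 5) (fun s => E s (w 1) (w 0) (w 7) (w 7)) →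
    IsRel Y (w 2) (w 6) (fun s => E s (w 1) (w 0) (w 7) (w 7)) → Has (w 4) (w 2) X Y) ?_
  refine Dfn.all (P := fun (w : Fin 9 → M) Y => w 4 = om → w 3 ∈ w 4 → w 2 ∈ w 3 →
    w 1 ∈ w 3 → IsRel (w 0) (w 3) (w 6) (fun s => E s (w 2) (w 1) (w 8) (w 8)) →
    IsRel Y (w 3) (w 7) (fun s => E s (w 2) (w 1) (w 8) (w 8)) → Has (w 5) (w 3) (w 0) Y) ?_
  refine Dfn.imp (by simp) (Dfn.imp (by simp) (Dfn.imp (by simp) (Dfn.imp (by simp)
    (Dfn.imp ?_ (Dfn.imp ?_ (by simp))))))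
  · refine dfn_IsRel (Q := fun (w : Fin 10 → M) s => E s (w 3) (w 2) (w 9) (w 9)) (by simp)
      (by simp) (by simp) (hE' ?_ ?_ ?_ ?_ ?_) <;> simp
  · refine dfn_IsRel (Q := fun (w : Fin 10 → M) s => E s (w 3) (w 2) (w 9) (w 9)) (by simp)
      (by simp) (by simp) (hE' ?_ ?_ ?_ ?_ ?_) <;> simp

def CN (T h b : M) : Prop :=
  ∀ n X Y X' Y' : M, Has T n X Y → (∀ s, s ∈ X' ↔ s ∈ fs n h ∧ s ∉ X) →
      (∀ s, s ∈ Y' ↔ s ∈ fs n b ∧ s ∉ Y) → Has T n X' Y'

theorem CN.dfn : Dfn (fun w : Fin 3 → M => CN (w 0) (w 1) (w 2)) := by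
  unfold CN; simp (maxDischargeDepth := 50)

@[simp] theorem dfn_CN {n : ℕ} {s t r : (Fin n → M) → M} (hs : DT s) (ht : DT t) (hr : DT r) :
    Dfn (fun v => CN (s v) (t v) (r v)) := dfn3 CN.dfn hs ht hr

def CD (T h b : M) : Prop :=
  ∀ n X Y X' Y' X'' Y'' : M, Has T n X Y → Has T n X' Y' →
      (∀ s, s ∈ X'' ↔ s ∈ fs n h ∧ s ∈ X ∧ s ∈ X') →
      (∀ s, s ∈ Y'' ↔ s ∈ fs n b ∧ s ∈ Y ∧ s ∈ Y') → Has T n X'' Y''

theorem CD.dfn : Dfn (fun w : Fin 3 → M => CD (w 0) (w 1) (w 2)) := by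
  unfold CD; simp (maxDischargeDepth := 50)

@[simp] theorem dfn_CD {n : ℕ} {s t r : (Fin n → M) → M} (hs : DT s) (ht : DT t) (hr : DT r) :
    Dfn (fun v => CD (s v) (t v) (r v)) := dfn3 CD.dfn hs ht hr

/-- The tuples `s` which have an extension by an element of `h` in `X`. -/
def Pj (X' X n h : M) : Prop := ∀ s, s ∈ X' ↔ s ∈ fs n h ∧ ∃ a s', a ∈ h ∧
  (∀ z, z ∈ s' ↔ z ∈ s ∨ z = op n a) ∧ s' ∈ X

theorem Pj.dfn : Dfn (fun w : Fin 4 → M => Pj (w 0) (w 1) (w 2) (w 3)) := by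
  unfold Pj; simp (maxDischargeDepth := 50)

@[simp] theorem dfn_Pj {n : ℕ} {a b c d : (Fin n → M) → M} (ha : DT a) (hb : DT b) (hc : DT c)
    (hd : DT d) : Dfn (fun v => Pj (a v) (b v) (c v) (d v)) := dfn4 Pj.dfn ha hb hc hd

def CX (T h b : M) : Prop :=
  ∀ m n X Y X' Y' : M, m = sc n → Has T m X Y → Pj X' X n h → Pj Y' Y n b → Has T n X' Y'

theorem CX.dfn : Dfn (fun w : Fin 3 → M => CX (w 0) (w 1) (w 2)) := by
  unfold CX; simp (maxDischargeDepth := 50)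

@[simp] theorem dfn_CX {n : ℕ} {s t r : (Fin n → M) → M} (hs : DT s) (ht : DT t) (hr : DT r) :
    Dfn (fun v => CX (s v) (t v) (r v)) := dfn3 CX.dfn hs ht hr

theorem isSatFamily_iff {T h b W : M} : IsSatFamily T h b W ↔
    CA (fun s i j _ _ => ∃ x y, op i x ∈ s ∧ op j y ∈ s ∧ x ∈ y) T h b W ∧
    CA (fun s i j _ _ => ∃ x, op i x ∈ s ∧ op j x ∈ s) T h b W ∧
    CA (fun s i j W _ => ∃ x y, op i x ∈ s ∧ op j y ∈ s ∧ op x y ∈ W) T h b W ∧
    CN T h b ∧ CD T h b ∧ CX T h b := by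
  constructor
  · intro h
    refine ⟨?_, ?_, ?_, ?_, ?_, ?_⟩
    · have := h.mem
      simp only [val_iff] at this
      exact this
    · have := h.eq
      simp only [val_iff] at this
      exact this
    · have := h.ord
      simp only [val_iff] at this
      exact this
    · have := h.neg
      simp only [IsRel, isMap_iff] at this
      exact this
    · have := h.and
      simp only [IsRel, isMap_iff] at this
      exact this
    · have := h.ex
      simp only [IsRel, isMap_iff, isSucc_iff, IsAppend, isOrdPair_iff] at this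
      exact this
  · rintro ⟨h1, h2, h3, h4, h5, h6⟩
    refine ⟨?_, ?_, ?_, ?_, ?_, ?_⟩
    · simp only [val_iff]
      exact h1
    · simp only [val_iff]
      exact h2
    · simp only [val_iff]
      exact h3
    · simp only [IsRel, isMap_iff]
      exact h4
    · simp only [IsRel, isMap_iff]
      exact h5
    · simp only [IsRel, isMap_iff, isSucc_iff, IsAppend, isOrdPair_iff]
      exact h6

theorem IsSatFamily.dfn :
    Dfn (fun w : Fin 4 → M => IsSatFamily (w 0) (w 1) (w 2) (w 3)) := by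
  simp only [isSatFamily_iff]
  refine Dfn.and (CA.dfn (by simp (maxDischargeDepth := 50))) (Dfn.and
    (CA.dfn (by simp (maxDischargeDepth := 50))) (Dfn.and
    (CA.dfn (by simp (maxDischargeDepth := 50))) ?_))
  simp (maxDischargeDepth := 50)

@[simp] theorem dfn_IsSatFamily {n : ℕ} {a b c d : (Fin n → M) → M} (ha : DT a) (hb : DT b)
    (hc : DT c) (hd : DT d) : Dfn (fun v => IsSatFamily (a v) (b v) (c v) (d v)) :=
  dfn4 IsSatFamily.dfn ha hb hc hd

theorem IsElementary.dfn :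
    Dfn (fun w : Fin 3 → M => IsElementary (w 0) (w 1) (w 2)) := by
  simp only [IsElementary, IsSub, isMap_iff]
  simp (maxDischargeDepth := 50)

@[simp] theorem dfn_IsElementary {n : ℕ} {s t r : (Fin n → M) → M} (hs : DT s) (ht : DT t)
    (hr : DT r) : Dfn (fun v => IsElementary (s v) (t v) (r v)) :=
  dfn3 IsElementary.dfn hs ht hr

end Pool.Agent.Forc
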