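import Pool.Agent.Forc.DFam
import Pool.Agent.Forc.ElemDfn

/-!
# The criterion of Tarski and Vaught
-/

universe u

set_option linter.unusedSectionVars false

namespace Pool.Agent.Forc

open Pool.Agent.SigB

variable {M : Type u} [Membership M M] [IsZFC M]

theorem mem_apd {s n a z : M} : z ∈ apd s n a ↔ z ∈ s ∨ z = op n a := by
  unfold apd
  rw [mem_un, mem_pr, or_self]

theorem apd_mem {s n a b : M} (hs : s ∈ fs n b) (ha : a ∈ b) : apd s n a ∈ fs (sc n) b := by
  obtain ⟨hs1, hs2⟩ := mem_fs.1 hs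
  have hop : ∀ x y, op x y ∈ apd s n a ↔ (x ∈ n ∧ ap s x = y) ∨ (x = n ∧ y = a) := by
    intro x y
    rw [mem_apd, op_inj]
    refine or_congr ?_ Iff.rfl
    constructor
    · intro h
      obtain ⟨x', hx', y', h'⟩ := hs1.1 _ h
      obtain ⟨rfl, rfl⟩ := op_inj.1 h'
      exact ⟨hx', (hs1.op_mem_iff hx').1 h⟩
    · rintro ⟨hx, h⟩
      exact (hs1.op_mem_iff hx).2 h
  have hfn : Fn (apd s n a) (sc n) := by
    constructor
    · intro z hz
      rcases mem_apd.1 hz with h | h
      · obtain ⟨x, hx, rfl⟩ := hs1.mem_iff.1 h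
        exact ⟨x, mem_sc.2 (Or.inl hx), _, rfl⟩
      · exact ⟨n, mem_sc_self n, a, h⟩
    · intro x hx
      rcases mem_sc.1 hx with h | rfl
      · refine ⟨ap s x, (hop _ _).2 (Or.inl ⟨h, rfl⟩), fun y' hy' => ?_⟩
        rcases (hop _ _).1 hy' with h' | h'
        · exact h'.2.symm
        · exact absurd (h'.1 ▸ h) (not_mem_self n)
      · refine ⟨a, (hop _ _).2 (Or.inr ⟨rfl, rfl⟩), fun y' hy' => ?_⟩
        rcases (hop _ _).1 hy' with h' | h'
        · exact absurd h'.1 (not_mem_self x)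
        · exact h'.2
  refine mem_fs.2 ⟨hfn, fun x hx => ?_⟩
  have h1 := (hfn.op_mem_iff hx).2 rfl
  rcases (hop _ _).1 h1 with h' | h'
  · rw [← h'.2]; exact hs2 x h'.1
  · rw [h'.2]; exact ha

theorem fs_mono {n b h s : M} (hb : Sb b h) (hs : s ∈ fs n b) : s ∈ fs n h :=
  mem_fs.2 ⟨(mem_fs.1 hs).1, fun x hx => hb _ ((mem_fs.1 hs).2 x hx)⟩

theorem mem_prj {n h X s : M} :
    s ∈ prj n h X ↔ s ∈ fs n h ∧ ∃ a, a ∈ h ∧ apd s n a ∈ X := by
  unfold prj
  exact mem_sp (by simp (maxDischargeDepth := 50))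

/-- A set which satisfies the condition of Tarski and Vaught is an elementary submodel. -/
theorem isElementary_of_tv {D h b W : M} (hD : DFam D h W) (hb : Sb b h) (hTV : TV D h b) :
    IsElementary b h W := by
  have hFd : DT (fun w : Fin 1 → M =>
      op (fst (w 0)) (op (snd (w 0)) (it (snd (w 0)) (fs (fst (w 0)) b)))) := by
    simp (maxDischargeDepth := 50)
  let T : M := im D fun z => op (fst z) (op (snd z) (it (snd z) (fs (fst z) b)))
  have hT : ∀ n X Y, op n (op X Y) ∈ T ↔ op n X ∈ D ∧ Y = it X (fs n b) := by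
    intro n X Y
    rw [mem_im hFd]
    constructor
    · rintro ⟨z, hz, h1⟩
      obtain ⟨n', -, X', -, rfl⟩ := hD.sub z hz
      simp only [fst_op, snd_op] at h1
      obtain ⟨rfl, h2⟩ := op_inj.1 h1
      obtain ⟨rfl, rfl⟩ := op_inj.1 h2
      exact ⟨hz, rfl⟩
    · rintro ⟨h1, rfl⟩
      exact ⟨op n X, h1, by simp only [fst_op, snd_op]⟩
  -- atomic relations
  have hval : ∀ {n c s i x : M}, s ∈ fs n c → i ∈ n → (op i x ∈ s ↔ x = ap s i) := by
    intro n c s i x hs hi
    rw [(mem_fs.1 hs).1.op_mem_iff hi]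
    exact eq_comm
  have hatom : ∀ (Q : M → Prop), Dfn (fun w : Fin 1 → M => Q (w 0)) → ∀ n X Y : M,
      op n (sp (fs n h) Q) ∈ D → (∀ s, s ∈ X ↔ s ∈ fs n h ∧ Q s) →
      (∀ s, s ∈ Y ↔ s ∈ fs n b ∧ Q s) → Has T n X Y := by
    intro Q hQ n X Y h1 hX hY
    have hX' : X = sp (fs n h) Q := ext' fun s => by rw [hX s, mem_sp hQ]
    rw [has_iff, hT]
    refine ⟨hX' ▸ h1, ext' fun s => ?_⟩
    rw [hY s, mem_it, hX s]
    constructor
    · rintro ⟨h2, h3⟩
      exact ⟨⟨fs_mono hb h2, h3⟩, h2⟩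
    · rintro ⟨⟨-, h3⟩, h2⟩
      exact ⟨h2, h3⟩
  have key : IsSatFamily T h b W := by
    rw [isSatFamily_iff]
    refine ⟨?_, ?_, ?_, ?_, ?_, ?_⟩
    · intro o n i j X Y ho hn hi hj hX hY
      rw [isOmega_iff] at ho
      subst ho
      simp only [IsRel, isMap_iff] at hX hY
      refine hatom _ (by simp (maxDischargeDepth := 50)) n X Y (hD.mem n i j hn hi hj) ?_ ?_
      · intro s
        rw [hX s]
        refine and_congr_right fun hs => ?_
        constructor
        · rintro ⟨x, y, h1, h2, h3⟩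
          rw [hval hs hi] at h1
          rw [hval hs hj] at h2
          rwa [← h1, ← h2]
        · intro h3
          exact ⟨_, _, (hval hs hi).2 rfl, (hval hs hj).2 rfl, h3⟩
      · intro s
        rw [hY s]
        refine and_congr_right fun hs => ?_
        constructor
        · rintro ⟨x, y, h1, h2, h3⟩
          rw [hval hs hi] at h1
          rw [hval hs hj] at h2
          rwa [← h1, ← h2]
        · intro h3
          exact ⟨_, _, (hval hs hi).2 rfl, (hval hs hj).2 rfl, h3⟩
    · intro o n i j X Y ho hn hi hj hX hY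
      rw [isOmega_iff] at ho
      subst ho
      simp only [IsRel, isMap_iff] at hX hY
      refine hatom _ (by simp (maxDischargeDepth := 50)) n X Y (hD.eq n i j hn hi hj) ?_ ?_
      · intro s
        rw [hX s]
        refine and_congr_right fun hs => ?_
        constructor
        · rintro ⟨x, h1, h2⟩
          rw [hval hs hi] at h1
          rw [hval hs hj] at h2
          rw [← h1, ← h2]
        · intro h3
          exact ⟨_, (hval hs hi).2 rfl, (hval hs hj).2 h3⟩
      · intro s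
        rw [hY s]
        refine and_congr_right fun hs => ?_
        constructor
        · rintro ⟨x, h1, h2⟩
          rw [hval hs hi] at h1
          rw [hval hs hj] at h2
          rw [← h1, ← h2]
        · intro h3
          exact ⟨_, (hval hs hi).2 rfl, (hval hs hj).2 h3⟩
    · intro o n i j X Y ho hn hi hj hX hY
      rw [isOmega_iff] at ho
      subst ho
      simp only [IsRel, isMap_iff] at hX hY
      refine hatom _ (by simp (maxDischargeDepth := 50)) n X Y (hD.ord n i j hn hi hj) ?_ ?_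
      · intro s
        rw [hX s]
        refine and_congr_right fun hs => ?_
        constructor
        · rintro ⟨x, y, h1, h2, h3⟩
          rw [hval hs hi] at h1
          rw [hval hs hj] at h2
          rwa [← h1, ← h2]
        · intro h3
          exact ⟨_, _, (hval hs hi).2 rfl, (hval hs hj).2 rfl, h3⟩
      · intro s
        rw [hY s]
        refine and_congr_right fun hs => ?_
        constructor
        · rintro ⟨x, y, h1, h2, h3⟩
          rw [hval hs hi] at h1
          rw [hval hs hj] at h2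
          rwa [← h1, ← h2]
        · intro h3
          exact ⟨_, _, (hval hs hi).2 rfl, (hval hs hj).2 rfl, h3⟩
    · intro n X Y X' Y' h1 hX hY
      rw [has_iff, hT] at h1
      obtain ⟨h1, rfl⟩ := h1
      rw [has_iff, hT]
      have hX' : X' = df (fs n h) X := ext' fun s => by rw [hX s, mem_df]
      refine ⟨hX' ▸ hD.neg n X h1, ext' fun s => ?_⟩
      rw [hY s, mem_it, mem_it, hX s]
      constructor
      · rintro ⟨h2, h3⟩
        exact ⟨⟨fs_mono hb h2, fun h4 => h3 ⟨h4, h2⟩⟩, h2⟩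
      · rintro ⟨⟨-, h3⟩, h2⟩
        exact ⟨h2, fun h4 => h3 h4.1⟩
    · intro n X Y X' Y' X'' Y'' h1 h2 hX hY
      rw [has_iff, hT] at h1 h2
      obtain ⟨h1, rfl⟩ := h1
      obtain ⟨h2, rfl⟩ := h2
      rw [has_iff, hT]
      have hsub : ∀ s, s ∈ X → s ∈ fs n h := by
        intro s hs
        obtain ⟨n', -, X₀, hX₀, h3⟩ := hD.sub _ h1
        obtain ⟨rfl, rfl⟩ := op_inj.1 h3
        exact hX₀ s hs
      have hX' : X'' = it X X' := ext' fun s => by
        rw [hX s, mem_it]
        exact ⟨fun h3 => h3.2, fun h3 => ⟨hsub s h3.1, h3⟩⟩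
      refine ⟨hX' ▸ hD.and n X X' h1 h2, ext' fun s => ?_⟩
      rw [hY s, mem_it, mem_it, mem_it, hX s]
      constructor
      · rintro ⟨h3, h4, h5⟩
        exact ⟨⟨fs_mono hb h3, h4.1, h5.1⟩, h3⟩
      · rintro ⟨⟨-, h4, h5⟩, h3⟩
        exact ⟨h3, ⟨h4, h3⟩, h5, h3⟩
    · intro m n X Y X' Y' hm h1 hX hY
      subst hm
      rw [has_iff, hT] at h1
      obtain ⟨h1, rfl⟩ := h1
      rw [has_iff, hT]
      have hn : n ∈ (om : M) := by
        obtain ⟨n', hn', X₀, -, h3⟩ := hD.sub _ h1
        obtain ⟨h4, -⟩ := op_inj.1 h3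
        rw [← h4] at hn'
        exact om_ord.trans (mem_sc_self n) hn'
      have hap : ∀ s a s' : M, (∀ z, z ∈ s' ↔ z ∈ s ∨ z = op n a) ↔ s' = apd s n a := by
        intro s a s'
        constructor
        · intro h2
          exact ext' fun z => by rw [h2 z, mem_apd]
        · rintro rfl z
          exact mem_apd
      have hX' : X' = prj n h X := by
        refine ext' fun s => ?_
        rw [hX s, mem_prj]
        refine and_congr_right fun _ => ?_
        constructor
        · rintro ⟨a, s', ha, h2, h3⟩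
          rw [(hap _ _ _).1 h2] at h3
          exact ⟨a, ha, h3⟩
        · rintro ⟨a, ha, h3⟩
          exact ⟨a, _, ha, (hap _ _ _).2 rfl, h3⟩
      refine ⟨hX' ▸ hD.ex n X hn h1, ext' fun s => ?_⟩
      rw [hY s, mem_it, hX', mem_prj]
      constructor
      · rintro ⟨h2, a, s', ha, h3, h4⟩
        rw [(hap _ _ _).1 h3, mem_it] at h4
        exact ⟨⟨fs_mono hb h2, a, hb a ha, h4.1⟩, h2⟩
      · rintro ⟨⟨-, h3⟩, h2⟩
        obtain ⟨a, ha, h4⟩ := hTV n X s hn h1 h2 h3
        exact ⟨h2, a, _, ha, (hap _ _ _).2 rfl, mem_it.2 ⟨h4, apd_mem h2 ha⟩⟩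
  refine ⟨hb, fun n X Y h1 s hs => ?_⟩
  have h2 := h1 T key
  rw [has_iff, hT] at h2
  obtain ⟨-, rfl⟩ := h2
  rw [isMap_iff] at hs
  rw [mem_it]
  exact ⟨fun h3 => h3.1, fun h3 => ⟨h3, hs⟩⟩

end Pool.Agent.Forc
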