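import Pool.Agent.Forc.DFam

/-!
# A countable set with the Tarski-Vaught property
-/

universe u

set_option linter.unusedSectionVars false

namespace Pool.Agent.Forc

open Pool.Agent.SigB

variable {M : Type u} [Membership M M] [IsZFC M]

/-- The union of two countable sets is countable. -/
theorem Le.un_om {A B : M} (hA : Le A om) (hB : Le B om) : Le (un A B) om := by
  classical
  have hd : DT (fun w : Fin 1 → M => if w 0 = SigB.em then A else B) :=
    DT.ite (P := fun w : Fin 1 → M => w 0 = SigB.em) (by simp) (DT.const A) (DT.const B)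
  have h1 : Le (pr A B) om := by
    refine Le.image (F := fun x => if x = SigB.em then A else B) om_ord (Le.refl om) hd
      fun y hy => ?_
    rcases mem_pr.1 hy with rfl | rfl
    · exact ⟨SigB.em, em_mem_om, by rw [if_pos rfl]⟩
    · exact ⟨sc SigB.em, sc_mem_om em_mem_om, by rw [if_neg (sc_ne_em SigB.em)]⟩
  have h2 := Le.union om_ord (Sb.refl om) h1 fun x hx => by
    rcases mem_pr.1 hx with rfl | rfl
    · exact hA
    · exact hB
  refine h2.mono_left fun x hx => ?_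
  rcases mem_un.1 hx with h | h
  · exact mem_sU.2 ⟨A, mem_pr.2 (Or.inl rfl), h⟩
  · exact mem_sU.2 ⟨B, mem_pr.2 (Or.inr rfl), h⟩

theorem exists_tv {D h z : M} (hD : Le D om) (hz : Sb z h) (hne : ∃ a, a ∈ h) (hc : Le z om) :
    ∃ b, Le b om ∧ Sb z b ∧ Sb b h ∧ TV D h b := by
  obtain ⟨a₀, ha₀⟩ := hne
  -- the witnesses
  obtain ⟨w, hw, hwP⟩ := choice' (a := pd D (Seq h)) (b := h)
    (P := fun p a => ∀ n, n ∈ (om : M) → ∀ X s, p = op (op (sc n) X) s →
      (∃ c, c ∈ h ∧ apd s n c ∈ X) → apd s n a ∈ X)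
    (by simp (maxDischargeDepth := 50)) (by
      intro p hp
      by_cases hex : ∃ n, n ∈ (om : M) ∧ ∃ X s c, p = op (op (sc n) X) s ∧ c ∈ h ∧ apd s n c ∈ X
      · obtain ⟨n, -, X, s, c, hpe, hc, hcX⟩ := hex
        refine ⟨c, hc, fun n' _ X' s' hpe' _ => ?_⟩
        rw [hpe] at hpe'
        obtain ⟨h1, rfl⟩ := op_inj.1 hpe'
        obtain ⟨h2, rfl⟩ := op_inj.1 h1
        rw [← sc_inj h2]
        exact hcX
      · refine ⟨a₀, ha₀, fun n hn X s hpe hcX => (hex ?_).elim⟩
        obtain ⟨c, hc, hcX⟩ := hcX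
        exact ⟨n, hn, X, s, c, hpe, hc, hcX⟩)
  have hwv := (mem_fs.1 hw).2
  have hdw : DT (fun v : Fin 1 → M => ap w (v 0)) := by simp (maxDischargeDepth := 50)
  obtain ⟨f, hf, hf0, hfs⟩ := om_recursion z
    (G := fun b => un b (im (pd D (Seq b)) fun p => ap w p)) (by simp (maxDischargeDepth := 50))
  have hdf : DT (fun v : Fin 1 → M => ap f (v 0)) := by simp (maxDischargeDepth := 50)
  -- the sets `b_k` are countable subsets of `h`
  have hSeq : ∀ b, Sb b h → Sb (Seq b) (Seq h) := by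
    intro b hb s hs
    obtain ⟨n, hn, hs'⟩ := mem_Seq.1 hs
    exact mem_Seq.2 ⟨n, hn, mem_fs.2 ⟨(mem_fs.1 hs').1, fun x hx => hb _ ((mem_fs.1 hs').2 x hx)⟩⟩
  have hsub : ∀ k, k ∈ (om : M) → Sb (ap f k) h := by
    refine om_ind (P := fun k => Sb (ap f k) h) (by simp (maxDischargeDepth := 50)) ?_ ?_
    · rw [hf0]; exact hz
    · intro k hk ih
      rw [hfs k hk]
      intro x hx
      rcases mem_un.1 hx with hx | hx
      · exact ih x hx
      · obtain ⟨p, hp, rfl⟩ := (mem_im hdw).1 hx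
        obtain ⟨d, hd, s, hs, rfl⟩ := mem_pd.1 hp
        exact hwv _ (op_mem_pd.2 ⟨hd, hSeq _ ih s hs⟩)
  have hcount : ∀ k, k ∈ (om : M) → Le (ap f k) om := by
    refine om_ind (P := fun k => Le (ap f k) om) (by simp (maxDischargeDepth := 50)) ?_ ?_
    · rw [hf0]; exact hc
    · intro k hk ih
      rw [hfs k hk]
      refine Le.un_om ih ?_
      have h1 : Le (pd D (Seq (ap f k))) om :=
        (Le.pd hD (Le.seq_le om_ord (Sb.refl om) ih)).trans (hess om_ord (Sb.refl om))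
      exact Le.image om_ord h1 hdw fun y hy => (mem_im hdw).1 hy
  -- they are increasing
  have hinc : ∀ l, l ∈ (om : M) → ∀ k, k ∈ sc l → Sb (ap f k) (ap f l) := by
    refine om_ind (P := fun l => ∀ k, k ∈ sc l → Sb (ap f k) (ap f l))
      (by simp (maxDischargeDepth := 50)) ?_ ?_
    · intro k hk
      rcases mem_sc.1 hk with hk | rfl
      · exact absurd hk (not_mem_em k)
      · exact Sb.refl _
    · intro l hl ih k hk
      rcases mem_sc.1 hk with hk | rfl
      · intro x hx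
        rw [hfs l hl]
        exact mem_un.2 (Or.inl (ih k hk x hx))
      · exact Sb.refl _
  set b : M := sU (im om fun k => ap f k) with hb
  have hmb : ∀ {x : M}, x ∈ b ↔ ∃ k, k ∈ (om : M) ∧ x ∈ ap f k := by
    intro x
    rw [hb, mem_sU]
    constructor
    · rintro ⟨y, hy, hx⟩
      obtain ⟨k, hk, rfl⟩ := (mem_im hdf).1 hy
      exact ⟨k, hk, hx⟩
    · rintro ⟨k, hk, hx⟩
      exact ⟨ap f k, (mem_im hdf).2 ⟨k, hk, rfl⟩, hx⟩
  refine ⟨b, ?_, ?_, ?_, ?_⟩
  · refine Le.union om_ord (Sb.refl om)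
      (Le.image om_ord (Le.refl om) hdf fun y hy => (mem_im hdf).1 hy) fun x hx => ?_
    obtain ⟨k, hk, rfl⟩ := (mem_im hdf).1 hx
    exact hcount k hk
  · intro x hx
    exact hmb.2 ⟨em, em_mem_om, by rw [hf0]; exact hx⟩
  · intro x hx
    obtain ⟨k, hk, hx⟩ := hmb.1 hx
    exact hsub k hk x hx
  · intro n X s hn hX hs hex
    obtain ⟨hs1, hs2⟩ := mem_fs.1 hs
    -- the tuple is in some `b_k`
    have key : ∀ m, m ∈ (om : M) → Sb m n → ∃ k, k ∈ (om : M) ∧ ∀ i, i ∈ m → ap s i ∈ ap f k := by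
      refine om_ind (P := fun m => Sb m n → ∃ k, k ∈ (om : M) ∧ ∀ i, i ∈ m → ap s i ∈ ap f k)
        (by simp (maxDischargeDepth := 50)) ?_ ?_
      · exact fun _ => ⟨em, em_mem_om, fun i hi => absurd hi (not_mem_em i)⟩
      · intro m hm ih hmn
        obtain ⟨k, hk, h1⟩ := ih fun x hx => hmn x (mem_sc.2 (Or.inl hx))
        obtain ⟨l, hl, h2⟩ := hmb.1 (hs2 m (hmn m (mem_sc_self m)))
        have hko := ord_of_mem_om hk
        have hlo := ord_of_mem_om hl
        rcases hko.tri hlo with h3 | h3 | h3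
        · refine ⟨l, hl, fun i hi => ?_⟩
          rcases mem_sc.1 hi with hi | rfl
          · exact hinc l hl k (mem_sc.2 (Or.inl h3)) _ (h1 i hi)
          · exact h2
        · refine ⟨l, hl, fun i hi => ?_⟩
          rcases mem_sc.1 hi with hi | rfl
          · rw [← h3]; exact h1 i hi
          · exact h2
        · refine ⟨k, hk, fun i hi => ?_⟩
          rcases mem_sc.1 hi with hi | rfl
          · exact h1 i hi
          · exact hinc k hk l (mem_sc.2 (Or.inl h3)) _ h2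
    obtain ⟨k, hk, hsk⟩ := key n hn (Sb.refl n)
    have hsk' : s ∈ Seq (ap f k) := mem_Seq.2 ⟨n, hn, mem_fs.2 ⟨hs1, hsk⟩⟩
    have hp : op (op (sc n) X) s ∈ pd D (Seq (ap f k)) := op_mem_pd.2 ⟨hX, hsk'⟩
    refine ⟨ap w (op (op (sc n) X) s), hmb.2 ⟨sc k, sc_mem_om hk, ?_⟩, ?_⟩
    · rw [hfs k hk]
      exact mem_un.2 (Or.inr ((mem_im hdw).2 ⟨_, hp, rfl⟩))
    · exact hwP _ (op_mem_pd.2 ⟨hX, hSeq _ (hsub k hk) s hsk'⟩) n hn X s rfl hex

end Pool.Agent.Forc
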