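import Pool.Agent.Forc.LS1
import Pool.Agent.Forc.LS2
import Pool.Agent.Forc.LS3

/-!
# The theorem of Löwenheim and Skolem inside a model of ZFC
-/

universe u

set_option linter.unusedSectionVars false

namespace Pool.Agent.Forc

open Pool.Agent.SigB

variable {M : Type u} [Membership M M] [IsZFC M]

theorem ls {h W z : M} (hz : Sb z h) (hne : ∃ a, a ∈ h) (hc : Le z om) :
    ∃ b, Le b om ∧ IsElementary b h W ∧ Sb z b := by
  obtain ⟨D, hD, hDF⟩ := exists_dfam h W
  obtain ⟨b, h1, h2, h3, h4⟩ := exists_tv hD hz hne hc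
  exact ⟨b, h1, isElementary_of_tv hDF h3 h4, h2⟩

end Pool.Agent.Forc
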