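import Pool.Agent.Forc.Hess
import Pool.Agent.Frc.Tools

/-!
# The sets of hereditary cardinality less than `θ`
-/

universe u

set_option linter.unusedSectionVars false

namespace Pool.Agent.Forc

open Pool.Agent.SigB Pool.Agent.Frc

variable {M : Type u} [Membership M M] [IsZFC M]

/-- `x` belongs to a transitive set which injects into an element of `θ`. -/
def InH (θ x : M) : Prop := ∃ t α, Tr t ∧ x ∈ t ∧ α ∈ θ ∧ Le t α

theorem InH.dfn : Dfn (fun w : Fin 2 → M => InH (w 0) (w 1)) := by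
  unfold InH; simp (maxDischargeDepth := 50)

@[simp] theorem dfn_InH {n : ℕ} {s t : (Fin n → M) → M} (hs : DT s) (ht : DT t) :
    Dfn (fun v => InH (s v) (t v)) := dfn2 InH.dfn hs ht

/-- The set `r` codes the transitive set `t` with the help of an injection into `α`. -/
def Codes (u t : M) : Prop :=
  Tr t ∧ ∃ f, Inj f t ∧ u = op (im t (ap f))
    (cp fun z => ∃ x, x ∈ t ∧ ∃ y, y ∈ x ∧ z = op (ap f y) (ap f x))

theorem Codes.dfn : Dfn (fun w : Fin 2 → M => Codes (w 0) (w 1)) := by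
  unfold Codes
  have h : DT (fun w : Fin 3 → M => im (w 2) (ap (w 0))) := by
    refine dt_im (F := fun (w : Fin 3 → M) y => ap (w 0) y) (DT.var 2) ?_
    exact dt_ap (DT.var 1) (DT.var 0)
  refine Dfn.and (by simp) ?_
  refine Dfn.ex (P := fun (w : Fin 2 → M) f => Inj f (w 1) ∧ w 0 = op (im (w 1) (ap f))
    (cp fun z => ∃ x, x ∈ w 1 ∧ ∃ y, y ∈ x ∧ z = op (ap f y) (ap f x))) ?_
  refine Dfn.and (by simp (maxDischargeDepth := 50)) (Dfn.eq (by simp) (dt_op h ?_))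
  simp (maxDischargeDepth := 50)

theorem codes_unique {u t t' : M} (h : Codes u t) (h' : Codes u t') : Sb t t' := by
  obtain ⟨ht, f, hf, rfl⟩ := h
  obtain ⟨ht', f', hf', he⟩ := h'
  have hd : ∀ f : M, DT (fun w : Fin 1 → M => ap f (w 0)) := fun f => by simp
  have hcode : ∀ t f : M, Tr t → ∀ z, z ∈ (cp fun z => ∃ x, x ∈ t ∧ ∃ y, y ∈ x ∧
      z = op (ap f y) (ap f x)) ↔ ∃ x, x ∈ t ∧ ∃ y, y ∈ x ∧ z = op (ap f y) (ap f x) := by
    intro t f ht z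
    refine mem_cp' (by simp (maxDischargeDepth := 50)) ⟨pd (im t (ap f)) (im t (ap f)), ?_⟩
    rintro z ⟨x, hx, y, hy, rfl⟩
    exact op_mem_pd.2 ⟨(mem_im (hd f)).2 ⟨y, ht x hx y hy, rfl⟩, (mem_im (hd f)).2 ⟨x, hx, rfl⟩⟩
  obtain ⟨he1, he2⟩ := op_inj.1 he
  have hr : ∀ z, (∃ x, x ∈ t ∧ ∃ y, y ∈ x ∧ z = op (ap f y) (ap f x)) ↔
      ∃ x, x ∈ t' ∧ ∃ y, y ∈ x ∧ z = op (ap f' y) (ap f' x) := fun z => by
    rw [← hcode t f ht z, ← hcode t' f' ht' z, he2]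
  have hi : ∀ x, x ∈ t → ∃ x', x' ∈ t' ∧ ap f x = ap f' x' := by
    intro x hx
    have h1 : ap f x ∈ im t (ap f) := (mem_im (hd f)).2 ⟨x, hx, rfl⟩
    rw [he1, mem_im (hd f')] at h1
    exact h1
  have key : ∀ x, x ∈ t → ∀ x', x' ∈ t' → ap f x = ap f' x' → x = x' := by
    intro x
    refine mem_ind (Q := fun x => x ∈ t → ∀ x', x' ∈ t' → ap f x = ap f' x' → x = x')
      (by simp (maxDischargeDepth := 50)) (fun x ih hx x' hx' hxx => ?_) x
    refine ext' fun y => ⟨fun hy => ?_, fun hy => ?_⟩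
    · obtain ⟨x₂, hx₂, y₂, hy₂, h1⟩ := (hr (op (ap f y) (ap f x))).1 ⟨x, hx, y, hy, rfl⟩
      obtain ⟨h2, h3⟩ := op_inj.1 h1
      have h4 : x₂ = x' := hf' _ _ hx₂ hx' (by rw [← h3, hxx])
      subst h4
      rwa [ih y hy (ht x hx y hy) y₂ (ht' _ hx₂ _ hy₂) h2]
    · obtain ⟨x₂, hx₂, y₂, hy₂, h1⟩ := (hr (op (ap f' y) (ap f' x'))).2 ⟨x', hx', y, hy, rfl⟩
      obtain ⟨h2, h3⟩ := op_inj.1 h1
      have h4 : x₂ = x := hf _ _ hx₂ hx (by rw [← h3, hxx])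
      subst h4
      rwa [← ih y₂ hy₂ (ht _ hx₂ y₂ hy₂) y (ht' _ hx' _ hy) h2.symm]
  intro x hx
  obtain ⟨x', hx', hxx⟩ := hi x hx
  rwa [key x hx x' hx' hxx]

/-- The sets of hereditary cardinality less than `θ` form a set. -/
theorem exists_HH (θ : M) : ∃ a : M, ∀ x, InH θ x → x ∈ a := by
  obtain ⟨b, hb⟩ := collection Codes.dfn (pd (pw (sU θ)) (pw (pd (sU θ) (sU θ))))
  refine ⟨sU b, fun x hx => ?_⟩
  obtain ⟨t, α, ht, hxt, hα, f, hf, hfi⟩ := hx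
  have hd : DT (fun w : Fin 1 → M => ap f (w 0)) := by simp
  have hv : ∀ y, y ∈ t → ap f y ∈ sU θ := fun y hy => mem_sU.2 ⟨α, hα, (mem_fs.1 hf).2 y hy⟩
  have hcd : Codes (op (im t (ap f))
      (cp fun z => ∃ x, x ∈ t ∧ ∃ y, y ∈ x ∧ z = op (ap f y) (ap f x))) t := ⟨ht, f, hfi, rfl⟩
  have hcode : ∀ z, z ∈ (cp fun z => ∃ x, x ∈ t ∧ ∃ y, y ∈ x ∧
      z = op (ap f y) (ap f x)) ↔ ∃ x, x ∈ t ∧ ∃ y, y ∈ x ∧ z = op (ap f y) (ap f x) := by
    intro z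
    refine mem_cp' (by simp (maxDischargeDepth := 50)) ⟨pd (im t (ap f)) (im t (ap f)), ?_⟩
    rintro z ⟨x, hx, y, hy, rfl⟩
    exact op_mem_pd.2 ⟨(mem_im hd).2 ⟨y, ht x hx y hy, rfl⟩, (mem_im hd).2 ⟨x, hx, rfl⟩⟩
  obtain ⟨t', ht', hcd'⟩ := hb _ (op_mem_pd.2 ⟨mem_pw.2 fun z hz => by
      obtain ⟨y, hy, rfl⟩ := (mem_im hd).1 hz
      exact hv y hy, mem_pw.2 fun z hz => by
      obtain ⟨x, hx, y, hy, rfl⟩ := (hcode z).1 hz
      exact op_mem_pd.2 ⟨hv y (ht x hx y hy), hv x hx⟩⟩) ⟨t, hcd⟩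
  exact mem_sU.2 ⟨t', ht', codes_unique hcd hcd' x hxt⟩

/-- The set `H(θ)` of the sets of hereditary cardinality less than `θ`. -/
noncomputable def HH (θ : M) : M := cp fun x => InH θ x

theorem HH.dt : DT (fun w : Fin 1 → M => HH (w 0)) := by
  unfold HH; simp (maxDischargeDepth := 50)

@[simp] theorem dt_HH {n : ℕ} {s : (Fin n → M) → M} (hs : DT s) :
    DT (fun v => HH (s v)) := dt1 HH.dt hs

theorem mem_HH {θ x : M} : x ∈ HH θ ↔ InH θ x := by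
  unfold HH
  exact mem_cp' (by simp (maxDischargeDepth := 50)) (exists_HH θ)

theorem HH_tr (θ : M) : Tr (HH θ) := by
  intro x hx y hy
  obtain ⟨t, α, ht, hxt, hα, hle⟩ := mem_HH.1 hx
  exact mem_HH.2 ⟨t, α, ht, ht x hxt y hy, hα, hle⟩

/-- Every set belongs to `H(θ)` for all large `θ`. -/
theorem HH_large (s : M) : ∃ α : M, Ord α ∧ ∀ θ : M, α ∈ θ → s ∈ HH θ := by
  obtain ⟨t, ht, hs⟩ := exists_tr s
  obtain ⟨α, f, hα, hf, hfi, hfs⟩ := exists_bij_ord t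
  obtain ⟨g, hg, hgf⟩ := choice' (a := t) (b := α) (P := fun b a => ap f a = b)
    (by simp (maxDischargeDepth := 50)) hfs
  refine ⟨α, hα, fun θ hθ => mem_HH.2 ⟨t, α, ht, hs, hθ, g, hg, fun x y hx hy hxy => ?_⟩⟩
  rw [← hgf x hx, ← hgf y hy, hxy]

/-- All subsets of a set belong to `H(θ)` for all large `θ`. -/
theorem HH_large_sub (s : M) : ∃ α : M, Ord α ∧ ∀ θ : M, α ∈ θ → s ∈ HH θ ∧
    (∀ x, x ∈ s → x ∈ HH θ) ∧ ∀ x, Sb x s → x ∈ HH θ := by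
  obtain ⟨α, hα, h⟩ := HH_large (pr s (pw s))
  refine ⟨α, hα, fun θ hθ => ?_⟩
  have h1 := h θ hθ
  have h2 : s ∈ HH θ := HH_tr θ _ h1 _ (by simp)
  exact ⟨h2, fun x hx => HH_tr θ _ h2 x hx, fun x hx =>
    HH_tr θ _ (HH_tr θ _ h1 (pw s) (by simp)) x (mem_pw.2 hx)⟩

theorem HH_mono {θ θ' : M} (h : Sb θ θ') : Sb (HH θ) (HH θ') := by
  intro x hx
  obtain ⟨t, α, ht, hxt, hα, hle⟩ := mem_HH.1 hx
  exact mem_HH.2 ⟨t, α, ht, hxt, h α hα, hle⟩

/-- Subsets of elements of `H(θ)`, for limit `θ`. -/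
theorem HH_sub {θ x y : M} (hθ : ∀ α, α ∈ θ → sc α ∈ θ) (hx : x ∈ HH θ) (hy : Sb y x) :
    y ∈ HH θ := by
  obtain ⟨t, α, ht, hxt, hα, hle⟩ := mem_HH.1 hx
  refine mem_HH.2 ⟨un t (pr y y), sc α, fun z hz w hw => ?_, by simp, hθ α hα, hle.insert y⟩
  rcases mem_un.1 hz with h | h
  · exact mem_un.2 (Or.inl (ht z h w hw))
  · have : z = y := by simpa using h
    subst this
    exact mem_un.2 (Or.inl (ht x hxt w (hy w hw)))

/-- The ordinals in `θ` belong to `H(θ)`, for limit `θ`. -/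
theorem HH_ord {θ α : M} (hθ : Ord θ) (hlim : ∀ α, α ∈ θ → sc α ∈ θ) (hα : α ∈ θ) :
    α ∈ HH θ := by
  refine mem_HH.2 ⟨sc α, sc α, (ord_sc (hθ.mem hα)).1, mem_sc_self α, hlim α hα, Le.refl _⟩

/-- Cardinality of the union of two sets of size less than `θ`. -/
theorem le_un_of_lt {θ A B α β : M} (hθ : Ord θ) (hom : Sb om θ)
    (hα : α ∈ θ) (hβ : β ∈ θ) (hA : Le A α) (hB : Le B β) :
    ∃ γ, γ ∈ θ ∧ Le (un A B) γ := by
  classical
  have hun : ∀ δ : M, Le (un A B) (pd (sc (sc em)) (un α β)) := by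
    intro _
    obtain ⟨f, hf, hfi⟩ := hA
    obtain ⟨g, hg, hgi⟩ := hB
    refine Le.mk (F := fun x => if x ∈ A then op em (ap f x) else op (sc em) (ap g x)) ?_ ?_ ?_
    · refine DT.ite (P := fun w : Fin 1 → M => w 0 ∈ A) ?_ ?_ ?_ <;>
        simp (maxDischargeDepth := 50)
    · intro x hx
      by_cases h : x ∈ A
      · simp only [if_pos h]
        exact op_mem_pd.2 ⟨mem_sc.2 (Or.inl (mem_sc_self _)),
          mem_un.2 (Or.inl ((mem_fs.1 hf).2 x h))⟩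
      · simp only [if_neg h]
        rcases mem_un.1 hx with h' | h'
        · exact (h h').elim
        · exact op_mem_pd.2 ⟨mem_sc_self _, mem_un.2 (Or.inr ((mem_fs.1 hg).2 x h'))⟩
    · intro x y hx hy he
      by_cases h : x ∈ A <;> by_cases h' : y ∈ A
      · simp only [if_pos h, if_pos h'] at he
        exact hfi x y h h' (op_inj.1 he).2
      · simp only [if_pos h, if_neg h'] at he
        exact ((sc_ne_em em) (op_inj.1 he).1.symm).elim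
      · simp only [if_neg h, if_pos h'] at he
        exact ((sc_ne_em em) (op_inj.1 he).1).elim
      · simp only [if_neg h, if_neg h'] at he
        have hx' : x ∈ B := (mem_un.1 hx).resolve_left h
        have hy' : y ∈ B := (mem_un.1 hy).resolve_left h'
        exact hgi x y hx' hy' (op_inj.1 he).2
  -- the larger of the two ordinals
  have hmax : ∃ γ, γ ∈ θ ∧ Sb α γ ∧ Sb β γ := by
    rcases (hθ.mem hα).sb_total (hθ.mem hβ) with h | h
    · exact ⟨β, hβ, h, Sb.refl _⟩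
    · exact ⟨α, hα, Sb.refl _, h⟩
  obtain ⟨γ, hγ, h1, h2⟩ := hmax
  have h3 : Sb (un α β) γ := fun x hx => (mem_un.1 hx).elim (h1 x) (h2 x)
  by_cases hγo : γ ∈ (om : M)
  · obtain ⟨k, hk, hk'⟩ := fin_un hγo hγo (hA.mono_right h1) (hB.mono_right h2)
    exact ⟨k, hom k hk, hk'⟩
  · have h4 : Sb om γ := by
      rw [← Ord.not_mem_iff (hθ.mem hγ) om_ord]
      exact hγo
    refine ⟨γ, hγ, (hun γ).trans ((Le.pd (Le.of_sb ?_) (Le.of_sb h3)).trans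
      (hess (hθ.mem hγ) h4))⟩
    exact fun x hx => h4 x (om_ord.sb (sc_mem_om (sc_mem_om em_mem_om)) x hx)

/-- Pairs of elements of `H(θ)`. -/
theorem HH_pr {θ x y : M} (hθ : Ord θ) (hom : Sb om θ)
    (hlim : ∀ α, α ∈ θ → sc α ∈ θ) (hx : x ∈ HH θ) (hy : y ∈ HH θ) : pr x y ∈ HH θ := by
  obtain ⟨t, α, ht, hxt, hα, hle⟩ := mem_HH.1 hx
  obtain ⟨s, β, hs, hys, hβ, hle'⟩ := mem_HH.1 hy
  obtain ⟨γ, hγ, hun⟩ := le_un_of_lt hθ hom hα hβ hle hle'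
  have h1 : un t s ∈ HH θ := by
    refine mem_HH.2 ⟨un (un t s) (pr (un t s) (un t s)), sc γ, fun z hz w hw => ?_, by simp,
      hlim γ hγ, hun.insert _⟩
    rcases mem_un.1 hz with h | h
    · rcases mem_un.1 h with h | h
      · exact mem_un.2 (Or.inl (mem_un.2 (Or.inl (ht z h w hw))))
      · exact mem_un.2 (Or.inl (mem_un.2 (Or.inr (hs z h w hw))))
    · have : z = un t s := by simpa using h
      subst this
      exact mem_un.2 (Or.inl hw)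
  refine HH_sub hlim h1 fun z hz => ?_
  rcases mem_pr.1 hz with rfl | rfl
  · exact mem_un.2 (Or.inl hxt)
  · exact mem_un.2 (Or.inr hys)

theorem HH_op {θ x y : M} (hθ : Ord θ) (hom : Sb om θ)
    (hlim : ∀ α, α ∈ θ → sc α ∈ θ) (hx : x ∈ HH θ) (hy : y ∈ HH θ) : op x y ∈ HH θ :=
  HH_pr hθ hom hlim (HH_pr hθ hom hlim hx hx) (HH_pr hθ hom hlim hx hy)

end Pool.Agent.Forc
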