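import Pool.Agent.Forc.CardB
import Pool.Agent.Forc.HTheta
import Pool.Agent.Forc.Tr

/-!
# There are arbitrarily large regular cardinals `θ` and `H(θ)` is a set with a well-ordering
-/

universe u

set_option linter.unusedSectionVars false

namespace Pool.Agent.Forc

open Pool.Agent.SigB

variable {M : Type u} [Membership M M] [IsZFC M]

theorem isH_iff {h θ : M} : IsH h θ ↔ h = HH θ := by
  constructor
  · intro hh
    refine ext' fun x => ?_
    rw [hh x, memH_iff, mem_HH]; rfl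
  · rintro rfl x
    rw [memH_iff, mem_HH]; rfl

/-- `H(θ)` is a set. -/
theorem exists_isH (θ : M) : ∃ h, IsH h θ := ⟨HH θ, isH_iff.2 rfl⟩

/-- Every set has a well-ordering. -/
theorem exists_isWellOrder (h : M) : ∃ W, IsWellOrder W h := by
  obtain ⟨κ, hκ, ⟨g, hg, hi⟩, -⟩ := exists_ord h
  have hv := (mem_fs.1 hg).2
  have hd : Dfn (fun w : Fin 1 → M => ∃ x y, w 0 = op x y ∧ (ap g x ∈ ap g y ∨ x = y)) := by
    simp (maxDischargeDepth := 50)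
  have hW : ∀ x y, Val (sp (pd h h) fun z => ∃ x y, z = op x y ∧ (ap g x ∈ ap g y ∨ x = y)) x y ↔
      (x ∈ h ∧ y ∈ h) ∧ (ap g x ∈ ap g y ∨ x = y) := by
    intro x y
    rw [val_iff, mem_sp hd, op_mem_pd]
    refine and_congr_right fun _ => ?_
    constructor
    · rintro ⟨x', y', h1, h2⟩
      obtain ⟨rfl, rfl⟩ := op_inj.1 h1
      exact h2
    · intro h1
      exact ⟨x, y, rfl, h1⟩
  refine ⟨sp (pd h h) fun z => ∃ x y, z = op x y ∧ (ap g x ∈ ap g y ∨ x = y), ?_, ?_, ?_, ?_, ?_⟩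
  · intro z hz
    obtain ⟨x, hx, y, hy, rfl⟩ := mem_pd.1 ((mem_sp hd).1 hz).1
    exact ⟨x, y, hx, hy, isOrdPair_iff.2 rfl⟩
  · intro x hx
    exact (hW x x).2 ⟨⟨hx, hx⟩, Or.inr rfl⟩
  · intro x y h1 h2
    rcases ((hW x y).1 h1).2 with h3 | h3
    · rcases ((hW y x).1 h2).2 with h4 | h4
      · exact absurd h4 (not_mem_mem h3)
      · exact h4.symm
    · exact h3
  · intro x y z h1 h2
    obtain ⟨⟨hx, hy⟩, h3⟩ := (hW x y).1 h1
    obtain ⟨⟨-, hz⟩, h4⟩ := (hW y z).1 h2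
    refine (hW x z).2 ⟨⟨hx, hz⟩, ?_⟩
    rcases h3 with h3 | rfl
    · rcases h4 with h4 | rfl
      · exact Or.inl ((hκ.mem (hv z hz)).trans h3 h4)
      · exact Or.inl h3
    · exact h4
  · rintro S hS ⟨x0, hx0⟩
    obtain ⟨i, -, ⟨m, hm, rfl⟩, hmin⟩ := Ord.exists_least (P := fun i => ∃ x, x ∈ S ∧ i = ap g x)
      (by simp (maxDischargeDepth := 50)) (hκ.mem (hv x0 (hS x0 hx0))) ⟨x0, hx0, rfl⟩
    refine ⟨m, hm, fun x hx => (hW m x).2 ⟨⟨hS m hm, hS x hx⟩, ?_⟩⟩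
    rcases (hκ.mem (hv m (hS m hm))).tri (hκ.mem (hv x (hS x hx))) with h1 | h1 | h1
    · exact Or.inl h1
    · exact Or.inr (hi m x (hS m hm) (hS x hx) h1)
    · exact absurd ⟨x, hx, rfl⟩ (hmin _ h1)

theorem manyH : ManyH M := by
  intro α hα
  have hα' : SigB.Ord α := hα
  obtain ⟨θ, h1, h2, h3, h4, h5⟩ := exists_succ (ord_un hα' om_ord)
    (fun x hx => mem_un.2 (Or.inr hx))
  have hom : Sb om θ := fun x hx => h1.trans (mem_un.2 (Or.inr hx)) h2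
  obtain ⟨W, hW⟩ := exists_isWellOrder (HH θ)
  exact ⟨θ, HH θ, W, (h3 α hα').2 (Le.of_sb fun x hx => mem_un.2 (Or.inl hx)),
    isRegular_iff.2 ⟨isInfCardinal_iff.2 ⟨isCardinal_iff.2 ⟨h1, h4⟩, hom⟩, h5⟩, isH_iff.2 rfl, hW⟩

end Pool.Agent.Forc
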