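import Pool.Agent.Forc.Tr
import Pool.Agent.Frc.Check

/-!
# Canonical names, nice names of the form `{(n̂, g n) : n ∈ ω}`, and automorphisms
-/

universe u

set_option linter.unusedSectionVars false

namespace Pool.Agent.Forc

open Pool.Agent.SigB Pool.Agent.Frc

variable {M : Type u} [Membership M M] [IsZFC M]

/-! ### Canonical names -/

theorem ck_inj {e x y : M} : ck e x = ck e y ↔ x = y := by
  refine ⟨?_, fun h => by rw [h]⟩
  refine mem_ind (Q := fun x => ∀ y, ck e x = ck e y → x = y)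
    (by simp (maxDischargeDepth := 50)) (fun x ih y h => ?_) x y
  refine ext' fun z => ⟨fun hz => ?_, fun hz => ?_⟩
  · have h1 : op (ck e z) e ∈ ck e y := by rw [← h]; exact op_mem_ck.2 ⟨rfl, z, hz, rfl⟩
    obtain ⟨-, w, hw, hzw⟩ := op_mem_ck.1 h1
    rwa [ih z hz w hzw]
  · have h1 : op (ck e z) e ∈ ck e x := by rw [h]; exact op_mem_ck.2 ⟨rfl, z, hz, rfl⟩
    obtain ⟨-, w, hw, hzw⟩ := op_mem_ck.1 h1
    rwa [← ih w hw z hzw.symm]

theorem isCheck_iff {y x e : M} : IsCheck y x e ↔ y = ck e x := by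
  constructor
  · rintro ⟨t, h, T, ht, hm, hr, hxy⟩
    have hfn : Fn h t := (mem_fs.1 (isMap_iff.1 hm)).1
    have hck : IsCk e h t := by
      refine ⟨hfn, fun a ha z => ?_⟩
      rw [hr a (ap h a) ((val_map hm).2 ⟨ha, rfl⟩) z]
      constructor
      · rintro ⟨b, b', hb, hbb, hz⟩
        obtain ⟨-, rfl⟩ := (val_map hm).1 hbb
        exact ⟨b, hb, isOrdPair_iff.1 hz⟩
      · rintro ⟨b, hb, rfl⟩
        exact ⟨b, ap h b, hb, (val_map hm).2 ⟨ht a ha b hb, rfl⟩, isOrdPair_iff.2 rfl⟩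
    obtain ⟨hx, rfl⟩ := (val_map hm).1 hxy
    exact (ck_eq ht hx hck).symm
  · rintro rfl
    obtain ⟨t, ht, hx⟩ := exists_tr x
    obtain ⟨h, hck⟩ := exists_isCk e ht
    have hd : DT (fun w : Fin 1 → M => ap h (w 0)) := by simp (maxDischargeDepth := 50)
    have hm : IsMap h t (im t fun a => ap h a) := by
      rw [isMap_iff, mem_fs]
      exact ⟨hck.1, fun a ha => (mem_im hd).2 ⟨a, ha, rfl⟩⟩
    refine ⟨t, h, im t fun a => ap h a, ht, hm, fun a a' haa z => ?_, ?_⟩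
    · obtain ⟨ha, rfl⟩ := (val_map hm).1 haa
      rw [hck.2 a ha z]
      constructor
      · rintro ⟨b, hb, rfl⟩
        exact ⟨b, ap h b, hb, (val_map hm).2 ⟨ht a ha b hb, rfl⟩, isOrdPair_iff.2 rfl⟩
      · rintro ⟨b, b', hb, hbb, hz⟩
        obtain ⟨-, rfl⟩ := (val_map hm).1 hbb
        exact ⟨b, hb, isOrdPair_iff.1 hz⟩
    · exact (val_map hm).2 ⟨hx, (ck_eq ht hx hck).symm⟩

/-! ### The names `{(n̂, g n) : n ∈ ω}` -/

/-- the name `{(n̂, g n) : n ∈ ω}` -/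
noncomputable def nname (e g : M) : M := im SigB.om fun n => op (ck e n) (ap g n)

@[simp] theorem dt_nname {n : ℕ} {s t : (Fin n → M) → M} (hs : DT s) (ht : DT t) :
    DT (fun v => nname (s v) (t v)) := by
  refine dt_im (F := fun v x => op (ck (s v) x) (ap (t v) x)) (DT.const _) ?_
  exact dt_op (dt_ck (hs.ren Fin.succ) (DT.var 0)) (dt_ap (ht.ren Fin.succ) (DT.var 0))

theorem mem_nname {e g z : M} :
    z ∈ nname e g ↔ ∃ n, n ∈ (SigB.om : M) ∧ z = op (ck e n) (ap g n) := by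
  unfold nname
  exact mem_im (by simp (maxDischargeDepth := 50))

theorem op_mem_nname {e g c p : M} :
    op c p ∈ nname e g ↔ ∃ n, n ∈ (SigB.om : M) ∧ c = ck e n ∧ p = ap g n := by
  rw [mem_nname]
  refine exists_congr fun n => and_congr_right fun _ => ?_
  rw [op_inj]

theorem nname_inj {e g g' P P' : M} (hg : g ∈ fs SigB.om P) (hg' : g' ∈ fs SigB.om P')
    (h : nname e g = nname e g') : g = g' := by
  refine (mem_fs.1 hg).1.ext (mem_fs.1 hg').1 fun n hn => ?_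
  have h1 : op (ck e n) (ap g n) ∈ nname e g' := by
    rw [← h]; exact op_mem_nname.2 ⟨n, hn, rfl, rfl⟩
  obtain ⟨m, -, h2, h3⟩ := op_mem_nname.1 h1
  rw [ck_inj] at h2
  rw [h3, h2]

theorem isNiceName_nname {e g P R : M} (he : IsTop e P R) (hg : g ∈ fs SigB.om P) :
    IsNiceName (nname e g) P R := by
  refine ⟨e, SigB.om, he, isOmega_iff.2 rfl, fun z hz => ?_, fun c p q hp hq hne => ?_⟩
  · obtain ⟨n, hn, rfl⟩ := mem_nname.1 hz
    exact ⟨n, ck e n, ap g n, hn, isCheck_iff.2 rfl, (mem_fs.1 hg).2 n hn, isOrdPair_iff.2 rfl⟩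
  · rw [val_iff] at hp hq
    obtain ⟨n, -, h1, h2⟩ := op_mem_nname.1 hp
    obtain ⟨m, -, h3, h4⟩ := op_mem_nname.1 hq
    rw [h1, ck_inj] at h3
    exact absurd (by rw [h2, h4, h3]) hne

/-! ### Automorphisms -/

theorem isAut_iff {H P R : M} : IsAut H P R ↔ H ∈ fs P P ∧
    (∀ p q, p ∈ P → q ∈ P → ap H p = ap H q → p = q) ∧
    (∀ q, q ∈ P → ∃ p, p ∈ P ∧ ap H p = q) ∧
    ∀ p q, p ∈ P → q ∈ P → (op p q ∈ R ↔ op (ap H p) (ap H q) ∈ R) := by
  unfold IsAut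
  rw [isInjection_iff]
  constructor
  · rintro ⟨⟨h1, h2⟩, h3, h4⟩
    have hm := isMap_iff.2 h1
    refine ⟨h1, h2, fun q hq => ?_, fun p q hp hq => ?_⟩
    · obtain ⟨p, hp⟩ := h3 q hq
      exact ⟨p, ((val_map hm).1 hp).1, ((val_map hm).1 hp).2⟩
    · have := h4 p q _ _ ((val_map hm).2 ⟨hp, rfl⟩) ((val_map hm).2 ⟨hq, rfl⟩)
      rwa [val_iff, val_iff] at this
  · rintro ⟨h1, h2, h3, h4⟩
    have hm := isMap_iff.2 h1
    refine ⟨⟨h1, h2⟩, fun q hq => ?_, fun p q p' q' hp hq => ?_⟩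
    · obtain ⟨p, hp, h⟩ := h3 q hq
      exact ⟨p, (val_map hm).2 ⟨hp, h⟩⟩
    · obtain ⟨hp1, rfl⟩ := (val_map hm).1 hp
      obtain ⟨hq1, rfl⟩ := (val_map hm).1 hq
      rw [val_iff, val_iff]
      exact h4 p q hp1 hq1

theorem aut_top {H e P R : M} (hH : IsAut H P R) (he : IsTop e P R)
    (hanti : ∀ p q, op p q ∈ R → op q p ∈ R → p = q) : ap H e = e := by
  obtain ⟨h1, -, h3, h4⟩ := isAut_iff.1 hH
  have heP := he.1
  have hHe : ap H e ∈ P := (mem_fs.1 h1).2 e heP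
  obtain ⟨p, hp, hpe⟩ := h3 e heP
  refine hanti _ _ (val_iff.1 (he.2 _ hHe)) ?_
  have h5 := (h4 p e hp heP).1 (val_iff.1 (he.2 p hp))
  rwa [hpe] at h5

/-- The action of an automorphism on the names `{(n̂, g n) : n ∈ ω}`. -/
theorem action {H e P R g a' : M} (hH : IsAut H P R) (heP : e ∈ P) (hHe : ap H e = e)
    (hg : g ∈ fs SigB.om P) (h : IsAction a' H (nname e g)) :
    a' = nname e (lam SigB.om fun n => ap H (ap g n)) := by
  obtain ⟨t, h, T, ht, hm, hr, ha⟩ := h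
  have hHm := isMap_iff.2 (isAut_iff.1 hH).1
  have key : ∀ x, ck e x ∈ t → ap h (ck e x) = ck e x := by
    refine mem_ind (Q := fun x => ck e x ∈ t → ap h (ck e x) = ck e x)
      (by simp (maxDischargeDepth := 50)) (fun x ih hx => ?_)
    refine ext' fun z => ?_
    rw [hr _ _ ((val_map hm).2 ⟨hx, rfl⟩) z, mem_ck]
    constructor
    · rintro ⟨c, p, c', p', h1, h2, h3, h4⟩
      rw [val_iff, op_mem_ck] at h1
      obtain ⟨rfl, y, hy, rfl⟩ := h1
      obtain ⟨h5, rfl⟩ := (val_map hm).1 h2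
      obtain ⟨-, rfl⟩ := (val_map hHm).1 h3
      rw [isOrdPair_iff, ih y hy h5, hHe] at h4
      exact ⟨y, hy, h4⟩
    · rintro ⟨y, hy, rfl⟩
      have h1 : op (ck e y) e ∈ ck e x := op_mem_ck.2 ⟨rfl, y, hy, rfl⟩
      have h2 : ck e y ∈ t := mem_of_op_mem ht hx h1
      refine ⟨ck e y, e, ck e y, e, val_iff.2 h1, (val_map hm).2 ⟨h2, ih y hy h2⟩,
        (val_map hHm).2 ⟨heP, hHe⟩, isOrdPair_iff.2 rfl⟩
  obtain ⟨hat, -⟩ := (val_map hm).1 ha
  have hd : DT (fun w : Fin 1 → M => ap H (ap g (w 0))) := by simp (maxDischargeDepth := 50)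
  refine ext' fun z => ?_
  rw [hr _ _ ha z, mem_nname]
  constructor
  · rintro ⟨c, p, c', p', h1, h2, h3, h4⟩
    rw [val_iff, op_mem_nname] at h1
    obtain ⟨n, hn, rfl, rfl⟩ := h1
    obtain ⟨h5, rfl⟩ := (val_map hm).1 h2
    obtain ⟨-, rfl⟩ := (val_map hHm).1 h3
    rw [isOrdPair_iff, key n h5] at h4
    exact ⟨n, hn, by rw [h4, ap_lam hd hn]⟩
  · rintro ⟨n, hn, rfl⟩
    have h1 : op (ck e n) (ap g n) ∈ nname e g := op_mem_nname.2 ⟨n, hn, rfl, rfl⟩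
    have h2 : ck e n ∈ t := mem_of_op_mem ht hat h1
    refine ⟨ck e n, ap g n, ck e n, ap H (ap g n), val_iff.2 h1,
      (val_map hm).2 ⟨h2, key n h2⟩, (val_map hHm).2 ⟨(mem_fs.1 hg).2 n hn, rfl⟩, ?_⟩
    rw [isOrdPair_iff, ap_lam hd hn]

/-- The function `n ↦ H (g n)`. -/
theorem aut_comp_mem {H P R g : M} (hH : IsAut H P R) (hg : g ∈ fs SigB.om P) :
    (lam SigB.om fun n => ap H (ap g n)) ∈ fs SigB.om P :=
  lam_mem_fs (by simp (maxDischargeDepth := 50)) fun n hn =>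
    (mem_fs.1 (isAut_iff.1 hH).1).2 _ ((mem_fs.1 hg).2 n hn)

theorem ap_aut_comp {H g n : M} (hn : n ∈ (SigB.om : M)) :
    ap (lam SigB.om fun n => ap H (ap g n)) n = ap H (ap g n) :=
  ap_lam (by simp (maxDischargeDepth := 50)) hn

end Pool.Agent.Forc
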