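import Pool.Agent.Forc.ManyH
import Pool.Agent.Forc.Names
import Pool.Agent.Forc.ElemDfn

/-!
# The transformation property fails
-/

universe u

set_option linter.unusedSectionVars false

namespace Pool.Agent.Forc

open Pool.Agent.SigB Pool.Agent.Frc

variable {M : Type u} [Membership M M] [IsZFC M]

/-! ### Sequences of length two -/

/-- The sequence of length two. -/
noncomputable def pair2 (x y : M) : M := pr (op SigB.em x) (op (sc SigB.em) y)

theorem op_mem_pair2 {x y i z : M} : op i z ∈ pair2 x y ↔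
    (i = SigB.em ∧ z = x) ∨ (i = sc SigB.em ∧ z = y) := by
  unfold pair2
  rw [mem_pr, op_inj, op_inj]

theorem isMap_pair2 (x y : M) : IsMap (pair2 x y) (sc (sc SigB.em)) (pr x y) := by
  have hne : (SigB.em : M) ≠ sc SigB.em := (sc_ne_em SigB.em).symm
  rw [isMap_iff, mem_fs]
  have hfn : Fn (pair2 x y) (sc (sc SigB.em)) := by
    constructor
    · intro z hz
      unfold pair2 at hz
      rcases mem_pr.1 hz with rfl | rfl
      · exact ⟨SigB.em, by simp, x, rfl⟩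
      · exact ⟨sc SigB.em, by simp, y, rfl⟩
    · intro i hi
      rcases mem_sc.1 hi with h | rfl
      · rcases mem_sc.1 h with h | rfl
        · exact (not_mem_em _ h).elim
        · refine ⟨x, op_mem_pair2.2 (Or.inl ⟨rfl, rfl⟩), fun y' hy' => ?_⟩
          rcases op_mem_pair2.1 hy' with ⟨-, h⟩ | ⟨h, -⟩
          · exact h
          · exact (hne h).elim
      · refine ⟨y, op_mem_pair2.2 (Or.inr ⟨rfl, rfl⟩), fun y' hy' => ?_⟩
        rcases op_mem_pair2.1 hy' with ⟨h, -⟩ | ⟨-, h⟩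
        · exact (hne h.symm).elim
        · exact h
  refine ⟨hfn, fun i hi => ?_⟩
  rcases mem_sc.1 hi with h | rfl
  · rcases mem_sc.1 h with h | rfl
    · exact (not_mem_em _ h).elim
    · rw [(hfn.op_mem_iff hi).1 (op_mem_pair2.2 (Or.inl ⟨rfl, rfl⟩))]
      simp
  · rw [(hfn.op_mem_iff hi).1 (op_mem_pair2.2 (Or.inr ⟨rfl, rfl⟩))]
    simp

/-! ### Countable sets -/

theorem le_om_prR (A B : M) : Le (pr A B) om := by
  refine (Le.of_sb (B := un (un SigB.em (pr A A)) (pr B B)) fun z hz => ?_).trans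
      ((((Le.of_sb (B := SigB.em) (Sb.refl _)).insert A).insert B).trans
        (Le.of_sb (om_ord.sb (sc_mem_om (sc_mem_om em_mem_om)))))
  rcases mem_pr.1 hz with rfl | rfl
  · exact mem_un.2 (Or.inl (mem_un.2 (Or.inr (by simp))))
  · exact mem_un.2 (Or.inr (by simp))

theorem le_om_unR {A B : M} (hA : Le A om) (hB : Le B om) : Le (un A B) om := by
  unfold un
  refine Le.union om_ord (Sb.refl _) (le_om_prR A B) fun x hx => ?_
  rcases mem_pr.1 hx with rfl | rfl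
  · exact hA
  · exact hB

theorem le_om_imR {F : M → M} (hF : DT (fun w : Fin 1 → M => F (w 0))) :
    Le (im (om : M) F) om := by
  have hF' : ∀ {n : ℕ} {s : (Fin n → M) → M}, DT s → DT fun v => F (s v) := fun hs => dt1 hF hs
  obtain ⟨g, hg, hgf⟩ := choice' (a := im (om : M) F) (b := om) (P := fun b a => F a = b)
    (by simp (maxDischargeDepth := 50) [hF']) (fun b hb => by
      obtain ⟨x, hx, rfl⟩ := (mem_im hF).1 hb
      exact ⟨x, hx, rfl⟩)
  refine ⟨g, hg, fun x y hx hy hxy => ?_⟩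
  rw [← hgf x hx, ← hgf y hy, hxy]

/-! ### The refutation -/

/-- The transformation property fails (`ls` is the downward Löwenheim-Skolem theorem inside the
model, see `LS.lean`). -/
theorem failsTP (ls : ∀ {h W z : M}, Sb z h → (∃ a, a ∈ h) → Le z om →
      ∃ b, Le b om ∧ IsElementary b h W ∧ Sb z b) {k I P R e b : M} (hk : SigB.Ord k) (hkc : ∀ n, n ∈ k → ¬ Le k n)
    (hom : (om : M) ∈ k) (heps : Le I (fs om k))
    (hch : ∀ f, f ∈ fs (pd I om) k → ∃ y, Sb y k ∧ Le y om ∧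
      ¬ Le (sp I fun a => ∀ n, n ∈ (om : M) → ap f (op a n) ∈ y) om)
    (hb : b ∈ fs k P) (hbi : Inj b k) (he : IsTop e P R)
    (hanti : ∀ p q, op p q ∈ R → op q p ∈ R → p = q) : FailsTP P R := by
  have hP : e ∈ P := he.1
  -- the names
  let NN : M := pd (im om (ck e)) P
  have hckd : DT (fun w : Fin 1 → M => ck e (w 0)) := by simp
  -- `θ₀`
  obtain ⟨α₁, hα₁, h₁⟩ := HH_large_sub (pr (op P R) (op P R))
  obtain ⟨α₂, hα₂, h₂⟩ := HH_large_sub k
  obtain ⟨α₃, hα₃, h₃⟩ := HH_large_sub NN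
  refine ⟨un (un α₁ α₂) α₃, ord_un (ord_un hα₁ hα₂) hα₃, fun θ h W hθ hreg hh hW hTP => ?_⟩
  have hθo : SigB.Ord θ := hreg.1.1.1
  have hα : α₁ ∈ θ ∧ α₂ ∈ θ ∧ α₃ ∈ θ := by
    have hu := ord_un (ord_un hα₁ hα₂) hα₃
    refine ⟨hθo.mem_of_sb_of_mem hα₁ hu (fun x hx => ?_) hθ,
      hθo.mem_of_sb_of_mem hα₂ hu (fun x hx => ?_) hθ,
      hθo.mem_of_sb_of_mem hα₃ hu (fun x hx => ?_) hθ⟩
    · exact mem_un.2 (Or.inl (mem_un.2 (Or.inl hx)))
    · exact mem_un.2 (Or.inl (mem_un.2 (Or.inr hx)))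
    · exact mem_un.2 (Or.inr hx)
  rw [isH_iff.1 hh] at hW hTP
  have hPR : op P R ∈ HH θ := (h₁ θ hα.1).2.1 _ (by simp)
  have hkH : ∀ x, x ∈ k → x ∈ HH θ := (h₂ θ hα.2.1).2.1
  have hNH : ∀ x, Sb x NN → x ∈ HH θ := (h₃ θ hα.2.2).2.2
  have hnn : ∀ g, g ∈ fs (om : M) P → nname e g ∈ HH θ := by
    intro g hg
    refine hNH _ fun z hz => ?_
    obtain ⟨n, hn, rfl⟩ := mem_nname.1 hz
    exact op_mem_pd.2 ⟨(mem_im hckd).2 ⟨n, hn, rfl⟩, (mem_fs.1 hg).2 n hn⟩
  have hne : ∃ a, a ∈ HH θ := ⟨_, hPR⟩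
  have hbv := (mem_fs.1 hb).2
  -- the sequences and their names
  obtain ⟨E, hE, hEi⟩ := heps
  have hEv := (mem_fs.1 hE).2
  let g₀ : M → M := fun a => lam om fun n => ap b (ap (ap E a) n)
  have hg₀d : DT (fun w : Fin 1 → M => g₀ (w 0)) := by simp (maxDischargeDepth := 50) [g₀]
  have hg₀d' : ∀ {n : ℕ} {s : (Fin n → M) → M}, DT s → DT fun v => g₀ (s v) :=
    fun hs => dt1 hg₀d hs
  have hg₀i : ∀ a, DT (fun w : Fin 1 → M => ap b (ap (ap E a) (w 0))) := fun a => by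
    simp (maxDischargeDepth := 50)
  have hg₀ : ∀ a, a ∈ I → g₀ a ∈ fs om P := fun a ha =>
    lam_mem_fs (hg₀i a) fun n hn => hbv _ ((mem_fs.1 (hEv a ha)).2 n hn)
  -- the submodels
  obtain ⟨Mf, hMf, hMfv⟩ := choice' (a := I) (b := pw (HH θ))
    (P := fun a m => Le m om ∧ IsElementary m (HH θ) W ∧ op P R ∈ m ∧ nname e (g₀ a) ∈ m ∧
      ∀ n, n ∈ (om : M) → ap (ap E a) n ∈ m) (by
        simp (maxDischargeDepth := 50) [hg₀d']) (by
      intro a ha
      have hd : DT (fun w : Fin 1 → M => ap (ap E a) (w 0)) := by simp (maxDischargeDepth := 50)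
      obtain ⟨m, hm1, hm2, hm3⟩ := ls (h := HH θ) (W := W)
        (z := un (pr (op P R) (nname e (g₀ a))) (im om (ap (ap E a)))) (by
          intro z hz
          rcases mem_un.1 hz with hz | hz
          · rcases mem_pr.1 hz with rfl | rfl
            · exact hPR
            · exact hnn _ (hg₀ a ha)
          · obtain ⟨n, hn, rfl⟩ := (mem_im hd).1 hz
            exact hkH _ ((mem_fs.1 (hEv a ha)).2 n hn)) hne
        (le_om_unR (le_om_prR _ _) (le_om_imR hd))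
      refine ⟨m, mem_pw.2 hm2.1, hm1, hm2, hm3 _ (mem_un.2 (Or.inl (by simp))),
        hm3 _ (mem_un.2 (Or.inl (by simp))), fun n hn => hm3 _ (mem_un.2 (Or.inr ?_))⟩
      exact (mem_im hd).2 ⟨n, hn, rfl⟩)
  -- enumerations
  obtain ⟨J, hJ, hJv⟩ := choice' (a := I) (b := pw (pd (HH θ) om))
    (P := fun a g => g ∈ fs (ap Mf a) om ∧ Inj g (ap Mf a)) (by simp (maxDischargeDepth := 50)) (by
      intro a ha
      obtain ⟨g, hg, hgi⟩ := (hMfv a ha).1
      refine ⟨g, mem_pw.2 fun z hz => ?_, hg, hgi⟩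
      obtain ⟨x, hx, rfl⟩ := (mem_fs.1 hg).1.mem_iff.1 hz
      exact op_mem_pd.2 ⟨(hMfv a ha).2.1.1 x hx, (mem_fs.1 hg).2 x hx⟩)
  have hem : (SigB.em : M) ∈ k := hk.trans em_mem_om hom
  obtain ⟨f, hf, hfv⟩ := choice' (a := pd I om) (b := k)
    (P := fun u y => ∀ a n, u = op a n → ∀ x, x ∈ ap Mf a → x ∈ k → ap (ap J a) x = n → y = x)
    (by simp (maxDischargeDepth := 50)) (by
      intro u hu
      obtain ⟨a, ha, n, hn, rfl⟩ := mem_pd.1 hu
      by_cases hx : ∃ x, x ∈ ap Mf a ∧ x ∈ k ∧ ap (ap J a) x = n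
      · obtain ⟨x, hx1, hx2, hx3⟩ := hx
        refine ⟨x, hx2, fun a' n' h1 x' h2 h3 h4 => ?_⟩
        obtain ⟨rfl, rfl⟩ := op_inj.1 h1
        exact (hJv a ha).2 x x' hx1 h2 (by rw [hx3, h4])
      · refine ⟨SigB.em, hem, fun a' n' h1 x' h2 h3 h4 => ?_⟩
        obtain ⟨rfl, rfl⟩ := op_inj.1 h1
        exact (hx ⟨x', h2, h3, h4⟩).elim)
  obtain ⟨y, hyk, hyc, hyX⟩ := hch f hf
  let X : M := sp I fun a => ∀ n, n ∈ (om : M) → ap f (op a n) ∈ y
  have hXm : ∀ a, a ∈ X ↔ a ∈ I ∧ ∀ n, n ∈ (om : M) → ap f (op a n) ∈ y := fun a =>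
    mem_sp (by simp (maxDischargeDepth := 50))
  have hsub : ∀ a, a ∈ X → ∀ x, x ∈ ap Mf a → x ∈ k → x ∈ y := by
    intro a ha x hx hxk
    obtain ⟨haI, h1⟩ := (hXm a).1 ha
    have hn : ap (ap J a) x ∈ (om : M) := (mem_fs.1 (hJv a haI).1).2 x hx
    have h2 := h1 _ hn
    rwa [hfv _ (op_mem_pd.2 ⟨haI, hn⟩) a _ rfl x hx hxk rfl] at h2
  have hXne : ∃ a, a ∈ X := by
    by_contra hcon
    push Not at hcon
    exact hyX (le_of_empty hcon)
  obtain ⟨a₀, ha₀⟩ := hXne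
  have hEy : ∀ a, a ∈ X → ∀ n, n ∈ (om : M) → ap (ap E a) n ∈ y := by
    intro a ha n hn
    have haI := ((hXm a).1 ha).1
    exact hsub a ha _ ((hMfv a haI).2.2.2.2 n hn) ((mem_fs.1 (hEv a haI)).2 n hn)
  -- an enumeration of `y`
  obtain ⟨j, hj, hji⟩ := hyc
  obtain ⟨gy, hgy, hgyv⟩ := choice' (a := (om : M)) (b := y)
    (P := fun n x => ∀ x', x' ∈ y → ap j x' = n → x = x') (by simp (maxDischargeDepth := 50)) (by
      intro n hn
      by_cases hx : ∃ x, x ∈ y ∧ ap j x = n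
      · obtain ⟨x, hx1, hx2⟩ := hx
        exact ⟨x, hx1, fun x' h1 h2 => hji x x' hx1 h1 (by rw [hx2, h2])⟩
      · exact ⟨_, hEy a₀ ha₀ _ em_mem_om, fun x' h1 h2 => (hx ⟨x', h1, h2⟩).elim⟩)
  have hgyk : ∀ n, n ∈ (om : M) → ap gy n ∈ k := fun n hn => hyk _ ((mem_fs.1 hgy).2 n hn)
  let g₁ : M := lam om fun n => ap b (ap gy n)
  have hg₁d : DT (fun w : Fin 1 → M => ap b (ap gy (w 0))) := by simp (maxDischargeDepth := 50)
  have hg₁ : g₁ ∈ fs om P := lam_mem_fs hg₁d fun n hn => hbv _ (hgyk n hn)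
  -- the last model
  obtain ⟨m₁, hm1, hm2, hm3⟩ := ls (h := HH θ) (W := W)
    (z := un (pr (op P R) (nname e g₁)) y) (by
      intro z hz
      rcases mem_un.1 hz with hz | hz
      · rcases mem_pr.1 hz with rfl | rfl
        · exact hPR
        · exact hnn _ hg₁
      · exact hkH _ (hyk z hz)) hne (le_om_unR (le_om_prR _ _) ⟨j, hj, hji⟩)
  have hPRm₁ : op P R ∈ m₁ := hm3 _ (mem_un.2 (Or.inl (by simp)))
  have hA₁m₁ : nname e g₁ ∈ m₁ := hm3 _ (mem_un.2 (Or.inl (by simp)))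
  have hym₁ : ∀ x, x ∈ y → x ∈ m₁ := fun x hx => hm3 _ (mem_un.2 (Or.inr hx))
  have hlt : ∀ w : M, IsOmegaOne w → ∀ x, x ∈ w → x ∈ k := by
    intro w hw x hx
    obtain ⟨hwo, -, hwc⟩ := isOmegaOne_iff.1 hw
    have hxo := hwo.mem hx
    rcases hk.tri hxo with h1 | h1 | h1
    · exact (hkc _ hom ((Le.of_sb (hxo.sb h1)).trans (hwc x hx))).elim
    · exact (hkc _ hom (h1 ▸ hwc x hx)).elim
    · exact h1
  -- the transformation property puts every name into the last model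
  have key : ∀ a, a ∈ X → nname e (g₀ a) ∈ m₁ := by
    intro a ha
    have haI := ((hXm a).1 ha).1
    obtain ⟨hMc, hMe, hMP, hMn, hME⟩ := hMfv a haI
    have hne01 : (SigB.em : M) ≠ sc SigB.em := (sc_ne_em SigB.em).symm
    obtain ⟨H, hH, h4, h5⟩ := hTP om (sc SigB.em) (sc (sc SigB.em)) (pair2 (ap Mf a) m₁)
      (pair2 (nname e (g₀ a)) (nname e g₁)) _ _ (isOmega_iff.2 rfl) (sc_mem_om em_mem_om)
      (isSucc_iff.2 rfl) (isMap_pair2 _ _) (isMap_pair2 _ _) (by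
        intro i m hm
        rw [val_iff, op_mem_pair2] at hm
        rcases hm with ⟨-, rfl⟩ | ⟨-, rfl⟩
        · exact ⟨isCountable_iff.2 hMc, hMe, _, isOrdPair_iff.2 rfl, hMP⟩
        · exact ⟨isCountable_iff.2 hm1, hm2, _, isOrdPair_iff.2 rfl, hPRm₁⟩) (by
        intro i i' m m' hs hm hm' w hw x hxw hxm
        rw [isSucc_iff] at hs
        rw [val_iff, op_mem_pair2] at hm hm'
        rcases hm with ⟨hi, rfl⟩ | ⟨hi, rfl⟩
        · rcases hm' with ⟨hi', rfl⟩ | ⟨hi', rfl⟩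
          · exact (sc_ne_em i (hs.symm.trans hi')).elim
          · exact hym₁ x (hsub a ha x hxm (hlt w hw x hxw))
        · rcases hm' with ⟨hi', rfl⟩ | ⟨hi', rfl⟩
          · exact (sc_ne_em i (hs.symm.trans hi')).elim
          · exact hxm) (by
        intro i m c hm hc
        rw [val_iff, op_mem_pair2] at hm hc
        rcases hm with ⟨hi, rfl⟩ | ⟨hi, rfl⟩
        · rcases hc with ⟨-, rfl⟩ | ⟨hi', -⟩
          · exact ⟨hMn, isNiceName_nname he (hg₀ a haI)⟩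
          · exact (hne01 (hi.symm.trans hi')).elim
        · rcases hc with ⟨hi', -⟩ | ⟨-, rfl⟩
          · exact (hne01 (hi'.symm.trans hi)).elim
          · exact ⟨hA₁m₁, isNiceName_nname he hg₁⟩)
    have hHe : ap H e = e := aut_top hH he hanti
    have hHf : H ∈ fs P P := (isAut_iff.1 hH).1
    -- `H` fixes `b ξ` for `ξ ∈ y`
    have h6 := h5 (nname e g₁) (val_iff.2 (op_mem_pair2.2 (Or.inr ⟨rfl, rfl⟩)))
    have h7 := action hH hP hHe hg₁ h6
    have hd2 : DT (fun w : Fin 1 → M => ap H (ap g₁ (w 0))) := by simp (maxDischargeDepth := 50)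
    have hmem2 : lam (om : M) (fun n => ap H (ap g₁ n)) ∈ fs om P :=
      lam_mem_fs hd2 fun n hn => (mem_fs.1 hHf).2 _ ((mem_fs.1 hg₁).2 n hn)
    have h8 := nname_inj hg₁ hmem2 h7
    have hfix : ∀ x, x ∈ y → ap H (ap b x) = ap b x := by
      intro x hx
      have hn : ap j x ∈ (om : M) := (mem_fs.1 hj).2 x hx
      have h9 : ap gy (ap j x) = x := hgyv _ hn x hx rfl
      have h10 : ap g₁ (ap j x) = ap b x := by
        show ap (lam om fun n => ap b (ap gy n)) (ap j x) = _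
        rw [ap_lam hg₁d hn, h9]
      have h11 : ap g₁ (ap j x) = ap H (ap g₁ (ap j x)) := by
        conv_lhs => rw [h8]
        rw [ap_lam hd2 hn]
      rw [h10] at h11
      exact h11.symm
    obtain ⟨a', h12, h13⟩ := h4 SigB.em (nname e (g₀ a)) m₁
      (val_iff.2 (op_mem_pair2.2 (Or.inl ⟨rfl, rfl⟩)))
      (val_iff.2 (op_mem_pair2.2 (Or.inr ⟨rfl, rfl⟩)))
    have h14 := action hH hP hHe (hg₀ a haI) h12
    have hd3 : DT (fun w : Fin 1 → M => ap H (ap (g₀ a) (w 0))) := by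
      simp (maxDischargeDepth := 50)
    have h15 : lam (om : M) (fun n => ap H (ap (g₀ a) n)) = g₀ a := by
      refine (fn_lam hd3).ext (fn_lam (hg₀i a)) fun n hn => ?_
      rw [ap_lam hd3 hn, ap_lam (hg₀i a) hn]
      exact hfix _ (hEy a ha n hn)
    rw [h14, h15] at h13
    exact h13
  -- contradiction
  refine hyX (Le.trans (B := m₁) ?_ hm1)
  refine Le.mk (F := fun a => nname e (g₀ a)) (by simp (maxDischargeDepth := 50) [hg₀d']) key ?_
  intro a a' ha ha' haa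
  have haI := ((hXm a).1 ha).1
  have haI' := ((hXm a').1 ha').1
  have h17 := nname_inj (hg₀ a haI) (hg₀ a' haI') haa
  refine hEi a a' haI haI' ?_
  refine (mem_fs.1 (hEv a haI)).1.ext (mem_fs.1 (hEv a' haI')).1 fun n hn => ?_
  refine hbi _ _ ((mem_fs.1 (hEv a haI)).2 n hn) ((mem_fs.1 (hEv a' haI')).2 n hn) ?_
  have h18 : ap (g₀ a) n = ap b (ap (ap E a) n) := ap_lam (hg₀i a) hn
  have h19 : ap (g₀ a') n = ap b (ap (ap E a') n) := ap_lam (hg₀i a') hn
  rw [← h18, ← h19, h17]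

end Pool.Agent.Forc
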