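import Pool.Agent.Forc.MSide
import Pool.Agent.Forc.CohenBr
import Pool.Agent.Forc.ManyH
import Pool.Agent.Forc.LS
import Pool.Agent.Forc.Refute
import Pool.Agent.Forc.Loew
import Pool.Agent.Frc.CH
import Pool.Agent.Frc.Chang
import Pool.Agent.Frc.Col
import Pool.Agent.Frc.ColCard
import Pool.Agent.Frc.Zfc

/-!
# The collapse of `μ` gives a model in which the transformation property fails
-/

universe u

set_option linter.unusedSectionVars false

namespace Pool.Agent.Forc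

open Pool.Agent.SigB Pool.Agent.Frc

/-- The conclusion: in `N` the continuum hypothesis holds and no large partial order has the
transformation property. -/
def Concl (N : Type u) [Membership N N] : Prop :=
  IsZFC N ∧ CH N ∧ ManyH N ∧ ∃ κ : N, IsInfCardinal κ ∧
    (∀ ν : N, IsInfCardinal ν → IsSub κ ν → ∃ P R : N, IsCohen P R ν ∧ FailsTP P R) ∧
    ∀ P R : N, IsPartialOrder P R → (∃ e, IsTop e P R) → Injects κ P → FailsTP P R

theorem concl_of {N : Type u} [Membership N N] [IsZFC N] (hCH : CH N) {k I : N}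
    (hk : SigB.Ord k) (hkc : ∀ n, n ∈ k → ¬ Le k n) (hom : SigB.om ∈ k)
    (heps : Le I (fs (SigB.om : N) k))
    (hch : ∀ f, f ∈ fs (pd I (SigB.om : N)) k → ∃ y, Sb y k ∧ Le y (SigB.om : N) ∧
      ¬ Le (sp I fun a => ∀ n, n ∈ (SigB.om : N) → ap f (op a n) ∈ y) (SigB.om : N)) :
    Concl N := by
  have hinf : Sb (SigB.om : N) k := hk.sb hom
  refine ⟨inferInstance, hCH, manyH, k, isInfCardinal_iff.2 ⟨isCardinal_iff.2 ⟨hk, hkc⟩, hinf⟩,
    ?_, ?_⟩
  · intro ν hν hkν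
    obtain ⟨hνc, hνi⟩ := isInfCardinal_iff.1 hν
    have hνo := (isCardinal_iff.1 hνc).1
    obtain ⟨P, R, b, e, hC, hb, hbi, he, hanti, -⟩ := exists_cohen hνo hνi
    obtain ⟨b', hb', hbi'⟩ : Le k P := (Le.of_sb hkν).trans ⟨b, hb, hbi⟩
    exact ⟨P, R, hC, failsTP ls hk hkc hom heps hch hb' hbi' he hanti⟩
  · rintro P R hPR ⟨e, he⟩ hi
    obtain ⟨b, hb, hbi⟩ := injects_iff.1 hi
    refine failsTP ls hk hkc hom heps hch hb hbi he fun p q h1 h2 => ?_
    exact hPR.antisymm p q (val_iff.2 h1) (val_iff.2 h2)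

/-- The extension by the collapse of `μ` is as required. -/
theorem collapse {M : Type u} [Membership M M] [IsZFC M] [Countable M] {κ s μ w : M}
    (hκ : IsCardinal κ) (hμκ : μ ∈ κ) (hμo : SigB.Ord μ) (hoμ : Sb SigB.om μ)
    (hS : ∀ e, e ∈ fs (pd s μ) κ →
      ∃ y, Sb y κ ∧ Le y μ ∧ ¬ Le (sp s fun a => ∀ k, k ∈ μ → ap e (op a k) ∈ y) μ)
    (hwo : SigB.Ord w) (hw : ∀ b, b ∈ w → Le b μ) (hpw : Le (pw μ) w)
    (heps : Le s (fs (SigB.om : M) κ)) :
    ∃ (N : Type u) (_ : Membership N N), Concl N := by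
  obtain ⟨hκo, hκc⟩ := isCardinal_iff.1 hκ
  have hμμ := hess hμo hoμ
  have hP : Le (colP μ) μ := colP_le hoμ hμμ
  obtain ⟨G, hGen, -⟩ := exists_gen (colPO μ) (em_mem_colP μ)
  obtain ⟨N, iN, val, hE⟩ := exists_ext (colPO μ) hGen
  have iZ : IsZFC N := hE.isZFC
  have hcount : Le (val (ck SigB.em μ)) (SigB.om : N) := hE.col_countable
  have homP : Le (pd (SigB.om : M) (colP μ)) μ := (Le.pd (Le.of_sb hoμ) hP).trans hμμ
  have hoκ : (SigB.om : M) ∈ κ := Ord.mem_of_sb_of_mem hκo om_ord hμo hoμ hμκ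
  -- `κ` remains a cardinal
  have hκN : SigB.Ord (val (ck SigB.em κ)) := hE.cv_ord.2 hκo
  have hκNc : ∀ ν, ν ∈ val (ck SigB.em κ) → ¬ Le (val (ck SigB.em κ)) ν := by
    intro ν hν hle
    obtain ⟨β, hβ, rfl⟩ := hE.mem_cv.1 hν
    have h1 := hE.le_of_cv_le hle
    obtain ⟨a, haκ, hβa, hμa⟩ : ∃ a, a ∈ κ ∧ Sb β a ∧ Sb μ a := by
      rcases (hκo.mem hβ).sb_total hμo with h2 | h2
      · exact ⟨μ, hμκ, h2, Sb.refl _⟩
      · exact ⟨β, hβ, Sb.refl _, h2⟩
    have haa := hess (hκo.mem haκ) (hoμ.trans hμa)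
    exact hκc a haκ (h1.trans ((Le.pd (Le.of_sb hβa) (hP.trans (Le.of_sb hμa))).trans haa))
  have homN : (SigB.om : N) ∈ val (ck SigB.em κ) := by
    rw [← hE.cv_om, hE.cv_mem]; exact hoκ
  -- the continuum hypothesis
  have hCH : CH N := by
    intro o w' p ho hw' hp
    rw [isOmega_iff] at ho
    subst ho
    rw [isPower_iff] at hp
    subst hp
    rw [isOmegaOne_iff] at hw'
    rw [injects_iff]
    exact (hE.ch hwo hw ((Le.pw homP).trans hpw) hcount w').resolve_left hw'.2.1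
  -- many functions
  have heps' : Le (val (ck SigB.em s)) (fs (SigB.om : N) (val (ck SigB.em κ))) := by
    refine (hE.cv_le heps).trans (Le.of_sb fun z hz => ?_)
    obtain ⟨f, hf, rfl⟩ := hE.mem_cv.1 hz
    rw [← hE.cv_om]
    exact hE.fs_cv hf
  exact ⟨N, iN, concl_of hCH hκN hκNc homN heps' (hE.chang ⟨_, hoκ⟩ homP hcount hS)⟩

/-- The theorem with the generalized continuum hypothesis in the ground model. -/
theorem mainGCH (M : Type u) [Membership M M] [IsZFC M] (hG : GCH M)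
    (h : ∃ l κ s : M, IsCardinal κ ∧ HasCofinalityOmega κ ∧ l ∈ κ ∧ IsSuccCardinal s κ ∧
      IsSupercompact l s) :
    ∃ (N : Type u) (_ : Membership N N), Concl N := by
  obtain ⟨M₀, i₀, iz₀, hc, hG₀, l, κ, s, hκ, hcf, hlκ, hs, hl⟩ := loew M hG h
  obtain ⟨μ, w, hμκ, hμo, hoμ, hS, hwo, -, -, hw, -, hpw, heps⟩ := ground hG₀ hκ hcf hlκ hs hl
  exact collapse hκ hμκ hμo hoμ hS hwo hw hpw heps

end Pool.Agent.Forc
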