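import Pool.Agent.Forc.MSide

/-!
# The hypotheses of the main theorem inside the ground model, without the generalized continuum
hypothesis
-/

universe u

set_option linter.unusedSectionVars false

namespace Pool.Agent.Forc

open Pool.Agent.SigB

variable {M : Type u} [Membership M M] [IsZFC M]

/-- A set of ordinals whose initial segments inject into `μ` injects into every ordinal which does
not inject into `μ`. -/
theorem le_of_segments {x μ θ : M} (hx : ∀ a, a ∈ x → Pool.Agent.SigB.Ord a)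
    (hθ : Pool.Agent.SigB.Ord θ) (hn : ¬ Le θ μ) (h : ∀ a, a ∈ x → Le (it x a) μ) : Le x θ := by
  have hd : Dfn (fun w : Fin 1 → M => ∃ a b, w 0 = op a b ∧ a ∈ b) := by
    simp (maxDischargeDepth := 50)
  let r : M := sp (pd x x) fun z => ∃ a b, z = op a b ∧ a ∈ b
  have hr : ∀ a b, op a b ∈ r ↔ (a ∈ x ∧ b ∈ x) ∧ a ∈ b := by
    intro a b
    show op a b ∈ sp _ _ ↔ _
    rw [mem_sp hd, op_mem_pd]
    refine and_congr_right fun _ => ?_
    constructor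
    · rintro ⟨a', b', h1, h2⟩
      obtain ⟨rfl, rfl⟩ := op_inj.1 h1
      exact h2
    · intro h1
      exact ⟨a, b, rfl, h1⟩
  have hwf : Wf x r := by
    intro S hS hne
    obtain ⟨m, hm, hmin⟩ := IsZFC.found S hne
    exact ⟨m, hm, fun y hy h1 => hmin y ((hr y m).1 h1).2 hy⟩
  rcases wo_compare (X := x) (r := r) (a := θ) hθ hwf (by
    intro a b c ha hb hc h1 h2
    rw [hr] at h1 h2 ⊢
    exact ⟨⟨ha, hc⟩, (hx c hc).trans h1.2 h2.2⟩) (by
    intro a b ha hb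
    rw [hr, hr]
    rcases (hx a ha).tri (hx b hb) with h1 | h1 | h1
    · exact Or.inr (Or.inl ⟨⟨ha, hb⟩, h1⟩)
    · exact Or.inl h1
    · exact Or.inr (Or.inr ⟨⟨hb, ha⟩, h1⟩)) with h1 | ⟨z, hz, h1⟩
  · exact h1
  · refine absurd ((h1.trans (Le.of_sb ?_)).trans (h z hz)) hn
    intro y hy
    obtain ⟨h2, h3⟩ := mem_prd.1 hy
    exact mem_it.2 ⟨h2, ((hr y z).1 h3).2⟩

/-- What is used about the ground model, from the strong limit property and the two properties of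
almost all `x` which give `2^μ = μ⁺`. -/
theorem ground' {κ l s c u q : M} (hκ : IsCardinal κ) (hc : c ∈ fs (om : M) κ)
    (hsup : ∀ x, x ∈ κ → ∃ n, n ∈ (om : M) ∧ x ∈ ap c n)
    (hsl : ∀ a, a ∈ κ → ∃ b, b ∈ κ ∧ Le (pw a) b) (hlκ : l ∈ κ) (hlc : IsCardinal l)
    (hol : om ∈ l) (hs : IsSuccCardinal s κ) (hU : SCU u q l s)
    (h2 : Ae u q fun x => Le (pw (it x κ)) x)
    (h3 : Ae u q fun x => ∀ a, a ∈ x → Le (it x a) (it x κ)) :
    ∃ μ w : M, μ ∈ κ ∧ Pool.Agent.SigB.Ord μ ∧ Sb om μ ∧ (∀ e, e ∈ fs (pd s μ) κ →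
      ∃ y, Sb y κ ∧ Le y μ ∧ ¬ Le (sp s fun a => ∀ k, k ∈ μ → ap e (op a k) ∈ y) μ) ∧
      Pool.Agent.SigB.Ord w ∧ μ ∈ w ∧ w ∈ κ ∧ (∀ b, b ∈ w → Le b μ) ∧ (∀ ν, ν ∈ w → ¬ Le w ν) ∧
      Le (pw μ) w ∧ Le s (fs (om : M) κ) := by
  obtain ⟨hκo, hκc⟩ := isCardinal_iff.1 hκ
  obtain ⟨hlo, -⟩ := isCardinal_iff.1 hlc
  obtain ⟨hsc, hκs, hsκ⟩ := isSuccCardinal_iff.1 hs
  obtain ⟨hso, hsc'⟩ := isCardinal_iff.1 hsc
  have hoκ : (om : M) ∈ κ := hκo.trans hol hlκ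
  have hc' : ∀ n, n ∈ (om : M) → ap c n ∈ κ := (mem_fs.1 hc).2
  have hΦ : Ae u q fun x => ∀ μ, CardOf (it x κ) μ →
      ∀ θ, Pool.Agent.SigB.Ord θ → ¬ Le θ μ → Le (pw μ) θ := by
    refine (h2.and hU.uf h3).mono ?_
    rintro x hx ⟨h4, h5⟩ μ ⟨-, h6, h7, -⟩ θ hθ hn
    refine h7.pw.trans (h4.trans (le_of_segments ?_ hθ hn fun a ha => (h5 a ha).trans h6))
    exact fun a ha => hso.mem (((hU.mem x).1 hx).1 a ha)
  obtain ⟨μ, hμl, hoμ, hμc, hΦμ, hS⟩ := hU.main'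
    (Φ := fun μ => ∀ θ, Pool.Agent.SigB.Ord θ → ¬ Le θ μ → Le (pw μ) θ)
    (by simp (maxDischargeDepth := 50)) hΦ exists_card (fun a ha h => hess ha h)
    (fun n hn => not_le_om hn) hlo hol hκo hlκ hso hκs (hsc' κ hκs) hc' hsup (by
      intro n hn
      -- the larger of `l` and `c n`
      have hcn := hκo.mem (hc' n hn)
      obtain ⟨a, haκ, hla, hca⟩ : ∃ a, a ∈ κ ∧ Sb l a ∧ Sb (ap c n) a := by
        rcases hlo.sb_total hcn with h1 | h1
        · exact ⟨_, hc' n hn, h1, Sb.refl _⟩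
        · exact ⟨l, hlκ, Sb.refl _, h1⟩
      have hao := hκo.mem haκ
      have hoa : Sb om a := (hlo.sb hol).trans hla
      have haa := hess hao hoa
      obtain ⟨b, hb, hab⟩ := hsl a haκ
      refine (Le.pw ?_).trans (hab.trans (Le.of_sb (hκo.sb hb)))
      exact (Le.pd ((Le.pd (Le.of_sb hla) (Le.of_sb hla)).trans haa) (Le.of_sb hca)).trans haa)
  have hμκ : μ ∈ κ := hκo.trans hμl hlκ
  have hμo := hκo.mem hμκ
  obtain ⟨w, hwo, hμw, hmem, hwc, -⟩ := exists_succ hμo hoμ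
  have hwκ : w ∈ κ := by
    have hwl : Sb w l := by
      refine (hlo.not_mem_iff hwo).1 fun h1 => ?_
      exact (isCardinal_iff.1 hlc).2 μ hμl ((hmem l hlo).1 h1)
    exact Ord.mem_of_sb_of_mem hκo hwo hlo hwl hlκ
  refine ⟨μ, w, hμκ, hμo, hoμ, hS, hwo, hμw, hwκ, fun b hb => (hmem b (hwo.mem hb)).1 hb, hwc,
    hΦμ w hwo (hwc μ hμw), ?_⟩
  exact exists_eps hκo hκc (hκo.em_mem (by rintro rfl; exact not_mem_em _ hoκ)) hc' hsup hso hsκ

end Pool.Agent.Forc
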