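import Pool.Agent.Forc.CardB

/-!
# Reflection of the size of the power set of `κ` to `x ∩ κ` for almost all `x`
-/

universe u

set_option linter.unusedSectionVars false

namespace Pool.Agent.Forc

open Pool.Agent.SigB

variable {M : Type u} [Membership M M] [IsZFC M] {U Q l ι κ : M}

/-- Diagonal intersections. -/
theorem SCU.diag (h : SCU U Q l ι) {P : M → M → Prop}
    (hP : Dfn (fun w : Fin 2 → M => P (w 0) (w 1)))
    (hι : ∀ a, a ∈ ι → Ae U Q fun x => P a x) : Ae U Q fun x => ∀ a, a ∈ x → P a x := by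
  have hP' : ∀ {n : ℕ} {s t : (Fin n → M) → M}, DT s → DT t → Dfn fun v => P (s v) (t v) :=
    fun hs ht => dfn2 hP hs ht
  by_contra hcon
  have h1 := (ae_not h.uf (P := fun x => ∀ a, a ∈ x → P a x)
    (by simp (maxDischargeDepth := 50) [hP'])).2 hcon
  obtain ⟨x₀, hx₀, h2⟩ := h1.exists h.uf
  push Not at h2
  obtain ⟨a₀, ha₀, -⟩ := h2
  have ha₀ι := ((h.mem x₀).1 hx₀).1 _ ha₀
  obtain ⟨f, hf, hf'⟩ := choice' (a := Q) (b := ι)
    (P := fun x a => (¬ ∀ a, a ∈ x → P a x) → a ∈ x ∧ ¬ P a x)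
    (by simp (maxDischargeDepth := 50) [hP']) (by
      intro x hx
      by_cases h3 : ∀ a, a ∈ x → P a x
      · exact ⟨a₀, ha₀ι, fun h4 => absurd h3 h4⟩
      · have h3' := h3
        push Not at h3'
        obtain ⟨a, ha, ha'⟩ := h3'
        exact ⟨a, ((h.mem x).1 hx).1 _ ha, fun _ => ⟨ha, ha'⟩⟩)
  obtain ⟨β, hβ, h3⟩ := h.normal f hf (h1.mono fun x hx h4 => (hf' x hx h4).1)
  obtain ⟨x, hx, ⟨h4, h5⟩, h6⟩ := ((h1.and h.uf h3).and h.uf (hι β hβ)).exists h.uf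
  have h7 := (hf' x hx h4).2
  rw [h5] at h7
  exact h7 h6

/-- If the power set of `κ` injects into `ι` then for almost all `x` the power set of `x ∩ κ`
injects into `x`. -/
theorem SCU.pw_le (h : SCU U Q l ι) (hpw : Le (pw κ) ι) :
    Ae U Q fun x => Le (pw (it x κ)) x := by
  obtain ⟨f, hf, hfi⟩ := hpw
  have key : Ae U Q fun x => ∀ S, Sb S (it x κ) → ∃ A, A ∈ pw κ ∧ ap f A ∈ x ∧ it A x = S := by
    by_contra hcon
    have h1 := (ae_not h.uf (P := fun x => ∀ S, Sb S (it x κ) →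
      ∃ A, A ∈ pw κ ∧ ap f A ∈ x ∧ it A x = S) (by simp (maxDischargeDepth := 50))).2 hcon
    obtain ⟨s, hs, hs'⟩ := choice' (a := Q) (b := pw κ)
      (P := fun x S => (¬ ∀ S, Sb S (it x κ) → ∃ A, A ∈ pw κ ∧ ap f A ∈ x ∧ it A x = S) →
        Sb S (it x κ) ∧ ∀ A, A ∈ pw κ → ap f A ∈ x → it A x ≠ S)
      (by simp (maxDischargeDepth := 50)) (by
        intro x hx
        by_cases h2 : ∀ S, Sb S (it x κ) → ∃ A, A ∈ pw κ ∧ ap f A ∈ x ∧ it A x = S
        · exact ⟨em, mem_pw.2 fun z hz => absurd hz (not_mem_em z), fun h3 => absurd h2 h3⟩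
        · have h3 := h2
          push Not at h3
          obtain ⟨S, hS, hS'⟩ := h3
          exact ⟨S, mem_pw.2 fun z hz => (mem_it.1 (hS z hz)).2, fun _ => ⟨hS, hS'⟩⟩)
    have hAd : Dfn (fun w : Fin 1 → M => Ae U Q fun x => w 0 ∈ ap s x) := by
      simp (maxDischargeDepth := 50)
    obtain ⟨A, hA⟩ : ∃ A : M, ∀ α, α ∈ A ↔ α ∈ κ ∧ Ae U Q fun x => α ∈ ap s x :=
      ⟨sp κ fun α => Ae U Q fun x => α ∈ ap s x, fun α => mem_sp hAd⟩
    have hAκ : A ∈ pw κ := mem_pw.2 fun z hz => ((hA z).1 hz).1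
    have h2 : Ae U Q fun x => ¬ ∀ α, α ∈ x → (α ∈ A ↔ α ∈ ap s x) := by
      refine (h1.and h.uf (h.fine _ ((mem_fs.1 hf).2 A hAκ))).mono ?_
      rintro x hx ⟨h3, h4⟩ h5
      obtain ⟨h6, h7⟩ := hs' x hx h3
      refine h7 A hAκ h4 (ext' fun z => ?_)
      rw [mem_it]
      constructor
      · rintro ⟨h8, h9⟩
        exact (h5 z h9).1 h8
      · intro h8
        have h9 := (mem_it.1 (h6 z h8)).1
        exact ⟨(h5 z h9).2 h8, h9⟩
    have h3 : Ae U Q fun x => ∀ α, α ∈ x → (α ∈ A ↔ α ∈ ap s x) := by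
      refine h.diag (P := fun α x => (α ∈ A ↔ α ∈ ap s x)) (by simp (maxDischargeDepth := 50)) ?_
      intro α _
      by_cases h4 : α ∈ A
      · exact ((hA α).1 h4).2.mono fun x _ h5 => ⟨fun _ => h5, fun _ => h4⟩
      · have h5 : ¬ Ae U Q fun x => α ∈ ap s x := by
          intro h6
          obtain ⟨x, hx, h7⟩ := h6.exists h.uf
          exact h4 ((hA α).2 ⟨mem_pw.1 ((mem_fs.1 hs).2 x hx) α h7, h6⟩)
        exact ((ae_not h.uf (P := fun x => α ∈ ap s x) (by simp (maxDischargeDepth := 50))).2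
          h5).mono fun x _ h6 => ⟨fun h7 => absurd h7 h4, fun h7 => absurd h7 h6⟩
    obtain ⟨x, hx, h4, h5⟩ := (h2.and h.uf h3).exists h.uf
    exact h4 h5
  refine key.mono fun x hx hG => ?_
  obtain ⟨g, hg, hg'⟩ := choice' (a := pw (it x κ)) (b := x)
    (P := fun S ξ => ∃ A, A ∈ pw κ ∧ ξ = ap f A ∧ it A x = S) (by simp (maxDischargeDepth := 50))
    (by
      intro S hS
      obtain ⟨A, hA, h1, h2⟩ := hG S (mem_pw.1 hS)
      exact ⟨ap f A, h1, A, hA, rfl, h2⟩)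
  refine ⟨g, hg, fun S S' hS hS' he => ?_⟩
  obtain ⟨A, hA, h1, h2⟩ := hg' S hS
  obtain ⟨A', hA', h1', h2'⟩ := hg' S' hS'
  have h3 : A = A' := hfi A A' hA hA' (by rw [← h1, ← h1', he])
  rw [← h2, ← h2', h3]

/-- If every element of `ι` injects into `κ` then for almost all `x` the set `x ∩ a` injects into
`x ∩ κ` for all `a ∈ x`. -/
theorem SCU.it_le (h : SCU U Q l ι) (hκι : Sb κ ι) (hle : ∀ a, a ∈ ι → Le a κ)
    (hιo : Ord ι) : Ae U Q fun x => ∀ a, a ∈ x → Le (it x a) (it x κ) := by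
  obtain ⟨I, -, hI⟩ := choice' (a := ι) (b := pw (pd ι κ)) (P := fun a f => f ∈ fs a κ ∧ Inj f a)
    (by simp (maxDischargeDepth := 50)) (by
      intro a ha
      obtain ⟨f, hf, hfi⟩ := hle a ha
      refine ⟨f, mem_pw.2 fun z hz => ?_, hf, hfi⟩
      obtain ⟨hf1, hf2⟩ := mem_fs.1 hf
      obtain ⟨b, hb, rfl⟩ := hf1.mem_iff.1 hz
      exact op_mem_pd.2 ⟨hιo.trans hb ha, hf2 b hb⟩)
  have key : Ae U Q fun x => ∀ a, a ∈ x → ∀ b, b ∈ x → b ∈ a → ap (ap I a) b ∈ x := by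
    refine h.diag (P := fun a x => ∀ b, b ∈ x → b ∈ a → ap (ap I a) b ∈ x)
      (by simp (maxDischargeDepth := 50)) fun a ha => ?_
    refine h.diag (P := fun b x => b ∈ a → ap (ap I a) b ∈ x)
      (by simp (maxDischargeDepth := 50)) fun b _ => ?_
    by_cases hb : b ∈ a
    · exact (h.fine _ (hκι _ ((mem_fs.1 (hI a ha).1).2 b hb))).mono fun x _ hx _ => hx
    · exact Ae.of_forall h.uf fun x _ hx => absurd hx hb
  refine key.mono fun x hx hG a ha => ?_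
  have haι := ((h.mem x).1 hx).1 a ha
  refine Le.mk (F := fun b => ap (ap I a) b) (by simp (maxDischargeDepth := 50)) ?_ ?_
  · intro b hb
    obtain ⟨h1, h2⟩ := mem_it.1 hb
    exact mem_it.2 ⟨hG a ha b h1 h2, (mem_fs.1 (hI a haι).1).2 b h2⟩
  · intro b b' hb hb' he
    exact (hI a haι).2 b b' (mem_it.1 hb).2 (mem_it.1 hb').2 he

/-- Injections of power sets. -/
theorem le_pw_of_le {A B : M} (h : Le A B) : Le (SigB.pw A) (SigB.pw B) := by
  obtain ⟨f, hf, hfi⟩ := h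
  have hd : DT (fun w : Fin 1 → M => ap f (w 0)) := by simp (maxDischargeDepth := 50)
  have hm : ∀ S y, y ∈ im S (fun x => ap f x) ↔ ∃ x, x ∈ S ∧ y = ap f x := fun S y => mem_im hd
  have hv := (mem_fs.1 hf).2
  refine Le.mk (F := fun S => im S (fun x => ap f x)) ?_ ?_ ?_
  · refine dt_im (F := fun (_ : Fin 1 → M) y => ap f y) (DT.var 0) ?_
    simp (maxDischargeDepth := 50)
  · intro S hS
    refine mem_pw.2 fun y hy => ?_
    obtain ⟨x, hx, rfl⟩ := (hm S y).1 hy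
    exact hv x (mem_pw.1 hS x hx)
  · intro S S' hS hS' he
    have key : ∀ S S', S ∈ SigB.pw A → S' ∈ SigB.pw A →
        im S (fun x => ap f x) = im S' (fun x => ap f x) → Sb S S' := by
      intro S S' hS hS' he z hz
      have h1 : ap f z ∈ im S (fun x => ap f x) := (hm _ _).2 ⟨z, hz, rfl⟩
      rw [he, hm] at h1
      obtain ⟨x, hx, h2⟩ := h1
      rw [hfi z x (mem_pw.1 hS z hz) (mem_pw.1 hS' x hx) h2]
      exact hx
    exact Sb.antisymm (key S S' hS hS' he) (key S' S hS' hS he.symm)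

/-- For a set `x` of ordinals, the elements of the cardinality of `x` inject into proper initial
segments of `x`. -/
theorem le_it_of_mem_card {x w b : M} (hx : ∀ a, a ∈ x → SigB.Ord a) (hw : CardOf x w)
    (hb : b ∈ w) : ∃ a, a ∈ x ∧ Le b (it x a) := by
  obtain ⟨hwo, h1, h2, h3⟩ := hw
  have hrd : Dfn (fun v : Fin 1 → M => ∃ u a, v 0 = op u a ∧ u ∈ a) := by
    simp (maxDischargeDepth := 50)
  obtain ⟨r, hr⟩ : ∃ r : M, ∀ u a, op u a ∈ r ↔ (u ∈ x ∧ a ∈ x) ∧ u ∈ a := by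
    refine ⟨sp (pd x x) fun z => ∃ u a, z = op u a ∧ u ∈ a, fun u a => ?_⟩
    rw [mem_sp hrd, op_mem_pd]
    refine and_congr_right fun _ => ?_
    constructor
    · rintro ⟨u', a', h4, h5⟩
      obtain ⟨rfl, rfl⟩ := op_inj.1 h4
      exact h5
    · intro h4
      exact ⟨u, a, rfl, h4⟩
  have hwf : Wf x r := by
    rintro S hS ⟨s, hs⟩
    obtain ⟨m, hm, hm', hmin⟩ := Ord.exists_least (P := fun m => m ∈ S) (by simp)
      (hx s (hS s hs)) hs
    exact ⟨m, hm', fun y hy h4 => hmin y ((hr y m).1 h4).2 hy⟩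
  rcases wo_compare (hwo.mem hb) hwf
    (fun u v a hu hv ha h4 h5 => (hr u a).2 ⟨⟨hu, ha⟩, (hx a ha).trans ((hr u v).1 h4).2
      ((hr v a).1 h5).2⟩)
    (fun u v hu hv => by
      rcases (hx u hu).tri (hx v hv) with h4 | h4 | h4
      · exact Or.inr (Or.inl ((hr u v).2 ⟨⟨hu, hv⟩, h4⟩))
      · exact Or.inl h4
      · exact Or.inr (Or.inr ((hr v u).2 ⟨⟨hv, hu⟩, h4⟩))) with h4 | ⟨a, ha, h4⟩
  · exact absurd (h2.trans h4) (h3 b hb)
  · refine ⟨a, ha, h4.mono_right fun u hu => ?_⟩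
    obtain ⟨h5, h6⟩ := mem_prd.1 hu
    exact mem_it.2 ⟨h5, ((hr u a).1 h6).2⟩

/-- For almost all `x` the power set of the cardinality `μ` of `x ∩ κ` has size at most `μ⁺`. -/
theorem SCU.succ_le (h : SCU U Q l ι) (hιo : Ord ι) (hκι : Sb κ ι) (hle : ∀ a, a ∈ ι → Le a κ)
    (hpw : Le (pw κ) ι) : Ae U Q fun x => ∀ μ, CardOf (it x κ) μ →
      ∃ w, Ord w ∧ (∀ b, b ∈ w → Le b μ) ∧ Le (pw μ) w := by
  refine ((h.pw_le hpw).and h.uf (h.it_le hκι hle hιo)).mono ?_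
  rintro x hx ⟨h1, h2⟩ μ hμ
  obtain ⟨w, hw⟩ := exists_card x
  have hxo : ∀ a, a ∈ x → SigB.Ord a := fun a ha => hιo.mem (((h.mem x).1 hx).1 a ha)
  refine ⟨w, hw.1, fun b hb => ?_, ?_⟩
  · obtain ⟨a, ha, h3⟩ := le_it_of_mem_card hxo hw hb
    exact (h3.trans (h2 a ha)).trans hμ.2.1
  · exact ((le_pw_of_le hμ.2.2.1).trans h1).trans hw.2.1

end Pool.Agent.Forc
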