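import Pool.Agent.Forc.MSide

/-!
# Solovay's theorem

If there is a normal fine ultrafilter on the set of subsets of `ι = κ⁺` of size less than `l`, and
`κ > l` is a strong limit cardinal of cofinality `ω`, then `2^κ = κ⁺`.
-/

universe u

set_option linter.unusedSectionVars false

namespace Pool.Agent.Forc

open Pool.Agent.SigB

variable {M : Type u} [Membership M M] [IsZFC M]

/-- `A` is a cofinal subset of `α` of size less than `l`. -/
def Cfn (l A α : M) : Prop := Sb A α ∧ (∀ β, β ∈ α → ∃ γ, γ ∈ A ∧ (β ∈ γ ∨ β = γ)) ∧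
  ∃ ν, ν ∈ l ∧ Le A ν

theorem Cfn.dfn : Dfn (fun w : Fin 3 → M => Cfn (w 0) (w 1) (w 2)) := by
  unfold Cfn; simp (maxDischargeDepth := 50)

@[simp] theorem dfn_Cfn {n : ℕ} {s t r : (Fin n → M) → M} (hs : DT s) (ht : DT t) (hr : DT r) :
    Dfn (fun v => Cfn (s v) (t v) (r v)) := dfn3 Cfn.dfn hs ht hr

/-- The next cardinal is regular. -/
theorem reg_of_succ {κ ι : M} (hκ : Ord κ) (hoκ : Sb om κ) (hι : Ord ι) (hκι : κ ∈ ι)
    (hιc : ∀ y, y ∈ ι → ¬ Le ι y) (hιs : ∀ x, x ∈ ι → Le x κ) :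
    (∀ a, a ∈ ι → sc a ∈ ι) ∧
      ∀ b f, b ∈ ι → f ∈ fs b ι → ∃ g, g ∈ ι ∧ ∀ x, x ∈ b → ap f x ∈ g := by
  obtain ⟨th, hth, hκth, hmem, -, hreg⟩ := exists_succ hκ hoκ
  have h1 : th = ι := by
    rcases hth.tri hι with h | h | h
    · exact absurd (hιs th h) fun h2 => not_mem_self th ((hmem th hth).2 h2)
    · exact h
    · exact absurd ((hmem ι hι).1 h) (hιc κ hκι)
  subst h1
  refine ⟨fun b hb => ?_, hreg⟩
  have hbo := hth.mem hb
  refine (hmem _ (ord_sc hbo)).2 ?_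
  by_cases h2 : b ∈ (om : M)
  · exact Le.of_sb fun x hx => hoκ x (om_ord.trans hx (sc_mem_om h2))
  · exact (le_sc ((hbo.not_mem_iff om_ord).1 h2)).trans ((hmem b hbo).1 hb)

/-- Small subsets of a regular cardinal are bounded. -/
theorem bdd_of_le {ι X b : M} (hne : SigB.em ∈ ι)
    (hreg : ∀ b f, b ∈ ι → f ∈ fs b ι → ∃ g, g ∈ ι ∧ ∀ x, x ∈ b → ap f x ∈ g)
    (hX : Sb X ι) (hb : b ∈ ι) (hle : Le X b) : ∃ g, g ∈ ι ∧ ∀ x, x ∈ X → x ∈ g := by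
  obtain ⟨j, hj, hji⟩ := hle
  obtain ⟨f, hf, hf'⟩ := choice' (a := b) (b := ι)
    (P := fun i v => ∀ a, a ∈ X → ap j a = i → a = v) (by simp (maxDischargeDepth := 50)) (by
      intro i _
      by_cases h : ∃ a, a ∈ X ∧ ap j a = i
      · obtain ⟨a, ha, hai⟩ := h
        exact ⟨a, hX a ha, fun a' ha' h1 => hji _ _ ha' ha (by rw [h1, hai])⟩
      · exact ⟨SigB.em, hne, fun a ha h1 => absurd ⟨a, ha, h1⟩ h⟩)
  obtain ⟨g, hg, hg'⟩ := hreg b f hb hf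
  refine ⟨g, hg, fun a ha => ?_⟩
  have h1 := (mem_fs.1 hj).2 a ha
  rw [hf' _ h1 a ha rfl]
  exact hg' _ h1

/-- **Solovay's theorem** -/
theorem solovay {U Q l ι κ c : M} (hU : SCU U Q l ι) (hl : Ord l) (hol : (om : M) ∈ l)
    (hκ : Ord κ) (hlκ : l ∈ κ) (hc : c ∈ fs (om : M) κ)
    (hsup : ∀ x, x ∈ κ → ∃ n, n ∈ (om : M) ∧ x ∈ ap c n)
    (hsl : ∀ a, a ∈ κ → ∃ b, b ∈ κ ∧ Le (pw a) b) (hι : Ord ι) (hκι : κ ∈ ι)
    (hιc : ∀ y, y ∈ ι → ¬ Le ι y) (hιs : ∀ x, x ∈ ι → Le x κ) : Le (pw κ) ι := by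
  have hoκ : (om : M) ∈ κ := hκ.trans hol hlκ
  have homκ : Sb om κ := hκ.sb hoκ
  have homl : Sb om l := hl.sb hol
  have hκι' : Sb κ ι := hι.sb hκι
  have hlι : l ∈ ι := hι.trans hlκ hκι
  have homι : Sb om ι := fun x hx => hκι' x (homκ x hx)
  have he0 : SigB.em ∈ ι := homι _ em_mem_om
  obtain ⟨hsc, hreg⟩ := reg_of_succ hκ homκ hι hκι hιc hιs
  have hQι : ∀ x, x ∈ Q → Sb x ι := fun x hx => ((hU.mem x).1 hx).1
  -- the supremum of `x`
  have hsup' : ∀ x, x ∈ Q → sU x ∈ ι := by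
    intro x hx
    obtain ⟨h1, α, hα, h2⟩ := (hU.mem x).1 hx
    obtain ⟨g, hg, hg'⟩ := bdd_of_le he0 hreg h1 (hι.trans hα hlι) h2
    have h3 : Ord (sU x) := ord_sU fun y hy => hι.mem (h1 y hy)
    have hgo := hι.mem hg
    refine Ord.mem_of_sb_of_mem hι h3 hgo (fun y hy => ?_) hg
    obtain ⟨z, hz, hyz⟩ := mem_sU.1 hy
    exact hgo.trans hyz (hg' z hz)
  have hcls : Ae U Q fun x => ∀ a, a ∈ x → sc a ∈ x :=
    hU.closed (F := fun a => sc a) (by simp) hsc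
  -- the cofinal sets
  obtain ⟨A, hA, hA'⟩ := choice' (a := ι) (b := pw ι)
    (P := fun α A => (∃ A', Cfn l A' α) → Cfn l A α) (by simp (maxDischargeDepth := 50)) (by
      intro α hα
      by_cases h : ∃ A', Cfn l A' α
      · obtain ⟨A', h1⟩ := h
        exact ⟨A', mem_pw.2 fun z hz => hι.sb hα z (h1.1 z hz), fun _ => h1⟩
      · exact ⟨SigB.em, mem_pw.2 fun z hz => absurd hz (not_mem_em z), fun h1 => absurd h1 h⟩)
  have hgood : Ae U Q fun x => Cfn l (ap A (sU x)) (sU x) := by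
    refine hcls.mono fun x hx h1 => hA' _ (hsup' x hx) ⟨x, ?_, ?_, ((hU.mem x).1 hx).2⟩
    · intro a ha
      exact mem_sU.2 ⟨sc a, h1 a ha, mem_sc_self a⟩
    · intro β hβ
      obtain ⟨γ, hγ, h2⟩ := mem_sU.1 hβ
      exact ⟨γ, hγ, Or.inl h2⟩
  -- the function `h`
  obtain ⟨h, hh, hh'⟩ := choice' (a := ι) (b := ι)
    (P := fun β b => Ae U Q fun x => ∃ γ, γ ∈ ap A (sU x) ∧ (β ∈ γ ∨ β = γ) ∧ γ ∈ b)
    (by simp (maxDischargeDepth := 50)) (by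
      intro β hβ
      have h1 : Ae U Q fun x => ∃ ξ, ξ ∈ x ∧ ∃ γ, γ ∈ ap A (sU x) ∧ (β ∈ γ ∨ β = γ) ∧ γ ∈ ξ := by
        refine ((hgood.and hU.uf hcls).and hU.uf (hU.fine β hβ)).mono ?_
        rintro x hx ⟨⟨⟨h2, h3, -⟩, h4⟩, h5⟩
        obtain ⟨γ, hγ, h6⟩ := h3 β (mem_sU.2 ⟨sc β, h4 β h5, mem_sc_self β⟩)
        obtain ⟨ξ, hξ, h7⟩ := mem_sU.1 (h2 γ hγ)
        exact ⟨ξ, hξ, γ, hγ, h6, h7⟩
      obtain ⟨f, hf, hf'⟩ := choice' (a := Q) (b := ι)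
        (P := fun x ξ => (∃ ξ, ξ ∈ x ∧ ∃ γ, γ ∈ ap A (sU x) ∧ (β ∈ γ ∨ β = γ) ∧ γ ∈ ξ) →
          ξ ∈ x ∧ ∃ γ, γ ∈ ap A (sU x) ∧ (β ∈ γ ∨ β = γ) ∧ γ ∈ ξ)
        (by simp (maxDischargeDepth := 50)) (by
          intro x hx
          by_cases h2 : ∃ ξ, ξ ∈ x ∧ ∃ γ, γ ∈ ap A (sU x) ∧ (β ∈ γ ∨ β = γ) ∧ γ ∈ ξ
          · obtain ⟨ξ, hξ, h3⟩ := h2
            exact ⟨ξ, hQι x hx ξ hξ, fun _ => ⟨hξ, h3⟩⟩
          · exact ⟨SigB.em, he0, fun h3 => absurd h3 h2⟩)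
      obtain ⟨b, hb, h2⟩ := hU.normal f hf (h1.mono fun x hx h3 => (hf' x hx h3).1)
      refine ⟨b, hb, (h1.and hU.uf h2).mono ?_⟩
      rintro x hx ⟨h3, h4⟩
      rw [← h4]
      exact (hf' x hx h3).2)
  have hhι : ∀ β, β ∈ ι → ap h β ∈ ι := (mem_fs.1 hh).2
  -- the closure points of `h`
  have hEd : Dfn (fun w : Fin 1 → M => ∀ β, β ∈ w 0 → ap h β ∈ w 0 ∨ ap h β = w 0) := by
    simp (maxDischargeDepth := 50)
  let E : M := sp ι fun η => ∀ β, β ∈ η → ap h β ∈ η ∨ ap h β = η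
  have hE : ∀ η, η ∈ E ↔ η ∈ ι ∧ ∀ β, β ∈ η → ap h β ∈ η ∨ ap h β = η := fun η => mem_sp hEd
  have hEunb : ∀ β, β ∈ ι → ∃ η, η ∈ E ∧ β ∈ η := by
    intro β₀ hβ₀
    obtain ⟨s, hs, hs'⟩ := choice' (a := ι) (b := ι)
      (P := fun δ g => δ ∈ g ∧ ∀ β, β ∈ δ → ap h β ∈ g) (by simp (maxDischargeDepth := 50)) (by
        intro δ hδ
        have hd : DT (fun w : Fin 1 → M => ap h (w 0)) := by simp (maxDischargeDepth := 50)
        obtain ⟨g, hg, hg'⟩ := hreg δ (lam δ fun β => ap h β) hδ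
          (lam_mem_fs hd fun β hβ => hhι β (hι.trans hβ hδ))
        have hgo := hι.mem hg
        have hδo := hι.mem hδ
        have hgm : ∀ β, β ∈ δ → ap h β ∈ g := by
          intro β hβ
          have := hg' β hβ
          rwa [ap_lam hd hβ] at this
        rcases hδo.sb_total hgo with h1 | h1
        · refine ⟨sc g, hsc g hg, (Ord.mem_sc_iff hδo hgo).2 h1, fun β hβ => ?_⟩
          exact mem_sc.2 (Or.inl (hgm β hβ))
        · refine ⟨sc δ, hsc δ hδ, mem_sc_self δ, fun β hβ => ?_⟩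
          exact mem_sc.2 (Or.inl (h1 _ (hgm β hβ))))
    obtain ⟨f, hf, hf0, hfs⟩ := om_recursion β₀ (G := ap s) (by simp (maxDischargeDepth := 50))
    have hfι : ∀ n, n ∈ (om : M) → ap f n ∈ ι := by
      refine om_ind (P := fun n => ap f n ∈ ι) (by simp (maxDischargeDepth := 50)) ?_ ?_
      · rw [hf0]; exact hβ₀
      · intro n hn ih
        rw [hfs n hn]
        exact (mem_fs.1 hs).2 _ ih
    have hd : DT (fun w : Fin 1 → M => ap f (w 0)) := by simp (maxDischargeDepth := 50)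
    have hmη : ∀ x, x ∈ sU (im om fun n => ap f n) ↔ ∃ n, n ∈ (om : M) ∧ x ∈ ap f n := by
      intro x
      rw [mem_sU]
      constructor
      · rintro ⟨y, hy, hx⟩
        obtain ⟨n, hn, rfl⟩ := (mem_im hd).1 hy
        exact ⟨n, hn, hx⟩
      · rintro ⟨n, hn, hx⟩
        exact ⟨ap f n, (mem_im hd).2 ⟨n, hn, rfl⟩, hx⟩
    obtain ⟨g, hg, hg'⟩ := hreg om f (hι.trans hoκ hκι) (mem_fs.2 ⟨hf, hfι⟩)
    have hgo := hι.mem hg
    have hηo : Ord (sU (im om fun n => ap f n)) := by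
      refine ord_sU fun y hy => ?_
      obtain ⟨n, hn, rfl⟩ := (mem_im hd).1 hy
      exact hι.mem (hfι n hn)
    have hηι : sU (im om fun n => ap f n) ∈ ι := by
      refine Ord.mem_of_sb_of_mem hι hηo hgo (fun y hy => ?_) hg
      obtain ⟨n, hn, hyn⟩ := (hmη y).1 hy
      exact hgo.trans hyn (hg' n hn)
    refine ⟨sU (im om fun n => ap f n), (hE _).2 ⟨hηι, fun β hβ => Or.inl ?_⟩, ?_⟩
    · obtain ⟨n, hn, hβn⟩ := (hmη β).1 hβ
      refine (hmη _).2 ⟨sc n, sc_mem_om hn, ?_⟩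
      rw [hfs n hn]
      exact (hs' _ (hfι n hn)).2 β hβn
    · refine (hmη _).2 ⟨sc SigB.em, sc_mem_om em_mem_om, ?_⟩
      rw [hfs _ em_mem_om, hf0]
      exact (hs' _ hβ₀).1
  have hκE : Le κ E := by
    obtain ⟨ε, hε, h1, h2⟩ := exists_ord E
    rcases hε.tri hκ with h3 | h3 | h3
    · exfalso
      obtain ⟨g, hg, hg'⟩ := bdd_of_le he0 hreg (fun x hx => ((hE x).1 hx).1)
        (hι.trans h3 hκι) h1
      obtain ⟨η, hη, h4⟩ := hEunb g hg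
      exact not_mem_mem h4 (hg' η hη)
    · rw [← h3]; exact h2
    · exact (Le.of_sb (hε.sb h3)).trans h2
  -- the covering sets
  let S : M → M := fun α => sp E fun ξ => ∃ a, a ∈ ap A α ∧ (ξ ∈ a ∨ ξ = a) ∧ a ∈ ap h ξ
  have hSd : ∀ {n : ℕ} {s : (Fin n → M) → M}, DT s → DT fun v => S (s v) := by
    intro n s hs
    exact dt1 (F := S) (by simp (maxDischargeDepth := 50) [S]) hs
  have hS : ∀ α ξ, ξ ∈ S α ↔ ξ ∈ E ∧ ∃ a, a ∈ ap A α ∧ (ξ ∈ a ∨ ξ = a) ∧ a ∈ ap h ξ :=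
    fun α ξ => mem_sp (by simp (maxDischargeDepth := 50))
  have hSle : ∀ α, α ∈ ι → Le (S α) (ap A α) := by
    intro α hα
    obtain ⟨g, hg, hg'⟩ := choice' (a := S α) (b := ap A α)
      (P := fun ξ a => (ξ ∈ a ∨ ξ = a) ∧ a ∈ ap h ξ) (by simp (maxDischargeDepth := 50)) (by
        intro ξ hξ
        obtain ⟨-, a, ha, h1⟩ := (hS α ξ).1 hξ
        exact ⟨a, ha, h1⟩)
    -- for `ξ ∈ ξ'` the intervals are disjoint
    have key : ∀ ξ ξ', ξ ∈ S α → ξ' ∈ S α → ξ ∈ ξ' → ap g ξ ≠ ap g ξ' := by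
      intro ξ ξ' hξ hξ' hlt he
      obtain ⟨-, h1⟩ := hg' ξ hξ
      obtain ⟨h2, -⟩ := hg' ξ' hξ'
      rw [← he] at h2
      obtain ⟨hξ'ι, h3⟩ := (hE ξ').1 ((hS α ξ').1 hξ').1
      have hξι := hι.trans hlt hξ'ι
      have hho := hι.mem (hhι ξ hξι)
      have hξ'o := hι.mem hξ'ι
      -- `h ξ ≤ ξ' ≤ g ξ < h ξ`
      have h4 : Sb (ap h ξ) ξ' := (hho.sb_iff hξ'o).2 (h3 ξ hlt)
      have h5 : ap g ξ ∈ ξ' := h4 _ h1
      rcases h2 with h2 | h2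
      · exact not_mem_mem h2 h5
      · rw [← h2] at h5
        exact not_mem_self _ h5
    refine ⟨g, hg, fun ξ ξ' hξ hξ' he => ?_⟩
    have h1 := hι.mem ((hE ξ).1 ((hS α ξ).1 hξ).1).1
    have h2 := hι.mem ((hE ξ').1 ((hS α ξ').1 hξ').1).1
    rcases h1.tri h2 with h3 | h3 | h3
    · exact absurd he (key ξ ξ' hξ hξ' h3)
    · exact h3
    · exact absurd he.symm (key ξ' ξ hξ' hξ h3)
  have hScov : ∀ ξ, ξ ∈ E → Ae U Q fun x => ξ ∈ S (sU x) := by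
    intro ξ hξ
    refine (hh' ξ ((hE ξ).1 hξ).1).mono fun x hx h1 => ?_
    exact (hS _ _).2 ⟨hξ, h1⟩
  obtain ⟨e, he, hei⟩ := hκE
  have hcov : ∀ f, f ∈ fs (om : M) κ → ∃ α, α ∈ ι ∧ (∀ n, n ∈ (om : M) → ap e (ap f n) ∈ S α) ∧
      ∃ ν, ν ∈ l ∧ Le (ap A α) ν := by
    intro f hf
    have h1 : Ae U Q fun x => ∀ n, n ∈ (om : M) → ap e (ap f n) ∈ S (sU x) := by
      refine (hU.small hol).inter hU.uf (P := fun n x => ap e (ap f n) ∈ S (sU x))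
        (by simp (maxDischargeDepth := 50) [hSd]) fun n hn => ?_
      exact hScov _ ((mem_fs.1 he).2 _ ((mem_fs.1 hf).2 n hn))
    obtain ⟨x, hx, h2, h3⟩ := (h1.and hU.uf hgood).exists hU.uf
    exact ⟨sU x, hsup' x hx, h2, h3.2.2⟩
  -- the codes of the functions with values in the covering sets
  obtain ⟨G, hG, hG'⟩ := choice' (a := ι) (b := pw (pd (fs (om : M) ι) κ))
    (P := fun α g => (∃ ν, ν ∈ l ∧ Le (ap A α) ν) → g ∈ fs (fs (om : M) (S α)) κ ∧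
      Inj g (fs (om : M) (S α))) (by simp (maxDischargeDepth := 50) [hSd]) (by
      intro α hα
      by_cases h1 : ∃ ν, ν ∈ l ∧ Le (ap A α) ν
      · obtain ⟨ν, hν, h2⟩ := h1
        have h3 : Le (S α) l := ((hSle α hα).trans h2).trans (Le.of_sb (hl.sb hν))
        obtain ⟨b, hb, h4⟩ := hsl l hlκ
        have h5 : Le (fs (om : M) (S α)) (pw (pd om (S α))) := by
          refine Le.of_sb fun f hf => mem_pw.2 fun z hz => ?_
          obtain ⟨hf1, hf2⟩ := mem_fs.1 hf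
          obtain ⟨n, hn, rfl⟩ := hf1.mem_iff.1 hz
          exact op_mem_pd.2 ⟨hn, hf2 n hn⟩
        have h6 : Le (pd om (S α)) l :=
          (Le.pd (Le.of_sb homl) h3).trans (hess hl homl)
        obtain ⟨g, hg, hgi⟩ := h5.trans ((h6.pw.trans h4).trans (Le.of_sb (hκ.sb hb)))
        refine ⟨g, mem_pw.2 fun z hz => ?_, fun _ => ⟨hg, hgi⟩⟩
        obtain ⟨hg1, hg2⟩ := mem_fs.1 hg
        obtain ⟨f, hf, rfl⟩ := hg1.mem_iff.1 hz
        refine op_mem_pd.2 ⟨mem_fs.2 ⟨(mem_fs.1 hf).1, fun n hn => ?_⟩, hg2 f hf⟩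
        exact ((hE _).1 ((hS _ _).1 ((mem_fs.1 hf).2 n hn)).1).1
      · exact ⟨SigB.em, mem_pw.2 fun z hz => absurd hz (not_mem_em z), fun h2 => absurd h2 h1⟩)
  -- the functions from `ω` to `κ`
  have hfsle : Le (fs (om : M) κ) ι := by
    have hcd : ∀ f, DT (fun w : Fin 1 → M => ap e (ap f (w 0))) := fun f => by
      simp (maxDischargeDepth := 50)
    obtain ⟨T, hT, hT'⟩ := choice' (a := fs (om : M) κ) (b := pd ι κ)
      (P := fun f t => ∃ α, α ∈ ι ∧ (∀ n, n ∈ (om : M) → ap e (ap f n) ∈ S α) ∧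
        (∃ ν, ν ∈ l ∧ Le (ap A α) ν) ∧
        t = op α (ap (ap G α) (lam om fun n => ap e (ap f n))))
      (by simp (maxDischargeDepth := 50) [hSd]) (by
        intro f hf
        obtain ⟨α, hα, h1, h2⟩ := hcov f hf
        refine ⟨_, ?_, α, hα, h1, h2, rfl⟩
        refine op_mem_pd.2 ⟨hα, (mem_fs.1 (hG' α hα h2).1).2 _ ?_⟩
        exact lam_mem_fs (hcd f) h1)
    have h1 : Le (fs (om : M) κ) (pd ι κ) := by
      refine ⟨T, hT, fun f f' hf hf' hff => ?_⟩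
      obtain ⟨α, hα, h1, h2, h3⟩ := hT' f hf
      obtain ⟨α', hα', h1', h2', h3'⟩ := hT' f' hf'
      rw [h3, h3'] at hff
      obtain ⟨rfl, h4⟩ := op_inj.1 hff
      have h5 := (hG' α hα h2).2 _ _ (lam_mem_fs (hcd f) h1) (lam_mem_fs (hcd f') h1') h4
      refine (mem_fs.1 hf).1.ext (mem_fs.1 hf').1 fun n hn => ?_
      refine hei _ _ ((mem_fs.1 hf).2 n hn) ((mem_fs.1 hf').2 n hn) ?_
      have h6 := ap_lam (F := fun n => ap e (ap f n)) (hcd f) hn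
      rw [h5, ap_lam (F := fun n => ap e (ap f' n)) (hcd f') hn] at h6
      exact h6.symm
    exact (h1.trans (Le.pd (Le.refl ι) (Le.of_sb hκι'))).trans (hess hι homι)
  -- the subsets of `κ`
  obtain ⟨D, -, hD⟩ := choice' (a := om) (b := pw (pd (pw κ) κ))
    (P := fun n f => f ∈ fs (pw (ap c n)) κ ∧ Inj f (pw (ap c n)))
    (by simp (maxDischargeDepth := 50)) (by
      intro n hn
      obtain ⟨b, hb, h1⟩ := hsl _ ((mem_fs.1 hc).2 n hn)
      obtain ⟨g, hg, hgi⟩ := h1.trans (Le.of_sb (hκ.sb hb))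
      refine ⟨g, mem_pw.2 fun z hz => ?_, hg, hgi⟩
      obtain ⟨hg1, hg2⟩ := mem_fs.1 hg
      obtain ⟨X, hX, rfl⟩ := hg1.mem_iff.1 hz
      refine op_mem_pd.2 ⟨mem_pw.2 fun y hy => ?_, hg2 X hX⟩
      exact hκ.sb ((mem_fs.1 hc).2 n hn) y (mem_pw.1 hX y hy))
  have hpw : Le (pw κ) (fs (om : M) κ) := by
    have hit : ∀ X n, it X (ap c n) ∈ pw (ap c n) := fun X n =>
      mem_pw.2 fun z hz => (mem_it.1 hz).2
    refine Le.mk (F := fun X => lam om fun n => ap (ap D n) (it X (ap c n)))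
      (by simp (maxDischargeDepth := 50)) ?_ ?_
    · intro X _
      refine lam_mem_fs (by simp (maxDischargeDepth := 50)) fun n hn => ?_
      exact (mem_fs.1 (hD n hn).1).2 _ (hit X n)
    · have hmain : ∀ X Y, X ∈ pw κ → (lam om fun n => ap (ap D n) (it X (ap c n))) =
          (lam om fun n => ap (ap D n) (it Y (ap c n))) → Sb X Y := by
        intro X Y hX hXY x hx
        obtain ⟨n, hn, hxn⟩ := hsup x (mem_pw.1 hX x hx)
        have h1 := ap_lam (F := fun n => ap (ap D n) (it X (ap c n)))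
          (by simp (maxDischargeDepth := 50)) hn
        rw [hXY, ap_lam (by simp (maxDischargeDepth := 50)) hn] at h1
        have h2 := (hD n hn).2 _ _ (hit Y n) (hit X n) h1
        have h3 : x ∈ it X (ap c n) := mem_it.2 ⟨hx, hxn⟩
        rw [← h2] at h3
        exact (mem_it.1 h3).1
      exact fun X Y hX hY hXY => (hmain X Y hX hXY).antisymm (hmain Y X hY hXY.symm)
  exact hpw.trans hfsle

end Pool.Agent.Forc
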