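import Pool.Agent.Forc.Tr
import Pool.Agent.Forc.Coll
import Pool.Agent.Forc.CardB

/-!
# Strong limit cardinals of countable cofinality inside a model of ZFC
-/

universe u

set_option linter.unusedSectionVars false

namespace Pool.Agent.Forc

open Pool.Agent.SigB

variable {M : Type u} [Membership M M] [IsZFC M]

/-- The least ordinal into which the power set of `x` injects. -/
noncomputable def pc (x : M) : M := lst fun β => Le (pw x) β

theorem pc.dt : DT (fun w : Fin 1 → M => pc (w 0)) := by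
  unfold pc
  exact dt_lst (Q := fun (w : Fin 1 → M) β => Le (pw (w 0)) β) (by simp (maxDischargeDepth := 50))

@[simp] theorem dt_pc {n : ℕ} {s : (Fin n → M) → M} (hs : DT s) :
    DT (fun v => pc (s v)) := dt1 pc.dt hs

theorem pc_spec (x : M) : Pool.Agent.SigB.Ord (pc x) ∧ Le (pw x) (pc x) := by
  obtain ⟨κ, hκ, h1, -⟩ := exists_ord (pw x)
  obtain ⟨h2, h3, -⟩ := lst_spec (Q := fun β => Le (pw x) β) (by simp (maxDischargeDepth := 50))
    hκ h1
  exact ⟨h2, h3⟩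

theorem mem_pc {x : M} (hx : Pool.Agent.SigB.Ord x) : x ∈ pc x := by
  obtain ⟨h1, h2⟩ := pc_spec x
  by_contra h
  exact cantor x (h2.mono_right ((hx.not_mem_iff h1).1 h))

/-- Above every ordinal there is a strong limit cardinal of cofinality `ω`. -/
theorem exists_strong {l : M} (hl : Pool.Agent.SigB.Ord l) : ∃ κ c : M, IsCardinal κ ∧ l ∈ κ ∧
    c ∈ fs (om : M) κ ∧ (∀ x, x ∈ κ → ∃ n, n ∈ (om : M) ∧ x ∈ ap c n) ∧
    ∀ a, a ∈ κ → ∃ b, b ∈ κ ∧ Le (pw a) b := by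
  obtain ⟨c, hc, h0, h1⟩ := om_recursion l (G := pc) (by simp)
  have hd : DT (fun w : Fin 1 → M => ap c (w 0)) := by simp (maxDischargeDepth := 50)
  have ho : ∀ n, n ∈ (om : M) → Pool.Agent.SigB.Ord (ap c n) := by
    refine om_ind (P := fun n => Pool.Agent.SigB.Ord (ap c n)) (by simp (maxDischargeDepth := 50))
      (by rw [h0]; exact hl) ?_
    intro n hn _
    rw [h1 n hn]
    exact (pc_spec _).1
  have hmem : ∀ x, x ∈ sU (im om (ap c)) ↔ ∃ n, n ∈ (om : M) ∧ x ∈ ap c n := by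
    intro x
    rw [mem_sU]
    constructor
    · rintro ⟨y, hy, hx⟩
      obtain ⟨n, hn, rfl⟩ := (mem_im hd).1 hy
      exact ⟨n, hn, hx⟩
    · rintro ⟨n, hn, hx⟩
      exact ⟨ap c n, (mem_im hd).2 ⟨n, hn, rfl⟩, hx⟩
  have hcm : ∀ n, n ∈ (om : M) → ap c n ∈ sU (im om (ap c)) := by
    intro n hn
    refine (hmem _).2 ⟨sc n, sc_mem_om hn, ?_⟩
    rw [h1 n hn]
    exact mem_pc (ho n hn)
  have hκ : Pool.Agent.SigB.Ord (sU (im om (ap c))) := by
    refine ord_sU fun y hy => ?_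
    obtain ⟨n, hn, rfl⟩ := (mem_im hd).1 hy
    exact ho n hn
  have hpw : ∀ n, n ∈ (om : M) → Le (pw (ap c n)) (ap c (sc n)) := by
    intro n hn
    rw [h1 n hn]
    exact (pc_spec _).2
  refine ⟨sU (im om (ap c)), c, isCardinal_iff.2 ⟨hκ, ?_⟩, ?_, mem_fs.2 ⟨hc, hcm⟩,
    fun x hx => (hmem x).1 hx, ?_⟩
  · intro ν hν hle
    obtain ⟨n, hn, hνn⟩ := (hmem ν).1 hν
    refine cantor (ap c n) ?_
    refine (hpw n hn).trans ((Le.of_sb (hκ.sb (hcm _ (sc_mem_om hn)))).trans ?_)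
    exact hle.mono_right ((ho n hn).sb hνn)
  · rw [← h0]
    exact hcm em em_mem_om
  · intro a ha
    obtain ⟨n, hn, han⟩ := (hmem a).1 ha
    refine ⟨ap c (sc n), hcm _ (sc_mem_om hn), Le.trans (Le.of_sb ?_) (hpw n hn)⟩
    exact fun s hs => mem_pw.2 ((mem_pw.1 hs).trans ((ho n hn).sb han))

end Pool.Agent.Forc
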