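import Pool.Agent.Forc.Final
import Pool.Agent.Forc.MSideB
import Pool.Agent.Forc.Strong
import Pool.Agent.Forc.Solovay
import Pool.Agent.Forc.Reflect

/-!
# The main theorem: a supercompact cardinal gives a model of CH in which the transformation property
fails
-/

universe u

set_option linter.unusedSectionVars false

namespace Pool.Agent.Forc

open Pool.Agent.SigB Pool.Agent.Frc

/-- What is used about a model with a supercompact cardinal. -/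
theorem groundSC {M : Type u} [Membership M M] [IsZFC M]
    (h : ∃ l : M, ∀ s : M, IsOrdinal s → IsSupercompact l s) :
    ∃ κ s μ w : M, IsCardinal κ ∧ μ ∈ κ ∧ SigB.Ord μ ∧ Sb SigB.om μ ∧
      (∀ e, e ∈ fs (pd s μ) κ →
        ∃ y, Sb y κ ∧ Le y μ ∧ ¬ Le (sp s fun a => ∀ k, k ∈ μ → ap e (op a k) ∈ y) μ) ∧
      SigB.Ord w ∧ (∀ b, b ∈ w → Le b μ) ∧ Le (pw μ) w ∧ Le s (fs (SigB.om : M) κ) := by
  obtain ⟨l, hl⟩ := h
  obtain ⟨hlc, ⟨o, ho, hol⟩, -⟩ := hl SigB.em ord_em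
  rw [isOmega_iff.1 ho] at hol
  obtain ⟨hlo, -⟩ := isCardinal_iff.1 hlc
  obtain ⟨κ, c, hκ, hlκ, hc, hsup, hsl⟩ := exists_strong hlo
  obtain ⟨hκo, hκc⟩ := isCardinal_iff.1 hκ
  have hoκ : (SigB.om : M) ∈ κ := hκo.trans hol hlκ
  obtain ⟨s, hso, hκs, hmem, hsc, -⟩ := exists_succ hκo (hκo.sb hoκ)
  have hsκ : ∀ a, a ∈ s → Le a κ := fun a ha => (hmem a (hso.mem ha)).1 ha
  have hs : IsSuccCardinal s κ :=
    isSuccCardinal_iff.2 ⟨isCardinal_iff.2 ⟨hso, hsc⟩, hκs, hsκ⟩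
  obtain ⟨-, -, q, u, hq, hu⟩ := hl s hso
  have hU := IsNormalFine.scu hq hu
  have hpw : Le (pw κ) s :=
    solovay hU hlo hol hκo hlκ hc hsup hsl hso hκs hsc hsκ
  obtain ⟨μ, w, hμκ, hμo, hoμ, hS, hwo, -, -, hw, -, hpw', heps⟩ :=
    ground' hκ hc hsup hsl hlκ hlc hol hs hU (hU.pw_le hpw) (hU.it_le (hso.sb hκs) hsκ hso)
  exact ⟨κ, s, μ, w, hκ, hμκ, hμo, hoμ, hS, hwo, hw, hpw', heps⟩

/-- The main theorem. -/
theorem mainSC (M : Type u) [Membership M M] [IsZFC M]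
    (h : ∃ l : M, ∀ s : M, IsOrdinal s → IsSupercompact l s) :
    ∃ (N : Type u) (_ : Membership N N), Concl N := by
  obtain ⟨M₀, i₀, iz₀, hc, h₀⟩ := loewSC M h
  obtain ⟨κ, s, μ, w, hκ, hμκ, hμo, hoμ, hS, hwo, hw, hpw, heps⟩ := groundSC h₀
  exact collapse hκ hμκ hμo hoμ hS hwo hw hpw heps

end Pool.Agent.Forc
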