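import Pool.Agent.Forc.Gen

/-!
# The forcing relation for formulas and the truth lemma
-/

universe u

set_option linter.unusedSectionVars false

namespace Pool.Agent.Forc

open Pool.Agent.SigB

variable {M : Type u} [Membership M M] [IsZFC M]

/-- The forcing relation: `p` forces `φ` of the names `v`. -/
def FN.Fc (F : FN M) : ∀ {n : ℕ}, Fml M n → M → (Fin n → M) → Prop
  | _, .mem s t, p, v => F.Mem (Sum.elim v id s) (Sum.elim v id t) p
  | _, .eq s t, p, v => F.Eq (Sum.elim v id s) (Sum.elim v id t) p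
  | _, .neg φ, p, v => ∀ q, F.L q p → ¬ F.Fc φ q v
  | _, .and φ ψ, p, v => F.Fc φ p v ∧ F.Fc ψ p v
  | _, .ex φ, p, v => ∀ q, F.L q p → ∃ q', F.L q' q ∧ ∃ x, F.Fc φ q' (Fin.cons x v)

theorem dt_elim {n : ℕ} (s : Fin n ⊕ M) :
    DT (fun w : Fin (n + 1) → M => Sum.elim (fun i => w i.succ) id s) := by
  rcases s with i | a
  · exact DT.var i.succ
  · exact DT.const a

/-- The forcing relation is definable. -/
theorem FN.Fc_dfn (F : FN M) : ∀ {n : ℕ} (φ : Fml M n),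
    Dfn (fun w : Fin (n + 1) → M => F.Fc φ (w 0) (fun i => w i.succ))
  | _, .mem s t => by
    show Dfn (fun w : Fin _ → M => F.Mem (Sum.elim (fun i => w i.succ) id s)
      (Sum.elim (fun i => w i.succ) id t) (w 0))
    exact dfn_Mem F (dt_elim s) (dt_elim t) (DT.var 0)
  | _, .eq s t => by
    show Dfn (fun w : Fin _ → M => F.Eq (Sum.elim (fun i => w i.succ) id s)
      (Sum.elim (fun i => w i.succ) id t) (w 0))
    exact dfn_Eq F (dt_elim s) (dt_elim t) (DT.var 0)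
  | n, .neg φ => by
    have ih := F.Fc_dfn φ
    refine Dfn.all (P := fun (w : Fin (n + 1) → M) q => F.L q (w 0) →
      ¬ F.Fc φ q (fun i => w i.succ)) (Dfn.imp (dfn_L F (DT.var 0) (DT.var _)) (Dfn.not ?_))
    refine (ih.ren (m := n + 2) (Fin.cases 0 fun i => i.succ.succ)).congr fun w => ?_
    exact Iff.rfl
  | _, .and φ ψ => (F.Fc_dfn φ).and (F.Fc_dfn ψ)
  | n, .ex φ => by
    have ih := F.Fc_dfn φ
    refine Dfn.all (P := fun (w : Fin (n + 1) → M) q => F.L q (w 0) →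
      ∃ q', F.L q' q ∧ ∃ x, F.Fc φ q' (Fin.cons x fun i => w i.succ))
      (Dfn.imp (dfn_L F (DT.var 0) (DT.var _)) ?_)
    refine Dfn.ex (P := fun (w : Fin (n + 2) → M) q' => F.L q' (w 0) ∧
      ∃ x, F.Fc φ q' (Fin.cons x fun i => w i.succ.succ))
      (Dfn.and (dfn_L F (DT.var 0) (DT.var _)) ?_)
    refine Dfn.ex (P := fun (w : Fin (n + 3) → M) x =>
      F.Fc φ (w 0) (Fin.cons x fun i => w i.succ.succ.succ)) ?_
    refine (ih.ren (m := n + 4) (Fin.cases 1 (Fin.cases 0 fun i => i.succ.succ.succ.succ))).congr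
      fun w => ?_
    have h : (fun i : Fin (n + 1) => w ((Fin.cases 1 (Fin.cases 0 fun i =>
        i.succ.succ.succ.succ) : Fin (n + 2) → Fin (n + 4)) i.succ)) =
        (Fin.cons (w 0) fun i => w i.succ.succ.succ.succ : Fin (n + 1) → M) := by
      funext i
      refine Fin.cases ?_ (fun i => ?_) i <;> rfl
    show F.Fc φ (w 1) (fun i : Fin (n + 1) => w ((Fin.cases 1 (Fin.cases 0 fun i =>
        i.succ.succ.succ.succ) : Fin (n + 2) → Fin (n + 4)) i.succ)) ↔ _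
    rw [h]
    exact Iff.rfl

theorem FN.Fc_ex_dfn (F : FN M) {n : ℕ} (φ : Fml M (n + 1)) :
    Dfn (fun w : Fin (n + 1) → M => ∃ x, F.Fc φ (w 0) (Fin.cons x fun i => w i.succ)) := by
  refine Dfn.ex (P := fun (w : Fin (n + 1) → M) x =>
    F.Fc φ (w 0) (Fin.cons x fun i => w i.succ)) ?_
  refine ((F.Fc_dfn φ).ren (m := n + 2) (Fin.cases 1 (Fin.cases 0 fun i =>
    i.succ.succ))).congr fun w => ?_
  have h : (fun i : Fin (n + 1) => w ((Fin.cases 1 (Fin.cases 0 fun i =>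
      i.succ.succ) : Fin (n + 2) → Fin (n + 2)) i.succ)) =
      (Fin.cons (w 0) fun i => w i.succ.succ : Fin (n + 1) → M) := by
    funext i
    refine Fin.cases ?_ (fun i => ?_) i <;> rfl
  show F.Fc φ (w 1) (fun i : Fin (n + 1) => w ((Fin.cases 1 (Fin.cases 0 fun i =>
      i.succ.succ) : Fin (n + 2) → Fin (n + 2)) i.succ)) ↔ _
  rw [h]
  exact Iff.rfl

/-- Substitution of parameters for all variables but the first. -/
theorem dfn_param : ∀ (n : ℕ) (P : M → (Fin n → M) → Prop),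
    Dfn (fun w : Fin (n + 1) → M => P (w 0) (fun i => w i.succ)) → ∀ v : Fin n → M,
    Dfn (fun w : Fin 1 → M => P (w 0) v) := by
  intro n
  induction n with
  | zero =>
    intro P hP v
    refine hP.congr fun w => ?_
    have : (fun i : Fin 0 => w i.succ) = v := Subsingleton.elim _ _
    rw [this]
  | succ n ih =>
    intro P hP v
    have h5 : Dfn (fun w : Fin (n + 2) → M => P (w 1)
        (Fin.snoc (fun i : Fin n => w i.succ.succ) (w 0))) := by
      refine (hP.ren (m := n + 2) (Fin.cases 1 (Fin.snoc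
        (fun i : Fin n => i.succ.succ) 0))).congr fun w => ?_
      have : (fun i : Fin (n + 1) => w ((Fin.cases 1 (Fin.snoc
          (fun i : Fin n => i.succ.succ) 0 : Fin (n + 1) → Fin (n + 2)) :
          Fin (n + 2) → Fin (n + 2)) i.succ)) =
          (Fin.snoc (fun i : Fin n => w i.succ.succ) (w 0) : Fin (n + 1) → M) := by
        funext i
        show w ((Fin.snoc (fun i : Fin n => i.succ.succ) 0 : Fin (n + 1) → Fin (n + 2)) i) = _
        refine Fin.lastCases ?_ (fun i => ?_) i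
        · rw [Fin.snoc_last, Fin.snoc_last]
        · rw [Fin.snoc_castSucc, Fin.snoc_castSucc]
      show P (w 1) (fun i : Fin (n + 1) => w ((Fin.cases 1 (Fin.snoc
          (fun i : Fin n => i.succ.succ) 0 : Fin (n + 1) → Fin (n + 2)) :
          Fin (n + 2) → Fin (n + 2)) i.succ)) ↔ _
      rw [this]
    have h6 := Dfn.sub (P := fun (w : Fin (n + 1) → M) z => P (w 0)
      (Fin.snoc (fun i : Fin n => w i.succ) z)) h5 (DT.const (v (Fin.last n)))
    have h4 := ih (fun p u => P p (Fin.snoc u (v (Fin.last n)))) h6 (Fin.init v)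
    refine h4.congr fun w => ?_
    rw [Fin.snoc_init_self]

variable {F : FN M} {G : Set M}

theorem Fc_mono (hF : F.Ok) : ∀ {n : ℕ} (φ : Fml M n) {p q : M} {v : Fin n → M},
    F.Fc φ p v → F.L q p → F.Fc φ q v
  | _, .mem _ _, _, _, _, h, hq => FN.Mem.mono hF h hq
  | _, .eq _ _, _, _, _, h, hq => FN.Eq.mono hF h hq
  | _, .neg _, _, _, _, h, hq => fun r hr => h r (hF.trans _ _ _ hr hq)
  | _, .and φ ψ, _, _, _, h, hq => ⟨Fc_mono hF φ h.1 hq, Fc_mono hF ψ h.2 hq⟩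
  | _, .ex _, _, _, _, h, hq => fun r hr => h r (hF.trans _ _ _ hr hq)

theorem Fc_of_dense (hF : F.Ok) : ∀ {n : ℕ} (φ : Fml M n) {p : M} {v : Fin n → M},
    (∀ q, F.L q p → ∃ q', F.L q' q ∧ F.Fc φ q' v) → F.Fc φ p v
  | _, .mem _ _, _, _, h => FN.mem_of_dense hF h
  | _, .eq _ _, _, _, h => FN.eq_of_dense hF h
  | _, .neg φ, _, _, h => fun r hr hφ => by
    obtain ⟨q', hq', h1⟩ := h r hr
    exact h1 q' (hF.refl _ (hF.left _ _ hq')) (Fc_mono hF φ hφ hq')
  | _, .and φ ψ, _, _, h =>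
    ⟨Fc_of_dense hF φ fun q hq => (h q hq).imp fun q' h' => ⟨h'.1, h'.2.1⟩,
      Fc_of_dense hF ψ fun q hq => (h q hq).imp fun q' h' => ⟨h'.1, h'.2.2⟩⟩
  | _, .ex _, _, _, h => fun r hr => by
    obtain ⟨q', hq', h1⟩ := h r hr
    obtain ⟨q₂, hq₂, h2⟩ := h1 q' (hF.refl _ (hF.left _ _ hq'))
    exact ⟨q₂, hF.trans _ _ _ hq₂ hq', h2⟩

end Pool.Agent.Forc

namespace Pool.Agent.SigB

/-- The formula with the parameters replaced by their images. -/
def Fml.mp {M N : Type*} (f : M → N) : ∀ {n : ℕ}, Fml M n → Fml N n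
  | _, .mem s t => .mem (Sum.map id f s) (Sum.map id f t)
  | _, .eq s t => .eq (Sum.map id f s) (Sum.map id f t)
  | _, .neg φ => .neg (Fml.mp f φ)
  | _, .and φ ψ => .and (Fml.mp f φ) (Fml.mp f ψ)
  | _, .ex φ => .ex (Fml.mp f φ)

theorem Fml.exists_mp {M N : Type*} {f : M → N} (hf : Function.Surjective f) :
    ∀ {n : ℕ} (φ : Fml N n), ∃ ψ : Fml M n, Fml.mp f ψ = φ
  | n, .mem s t => by
    have hs : ∀ s : Fin n ⊕ N, ∃ s' : Fin n ⊕ M, Sum.map id f s' = s := by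
      rintro (i | a)
      · exact ⟨.inl i, rfl⟩
      · obtain ⟨b, rfl⟩ := hf a
        exact ⟨.inr b, rfl⟩
    obtain ⟨s', rfl⟩ := hs s
    obtain ⟨t', rfl⟩ := hs t
    exact ⟨.mem s' t', rfl⟩
  | n, .eq s t => by
    have hs : ∀ s : Fin n ⊕ N, ∃ s' : Fin n ⊕ M, Sum.map id f s' = s := by
      rintro (i | a)
      · exact ⟨.inl i, rfl⟩
      · obtain ⟨b, rfl⟩ := hf a
        exact ⟨.inr b, rfl⟩
    obtain ⟨s', rfl⟩ := hs s
    obtain ⟨t', rfl⟩ := hs t
    exact ⟨.eq s' t', rfl⟩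
  | _, .neg φ => by
    obtain ⟨ψ, rfl⟩ := Fml.exists_mp hf φ
    exact ⟨.neg ψ, rfl⟩
  | _, .and φ φ' => by
    obtain ⟨ψ, rfl⟩ := Fml.exists_mp hf φ
    obtain ⟨ψ', rfl⟩ := Fml.exists_mp hf φ'
    exact ⟨.and ψ ψ', rfl⟩
  | _, .ex φ => by
    obtain ⟨ψ, rfl⟩ := Fml.exists_mp hf φ
    exact ⟨.ex ψ, rfl⟩

end Pool.Agent.SigB

namespace Pool.Agent.Forc

open Pool.Agent.SigB

variable {M : Type u} [Membership M M] [IsZFC M] {F : FN M} {G : Set M}

theorem elim_nm {n : ℕ} (v : Fin n → M) (s : Fin n ⊕ M) :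
    Sum.elim (fun i => nm F G (v i)) id (Sum.map id (nm F G) s) = nm F G (Sum.elim v id s) := by
  rcases s with i | a <;> rfl

theorem cons_nm {n : ℕ} (x : M) (v : Fin n → M) :
    (Fin.cons (nm F G x) (fun i => nm F G (v i)) : Fin (n + 1) → Ext F G) =
      fun i => nm F G ((Fin.cons x v : Fin (n + 1) → M) i) := by
  funext i
  refine Fin.cases ?_ (fun i => ?_) i <;> rfl

/-- **The truth lemma.** -/
theorem truth (hG : Gen F G) (hF : F.Ok) : ∀ {n : ℕ} (φ : Fml M n) (v : Fin n → M),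
    (Fml.mp (nm F G) φ).Sat (fun i => nm F G (v i)) ↔ ∃ p, G p ∧ F.Fc φ p v
  | _, .mem s t, v => by
    show Sum.elim (fun i => nm F G (v i)) id (Sum.map id (nm F G) s) ∈
      Sum.elim (fun i => nm F G (v i)) id (Sum.map id (nm F G) t) ↔ _
    rw [elim_nm, elim_nm, nm_mem hG hF]
    exact Iff.rfl
  | _, .eq s t, v => by
    show Sum.elim (fun i => nm F G (v i)) id (Sum.map id (nm F G) s) =
      Sum.elim (fun i => nm F G (v i)) id (Sum.map id (nm F G) t) ↔ _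
    rw [elim_nm, elim_nm, nm_eq hG hF]
    exact Iff.rfl
  | _, .neg φ, v => by
    show ¬ (Fml.mp (nm F G) φ).Sat (fun i => nm F G (v i)) ↔ _
    rw [truth hG hF φ v]
    constructor
    · intro h
      refine hG.decide hF (S := fun p => F.Fc φ p v) ?_ fun p hp h1 => h ⟨p, hp, h1⟩
      exact dfn_param _ _ (F.Fc_dfn φ) v
    · rintro ⟨p, hp, h⟩ ⟨q, hq, h1⟩
      obtain ⟨r, hr, hrp, hrq⟩ := hG.dir p q hp hq
      exact h r hrp (Fc_mono hF φ h1 hrq)
  | _, .and φ ψ, v => by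
    show (Fml.mp (nm F G) φ).Sat (fun i => nm F G (v i)) ∧
      (Fml.mp (nm F G) ψ).Sat (fun i => nm F G (v i)) ↔ _
    rw [truth hG hF φ v, truth hG hF ψ v]
    constructor
    · rintro ⟨⟨p, hp, h1⟩, q, hq, h2⟩
      obtain ⟨r, hr, hrp, hrq⟩ := hG.dir p q hp hq
      exact ⟨r, hr, Fc_mono hF φ h1 hrp, Fc_mono hF ψ h2 hrq⟩
    · rintro ⟨p, hp, h1, h2⟩
      exact ⟨⟨p, hp, h1⟩, p, hp, h2⟩
  | _, .ex φ, v => by
    show (∃ x : Ext F G, (Fml.mp (nm F G) φ).Sat (Fin.cons x (fun i => nm F G (v i)))) ↔ _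
    constructor
    · rintro ⟨x, hx⟩
      obtain ⟨s, rfl⟩ := x.surj
      rw [cons_nm, truth hG hF φ] at hx
      obtain ⟨p, hp, h⟩ := hx
      exact ⟨p, hp, fun q hq => ⟨q, hF.refl _ (hF.left _ _ hq), s, Fc_mono hF φ h hq⟩⟩
    · rintro ⟨p, hp, h⟩
      obtain ⟨r, hr, _, x, hx⟩ := hG.dense hF (S := fun r => ∃ x, F.Fc φ r (Fin.cons x v))
        (dfn_param _ (fun r v => ∃ x, F.Fc φ r (Fin.cons x v)) (FN.Fc_ex_dfn F φ) v) hp h
      refine ⟨nm F G x, ?_⟩
      rw [cons_nm, truth hG hF φ]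
      exact ⟨r, hr, hx⟩

end Pool.Agent.Forc
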