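import Pool.Agent.Forc.Atom

/-!
# Generic filters and the extension

The extension is the quotient of the class of names by the equalities forced by a condition in
the generic filter `G`.
-/

universe u

set_option linter.unusedSectionVars false

namespace Pool.Agent.Forc

open Pool.Agent.SigB

variable {M : Type u} [Membership M M] [IsZFC M]

/-- `D` is dense in `F`. -/
def FN.Dense (F : FN M) (D : M) : Prop := ∀ p, p ∈ F.P → ∃ q, F.L q p ∧ q ∈ D

/-- `G` is an `M`-generic filter on `F`. -/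
structure Gen (F : FN M) (G : Set M) : Prop where
  sub : ∀ p, G p → p ∈ F.P
  up : ∀ p q, G p → F.L p q → G q
  dir : ∀ p q, G p → G q → ∃ r, G r ∧ F.L r p ∧ F.L r q
  one : G F.one
  gen : ∀ D, F.Dense D → ∃ p, G p ∧ p ∈ D

/-- Generic filters over countable models exist. -/
theorem exists_gen [Countable M] {F : FN M} (hF : F.Ok) (p₀ : M) (hp₀ : p₀ ∈ F.P) :
    ∃ G : Set M, Gen F G ∧ G p₀ := by
  classical
  have : Nonempty M := ⟨p₀⟩
  obtain ⟨e, he⟩ := exists_surjective_nat M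
  -- the next condition
  let nx : M → M → M := fun D p =>
    if h : ∃ q, F.L q p ∧ q ∈ D then h.choose else p
  have hnx : ∀ D p, p ∈ F.P → F.L (nx D p) p := by
    intro D p hp
    by_cases h : ∃ q, F.L q p ∧ q ∈ D
    · simp only [nx, dif_pos h]; exact h.choose_spec.1
    · simp only [nx, dif_neg h]; exact hF.refl _ hp
  let s : ℕ → M := fun n => Nat.rec p₀ (fun k p => nx (e k) p) n
  have hs0 : s 0 = p₀ := rfl
  have hs1 : ∀ k, s (k + 1) = nx (e k) (s k) := fun _ => rfl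
  have hsP : ∀ k, s k ∈ F.P := by
    intro k
    induction k with
    | zero => exact hp₀
    | succ k ih => rw [hs1]; exact hF.left _ _ (hnx _ _ ih)
  have hmono : ∀ k l, k ≤ l → F.L (s l) (s k) := by
    intro k l hkl
    induction hkl with
    | refl => exact hF.refl _ (hsP _)
    | step _ ih =>
      refine hF.trans _ _ _ ?_ ih
      rw [hs1]; exact hnx _ _ (hsP _)
  refine ⟨{p | ∃ k, F.L (s k) p}, ⟨?_, ?_, ?_, ?_, ?_⟩, 0, hF.refl _ hp₀⟩
  · rintro p ⟨k, hk⟩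
    exact hF.right _ _ hk
  · rintro p q ⟨k, hk⟩ hpq
    exact ⟨k, hF.trans _ _ _ hk hpq⟩
  · rintro p q ⟨k, hk⟩ ⟨l, hl⟩
    refine ⟨s (max k l), ⟨_, hF.refl _ (hsP _)⟩, ?_, ?_⟩
    · exact hF.trans _ _ _ (hmono _ _ (le_max_left _ _)) hk
    · exact hF.trans _ _ _ (hmono _ _ (le_max_right _ _)) hl
  · exact ⟨0, hF.top _ (hsP 0)⟩
  · intro D hD
    obtain ⟨k, rfl⟩ := he D
    refine ⟨s (k + 1), ⟨k + 1, hF.refl _ (hsP (k + 1))⟩, ?_⟩
    have h := hD (s k) (hsP k)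
    rw [hs1]
    simp only [nx, dif_pos h]
    exact h.choose_spec.2

section

variable {F : FN M} {G : Set M}

/-- Genericity for definable predicates dense below a condition of `G`. -/
theorem Gen.dense (hG : Gen F G) (hF : F.Ok) {S : M → Prop}
    (hS : Dfn (fun w : Fin 1 → M => S (w 0))) {p : M} (hp : G p)
    (h : ∀ q, F.L q p → ∃ r, F.L r q ∧ S r) : ∃ r, G r ∧ F.L r p ∧ S r := by
  let D : M := sp F.P fun q => (F.L q p ∧ S q) ∨ ∀ r, ¬ (F.L r q ∧ F.L r p)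
  have hD : ∀ q, q ∈ D ↔ q ∈ F.P ∧ ((F.L q p ∧ S q) ∨ ∀ r, ¬ (F.L r q ∧ F.L r p)) := by
    intro q
    refine mem_sp ?_
    refine Dfn.or (Dfn.and (by simp) hS) (by simp (maxDischargeDepth := 50))
  obtain ⟨r, hr, hrD⟩ := hG.gen D (by
    intro q hq
    by_cases hc : ∃ r, F.L r q ∧ F.L r p
    · obtain ⟨r, hrq, hrp⟩ := hc
      obtain ⟨r', hr', hS'⟩ := h r hrp
      exact ⟨r', hF.trans _ _ _ hr' hrq, (hD _).2 ⟨hF.left _ _ hr',
        Or.inl ⟨hF.trans _ _ _ hr' hrp, hS'⟩⟩⟩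
    · push Not at hc
      exact ⟨q, hF.refl _ hq, (hD _).2 ⟨hq, Or.inr fun r hr => hc r hr.1 hr.2⟩⟩)
  rcases ((hD r).1 hrD).2 with h1 | h1
  · exact ⟨r, hr, h1⟩
  · obtain ⟨r', hr', h2, h3⟩ := hG.dir r p hr hp
    exact absurd ⟨h2, h3⟩ (h1 r')

/-- A name for a member can be found in the name of the set. -/
theorem Gen.mem_iff (hG : Gen F G) (hF : F.Ok) {s t : M} :
    (∃ p, G p ∧ F.Mem s t p) ↔ ∃ w r, op w r ∈ t ∧ G r ∧ ∃ p, G p ∧ F.Eq s w p := by
  constructor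
  · rintro ⟨p, hp, hm⟩
    obtain ⟨r, hr, _, w, r', hw, hr', he⟩ := hG.dense hF
      (S := fun q => ∃ w r', op w r' ∈ t ∧ F.L q r' ∧ F.Eq s w q)
      (by simp (maxDischargeDepth := 50)) hp hm
    exact ⟨w, r', hw, hG.up _ _ hr hr', r, hr, he⟩
  · rintro ⟨w, r, hw, hr, p, hp, he⟩
    obtain ⟨q, hq, hqr, hqp⟩ := hG.dir r p hr hp
    exact ⟨q, hq, (FN.mem_of_op hF hw hqr).congr_left hF (he.mono hF hqp).symm⟩

end

/-- The relation between names of the same element of the extension. -/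
def Same (F : FN M) (G : Set M) (s t : M) : Prop := ∃ p, G p ∧ F.Eq s t p

/-- The generic extension. -/
def Ext (F : FN M) (G : Set M) : Type u := Quot (Same F G)

/-- The element named by `s`. -/
def nm (F : FN M) (G : Set M) (s : M) : Ext F G := Quot.mk _ s

instance (F : FN M) (G : Set M) : Membership (Ext F G) (Ext F G) where
  mem y x := ∃ s t, nm F G s = x ∧ nm F G t = y ∧ ∃ p, G p ∧ F.Mem s t p

section

variable {F : FN M} {G : Set M}

theorem Ext.surj (x : Ext F G) : ∃ s, nm F G s = x := Quot.exists_rep x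

theorem same_equiv (hG : Gen F G) (hF : F.Ok) : Equivalence (Same F G) where
  refl s := ⟨F.one, hG.one, FN.eq_refl hF _ _⟩
  symm := fun ⟨p, hp, h⟩ => ⟨p, hp, h.symm⟩
  trans := fun ⟨p, hp, h⟩ ⟨q, hq, h'⟩ => by
    obtain ⟨r, hr, hrp, hrq⟩ := hG.dir p q hp hq
    exact ⟨r, hr, (h.mono hF hrp).trans hF (h'.mono hF hrq)⟩

theorem nm_eq (hG : Gen F G) (hF : F.Ok) {s t : M} :
    nm F G s = nm F G t ↔ ∃ p, G p ∧ F.Eq s t p := by
  constructor
  · intro h
    have h1 := Quot.eqvGen_exact h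
    exact (same_equiv hG hF).eqvGen_iff.1 h1
  · intro h
    exact Quot.sound h

theorem nm_mem (hG : Gen F G) (hF : F.Ok) {s t : M} :
    nm F G s ∈ nm F G t ↔ ∃ p, G p ∧ F.Mem s t p := by
  constructor
  · rintro ⟨s', t', hs, ht, p, hp, hm⟩
    obtain ⟨q, hq, he⟩ := (nm_eq hG hF).1 hs
    obtain ⟨q', hq', he'⟩ := (nm_eq hG hF).1 ht
    obtain ⟨r, hr, h1, h2⟩ := hG.dir _ _ hp hq
    obtain ⟨r', hr', h3, h4⟩ := hG.dir _ _ hr hq'
    exact ⟨r', hr', ((hm.mono hF (hF.trans _ _ _ h3 h1)).congr_left hF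
      (he.mono hF (hF.trans _ _ _ h3 h2))).congr_right hF (he'.mono hF h4)⟩
  · intro h
    exact ⟨s, t, rfl, rfl, h⟩

theorem nm_mem' (hG : Gen F G) (hF : F.Ok) {s t : M} :
    nm F G s ∈ nm F G t ↔ ∃ w r, op w r ∈ t ∧ G r ∧ nm F G s = nm F G w := by
  rw [nm_mem hG hF, hG.mem_iff hF]
  simp only [nm_eq hG hF]

/-- The elements of `nm F G t`. -/
theorem mem_nm (hG : Gen F G) (hF : F.Ok) {x : Ext F G} {t : M} :
    x ∈ nm F G t ↔ ∃ w r, op w r ∈ t ∧ G r ∧ x = nm F G w := by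
  obtain ⟨s, rfl⟩ := x.surj
  exact nm_mem' hG hF

/-- A condition of `G` decides: if no condition of `G` forces `S`, some condition of `G` has no
extension forcing `S`. -/
theorem Gen.decide (hG : Gen F G) (hF : F.Ok) {S : M → Prop}
    (hS : Dfn (fun w : Fin 1 → M => S (w 0))) (h : ∀ p, G p → ¬ S p) :
    ∃ p, G p ∧ ∀ q, F.L q p → ¬ S q := by
  obtain ⟨r, hr, _, h1⟩ := hG.dense hF (S := fun q => S q ∨ ∀ r, F.L r q → ¬ S r)
    (Dfn.or hS (Dfn.all (P := fun (v : Fin 1 → M) r => F.L r (v 0) → ¬ S r)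
      (Dfn.imp (by simp) (Dfn.not (dfn1 hS (DT.var 0)))))) hG.one (by
    intro q hq
    by_cases hc : ∃ r, F.L r q ∧ S r
    · obtain ⟨r, hr, hS'⟩ := hc
      exact ⟨r, hr, Or.inl hS'⟩
    · push Not at hc
      exact ⟨q, hF.refl _ (hF.left _ _ hq), Or.inr hc⟩)
  rcases h1 with h1 | h1
  · exact absurd h1 (h r hr)
  · exact ⟨r, hr, h1⟩

end

end Pool.Agent.Forc
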