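import Pool.Agent.Forc.CardB

/-!
# Auxiliary facts for Solovay's theorem
-/

universe u

set_option linter.unusedSectionVars false

namespace Pool.Agent.Forc

open Pool.Agent.SigB Pool.Agent.Frc

variable {M : Type u} [Membership M M] [IsZFC M]

/-- A sequence which grows faster than a given function. -/
theorem exists_gaps {i H : M} (hi : SigB.Ord i) (hlim : ∀ a, a ∈ i → sc a ∈ i)
    (hreg : ∀ b f, b ∈ i → f ∈ fs b i → ∃ g, g ∈ i ∧ ∀ x, x ∈ b → ap f x ∈ g)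
    (hH : H ∈ fs i i) : ∃ η, η ∈ fs i i ∧
      ∀ x, x ∈ i → ∀ z, z ∈ x → ap η z ∈ ap η x ∧ ap H (ap η z) ∈ ap η x := by
  let B : M → M := fun y => sc (un y (ap H y))
  have hB : DT (fun w : Fin 1 → M => B (w 0)) := by simp (maxDischargeDepth := 50) [B]
  have hB' : ∀ {n : ℕ} {s : (Fin n → M) → M}, DT s → DT fun v => B (s v) := fun hs => dt1 hB hs
  have hHv := (mem_fs.1 hH).2
  have hBi : ∀ y, y ∈ i → B y ∈ i := by
    intro y hy
    refine hlim _ ?_
    rcases (hi.mem hy).sb_total (hi.mem (hHv y hy)) with h | h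
    · have : un y (ap H y) = ap H y := ext' fun z => by
        rw [mem_un]; exact ⟨fun h' => h'.elim (h z) id, Or.inr⟩
      rw [this]; exact hHv y hy
    · have : un y (ap H y) = y := ext' fun z => by
        rw [mem_un]; exact ⟨fun h' => h'.elim id (h z), Or.inl⟩
      rw [this]; exact hy
  have hyB : ∀ y, y ∈ i → y ∈ B y ∧ ap H y ∈ B y := by
    intro y hy
    have h1 : SigB.Ord (un y (ap H y)) := ord_un (hi.mem hy) (hi.mem (hHv y hy))
    exact ⟨(Ord.mem_sc_iff (hi.mem hy) h1).2 fun z hz => mem_un.2 (Or.inl hz),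
      (Ord.mem_sc_iff (hi.mem (hHv y hy)) h1).2 fun z hz => mem_un.2 (Or.inr hz)⟩
  obtain ⟨η, hη, hηr⟩ := ord_recursion hi (G := fun x h => sU (im x fun z => B (ap h z))) (by
    refine dt_sU (dt_im (F := fun (w : Fin 2 → M) z => B (ap (w 1) z)) (DT.var 0) ?_)
    exact hB' (dt_ap (DT.var 2) (DT.var 0)))
  have hval : ∀ x, x ∈ i → ∀ w, w ∈ ap η x ↔ ∃ z, z ∈ x ∧ w ∈ B (ap η z) := by
    intro x hx w
    have hd : DT (fun w : Fin 1 → M => B (ap (rs η x) (w 0))) := by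
      simp (maxDischargeDepth := 50) [hB']
    rw [hηr x hx, mem_sU]
    constructor
    · rintro ⟨u, hu, hw⟩
      obtain ⟨z, hz, rfl⟩ := (mem_im hd).1 hu
      rw [ap_rs hη (hi.sb hx) hz] at hw
      exact ⟨z, hz, hw⟩
    · rintro ⟨z, hz, hw⟩
      refine ⟨_, (mem_im hd).2 ⟨z, hz, rfl⟩, ?_⟩
      rwa [ap_rs hη (hi.sb hx) hz]
  have hmem : ∀ x, x ∈ i → ap η x ∈ i := by
    refine hi.ind (P := fun x => ap η x ∈ i) (by simp (maxDischargeDepth := 50)) ?_
    intro x hx ih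
    have hd : DT (fun w : Fin 1 → M => B (ap η (w 0))) := by
      simp (maxDischargeDepth := 50) [hB']
    obtain ⟨g, hg, hgb⟩ := hreg x (lam x fun z => B (ap η z)) hx
      (lam_mem_fs hd fun z hz => hBi _ (ih z hz))
    have hsub : Sb (ap η x) g := by
      intro w hw
      obtain ⟨z, hz, hw⟩ := (hval x hx w).1 hw
      have h1 := hgb z hz
      rw [ap_lam hd hz] at h1
      exact (hi.mem hg).trans hw h1
    have hord : SigB.Ord (ap η x) := by
      refine ord_mk (fun y hy z hz => ?_) fun y hy => (hi.mem hg).mem (hsub y hy)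
      obtain ⟨u, hu, hy⟩ := (hval x hx y).1 hy
      exact (hval x hx z).2 ⟨u, hu, (hi.mem (hBi _ (ih u hu))).trans hz hy⟩
    exact hi.mem_of_sb_of_mem hord (hi.mem hg) hsub hg
  refine ⟨η, mem_fs.2 ⟨hη, hmem⟩, fun x hx z hz => ?_⟩
  have h1 := hyB _ (hmem z (hi.trans hz hx))
  exact ⟨(hval x hx _).2 ⟨z, hz, h1.1⟩, (hval x hx _).2 ⟨z, hz, h1.2⟩⟩

/-- The sequences in a union of `ι` many small sets. -/
theorem fs_om_le {i k l F : M} (hi : SigB.Ord i) (hoi : Sb om i) (hki : Sb k i)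
    (hl : ∀ ν, ν ∈ l → Le (fs om ν) k) (hF : ∀ a, a ∈ i → ∃ ν, ν ∈ l ∧ Le (ap F a) ν)
    (hc : ∀ g, g ∈ fs om i → ∃ a, a ∈ i ∧ ∀ n, n ∈ (om : M) → ap g n ∈ ap F a) :
    Le (fs om i) i := by
  -- injections of the sets of sequences
  have hseq : ∀ a, a ∈ i → Le (fs om (ap F a)) k := by
    intro a ha
    obtain ⟨ν, hν, j, hj, hji⟩ := hF a ha
    refine Le.trans ?_ (hl ν hν)
    have hd : ∀ g : M, DT (fun w : Fin 1 → M => ap j (ap g (w 0))) := fun g => by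
      simp (maxDischargeDepth := 50)
    refine Le.mk (F := fun g => lam om fun n => ap j (ap g n)) (by
      simp (maxDischargeDepth := 50)) (fun g hg => lam_mem_fs (hd g) fun n hn =>
        (mem_fs.1 hj).2 _ ((mem_fs.1 hg).2 n hn)) ?_
    intro g g' hg hg' he
    refine (mem_fs.1 hg).1.ext (mem_fs.1 hg').1 fun n hn => ?_
    refine hji _ _ ((mem_fs.1 hg).2 n hn) ((mem_fs.1 hg').2 n hn) ?_
    have h1 : ap (lam om fun n => ap j (ap g n)) n = ap (lam om fun n => ap j (ap g' n)) n := by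
      rw [he]
    rwa [ap_lam (hd g) hn, ap_lam (hd g') hn] at h1
  obtain ⟨J, -, hJ⟩ := choice' (a := i) (b := pw (pd (pw (pd om (sU (im i (ap F))))) k))
    (P := fun a g => g ∈ fs (fs om (ap F a)) k ∧ Inj g (fs om (ap F a)))
    (by simp (maxDischargeDepth := 50)) (by
      intro a ha
      obtain ⟨g, hg, hgi⟩ := hseq a ha
      refine ⟨g, mem_pw.2 fun z hz => ?_, hg, hgi⟩
      obtain ⟨x, hx, rfl⟩ := (mem_fs.1 hg).1.mem_iff.1 hz
      refine op_mem_pd.2 ⟨mem_pw.2 fun z hz => ?_, (mem_fs.1 hg).2 x hx⟩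
      obtain ⟨n, hn, rfl⟩ := (mem_fs.1 hx).1.mem_iff.1 hz
      exact op_mem_pd.2 ⟨hn, mem_sU.2 ⟨ap F a, (mem_im (by simp)).2 ⟨a, ha, rfl⟩,
        (mem_fs.1 hx).2 n hn⟩⟩)
  obtain ⟨A, hA, hAv⟩ := choice' (a := fs om i) (b := i)
    (P := fun g a => ∀ n, n ∈ (om : M) → ap g n ∈ ap F a) (by simp (maxDischargeDepth := 50)) hc
  refine Le.trans (B := pd i i) ?_ (hess hi hoi)
  refine Le.mk (F := fun g => op (ap A g) (ap (ap J (ap A g)) g))
    (by simp (maxDischargeDepth := 50)) ?_ ?_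
  · intro g hg
    have h1 := (mem_fs.1 hA).2 g hg
    have h2 : g ∈ fs om (ap F (ap A g)) := mem_fs.2 ⟨(mem_fs.1 hg).1, hAv g hg⟩
    exact op_mem_pd.2 ⟨h1, hki _ ((mem_fs.1 (hJ _ h1).1).2 g h2)⟩
  · intro g g' hg hg' he
    obtain ⟨h1, h2⟩ := op_inj.1 he
    have h3 := (mem_fs.1 hA).2 g hg
    have h4 : g ∈ fs om (ap F (ap A g)) := mem_fs.2 ⟨(mem_fs.1 hg).1, hAv g hg⟩
    have h5 : g' ∈ fs om (ap F (ap A g)) := by
      rw [h1]; exact mem_fs.2 ⟨(mem_fs.1 hg').1, hAv g' hg'⟩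
    rw [← h1] at h2
    exact (hJ _ h3).2 g g' h4 h5 h2

/-- If there are at most `ι` sequences in `ι` then there are at most `ι` subsets of `κ`. -/
theorem pw_le_of {i k c : M} (hki : Sb k i) (hk : SigB.Ord k) (hc : c ∈ fs om k)
    (hsup : ∀ x, x ∈ k → ∃ n, n ∈ (om : M) ∧ x ∈ ap c n)
    (hsl : ∀ a, a ∈ k → ∃ b, b ∈ k ∧ Le (pw a) b) (h : Le (fs om i) i) : Le (pw k) i := by
  refine Le.trans ?_ h
  have hcv := (mem_fs.1 hc).2
  obtain ⟨J, -, hJ⟩ := choice' (a := om) (b := pw (pd (pw k) k))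
    (P := fun n g => g ∈ fs (pw (ap c n)) k ∧ Inj g (pw (ap c n)))
    (by simp (maxDischargeDepth := 50)) (by
      intro n hn
      obtain ⟨b, hb, hle⟩ := hsl _ (hcv n hn)
      obtain ⟨g, hg, hgi⟩ := hle.mono_right (hk.sb hb)
      refine ⟨g, mem_pw.2 fun z hz => ?_, hg, hgi⟩
      obtain ⟨x, hx, rfl⟩ := (mem_fs.1 hg).1.mem_iff.1 hz
      exact op_mem_pd.2 ⟨mem_pw.2 fun z hz => hk.sb (hcv n hn) z (mem_pw.1 hx z hz),
        (mem_fs.1 hg).2 x hx⟩)
  have hd : ∀ X : M, DT (fun w : Fin 1 → M => ap (ap J (w 0)) (it X (ap c (w 0)))) := fun X => by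
    simp (maxDischargeDepth := 50)
  have hX : ∀ X n : M, it X (ap c n) ∈ pw (ap c n) := fun X n =>
    mem_pw.2 fun z hz => (mem_it.1 hz).2
  refine Le.mk (F := fun X => lam om fun n => ap (ap J n) (it X (ap c n))) (by
    simp (maxDischargeDepth := 50)) (fun X _ => lam_mem_fs (hd X) fun n hn =>
      hki _ ((mem_fs.1 (hJ n hn).1).2 _ (hX X n))) ?_
  intro X Y hXk hYk he
  have key : ∀ n, n ∈ (om : M) → it X (ap c n) = it Y (ap c n) := by
    intro n hn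
    refine (hJ n hn).2 _ _ (hX X n) (hX Y n) ?_
    have h1 : ap (lam om fun n => ap (ap J n) (it X (ap c n))) n =
        ap (lam om fun n => ap (ap J n) (it Y (ap c n))) n := by rw [he]
    rwa [ap_lam (hd X) hn, ap_lam (hd Y) hn] at h1
  refine ext' fun z => ⟨fun hz => ?_, fun hz => ?_⟩
  · obtain ⟨n, hn, hzn⟩ := hsup z (mem_pw.1 hXk z hz)
    have h1 : z ∈ it X (ap c n) := mem_it.2 ⟨hz, hzn⟩
    rw [key n hn] at h1
    exact (mem_it.1 h1).1
  · obtain ⟨n, hn, hzn⟩ := hsup z (mem_pw.1 hYk z hz)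
    have h1 : z ∈ it Y (ap c n) := mem_it.2 ⟨hz, hzn⟩
    rw [← key n hn] at h1
    exact (mem_it.1 h1).1

end Pool.Agent.Forc
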